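import Mathlib

/-!
# MP_7c50a9_lc, section 4.1: components in monotone families of sets

Pure topology.  `W s` (open) increases with `s`, `K s` (compact) lies between `W s` and `W t` for
`s < t`.  The only local input is `LocConn (W σ) x` for the points `x` of `K σ \ W σ`.
-/

namespace Pool.Agent.QC.S4

open Set Topology Filter

set_option linter.unusedSectionVars false

section Top

variable {E : Type*} [TopologicalSpace E]

/-- `W` has arbitrarily small connected (nonempty) pieces at `x`. -/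
def LocConn (W : Set E) (x : E) : Prop :=
  ∀ U ∈ 𝓝 x, ∃ N : Set E, IsOpen N ∧ x ∈ N ∧ N ⊆ U ∧ IsConnected (W ∩ N)

/-- A monotone family of open sets `W s` and compact sets `K s`, `s₀ ≤ s ≤ s₁`. -/
structure MonoFam (s₀ s₁ : ℝ) (W K : ℝ → Set E) : Prop where
  le : s₀ ≤ s₁
  isOpen : ∀ s ∈ Icc s₀ s₁, IsOpen (W s)
  isCompact : ∀ s ∈ Icc s₀ s₁, IsCompact (K s)
  sub : ∀ s ∈ Icc s₀ s₁, W s ⊆ K s
  strict : ∀ s ∈ Icc s₀ s₁, ∀ t ∈ Icc s₀ s₁, s < t → K s ⊆ W t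
  left : ∀ s ∈ Ioc s₀ s₁, ∀ x ∈ W s, ∃ r ∈ Ico s₀ s, x ∈ K r
  right : ∀ s ∈ Ico s₀ s₁, ∀ x, (∀ r ∈ Ioc s s₁, x ∈ K r) → x ∈ K s

namespace MonoFam

variable {s₀ s₁ : ℝ} {W K : ℝ → Set E}

theorem mono (h : MonoFam s₀ s₁ W K) {s t : ℝ} (hs : s ∈ Icc s₀ s₁) (ht : t ∈ Icc s₀ s₁)
    (hst : s ≤ t) : W s ⊆ W t := by
  rcases hst.eq_or_lt with rfl | hlt
  · exact subset_rfl
  · exact (h.sub s hs).trans (h.strict s hs t ht hlt)

theorem monoK (h : MonoFam s₀ s₁ W K) {s t : ℝ} (hs : s ∈ Icc s₀ s₁) (ht : t ∈ Icc s₀ s₁)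
    (hst : s ≤ t) : K s ⊆ K t := by
  rcases hst.eq_or_lt with rfl | hlt
  · exact subset_rfl
  · exact (h.strict s hs t ht hlt).trans (h.sub t ht)

/-- restriction to a smaller interval -/
theorem restrict (h : MonoFam s₀ s₁ W K) {t₀ t₁ : ℝ} (h0 : s₀ ≤ t₀) (h01 : t₀ ≤ t₁)
    (h1 : t₁ ≤ s₁) : MonoFam t₀ t₁ W K where
  le := h01
  isOpen s hs := h.isOpen s ⟨h0.trans hs.1, hs.2.trans h1⟩
  isCompact s hs := h.isCompact s ⟨h0.trans hs.1, hs.2.trans h1⟩
  sub s hs := h.sub s ⟨h0.trans hs.1, hs.2.trans h1⟩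
  strict s hs t ht hst := h.strict s ⟨h0.trans hs.1, hs.2.trans h1⟩ t
    ⟨h0.trans ht.1, ht.2.trans h1⟩ hst
  left s hs x hx := by
    obtain ⟨r, hr, hxr⟩ := h.left s ⟨h0.trans_lt hs.1, hs.2.trans h1⟩ x hx
    have hrI : r ∈ Icc s₀ s₁ := ⟨hr.1, (hr.2.le.trans hs.2).trans h1⟩
    refine ⟨max r t₀, ⟨le_max_right _ _, max_lt hr.2 hs.1⟩, ?_⟩
    refine h.monoK hrI ⟨hr.1.trans (le_max_left _ _), ?_⟩ (le_max_left _ _) hxr
    exact (max_le (hr.2.le) hs.1.le).trans (hs.2.trans h1)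
  right s hs x hx := by
    refine h.right s ⟨h0.trans hs.1, hs.2.trans_le h1⟩ x fun r hr => ?_
    by_cases hrt : r ≤ t₁
    · exact hx r ⟨hr.1, hrt⟩
    · have := hx t₁ ⟨hs.2, le_rfl⟩
      exact h.monoK ⟨h0.trans h01, h1⟩ ⟨(h0.trans hs.1).trans hr.1.le, hr.2⟩
        (le_of_lt (not_le.mp hrt)) this

end MonoFam

/-- The closure of a component `A` of an open set `W` in a locally connected space meets `W` only
in `A`. -/
theorem mem_of_mem_closure_component [LocallyConnectedSpace E] {W : Set E} (hW : IsOpen W)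
    {a x : E} (hx : x ∈ W) (hcl : x ∈ closure (connectedComponentIn W a)) :
    x ∈ connectedComponentIn W a := by
  have hop : IsOpen (connectedComponentIn W x) := hW.connectedComponentIn
  obtain ⟨y, hy1, hy2⟩ := mem_closure_iff.mp hcl _ hop (mem_connectedComponentIn hx)
  have h1 : connectedComponentIn W x = connectedComponentIn W y := connectedComponentIn_eq hy1
  have h2 : connectedComponentIn W a = connectedComponentIn W y := connectedComponentIn_eq hy2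
  rw [h2, ← h1]
  exact mem_connectedComponentIn hx

/-- Key lemma: if all points of `K \ W` in the closure of the component `A` of `a` are regular
(the exceptional point `v` is not in the closure), then `K` is the disjoint union of the compact
sets `K ∩ closure A` and `K \ closure A`. -/
theorem isClosed_diff_closure [T1Space E] [LocallyConnectedSpace E] {W K : Set E}
    (hW : IsOpen W) (hK : IsClosed K)
    {a : E} (hloc : ∀ x ∈ K \ W, x ∈ closure (connectedComponentIn W a) → LocConn W x)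
    {F : Set E} (hF : F.Finite) (hloc' : ∀ x ∈ K \ W, x ∉ F → LocConn W x)
    (hFA : Disjoint F (closure (connectedComponentIn W a))) :
    IsClosed (K \ closure (connectedComponentIn W a)) := by
  set A := connectedComponentIn W a with hA
  -- the complement is open
  rw [← isOpen_compl_iff]
  rw [isOpen_iff_mem_nhds]
  intro x hx
  by_cases hxK : x ∈ K
  · have hxA : x ∈ closure A := by
      by_contra hcon
      exact hx ⟨hxK, hcon⟩
    by_cases hxW : x ∈ W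
    · have : x ∈ A := mem_of_mem_closure_component hW hxW hxA
      have hAo : IsOpen A := hW.connectedComponentIn
      refine mem_of_superset (hAo.mem_nhds this) ?_
      intro y hy hy'
      exact hy'.2 (subset_closure hy)
    · -- regular boundary point
      have hxF : x ∉ F := fun h => (disjoint_left.mp hFA) h hxA
      have hFc : IsOpen Fᶜ := hF.isClosed.isOpen_compl
      obtain ⟨N, hNo, hxN, hNF, hNc⟩ := hloc x ⟨hxK, hxW⟩ hxA Fᶜ (hFc.mem_nhds hxF)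
      have hNA : W ∩ N ⊆ A := by
        obtain ⟨y, hyN, hyA⟩ := mem_closure_iff.mp hxA N hNo hxN
        have hyW : y ∈ W := connectedComponentIn_subset _ _ hyA
        have h2 : A = connectedComponentIn W y := connectedComponentIn_eq hyA
        rw [h2]
        exact hNc.isPreconnected.subset_connectedComponentIn ⟨hyW, hyN⟩ inter_subset_left
      refine mem_of_superset (hNo.mem_nhds hxN) ?_
      intro y hyN hy
      apply hy.2
      by_cases hyW : y ∈ W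
      · exact subset_closure (hNA ⟨hyW, hyN⟩)
      · have hyF : y ∉ F := hNF hyN
        rw [mem_closure_iff_nhds]
        intro U hU
        obtain ⟨N', hN'o, hyN', hN'U, hN'c⟩ := hloc' y ⟨hy.1, hyW⟩ hyF (U ∩ N)
          (inter_mem hU (hNo.mem_nhds hyN))
        obtain ⟨z, hz⟩ := hN'c.nonempty
        exact ⟨z, (hN'U hz.2).1, hNA ⟨hz.1, (hN'U hz.2).2⟩⟩
  · exact mem_of_superset (hK.isOpen_compl.mem_nhds hxK) fun y hy hy' => hy hy'.1

end Top

section Sep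

variable {E : Type*} [TopologicalSpace E] [T2Space E] [LocallyPathConnectedSpace E]
  {s₀ s₁ : ℝ} {W K : ℝ → Set E}

/-- Separation: if `K s₀` is the disjoint union of the closed sets `K₁ ∋ a` and `K₂ ∋ b`, then for
`r > s₀` close to `s₀` the points `a, b` are in different components of `W r`. -/
theorem MonoFam.separate (h : MonoFam s₀ s₁ W K) (hlt : s₀ < s₁) {K₁ K₂ : Set E}
    (hK₁ : IsClosed K₁) (hK₂ : IsClosed K₂) (hdis : Disjoint K₁ K₂) (hK : K s₀ = K₁ ∪ K₂)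
    {a b : E} (ha : a ∈ K₁) (hb : b ∈ K₂) :
    ∃ r ∈ Ioc s₀ s₁, ∀ r' ∈ Ioc s₀ r, b ∉ connectedComponentIn (W r') a := by
  have hs₀ : s₀ ∈ Icc s₀ s₁ := ⟨le_rfl, hlt.le⟩
  have hcK : IsCompact (K s₀) := h.isCompact s₀ hs₀
  have hc1 : IsCompact K₁ := hcK.of_isClosed_subset hK₁ (hK ▸ subset_union_left)
  have hc2 : IsCompact K₂ := hcK.of_isClosed_subset hK₂ (hK ▸ subset_union_right)
  obtain ⟨O₁, O₂, hO1, hO2, h1, h2, hO⟩ := SeparatedNhds.of_isCompact_isCompact hc1 hc2 hdis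
  -- K r ⊆ O₁ ∪ O₂ for some r
  have key : ∃ r : Ioc s₀ s₁, K r ⊆ O₁ ∪ O₂ := by
    have : Nonempty (Ioc s₀ s₁) := ⟨⟨s₁, hlt, le_rfl⟩⟩
    refine exists_subset_nhds_of_isCompact' (V := fun r : Ioc s₀ s₁ => K r) ?_ ?_ ?_ ?_
    · intro r t
      refine ⟨⟨min r.1 t.1, lt_min r.2.1 t.2.1, (min_le_left _ _).trans r.2.2⟩, ?_, ?_⟩
      · exact h.monoK ⟨(lt_min r.2.1 t.2.1).le, (min_le_left _ _).trans r.2.2⟩
          ⟨r.2.1.le, r.2.2⟩ (min_le_left _ _)
      · exact h.monoK ⟨(lt_min r.2.1 t.2.1).le, (min_le_left _ _).trans r.2.2⟩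
          ⟨t.2.1.le, t.2.2⟩ (min_le_right _ _)
    · intro r
      exact h.isCompact r ⟨r.2.1.le, r.2.2⟩
    · intro r
      exact (h.isCompact r ⟨r.2.1.le, r.2.2⟩).isClosed
    · intro x hx
      have hxK : x ∈ K s₀ := h.right s₀ ⟨le_rfl, hlt⟩ x fun r hr => by
        exact mem_iInter.mp hx ⟨r, hr⟩
      rw [hK] at hxK
      refine (hO1.union hO2).mem_nhds ?_
      rcases hxK with hx1 | hx2
      · exact Or.inl (h1 hx1)
      · exact Or.inr (h2 hx2)
  obtain ⟨r, hr⟩ := key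
  refine ⟨r, r.2, fun r' hr' hmem => ?_⟩
  have hrI : (r : ℝ) ∈ Icc s₀ s₁ := ⟨r.2.1.le, r.2.2⟩
  have hr'I : r' ∈ Icc s₀ s₁ := ⟨hr'.1.le, hr'.2.trans r.2.2⟩
  have hsub : W r' ⊆ O₁ ∪ O₂ := (h.sub r' hr'I).trans ((h.monoK hr'I hrI hr'.2).trans hr)
  have haW : a ∈ W r' := h.strict s₀ hs₀ r' hr'I hr'.1 (hK ▸ Or.inl ha)
  have hpre := (isPreconnected_connectedComponentIn (F := W r') (x := a))
  have := hpre.subset_left_of_subset_union hO1 hO2 hO
    ((connectedComponentIn_subset _ _).trans hsub) ⟨a, mem_connectedComponentIn haW, h1 ha⟩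
  exact (disjoint_left.mp hO) (this hmem) (h2 hb)

/-- Left continuity of the components. -/
theorem MonoFam.left_component (h : MonoFam s₀ s₁ W K) {s : ℝ} (hs : s ∈ Ioc s₀ s₁) {a b : E}
    (hab : b ∈ connectedComponentIn (W s) a) :
    ∃ r ∈ Ico s₀ s, b ∈ connectedComponentIn (W r) a := by
  have hsI : s ∈ Icc s₀ s₁ := ⟨hs.1.le, hs.2⟩
  have haW : a ∈ W s := by
    by_contra hcon
    rw [connectedComponentIn_eq_empty hcon] at hab
    exact hab
  have hop : IsOpen (connectedComponentIn (W s) a) := (h.isOpen s hsI).connectedComponentIn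
  have hcon : IsConnected (connectedComponentIn (W s) a) :=
    isConnected_connectedComponentIn_iff.mpr haW
  have hpc : IsPathConnected (connectedComponentIn (W s) a) :=
    (hop.isConnected_iff_isPathConnected).mp hcon
  obtain ⟨γ, hγ⟩ := hpc.joinedIn a (mem_connectedComponentIn haW) b hab
  have hcomp : IsCompact (range γ) := isCompact_range γ.continuous
  have : Nonempty (Ico s₀ s) := ⟨⟨s₀, le_rfl, hs.1⟩⟩
  obtain ⟨r, hr⟩ := hcomp.elim_directed_cover (fun r : Ico s₀ s => W r)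
    (fun r => h.isOpen r ⟨r.2.1, (r.2.2.le).trans hs.2⟩)
    (by
      rintro x ⟨u, rfl⟩
      have hx : γ u ∈ W s := connectedComponentIn_subset _ _ (hγ u)
      obtain ⟨r, hr, hxr⟩ := h.left s hs _ hx
      have hm : (r + s) / 2 ∈ Ico s₀ s := ⟨by linarith [hr.1, hr.2], by linarith [hr.2]⟩
      refine mem_iUnion.mpr ⟨⟨(r + s) / 2, hm⟩, ?_⟩
      exact h.strict r ⟨hr.1, hr.2.le.trans hs.2⟩ _ ⟨hm.1, hm.2.le.trans hs.2⟩
        (by linarith [hr.2]) hxr)
    (by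
      intro r t
      refine ⟨⟨max r.1 t.1, r.2.1.trans (le_max_left _ _), max_lt r.2.2 t.2.2⟩, ?_, ?_⟩
      · exact h.mono ⟨r.2.1, r.2.2.le.trans hs.2⟩
          ⟨r.2.1.trans (le_max_left _ _), (max_lt r.2.2 t.2.2).le.trans hs.2⟩ (le_max_left _ _)
      · exact h.mono ⟨t.2.1, t.2.2.le.trans hs.2⟩
          ⟨r.2.1.trans (le_max_left _ _), (max_lt r.2.2 t.2.2).le.trans hs.2⟩ (le_max_right _ _))
  refine ⟨r, r.2, ?_⟩
  have hpre : IsPreconnected (range γ) := isPreconnected_range γ.continuous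
  exact hpre.subset_connectedComponentIn ⟨0, γ.source⟩ hr ⟨1, γ.target⟩

/-- Existence of a lower point, up to an exceptional set at the bottom. -/
theorem MonoFam.exists_lower (h : MonoFam s₀ s₁ W K)
    (hloc : ∀ s ∈ Ioo s₀ s₁, ∀ x ∈ K s \ W s, LocConn (W s) x) {x : E} (hx : x ∈ W s₁)
    (hloc0 : ∀ y ∈ K s₀ \ W s₀, y ∈ connectedComponentIn (W s₁) x → y ∈ closure (W s₀)) :
    ∃ y ∈ W s₀, y ∈ connectedComponentIn (W s₁) x := by
  by_contra hcon
  push Not at hcon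
  set C := connectedComponentIn (W s₁) x with hC
  have hs₁ : s₁ ∈ Icc s₀ s₁ := ⟨h.le, le_rfl⟩
  have hs₀ : s₀ ∈ Icc s₀ s₁ := ⟨le_rfl, h.le⟩
  have hCo : IsOpen C := (h.isOpen s₁ hs₁).connectedComponentIn
  have hxC : x ∈ C := mem_connectedComponentIn hx
  set T : Set ℝ := {r | r ∈ Icc s₀ s₁ ∧ ∀ y ∈ W r, y ∉ C} with hT
  have hT0 : s₀ ∈ T := ⟨hs₀, hcon⟩
  have hTb : BddAbove T := ⟨s₁, fun r hr => hr.1.2⟩
  have hTmono : ∀ r ∈ T, ∀ t ∈ Icc s₀ s₁, t ≤ r → t ∈ T := fun r hr t ht htr =>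
    ⟨ht, fun y hy => hr.2 y (h.mono ht hr.1 htr hy)⟩
  set σ := sSup T with hσ
  have hσ0 : s₀ ≤ σ := le_csSup hTb hT0
  have hσ1 : σ ≤ s₁ := csSup_le ⟨s₀, hT0⟩ fun r hr => hr.1.2
  have hσT : σ ∈ T := by
    refine ⟨⟨hσ0, hσ1⟩, fun y hy hyC => ?_⟩
    rcases hσ0.eq_or_lt with heq | hlt
    · rw [← heq] at hy
      exact hcon y hy hyC
    · obtain ⟨r, hr, hyr⟩ := h.left σ ⟨hlt, hσ1⟩ y hy
      obtain ⟨t, htT, hrt⟩ := exists_lt_of_lt_csSup ⟨s₀, hT0⟩ hr.2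
      exact htT.2 y (h.strict r ⟨hr.1, hr.2.le.trans hσ1⟩ t htT.1 hrt hyr) hyC
  have hσlt : σ < s₁ := by
    rcases hσ1.eq_or_lt with heq | hlt
    · exfalso
      exact hσT.2 x (heq ▸ hx) hxC
    · exact hlt
  -- a point of `K σ` in `C`
  have hne : (⋂ r : Ioc σ s₁, K r ∩ closure C).Nonempty := by
    have : Nonempty (Ioc σ s₁) := ⟨⟨s₁, hσlt, le_rfl⟩⟩
    refine IsCompact.nonempty_iInter_of_directed_nonempty_isCompact_isClosed
      (fun r : Ioc σ s₁ => K r ∩ closure C) ?_ ?_ ?_ ?_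
    · intro r t
      refine ⟨⟨min r.1 t.1, lt_min r.2.1 t.2.1, (min_le_left _ _).trans r.2.2⟩, ?_, ?_⟩
      · exact inter_subset_inter_left _ (h.monoK
          ⟨hσ0.trans (lt_min r.2.1 t.2.1).le, (min_le_left _ _).trans r.2.2⟩
          ⟨hσ0.trans r.2.1.le, r.2.2⟩ (min_le_left _ _))
      · exact inter_subset_inter_left _ (h.monoK
          ⟨hσ0.trans (lt_min r.2.1 t.2.1).le, (min_le_left _ _).trans r.2.2⟩
          ⟨hσ0.trans t.2.1.le, t.2.2⟩ (min_le_right _ _))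
    · intro r
      have hrT : (r : ℝ) ∉ T := fun hrT => absurd (le_csSup hTb hrT) (not_le.mpr r.2.1)
      have hrI : (r : ℝ) ∈ Icc s₀ s₁ := ⟨hσ0.trans r.2.1.le, r.2.2⟩
      have : ∃ y ∈ W r, y ∈ C := by
        by_contra hc
        push Not at hc
        exact hrT ⟨hrI, hc⟩
      obtain ⟨y, hy, hyC⟩ := this
      exact ⟨y, h.sub r hrI hy, subset_closure hyC⟩
    · intro r
      exact (h.isCompact r ⟨hσ0.trans r.2.1.le, r.2.2⟩).inter_right isClosed_closure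
    · intro r
      exact (h.isCompact r ⟨hσ0.trans r.2.1.le, r.2.2⟩).isClosed.inter isClosed_closure
  obtain ⟨y, hy⟩ := hne
  have hyK : y ∈ K σ := h.right σ ⟨hσ0, hσlt⟩ y fun r hr => (mem_iInter.mp hy ⟨r, hr⟩).1
  have hycl : y ∈ closure C := (mem_iInter.mp hy ⟨s₁, hσlt, le_rfl⟩).2
  have hyW1 : y ∈ W s₁ := h.strict σ ⟨hσ0, hσ1⟩ s₁ hs₁ hσlt hyK
  have hyC : y ∈ C := mem_of_mem_closure_component (h.isOpen s₁ hs₁) hyW1 hycl
  have hyW : y ∉ W σ := fun hyW => hσT.2 y hyW hyC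
  rcases hσ0.eq_or_lt with heq | hlt
  · have hycl0 : y ∈ closure (W s₀) := hloc0 y ⟨heq ▸ hyK, heq ▸ hyW⟩ hyC
    obtain ⟨z, hz1, hz2⟩ := mem_closure_iff.mp hycl0 C hCo hyC
    exact hcon z hz2 hz1
  · obtain ⟨N, -, hyN, hNC, hNc⟩ := hloc σ ⟨hlt, hσlt⟩ y ⟨hyK, hyW⟩ C (hCo.mem_nhds hyC)
    obtain ⟨z, hz⟩ := hNc.nonempty
    exact hσT.2 z hz.1 (hNC hz.2)

/-- Points in different components stay in different components as long as the family is
regular; only the bottom step is a hypothesis. -/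
theorem MonoFam.stay_apart (h : MonoFam s₀ s₁ W K)
    (hloc : ∀ s ∈ Ioo s₀ s₁, ∀ x ∈ K s \ W s, LocConn (W s) x) {a b : E}
    (ha : a ∈ K s₀) (hb : b ∈ K s₀) {r₀ : ℝ} (hr₀ : r₀ ∈ Ioc s₀ s₁)
    (hsep : ∀ r ∈ Ioc s₀ r₀, b ∉ connectedComponentIn (W r) a) :
    b ∉ connectedComponentIn (W s₁) a := by
  intro hmem
  have hs₁ : s₁ ∈ Icc s₀ s₁ := ⟨h.le, le_rfl⟩
  set T : Set ℝ := {r | r ∈ Ioc s₀ s₁ ∧ b ∉ connectedComponentIn (W r) a} with hT
  have hT0 : r₀ ∈ T := ⟨hr₀, hsep r₀ ⟨hr₀.1, le_rfl⟩⟩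
  have hTb : BddAbove T := ⟨s₁, fun r hr => hr.1.2⟩
  have hTmono : ∀ r ∈ T, ∀ t ∈ Ioc s₀ s₁, t ≤ r → t ∈ T := fun r hr t ht htr =>
    ⟨ht, fun hb' => hr.2 (connectedComponentIn_mono a
      (h.mono ⟨ht.1.le, ht.2⟩ ⟨hr.1.1.le, hr.1.2⟩ htr) hb')⟩
  set σ := sSup T with hσ
  have hσ0 : r₀ ≤ σ := le_csSup hTb hT0
  have hσ1 : σ ≤ s₁ := csSup_le ⟨r₀, hT0⟩ fun r hr => hr.1.2
  have hsσ : s₀ < σ := hr₀.1.trans_le hσ0
  have hσT : σ ∈ T := by
    refine ⟨⟨hsσ, hσ1⟩, fun hb' => ?_⟩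
    obtain ⟨r, hr, hbr⟩ := h.left_component ⟨hsσ, hσ1⟩ hb'
    obtain ⟨t, htT, hrt⟩ := exists_lt_of_lt_csSup ⟨r₀, hT0⟩ hr.2
    exact htT.2 (connectedComponentIn_mono a
      (h.mono ⟨hr.1, hr.2.le.trans hσ1⟩ ⟨htT.1.1.le, htT.1.2⟩ hrt.le) hbr)
  have hσlt : σ < s₁ := by
    rcases hσ1.eq_or_lt with heq | hlt
    · exact absurd (heq ▸ hmem) hσT.2
    · exact hlt
  have hσI : σ ∈ Icc s₀ s₁ := ⟨hsσ.le, hσ1⟩
  have haW : a ∈ W σ := h.strict s₀ ⟨le_rfl, h.le⟩ σ hσI hsσ ha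
  have hbW : b ∈ W σ := h.strict s₀ ⟨le_rfl, h.le⟩ σ hσI hsσ hb
  -- separation at σ
  have hreg := h.restrict (t₀ := σ) (t₁ := s₁) hsσ.le hσ1 le_rfl
  have hloc' : ∀ x ∈ K σ \ W σ, LocConn (W σ) x := hloc σ ⟨hsσ, hσlt⟩
  have hKcl : IsClosed (K σ) := (h.isCompact σ hσI).isClosed
  have hcl2 := isClosed_diff_closure (h.isOpen σ hσI) hKcl (a := a) (fun x hx _ => hloc' x hx)
    finite_empty (fun x hx _ => hloc' x hx) (empty_disjoint _)
  have hcl1 : IsClosed (K σ ∩ closure (connectedComponentIn (W σ) a)) := hKcl.inter isClosed_closure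
  obtain ⟨r, hr, hsep'⟩ := hreg.separate hσlt hcl1 hcl2
    (disjoint_left.mpr fun x hx hx' => hx'.2 hx.2) (inter_union_sdiff _ _).symm (a := a) (b := b)
    ⟨h.sub σ hσI haW, subset_closure (mem_connectedComponentIn haW)⟩
    ⟨h.sub σ hσI hbW, fun hcl => hσT.2 (mem_of_mem_closure_component (h.isOpen σ hσI) hbW hcl)⟩
  have : r ∈ T := ⟨⟨hsσ.trans hr.1, hr.2⟩, hsep' r ⟨hr.1, le_rfl⟩⟩
  exact absurd (le_csSup hTb this) (not_le.mpr hr.1)

end Sep

section Steps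

variable {E : Type*} [TopologicalSpace E] [T2Space E] [LocallyPathConnectedSpace E]
  {s₀ s₁ : ℝ} {W K : ℝ → Set E}

/-- The family is regular at all times of `[s₀, s₁)`. -/
def RegularOn (s₀ s₁ : ℝ) (W K : ℝ → Set E) : Prop :=
  ∀ s ∈ Ico s₀ s₁, ∀ x ∈ K s \ W s, LocConn (W s) x

theorem LocConn.mem_closure {W : Set E} {x : E} (h : LocConn W x) : x ∈ closure W := by
  rw [mem_closure_iff_nhds]
  intro U hU
  obtain ⟨N, -, -, hNU, hNc⟩ := h U hU
  obtain ⟨z, hz⟩ := hNc.nonempty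
  exact ⟨z, hNU hz.2, hz.1⟩

/-- Bottom step of uniqueness: the component of `a` in `W s₀` and the rest of `K s₀` are separated,
if the exceptional points `F` of `K s₀ \ W s₀` are not in the closure of the component. -/
theorem MonoFam.separate_bottom (h : MonoFam s₀ s₁ W K) (hlt : s₀ < s₁) {F : Set E}
    (hF : F.Finite) (hloc : ∀ x ∈ K s₀ \ W s₀, x ∉ F → LocConn (W s₀) x) {a b : E}
    (ha : a ∈ W s₀) (hb : b ∈ K s₀) (hFA : Disjoint F (closure (connectedComponentIn (W s₀) a)))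
    (hab : b ∉ closure (connectedComponentIn (W s₀) a)) :
    ∃ r ∈ Ioc s₀ s₁, ∀ r' ∈ Ioc s₀ r, b ∉ connectedComponentIn (W r') a := by
  have hs₀ : s₀ ∈ Icc s₀ s₁ := ⟨le_rfl, hlt.le⟩
  have hKcl : IsClosed (K s₀) := (h.isCompact s₀ hs₀).isClosed
  have hcl2 := isClosed_diff_closure (h.isOpen s₀ hs₀) hKcl (a := a)
    (fun x hx hxc => hloc x hx fun hxF => (disjoint_left.mp hFA) hxF hxc) hF hloc hFA
  exact h.separate hlt (hKcl.inter isClosed_closure) hcl2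
    (disjoint_left.mpr fun x hx hx' => hx'.2 hx.2) (inter_union_sdiff _ _).symm
    ⟨h.sub s₀ hs₀ ha, subset_closure (mem_connectedComponentIn ha)⟩ ⟨hb, hab⟩

/-- Regular case, existence. -/
theorem MonoFam.regular_exists (h : MonoFam s₀ s₁ W K) (hreg : RegularOn s₀ s₁ W K)
    {x : E} (hx : x ∈ W s₁) : ∃ y ∈ W s₀, y ∈ connectedComponentIn (W s₁) x := by
  rcases h.le.eq_or_lt with rfl | hlt
  · exact ⟨x, hx, mem_connectedComponentIn hx⟩
  · exact h.exists_lower (fun s hs => hreg s ⟨hs.1.le, hs.2⟩) hx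
      fun y hy _ => (hreg s₀ ⟨le_rfl, hlt⟩ y hy).mem_closure

/-- Regular case, uniqueness. -/
theorem MonoFam.regular_unique (h : MonoFam s₀ s₁ W K) (hreg : RegularOn s₀ s₁ W K)
    {a b : E} (ha : a ∈ W s₀) (hb : b ∈ W s₀) (hab : b ∈ connectedComponentIn (W s₁) a) :
    b ∈ connectedComponentIn (W s₀) a := by
  rcases h.le.eq_or_lt with rfl | hlt
  · exact hab
  · have hs₀ : s₀ ∈ Icc s₀ s₁ := ⟨le_rfl, hlt.le⟩
    by_contra hcon
    obtain ⟨r, hr, hsep⟩ := h.separate_bottom hlt (F := ∅) finite_empty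
      (fun x hx _ => hreg s₀ ⟨le_rfl, hlt⟩ x hx) ha (h.sub s₀ hs₀ hb) (empty_disjoint _)
      (fun hcl => hcon (mem_of_mem_closure_component (h.isOpen s₀ hs₀) hb hcl))
    exact h.stay_apart (fun s hs => hreg s ⟨hs.1.le, hs.2⟩) (h.sub s₀ hs₀ ha) (h.sub s₀ hs₀ hb)
      hr hsep hab

/-- Index `0` at the bottom time: `v` is isolated in `K s₀`.  The component of `v` is new. -/
theorem MonoFam.index_zero_new (h : MonoFam s₀ s₁ W K) (hlt : s₀ < s₁)
    (hreg : ∀ s ∈ Ioo s₀ s₁, ∀ x ∈ K s \ W s, LocConn (W s) x) {v : E} (hv : v ∈ K s₀ \ W s₀)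
    (hiso : ∃ N, IsOpen N ∧ v ∈ N ∧ K s₀ ∩ N ⊆ {v}) {b : E} (hb : b ∈ W s₀) :
    b ∉ connectedComponentIn (W s₁) v := by
  have hs₀ : s₀ ∈ Icc s₀ s₁ := ⟨le_rfl, hlt.le⟩
  obtain ⟨N, hN, hvN, hKN⟩ := hiso
  have hKcl : IsClosed (K s₀) := (h.isCompact s₀ hs₀).isClosed
  have hK2 : IsClosed (K s₀ \ {v}) := by
    have : K s₀ \ {v} = K s₀ ∩ Nᶜ := by
      ext x
      constructor
      · rintro ⟨hx, hxv⟩
        exact ⟨hx, fun hxN => hxv (hKN ⟨hx, hxN⟩)⟩
      · rintro ⟨hx, hxN⟩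
        refine ⟨hx, fun hxv => hxN ?_⟩
        rw [mem_singleton_iff.mp hxv]
        exact hvN
    rw [this]
    exact hKcl.inter hN.isClosed_compl
  have hbv : b ≠ v := fun hbv => hv.2 (hbv ▸ hb)
  obtain ⟨r, hr, hsep⟩ := h.separate hlt (isClosed_singleton (x := v)) hK2
    (disjoint_left.mpr fun x hx hx' => hx'.2 hx)
    (by
      ext x
      constructor
      · intro hx
        by_cases hxv : x = v
        · exact Or.inl hxv
        · exact Or.inr ⟨hx, hxv⟩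
      · rintro (hx | hx)
        · rw [mem_singleton_iff.mp hx]
          exact hv.1
        · exact hx.1) (a := v) (b := b) rfl ⟨h.sub s₀ hs₀ hb, hbv⟩
  exact h.stay_apart hreg hv.1 (h.sub s₀ hs₀ hb) hr hsep

/-- Index `0` at the bottom time: all other components contain a lower point. -/
theorem MonoFam.index_zero_exists (h : MonoFam s₀ s₁ W K)
    (hreg : ∀ s ∈ Ioo s₀ s₁, ∀ x ∈ K s \ W s, LocConn (W s) x) {v : E}
    (hloc : ∀ x ∈ K s₀ \ W s₀, x ≠ v → LocConn (W s₀) x)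
    {x : E} (hx : x ∈ W s₁) (hxv : v ∉ connectedComponentIn (W s₁) x) :
    ∃ y ∈ W s₀, y ∈ connectedComponentIn (W s₁) x :=
  h.exists_lower hreg hx fun y hy hyx => (hloc y hy fun hyv => hxv (hyv ▸ hyx)).mem_closure

/-- Index `0` at the bottom time: no two old components are joined. -/
theorem MonoFam.index_zero_unique (h : MonoFam s₀ s₁ W K) (hlt : s₀ < s₁)
    (hreg : ∀ s ∈ Ioo s₀ s₁, ∀ x ∈ K s \ W s, LocConn (W s) x) {v : E}
    (hloc : ∀ x ∈ K s₀ \ W s₀, x ≠ v → LocConn (W s₀) x)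
    (hiso : ∃ N, IsOpen N ∧ v ∈ N ∧ K s₀ ∩ N ⊆ {v}) (hv : v ∉ W s₀)
    {a b : E} (ha : a ∈ W s₀) (hb : b ∈ W s₀) (hab : b ∈ connectedComponentIn (W s₁) a) :
    b ∈ connectedComponentIn (W s₀) a := by
  have hs₀ : s₀ ∈ Icc s₀ s₁ := ⟨le_rfl, hlt.le⟩
  by_contra hcon
  have hvcl : v ∉ closure (connectedComponentIn (W s₀) a) := by
    intro hcl
    obtain ⟨N, hN, hvN, hKN⟩ := hiso
    obtain ⟨z, hzN, hz⟩ := mem_closure_iff.mp hcl N hN hvN
    have hzW : z ∈ W s₀ := connectedComponentIn_subset _ _ hz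
    have : z = v := hKN ⟨h.sub s₀ hs₀ hzW, hzN⟩
    exact hv (this ▸ hzW)
  obtain ⟨r, hr, hsep⟩ := h.separate_bottom hlt (F := {v}) (finite_singleton v)
    (fun x hx hxF => hloc x hx hxF) ha (h.sub s₀ hs₀ hb) (disjoint_singleton_left.mpr hvcl)
    (fun hcl => hcon (mem_of_mem_closure_component (h.isOpen s₀ hs₀) hb hcl))
  exact h.stay_apart hreg (h.sub s₀ hs₀ ha) (h.sub s₀ hs₀ hb) hr hsep hab

/-- Index `1` at the bottom time: every component contains a lower point. -/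
theorem MonoFam.index_one_exists (h : MonoFam s₀ s₁ W K)
    (hreg : ∀ s ∈ Ioo s₀ s₁, ∀ x ∈ K s \ W s, LocConn (W s) x) {v : E}
    (hloc : ∀ x ∈ K s₀ \ W s₀, x ≠ v → LocConn (W s₀) x) (hv : v ∈ closure (W s₀))
    {x : E} (hx : x ∈ W s₁) : ∃ y ∈ W s₀, y ∈ connectedComponentIn (W s₁) x :=
  h.exists_lower hreg hx fun y hy _ => by
    by_cases hyv : y = v
    · rw [hyv]
      exact hv
    · exact (hloc y hy hyv).mem_closure

/-- Index `1` at the bottom time: a component of `W s₀` which has `v` in its closure is the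
component of `p₁` or of `p₂`, where `W s₀ ∩ N = N₁ ∪ N₂` near `v`. -/
theorem index_one_component {W N N₁ N₂ : Set E} {v a p₁ p₂ : E} (hN : IsOpen N) (hvN : v ∈ N)
    (hWN : W ∩ N = N₁ ∪ N₂) (hN₁ : IsPreconnected N₁) (hN₂ : IsPreconnected N₂) (hp₁ : p₁ ∈ N₁)
    (hp₂ : p₂ ∈ N₂) (hcl : v ∈ closure (connectedComponentIn W a)) :
    connectedComponentIn W a = connectedComponentIn W p₁ ∨
      connectedComponentIn W a = connectedComponentIn W p₂ := by
  obtain ⟨z, hzN, hz⟩ := mem_closure_iff.mp hcl N hN hvN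
  have hzW : z ∈ W := connectedComponentIn_subset _ _ hz
  have hz' : z ∈ N₁ ∪ N₂ := hWN ▸ ⟨hzW, hzN⟩
  have hN₁W : N₁ ⊆ W := fun x hx => (hWN.symm ▸ Or.inl hx : x ∈ W ∩ N).1
  have hN₂W : N₂ ⊆ W := fun x hx => (hWN.symm ▸ Or.inr hx : x ∈ W ∩ N).1
  have haz := connectedComponentIn_eq hz
  rcases hz' with hz1 | hz2
  · left
    rw [haz]
    exact connectedComponentIn_eq (hN₁.subset_connectedComponentIn hz1 hN₁W hp₁)
  · right
    rw [haz]
    exact connectedComponentIn_eq (hN₂.subset_connectedComponentIn hz2 hN₂W hp₂)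

/-- Index `1` at the bottom time: the two ends are joined. -/
theorem MonoFam.index_one_joined (h : MonoFam s₀ s₁ W K) (hlt : s₀ < s₁) {v p : E}
    {N₁ : Set E} (hv : v ∈ K s₀) (hN₁ : IsPreconnected N₁) (hN₁W : N₁ ⊆ W s₀) (hp : p ∈ N₁)
    (hcl : v ∈ closure N₁) : p ∈ connectedComponentIn (W s₁) v := by
  have hs₀ : s₀ ∈ Icc s₀ s₁ := ⟨le_rfl, hlt.le⟩
  have hs₁ : s₁ ∈ Icc s₀ s₁ := ⟨hlt.le, le_rfl⟩
  have hvW : v ∈ W s₁ := h.strict s₀ hs₀ s₁ hs₁ hlt hv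
  have hpre : IsPreconnected (insert v N₁) := by
    refine hN₁.subset_closure (subset_insert _ _) ?_
    rintro x (rfl | hx)
    · exact hcl
    · exact subset_closure hx
  refine hpre.subset_connectedComponentIn (mem_insert _ _) ?_ (mem_insert_of_mem _ hp)
  rintro x (rfl | hx)
  · exact hvW
  · exact h.mono hs₀ hs₁ hlt.le (hN₁W hx)

/-- Index `1` at the bottom time: only the two components of the ends `p₁`, `p₂` are joined. -/
theorem MonoFam.index_one_unique (h : MonoFam s₀ s₁ W K) (hlt : s₀ < s₁)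
    (hreg : ∀ s ∈ Ioo s₀ s₁, ∀ x ∈ K s \ W s, LocConn (W s) x) {v p₁ p₂ : E}
    (hloc : ∀ x ∈ K s₀ \ W s₀, x ≠ v → LocConn (W s₀) x)
    {N N₁ N₂ : Set E} (hN : IsOpen N) (hvN : v ∈ N)
    (hWN : W s₀ ∩ N = N₁ ∪ N₂) (hN₁ : IsPreconnected N₁) (hN₂ : IsPreconnected N₂) (hp₁ : p₁ ∈ N₁)
    (hp₂ : p₂ ∈ N₂)
    {a b : E} (ha : a ∈ W s₀) (hb : b ∈ W s₀) (hab : b ∈ connectedComponentIn (W s₁) a) :
    b ∈ connectedComponentIn (W s₀) a ∨
      ((connectedComponentIn (W s₀) a = connectedComponentIn (W s₀) p₁ ∧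
        connectedComponentIn (W s₀) b = connectedComponentIn (W s₀) p₂) ∨
       (connectedComponentIn (W s₀) a = connectedComponentIn (W s₀) p₂ ∧
        connectedComponentIn (W s₀) b = connectedComponentIn (W s₀) p₁)) := by
  have hs₀ : s₀ ∈ Icc s₀ s₁ := ⟨le_rfl, hlt.le⟩
  by_cases hcon : b ∈ connectedComponentIn (W s₀) a
  · exact Or.inl hcon
  right
  have hne : connectedComponentIn (W s₀) a ≠ connectedComponentIn (W s₀) b := fun heq =>
    hcon (heq ▸ mem_connectedComponentIn hb)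
  -- `v` is in the closure of both components
  have key : ∀ a b : E, a ∈ W s₀ → b ∈ W s₀ → b ∈ connectedComponentIn (W s₁) a →
      b ∉ connectedComponentIn (W s₀) a → v ∈ closure (connectedComponentIn (W s₀) a) := by
    intro a b ha hb hab hcon
    by_contra hvcl
    obtain ⟨r, hr, hsep⟩ := h.separate_bottom hlt (F := {v}) (finite_singleton v)
      (fun x hx hxF => hloc x hx hxF) ha (h.sub s₀ hs₀ hb) (disjoint_singleton_left.mpr hvcl)
      (fun hcl => hcon (mem_of_mem_closure_component (h.isOpen s₀ hs₀) hb hcl))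
    exact h.stay_apart hreg (h.sub s₀ hs₀ ha) (h.sub s₀ hs₀ hb) hr hsep hab
  have hab' : a ∈ connectedComponentIn (W s₁) b := by
    have := connectedComponentIn_eq hab
    rw [← this]
    exact mem_connectedComponentIn (h.mono hs₀ ⟨hlt.le, le_rfl⟩ hlt.le ha)
  have hcon' : a ∉ connectedComponentIn (W s₀) b := fun hc =>
    hne (connectedComponentIn_eq hc).symm
  have h1 := index_one_component hN hvN hWN hN₁ hN₂ hp₁ hp₂ (key a b ha hb hab hcon)
  have h2 := index_one_component hN hvN hWN hN₁ hN₂ hp₁ hp₂ (key b a hb ha hab' hcon')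
  rcases h1 with h1 | h1 <;> rcases h2 with h2 | h2
  · exact absurd (h1.trans h2.symm) hne
  · exact Or.inl ⟨h1, h2⟩
  · exact Or.inr ⟨h1, h2⟩
  · exact absurd (h1.trans h2.symm) hne

end Steps

end Pool.Agent.QC.S4
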