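import Mathlib
import Pool.Agent.QC.S4.Fam

/-!
# MP_7c50a9_lc, section 4.1: local structure of `{f > 0}` at a zero of `f`

* `locConn_of_regular`: at a zero with nonzero derivative the set `{f > 0}` is locally connected
  (`LocConn`).
* `locConn_of_index`: at a nondegenerate critical zero whose Hessian has at least two positive
  directions, the same.
* index 1: two pieces; index 0: the point is isolated in `{f ≥ 0}`.
-/

namespace Pool.Agent.QC.S4

open Set Topology Filter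

variable {E : Type*} [NormedAddCommGroup E] [NormedSpace ℝ E]

/-- A set is preconnected if every point can be joined by a preconnected subset to a preconnected
core. -/
theorem isPreconnected_of_core {X : Type*} [TopologicalSpace X] {S T : Set X} (hT : IsPreconnected T)
    (hTS : T ⊆ S) (hne : T.Nonempty)
    (h : ∀ y ∈ S, ∃ A ⊆ S, IsPreconnected A ∧ y ∈ A ∧ (A ∩ T).Nonempty) : IsPreconnected S := by
  obtain ⟨t, ht⟩ := hne
  refine isPreconnected_of_forall t fun y hy => ?_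
  obtain ⟨A, hAS, hA, hyA, hAT⟩ := h y hy
  refine ⟨A ∪ T, union_subset hAS hTS, Or.inr ht, Or.inl hyA, ?_⟩
  exact hA.union' hAT hT

/-- Regular boundary points. -/
theorem locConn_of_regular {f : E → ℝ} {f' : E →L[ℝ] ℝ} {x : E} (hf : HasStrictFDerivAt f f' x)
    (hf' : f' ≠ 0) (hx : f x = 0) : LocConn {y | 0 < f y} x := by
  -- a direction `e` with `f' e = 1`
  obtain ⟨e, he⟩ : ∃ e, f' e = 1 := by
    obtain ⟨u, hu⟩ : ∃ u, f' u ≠ 0 := by
      by_contra hcon
      push Not at hcon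
      exact hf' (ContinuousLinearMap.ext fun u => by simpa using hcon u)
    exact ⟨(f' u)⁻¹ • u, by simp [hu]⟩
  have he0 : e ≠ 0 := by
    rintro rfl
    simp at he
  have hne : 0 < ‖e‖ := norm_pos_iff.mpr he0
  intro U hU
  -- monotonicity along `e` near `x`
  obtain ⟨ρ, hρ, hmono⟩ : ∃ ρ > 0, ∀ y ∈ Metric.ball x ρ, ∀ z ∈ Metric.ball x ρ,
      |f y - f z - f' (y - z)| ≤ (1 / (2 * ‖e‖)) * ‖y - z‖ := by
    have h1 := hf.isLittleO
    have h2 := h1.def (c := 1 / (2 * ‖e‖)) (by positivity)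
    rw [nhds_prod_eq] at h2
    obtain ⟨s, hs, hs2⟩ := (Metric.nhds_basis_ball.prod_self).eventually_iff.mp h2
    refine ⟨s, hs, fun y hy z hz => ?_⟩
    have := hs2 (show (y, z) ∈ Metric.ball x s ×ˢ Metric.ball x s from ⟨hy, hz⟩)
    simpa using this
  obtain ⟨ρ', hρ', hUρ⟩ := Metric.mem_nhds_iff.mp hU
  set ρ₀ := min ρ ρ' with hρ₀
  have hρ₀pos : 0 < ρ₀ := lt_min hρ hρ'
  set τ := ρ₀ / (2 * (‖e‖ + 1)) with hτ
  have hτpos : 0 < τ := by positivity
  have hτe : τ * ‖e‖ < ρ₀ / 2 := by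
    rw [hτ, div_mul_eq_mul_div, div_lt_div_iff₀ (by positivity) (by norm_num)]
    nlinarith
  obtain ⟨r, hr, hrc⟩ : ∃ r > 0, ∀ z, ‖z‖ < r → |f (x + z)| < τ / 4 := by
    have hc : ContinuousAt (fun z => f (x + z)) 0 := by
      have : ContinuousAt f (x + 0) := by
        simpa using hf.hasFDerivAt.continuousAt
      exact this.comp (f := fun z => x + z) (by fun_prop)
    obtain ⟨r, hr, h⟩ := Metric.continuousAt_iff.mp hc (τ / 4) (by positivity)
    refine ⟨r, hr, fun z hz => ?_⟩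
    have := h (x := z) (by simpa using hz)
    simpa [hx] using this
  set r₀ := min r (ρ₀ / 2) with hr₀
  have hr₀pos : 0 < r₀ := lt_min hr (by positivity)
  -- the neighbourhood
  set N : Set E := {y | |f' (y - x)| < τ ∧ ‖(y - x) - f' (y - x) • e‖ < r₀} with hN
  have hNo : IsOpen N := by
    have h1 : IsOpen {y | |f' (y - x)| < τ} := isOpen_lt (by fun_prop) continuous_const
    have h2 : IsOpen {y | ‖(y - x) - f' (y - x) • e‖ < r₀} :=
      isOpen_lt (by fun_prop) continuous_const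
    exact h1.inter h2
  -- points of N in coordinates
  have hpt : ∀ z : E, ‖z‖ < r₀ → f' z = 0 → ∀ t : ℝ, |t| < τ →
      x + z + t • e ∈ N ∧ x + z + t • e ∈ Metric.ball x ρ₀ := by
    intro z hz hz0 t ht
    have h1 : x + z + t • e - x = z + t • e := by abel
    have h2 : f' (z + t • e) = t := by simp [hz0, he]
    refine ⟨?_, ?_⟩
    · simp only [hN, mem_ofPred_eq, h1, h2]
      exact ⟨ht, by simpa using hz⟩
    · rw [Metric.mem_ball, dist_eq_norm, h1]
      calc ‖z + t • e‖ ≤ ‖z‖ + ‖t • e‖ := norm_add_le _ _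
        _ = ‖z‖ + |t| * ‖e‖ := by rw [norm_smul, Real.norm_eq_abs]
        _ < ρ₀ / 2 + ρ₀ / 2 := by
          have : ‖z‖ < ρ₀ / 2 := hz.trans_le (min_le_right _ _)
          nlinarith [mul_le_mul_of_nonneg_right ht.le hne.le]
        _ = ρ₀ := by ring
  have hco : ∀ y ∈ N, ∃ z : E, ‖z‖ < r₀ ∧ f' z = 0 ∧ ∃ t : ℝ, |t| < τ ∧ y = x + z + t • e := by
    intro y hy
    refine ⟨(y - x) - f' (y - x) • e, hy.2, by simp [he], f' (y - x), hy.1, by abel⟩
  have hNρ : N ⊆ Metric.ball x ρ₀ := by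
    intro y hy
    obtain ⟨z, hz, hz0, t, ht, rfl⟩ := hco y hy
    exact (hpt z hz hz0 t ht).2
  -- monotonicity in coordinates
  have hinc : ∀ z : E, ‖z‖ < r₀ → f' z = 0 → ∀ t t' : ℝ, |t| < τ → |t'| < τ → t ≤ t' →
      f (x + z + t • e) + (t' - t) / 2 ≤ f (x + z + t' • e) := by
    intro z hz hz0 t t' ht ht' htt
    have ha := (Metric.ball_subset_ball (min_le_left ρ ρ')) (hpt z hz hz0 t ht).2
    have hb := (Metric.ball_subset_ball (min_le_left ρ ρ')) (hpt z hz hz0 t' ht').2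
    have := hmono _ hb _ ha
    have h1 : x + z + t' • e - (x + z + t • e) = (t' - t) • e := by
      rw [sub_smul]; abel
    rw [h1] at this
    have h2 : f' ((t' - t) • e) = t' - t := by simp [he]
    rw [h2, norm_smul, Real.norm_eq_abs, abs_of_nonneg (sub_nonneg.mpr htt)] at this
    have h3 : 1 / (2 * ‖e‖) * ((t' - t) * ‖e‖) = (t' - t) / 2 := by
      field_simp
    rw [h3] at this
    have := (abs_le.mp this).1
    linarith
  have hhalf : |τ / 2| < τ := by
    rw [abs_of_pos (by positivity)]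
    linarith
  -- positivity on the slice
  have hslice : ∀ z : E, ‖z‖ < r₀ → f' z = 0 → 0 < f (x + z + (τ / 2) • e) := by
    intro z hz hz0
    have h1 := hinc z hz hz0 0 (τ / 2) (by simpa using hτpos) hhalf (by positivity)
    have h2 := (abs_lt.mp (hrc z (hz.trans_le (min_le_left _ _)))).1
    simp only [zero_smul, add_zero, sub_zero] at h1
    linarith
  set T : Set E := {y | ∃ z : E, ‖z‖ < r₀ ∧ f' z = 0 ∧ y = x + z + (τ / 2) • e} with hT
  have hTS : T ⊆ {y | 0 < f y} ∩ N := by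
    rintro y ⟨z, hz, hz0, rfl⟩
    exact ⟨hslice z hz hz0, (hpt z hz hz0 _ hhalf).1⟩
  have hTconv : Convex ℝ T := by
    rintro y ⟨z, hz, hz0, rfl⟩ y' ⟨z', hz', hz0', rfl⟩ a b ha hb hab
    refine ⟨a • z + b • z', ?_, by simp [hz0, hz0'], ?_⟩
    · have hcb := (convex_ball (0 : E) r₀) (by simpa using hz) (by simpa using hz') ha hb hab
      simpa using hcb
    · have : a • x + b • x = x := by rw [← add_smul, hab, one_smul]
      have h2 : a • (τ / 2) • e + b • (τ / 2) • e = (τ / 2) • e := by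
        rw [← add_smul, hab, one_smul]
      calc a • (x + z + (τ / 2) • e) + b • (x + z' + (τ / 2) • e)
          = (a • x + b • x) + (a • z + b • z') + (a • (τ / 2) • e + b • (τ / 2) • e) := by
            simp only [smul_add]; abel
        _ = x + (a • z + b • z') + (τ / 2) • e := by rw [this, h2]
  have hTne : T.Nonempty := ⟨_, 0, by simpa using hr₀pos, by simp, rfl⟩
  refine ⟨N, hNo, ?_, ?_, ?_, ?_⟩
  · simp only [hN, mem_ofPred_eq, sub_self, map_zero, abs_zero, zero_smul, sub_zero, norm_zero]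
    exact ⟨hτpos, hr₀pos⟩
  · exact hNρ.trans ((Metric.ball_subset_ball (min_le_right _ _)).trans hUρ)
  · exact hTne.mono hTS
  · refine isPreconnected_of_core hTconv.isPreconnected hTS hTne ?_
    rintro y ⟨hy, hyN⟩
    obtain ⟨z, hz, hz0, t, ht, rfl⟩ := hco y hyN
    refine ⟨segment ℝ (x + z + t • e) (x + z + (τ / 2) • e), ?_,
      (convex_segment _ _).isPreconnected, left_mem_segment _ _ _,
      ⟨_, right_mem_segment _ _ _, z, hz, hz0, rfl⟩⟩
    rintro w ⟨a, b, ha, hb, hab, rfl⟩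
    have hw : a • (x + z + t • e) + b • (x + z + (τ / 2) • e)
        = x + z + (a * t + b * (τ / 2)) • e := by
      have : a • x + b • x = x := by rw [← add_smul, hab, one_smul]
      have h2 : a • z + b • z = z := by rw [← add_smul, hab, one_smul]
      calc a • (x + z + t • e) + b • (x + z + (τ / 2) • e)
          = (a • x + b • x) + (a • z + b • z) + (a • t • e + b • (τ / 2) • e) := by
            simp only [smul_add]; abel
        _ = x + z + (a * t + b * (τ / 2)) • e := by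
            rw [this, h2, add_smul, mul_smul, mul_smul]
    rw [hw]
    have htt : |a * t + b * (τ / 2)| < τ := by
      rw [abs_lt] at ht ⊢
      have hhb : (τ / 2) < τ := by linarith
      rcases ha.eq_or_lt with rfl | hapos
      · have : b = 1 := by linarith
        subst this
        constructor <;> linarith
      · constructor
        · nlinarith [ht.1, mul_nonneg hb hτpos.le]
        · nlinarith [ht.2, mul_nonneg hb hτpos.le]
    refine ⟨?_, (hpt z hz hz0 _ htt).1⟩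
    simp only [mem_ofPred_eq] at hy ⊢
    by_cases hle : t ≤ τ / 2
    · have h3 : t ≤ a * t + b * (τ / 2) := by
        have : b * t ≤ b * (τ / 2) := mul_le_mul_of_nonneg_left hle hb
        have h4 : a * t + b * t = t := by rw [← add_mul, hab, one_mul]
        linarith
      have := hinc z hz hz0 t _ ht htt h3
      linarith
    · have h3 : τ / 2 ≤ a * t + b * (τ / 2) := by
        have : a * (τ / 2) ≤ a * t := mul_le_mul_of_nonneg_left (not_le.mp hle).le ha
        have h4 : a * (τ / 2) + b * (τ / 2) = τ / 2 := by rw [← add_mul, hab, one_mul]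
        linarith
      have := hinc z hz hz0 (τ / 2) _ hhalf htt h3
      have := hslice z hz hz0
      linarith

/-! ## Nondegenerate critical zeros -/

/-- `f` has at `v` a nondegenerate critical zero; `P` is the projection onto a subspace on which the
Hessian `B` is positive definite, along a subspace on which it is negative definite. -/
structure NonDeg (f : E → ℝ) (v : E) (B : E →L[ℝ] E →L[ℝ] ℝ) (P : E →L[ℝ] E) : Prop where
  zero : f v = 0
  deriv : ∃ G : E → E →L[ℝ] ℝ, (∀ᶠ y in 𝓝 v, HasFDerivAt f (G y) y) ∧ G v = 0 ∧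
    HasStrictFDerivAt G B v
  proj : ∀ x, P (P x) = P x
  pos : ∀ x, P x ≠ 0 → 0 < B (P x) (P x)
  neg : ∀ x, x - P x ≠ 0 → B (x - P x) (x - P x) < 0

/-- A quadratic form positive on the nonzero vectors of a closed cone-like set in a finite
dimensional space is bounded below. -/
theorem exists_lower_bound [FiniteDimensional ℝ E] (B : E →L[ℝ] E →L[ℝ] ℝ) (L : E →L[ℝ] E)
    (hL : ∀ x, L x = 0 → x ≠ 0 → 0 < B x x) :
    ∃ c > 0, ∀ x, L x = 0 → c * ‖x‖ ^ 2 ≤ B x x := by
  classical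
  set S : Set E := Metric.sphere 0 1 ∩ {x | L x = 0} with hS
  have hSc : IsCompact S := (isCompact_sphere 0 1).inter_right
    (isClosed_eq L.continuous continuous_const)
  have hcont : Continuous fun x : E => B x x := by fun_prop
  rcases S.eq_empty_or_nonempty with hemp | hne
  · refine ⟨1, one_pos, fun x hx => ?_⟩
    by_cases hx0 : x = 0
    · simp [hx0]
    · exfalso
      have : (‖x‖⁻¹ • x) ∈ S := by
        refine ⟨?_, ?_⟩
        · simp [norm_smul, hx0]
        · simp [hx]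
      rw [hemp] at this
      exact this
  · obtain ⟨x₀, hx₀, hmin⟩ := hSc.exists_isMinOn hne hcont.continuousOn
    have hx₀ne : x₀ ≠ 0 := by
      rintro rfl
      simpa using hx₀.1
    refine ⟨B x₀ x₀, hL x₀ hx₀.2 hx₀ne, fun x hx => ?_⟩
    by_cases hx0 : x = 0
    · simp [hx0]
    · have hmem : (‖x‖⁻¹ • x) ∈ S := by
        refine ⟨?_, ?_⟩
        · simp [norm_smul, hx0]
        · simp [hx]
      have h1 := hmin hmem
      have hn : 0 < ‖x‖ := norm_pos_iff.mpr hx0
      simp only [mem_ofPred_eq, map_smul, ContinuousLinearMap.smul_apply, smul_eq_mul] at h1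
      have h2 : B x x = ‖x‖ ^ 2 * (‖x‖⁻¹ * (‖x‖⁻¹ * B x x)) := by
        field_simp
      rw [h2, mul_comm]
      exact mul_le_mul_of_nonneg_left h1 (by positivity)

/-- The local data used in the proofs. -/
theorem NonDeg.local_data [FiniteDimensional ℝ E] {f : E → ℝ} {v : E} {B : E →L[ℝ] E →L[ℝ] ℝ}
    {P : E →L[ℝ] E} (h : NonDeg f v B P) :
    ∃ ρ > 0, ∃ G : E → E →L[ℝ] ℝ, (∀ y ∈ Metric.ball v ρ, HasFDerivAt f (G y) y) ∧ G v = 0 ∧
      (∀ y ∈ Metric.ball v ρ, ∀ z ∈ Metric.ball v ρ, P (y - z) = y - z → y ≠ z →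
        0 < (G y - G z) (y - z)) ∧
      (∀ y ∈ Metric.ball v ρ, ∀ z ∈ Metric.ball v ρ, P (y - z) = 0 → y ≠ z →
        (G y - G z) (y - z) < 0) := by
  obtain ⟨G, hG1, hG2, hG3⟩ := h.deriv
  obtain ⟨c₁, hc₁, h1⟩ := exists_lower_bound B (ContinuousLinearMap.id ℝ E - P) (by
    intro x hx hx0
    have hx' : P x = x := by
      have : x - P x = 0 := by simpa using hx
      exact (sub_eq_zero.mp this).symm
    have := h.pos x (by rw [hx']; exact hx0)
    rwa [hx'] at this)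
  obtain ⟨c₂, hc₂, h2⟩ := exists_lower_bound (-B) P (by
    intro x hx hx0
    have := h.neg x (by rw [hx, sub_zero]; exact hx0)
    rw [hx, sub_zero] at this
    simpa using this)
  set c := min c₁ c₂ with hc
  have hcpos : 0 < c := lt_min hc₁ hc₂
  have h3 := hG3.isLittleO.def (c := c / 2) (by positivity)
  rw [nhds_prod_eq] at h3
  obtain ⟨s, hs, hs2⟩ := (Metric.nhds_basis_ball.prod_self).eventually_iff.mp h3
  obtain ⟨s', hs', hs2'⟩ := Metric.eventually_nhds_iff_ball.mp hG1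
  have key : ∀ y ∈ Metric.ball v (min s s'), ∀ z ∈ Metric.ball v (min s s'),
      |(G y - G z) (y - z) - B (y - z) (y - z)| ≤ c / 2 * ‖y - z‖ ^ 2 := by
    intro y hy z hz
    have h4 := hs2 (show (y, z) ∈ Metric.ball v s ×ˢ Metric.ball v s from
      ⟨Metric.ball_subset_ball (min_le_left _ _) hy, Metric.ball_subset_ball (min_le_left _ _) hz⟩)
    simp only at h4
    have h5 := (G y - G z - B (y - z)).le_opNorm (y - z)
    simp only [ContinuousLinearMap.sub_apply, Real.norm_eq_abs] at h5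
    calc |(G y - G z) (y - z) - B (y - z) (y - z)|
        ≤ ‖G y - G z - B (y - z)‖ * ‖y - z‖ := by
          simpa [ContinuousLinearMap.sub_apply] using h5
      _ ≤ (c / 2 * ‖y - z‖) * ‖y - z‖ := mul_le_mul_of_nonneg_right h4 (norm_nonneg _)
      _ = c / 2 * ‖y - z‖ ^ 2 := by ring
  refine ⟨min s s', lt_min hs hs', G, fun y hy => hs2' y
    (Metric.ball_subset_ball (min_le_right _ _) hy), hG2, ?_, ?_⟩
  · intro y hy z hz hP hne
    have h4 := (abs_le.mp (key y hy z hz)).1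
    have h5 := h1 (y - z) (by simp [hP])
    have h6 : 0 < ‖y - z‖ ^ 2 := by
      have : 0 < ‖y - z‖ := norm_pos_iff.mpr (sub_ne_zero.mpr hne)
      positivity
    have h7 : c * ‖y - z‖ ^ 2 ≤ c₁ * ‖y - z‖ ^ 2 :=
      mul_le_mul_of_nonneg_right (min_le_left _ _) h6.le
    nlinarith [mul_pos hcpos h6]
  · intro y hy z hz hP hne
    have h4 := (abs_le.mp (key y hy z hz)).2
    have h5 := h2 (y - z) hP
    simp only [ContinuousLinearMap.neg_apply] at h5
    have h6 : 0 < ‖y - z‖ ^ 2 := by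
      have : 0 < ‖y - z‖ := norm_pos_iff.mpr (sub_ne_zero.mpr hne)
      positivity
    have h7 : c * ‖y - z‖ ^ 2 ≤ c₂ * ‖y - z‖ ^ 2 :=
      mul_le_mul_of_nonneg_right (min_le_right _ _) h6.le
    nlinarith [mul_pos hcpos h6]

/-- One dimensional consequence: derivative of `t ↦ f (a + t u)`. -/
theorem hasDerivAt_line {f : E → ℝ} {G : E → E →L[ℝ] ℝ} {a u : E} {t : ℝ}
    (h : HasFDerivAt f (G (a + t • u)) (a + t • u)) :
    HasDerivAt (fun s : ℝ => f (a + s • u)) (G (a + t • u) u) t := by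
  have h1 : HasDerivAt (fun s : ℝ => a + s • u) u t := by
    simpa using ((hasDerivAt_id t).smul_const u).const_add a
  exact h.comp_hasDerivAt t h1

/-- The product neighbourhoods of `v`. -/
def prodNhd (P : E →L[ℝ] E) (v : E) (r : ℝ) : Set E :=
  {y | ‖P (y - v)‖ < r ∧ ‖(y - v) - P (y - v)‖ < r}

theorem isOpen_prodNhd (P : E →L[ℝ] E) (v : E) (r : ℝ) : IsOpen (prodNhd P v r) := by
  have h1 : IsOpen {y | ‖P (y - v)‖ < r} := isOpen_lt (by fun_prop) continuous_const
  have h2 : IsOpen {y | ‖(y - v) - P (y - v)‖ < r} := isOpen_lt (by fun_prop) continuous_const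
  exact h1.inter h2

theorem mem_prodNhd_self (P : E →L[ℝ] E) (v : E) {r : ℝ} (hr : 0 < r) : v ∈ prodNhd P v r := by
  simp [prodNhd, hr]

theorem prodNhd_subset_ball (P : E →L[ℝ] E) (v : E) (r : ℝ) :
    prodNhd P v r ⊆ Metric.ball v (2 * r) := by
  rintro y ⟨h1, h2⟩
  rw [Metric.mem_ball, dist_eq_norm]
  calc ‖y - v‖ = ‖P (y - v) + ((y - v) - P (y - v))‖ := by congr 1; abel
    _ ≤ ‖P (y - v)‖ + ‖(y - v) - P (y - v)‖ := norm_add_le _ _
    _ < r + r := add_lt_add h1 h2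
    _ = 2 * r := by ring

/-- `v + p` for `p` in the range of `P`. -/
theorem mem_prodNhd_add {P : E →L[ℝ] E} (_hP : ∀ x, P (P x) = P x) (v : E) {r : ℝ} {p m : E}
    (hp : P p = p) (hm : P m = 0) (hpr : ‖p‖ < r) (hmr : ‖m‖ < r) : v + p + m ∈ prodNhd P v r := by
  have h1 : v + p + m - v = p + m := by abel
  have h2 : P (p + m) = p := by simp [hp, hm]
  refine ⟨?_, ?_⟩
  · rw [h1, h2]; exact hpr
  · rw [h1, h2]; simpa using hmr

/-- Everything we need about the signs of `f` near a nondegenerate critical zero. -/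
theorem NonDeg.signs [FiniteDimensional ℝ E] {f : E → ℝ} {v : E} {B : E →L[ℝ] E →L[ℝ] ℝ}
    {P : E →L[ℝ] E} (h : NonDeg f v B P) :
    ∃ r₀ > 0, (∀ p, P p = p → p ≠ 0 → ‖p‖ < r₀ → 0 < f (v + p)) ∧
      (∀ m, P m = 0 → m ≠ 0 → ‖m‖ < r₀ → f (v + m) < 0) ∧
      (∀ p m, P p = p → P m = 0 → ‖p‖ < r₀ → ‖m‖ < r₀ → 0 < f (v + p + m) →
        p ≠ 0 ∧ ∀ t ∈ Icc (0 : ℝ) 1, 0 < f (v + p + t • m)) := by
  obtain ⟨ρ, hρ, G, hG1, hG2, hG3, hG4⟩ := h.local_data
  set r₀ := ρ / 2 with hr₀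
  have hr₀pos : 0 < r₀ := by positivity
  -- membership in the ball
  have hball : ∀ p m, ‖p‖ < r₀ → ‖m‖ < r₀ → ∀ t ∈ Icc (0 : ℝ) 1,
      v + p + t • m ∈ Metric.ball v ρ := by
    intro p m hp hm t ht
    rw [Metric.mem_ball, dist_eq_norm]
    have h1 : v + p + t • m - v = p + t • m := by abel
    rw [h1]
    calc ‖p + t • m‖ ≤ ‖p‖ + ‖t • m‖ := norm_add_le _ _
      _ ≤ ‖p‖ + ‖m‖ := by
        rw [norm_smul, Real.norm_eq_abs, abs_of_nonneg ht.1]
        nlinarith [norm_nonneg m, ht.2]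
      _ < ρ := by linarith
  have hzero : (0 : E) = 0 := rfl
  have hF1 : ∀ p, P p = p → p ≠ 0 → ‖p‖ < r₀ → 0 < f (v + p) := by
    intro p hp hp0 hpr
    have hb : ∀ t ∈ Icc (0 : ℝ) 1, v + t • p ∈ Metric.ball v ρ := by
      intro t ht
      have := hball 0 p (by simpa using hr₀pos) hpr t ht
      simpa using this
    have hder : ∀ t ∈ Icc (0 : ℝ) 1, HasDerivAt (fun s : ℝ => f (v + s • p)) (G (v + t • p) p) t :=
      fun t ht => hasDerivAt_line (hG1 _ (hb t ht))
    have hmono : StrictMonoOn (fun s : ℝ => f (v + s • p)) (Icc 0 1) := by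
      apply strictMonoOn_of_deriv_pos (convex_Icc 0 1)
      · exact fun t ht => (hder t ht).continuousAt.continuousWithinAt
      · intro t ht
        rw [interior_Icc] at ht
        rw [(hder t (Ioo_subset_Icc_self ht)).deriv]
        have hne : v + t • p ≠ v := by
          simp [hp0, ht.1.ne']
        have h1 := hG3 _ (hb t (Ioo_subset_Icc_self ht)) v (Metric.mem_ball_self hρ)
          (by simp [hp]) hne
        rw [hG2, sub_zero] at h1
        have h2 : v + t • p - v = t • p := by abel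
        rw [h2, map_smul, smul_eq_mul] at h1
        exact (mul_pos_iff_of_pos_left ht.1).mp h1
    have := hmono (left_mem_Icc.mpr zero_le_one) (right_mem_Icc.mpr zero_le_one) zero_lt_one
    simpa [h.zero] using this
  have hF2 : ∀ m, P m = 0 → m ≠ 0 → ‖m‖ < r₀ → f (v + m) < 0 := by
    intro m hm hm0 hmr
    have hb : ∀ t ∈ Icc (0 : ℝ) 1, v + t • m ∈ Metric.ball v ρ := by
      intro t ht
      have := hball 0 m (by simpa using hr₀pos) hmr t ht
      simpa using this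
    have hder : ∀ t ∈ Icc (0 : ℝ) 1, HasDerivAt (fun s : ℝ => f (v + s • m)) (G (v + t • m) m) t :=
      fun t ht => hasDerivAt_line (hG1 _ (hb t ht))
    have hmono : StrictAntiOn (fun s : ℝ => f (v + s • m)) (Icc 0 1) := by
      apply strictAntiOn_of_deriv_neg (convex_Icc 0 1)
      · exact fun t ht => (hder t ht).continuousAt.continuousWithinAt
      · intro t ht
        rw [interior_Icc] at ht
        rw [(hder t (Ioo_subset_Icc_self ht)).deriv]
        have hne : v + t • m ≠ v := by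
          simp [hm0, ht.1.ne']
        have h1 := hG4 _ (hb t (Ioo_subset_Icc_self ht)) v (Metric.mem_ball_self hρ)
          (by simp [hm]) hne
        rw [hG2, sub_zero] at h1
        have h2 : v + t • m - v = t • m := by abel
        rw [h2, map_smul, smul_eq_mul] at h1
        by_contra hcon
        push Not at hcon
        have := mul_nonneg ht.1.le hcon
        linarith
    have := hmono (left_mem_Icc.mpr zero_le_one) (right_mem_Icc.mpr zero_le_one) zero_lt_one
    simpa [h.zero] using this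
  refine ⟨r₀, hr₀pos, hF1, hF2, ?_⟩
  intro p m hp hm hpr hmr hpos
  have hp0 : p ≠ 0 := by
    rintro rfl
    rw [add_zero] at hpos
    by_cases hm0 : m = 0
    · rw [hm0, add_zero, h.zero] at hpos
      exact lt_irrefl _ hpos
    · exact lt_asymm hpos (hF2 m hm hm0 hmr)
  refine ⟨hp0, fun t ht => ?_⟩
  by_cases hm0 : m = 0
  · simpa [hm0] using hpos
  have hder : ∀ t ∈ Icc (0 : ℝ) 1,
      HasDerivAt (fun s : ℝ => f (v + p + s • m)) (G (v + p + t • m) m) t :=
    fun t ht => hasDerivAt_line (hG1 _ (hball p m hpr hmr t ht))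
  have hconc : StrictConcaveOn ℝ (Icc (0 : ℝ) 1) (fun s : ℝ => f (v + p + s • m)) := by
    apply StrictAntiOn.strictConcaveOn_of_deriv (convex_Icc 0 1)
    · exact fun t ht => (hder t ht).continuousAt.continuousWithinAt
    · intro s hs t ht hst
      rw [interior_Icc] at hs ht
      rw [(hder s (Ioo_subset_Icc_self hs)).deriv, (hder t (Ioo_subset_Icc_self ht)).deriv]
      have h2 : v + p + t • m - (v + p + s • m) = (t - s) • m := by
        rw [sub_smul]; abel
      have hne : v + p + t • m ≠ v + p + s • m := by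
        rw [← sub_ne_zero, h2]
        exact smul_ne_zero (sub_ne_zero.mpr hst.ne') hm0
      have h1 := hG4 _ (hball p m hpr hmr t (Ioo_subset_Icc_self ht)) _
        (hball p m hpr hmr s (Ioo_subset_Icc_self hs)) (by rw [h2]; simp [hm]) hne
      rw [h2, map_smul, smul_eq_mul] at h1
      have h3 : 0 < t - s := sub_pos.mpr hst
      by_contra hcon
      push Not at hcon
      have h4 : 0 ≤ (G (v + p + t • m) - G (v + p + s • m)) m := by
        simpa using hcon
      have := mul_nonneg h3.le h4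
      linarith
  have h0 : 0 < f (v + p + (0 : ℝ) • m) := by
    simpa using hF1 p hp hp0 hpr
  have h1 : 0 < f (v + p + (1 : ℝ) • m) := by
    simpa using hpos
  have := hconc.concaveOn.2 (left_mem_Icc.mpr zero_le_one) (right_mem_Icc.mpr zero_le_one)
    (sub_nonneg.mpr ht.2) ht.1 (by ring)
  simp only [smul_eq_mul, mul_zero, mul_one, zero_add] at this
  rcases ht.1.eq_or_lt with rfl | htpos
  · exact h0
  · have h3 : 0 ≤ (1 - t) * f (v + p + (0 : ℝ) • m) := mul_nonneg (sub_nonneg.mpr ht.2) h0.le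
    have h4 : 0 < t * f (v + p + (1 : ℝ) • m) := mul_pos htpos h1
    linarith

/-- The part of `{f > 0}` in the neighbourhood over a preconnected set `Q` of positive directions
is preconnected. -/
theorem NonDeg.isPreconnected_over [FiniteDimensional ℝ E] {f : E → ℝ} {v : E}
    {B : E →L[ℝ] E →L[ℝ] ℝ} {P : E →L[ℝ] E} (h : NonDeg f v B P) :
    ∃ r₀ > 0, ∀ r ∈ Ioc 0 r₀, ∀ Q : Set E, IsPreconnected Q → Q.Nonempty →
      (∀ p ∈ Q, P p = p ∧ p ≠ 0 ∧ ‖p‖ < r) →
      IsPreconnected ({y | 0 < f y} ∩ prodNhd P v r ∩ {y | P (y - v) ∈ Q}) ∧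
      (∀ p ∈ Q, v + p ∈ {y | 0 < f y} ∩ prodNhd P v r ∩ {y | P (y - v) ∈ Q}) ∧
      (∀ y ∈ {y | 0 < f y} ∩ prodNhd P v r, P (y - v) ≠ 0) ∧
      (∀ y ∈ {y | 0 ≤ f y} ∩ prodNhd P v r, P (y - v) = 0 → y = v) := by
  obtain ⟨r₀, hr₀, h1, h2, h3⟩ := h.signs
  refine ⟨r₀, hr₀, fun r hr Q hQ hQne hQp => ?_⟩
  have hcore : ∀ p ∈ Q, v + p ∈ {y | 0 < f y} ∩ prodNhd P v r ∩ {y | P (y - v) ∈ Q} := by
    intro p hp
    obtain ⟨hp1, hp2, hp3⟩ := hQp p hp
    refine ⟨⟨h1 p hp1 hp2 (hp3.trans_le hr.2), ?_⟩, ?_⟩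
    · have := mem_prodNhd_add h.proj v (r := r) hp1 (map_zero P) hp3 (by simpa using hr.1)
      simpa using this
    · simpa [hp1] using hp
  have hdec : ∀ y ∈ prodNhd P v r, P (P (y - v)) = P (y - v) ∧ P ((y - v) - P (y - v)) = 0 ∧
      ‖P (y - v)‖ < r₀ ∧ ‖(y - v) - P (y - v)‖ < r₀ ∧
      y = v + P (y - v) + ((y - v) - P (y - v)) := by
    intro y hy
    refine ⟨h.proj _, ?_, hy.1.trans_le hr.2, hy.2.trans_le hr.2, by abel⟩
    rw [map_sub, h.proj, sub_self]
  refine ⟨?_, hcore, ?_, ?_⟩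
  · refine isPreconnected_of_core (T := (fun p => v + p) '' Q)
      (hQ.image _ (by fun_prop)) ?_ (hQne.image _) ?_
    · rintro y ⟨p, hp, rfl⟩
      exact hcore p hp
    · rintro y ⟨⟨hy1, hy2⟩, hy3⟩
      obtain ⟨hd1, hd2, hd3, hd4, hd5⟩ := hdec y hy2
      set p := P (y - v) with hp
      set m := (y - v) - P (y - v) with hm
      have hpos : 0 < f (v + p + m) := by
        rw [← hd5]; exact hy1
      obtain ⟨hp0, hseg⟩ := h3 p m hd1 hd2 hd3 hd4 hpos
      refine ⟨segment ℝ (v + p) y, ?_, (convex_segment _ _).isPreconnected,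
        right_mem_segment _ _ _, ⟨v + p, left_mem_segment _ _ _, p, hy3, rfl⟩⟩
      rintro w ⟨a, b, ha, hb, hab, rfl⟩
      have hw : a • (v + p) + b • y = v + p + b • m := by
        have e1 : y = (v + p) + m := hd5
        rw [e1, smul_add b (v + p) m, ← add_assoc, ← add_smul, hab, one_smul]
      rw [hw]
      have hb1 : b ≤ 1 := by linarith
      refine ⟨⟨hseg b ⟨hb, hb1⟩, ?_⟩, ?_⟩
      · refine mem_prodNhd_add h.proj v hd1 (by rw [map_smul, hd2, smul_zero]) hy2.1 ?_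
        rw [norm_smul, Real.norm_eq_abs, abs_of_nonneg hb]
        calc b * ‖m‖ ≤ 1 * ‖m‖ := mul_le_mul_of_nonneg_right hb1 (norm_nonneg _)
          _ = ‖m‖ := one_mul _
          _ < r := hy2.2
      · have e2 : v + p + b • m - v = p + b • m := by abel
        simp only [mem_ofPred_eq, e2, map_add, map_smul, hd2, smul_zero, add_zero, hd1]
        exact hy3
  · rintro y ⟨hy1, hy2⟩
    obtain ⟨hd1, hd2, hd3, hd4, hd5⟩ := hdec y hy2
    have hpos : 0 < f (v + P (y - v) + ((y - v) - P (y - v))) := by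
      rw [← hd5]; exact hy1
    exact (h3 _ _ hd1 hd2 hd3 hd4 hpos).1
  · rintro y ⟨hy1, hy2⟩ hP
    by_contra hne
    have hy : y = v + (y - v) := by abel
    have hneg := h2 (y - v) hP (sub_ne_zero.mpr hne) (by
      have := hy2.2
      rw [hP, sub_zero] at this
      exact this.trans_le hr.2)
    rw [← hy] at hneg
    exact absurd hy1 (not_le.mpr hneg)

/-- Punctured balls in spaces of dimension at least two are preconnected. -/
theorem isPreconnected_punctured_ball {V : Type*} [NormedAddCommGroup V] [NormedSpace ℝ V]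
    (hV : 1 < Module.rank ℝ V) {r : ℝ} : IsPreconnected {p : V | p ≠ 0 ∧ ‖p‖ < r} := by
  have h1 : IsPreconnected (Metric.sphere (0 : V) 1) := isPreconnected_sphere hV 0 1
  have h2 : {p : V | p ≠ 0 ∧ ‖p‖ < r} =
      (fun q : ℝ × V => q.1 • q.2) '' (Ioo 0 r ×ˢ Metric.sphere (0 : V) 1) := by
    ext p
    constructor
    · rintro ⟨hp, hpr⟩
      have hn : 0 < ‖p‖ := norm_pos_iff.mpr hp
      refine ⟨(‖p‖, ‖p‖⁻¹ • p), ⟨⟨hn, hpr⟩, ?_⟩, ?_⟩
      · simp [norm_smul, hp]
      · simp only [smul_smul]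
        rw [mul_inv_cancel₀ hn.ne', one_smul]
    · rintro ⟨⟨t, q⟩, ⟨⟨ht0, htr⟩, hq⟩, rfl⟩
      have hq1 : ‖q‖ = 1 := by simpa using hq
      have hq0 : q ≠ 0 := by
        rintro rfl
        simp at hq1
      refine ⟨smul_ne_zero ht0.ne' hq0, ?_⟩
      simp only [norm_smul, hq1, mul_one, Real.norm_eq_abs, abs_of_pos ht0]
      exact htr
  rw [h2]
  exact (isPreconnected_Ioo.prod h1).image _ (by fun_prop)

theorem isPreconnected_punctured_range {P : E →L[ℝ] E} (hP : ∀ x, P (P x) = P x)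
    (hV : 1 < Module.rank ℝ (LinearMap.range (P : E →ₗ[ℝ] E))) {r : ℝ} :
    IsPreconnected {p : E | P p = p ∧ p ≠ 0 ∧ ‖p‖ < r} := by
  set V := LinearMap.range (P : E →ₗ[ℝ] E) with hVdef
  have h1 := (isPreconnected_punctured_ball (V := V) hV (r := r)).image (fun p : V => (p : E))
    continuous_subtype_val.continuousOn
  convert h1 using 1
  ext p
  constructor
  · rintro ⟨hp, hp0, hpr⟩
    refine ⟨⟨p, ⟨p, hp⟩⟩, ⟨?_, hpr⟩, rfl⟩
    intro hcon
    exact hp0 (congrArg Subtype.val hcon)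
  · rintro ⟨⟨p, ⟨q, hq⟩⟩, ⟨hp0, hpr⟩, rfl⟩
    refine ⟨?_, ?_, hpr⟩
    · have hq' : P q = p := hq
      show P p = p
      rw [← hq', hP]
    · intro hcon
      exact hp0 (Subtype.ext hcon)

theorem tendsto_prodNhd (P : E →L[ℝ] E) (v : E) {U : Set E} (hU : U ∈ 𝓝 v) :
    ∃ r₁ > 0, ∀ r, 0 < r → r ≤ r₁ → prodNhd P v r ⊆ U := by
  obtain ⟨ρ, hρ, hρU⟩ := Metric.mem_nhds_iff.mp hU
  refine ⟨ρ / 2, by positivity, fun r _ hr => ?_⟩
  exact (prodNhd_subset_ball P v r).trans
    ((Metric.ball_subset_ball (by linarith)).trans hρU)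

/-- Index at least two: `{f > 0}` is locally connected at the critical zero. -/
theorem NonDeg.locConn [FiniteDimensional ℝ E] {f : E → ℝ} {v : E} {B : E →L[ℝ] E →L[ℝ] ℝ}
    {P : E →L[ℝ] E} (h : NonDeg f v B P)
    (hV : 1 < Module.rank ℝ (LinearMap.range (P : E →ₗ[ℝ] E))) : LocConn {y | 0 < f y} v := by
  intro U hU
  obtain ⟨r₀, hr₀, H⟩ := h.isPreconnected_over
  obtain ⟨r₁, hr₁, H1⟩ := tendsto_prodNhd P v hU
  set r := min r₀ r₁ with hr
  have hrpos : 0 < r := lt_min hr₀ hr₁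
  obtain ⟨p₀, hp₀1, hp₀2⟩ : ∃ p : E, P p = p ∧ p ≠ 0 := by
    by_contra hcon
    push Not at hcon
    have : LinearMap.range (P : E →ₗ[ℝ] E) = ⊥ := by
      rw [eq_bot_iff]
      rintro _ ⟨x, rfl⟩
      exact (Submodule.mem_bot ℝ).mpr (hcon _ (h.proj x))
    rw [this] at hV
    simp at hV
  have hQne : {p : E | P p = p ∧ p ≠ 0 ∧ ‖p‖ < r}.Nonempty := by
    have hn : 0 < ‖p₀‖ := norm_pos_iff.mpr hp₀2
    refine ⟨(r / (2 * ‖p₀‖)) • p₀, by simp [hp₀1], smul_ne_zero (by positivity) hp₀2, ?_⟩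
    rw [norm_smul, Real.norm_eq_abs, abs_of_pos (by positivity)]
    have : r / (2 * ‖p₀‖) * ‖p₀‖ = r / 2 := by field_simp
    rw [this]
    linarith
  obtain ⟨hpre, hcore, hne, -⟩ := H r ⟨hrpos, min_le_left _ _⟩ _
    (isPreconnected_punctured_range h.proj hV) hQne (fun p hp => hp)
  have heq : {y | 0 < f y} ∩ prodNhd P v r ∩ {y | P (y - v) ∈ {p : E | P p = p ∧ p ≠ 0 ∧ ‖p‖ < r}}
      = {y | 0 < f y} ∩ prodNhd P v r := by
    ext y
    constructor
    · exact fun hy => hy.1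
    · exact fun hy => ⟨hy, h.proj _, hne y hy, hy.2.1⟩
  refine ⟨prodNhd P v r, isOpen_prodNhd _ _ _, mem_prodNhd_self _ _ hrpos,
    H1 r hrpos (min_le_right _ _), ?_, ?_⟩
  · obtain ⟨p, hp⟩ := hQne
    exact ⟨v + p, (hcore p hp).1⟩
  · rw [← heq]
    exact hpre

/-- Index zero: the critical zero is isolated in `{f ≥ 0}`. -/
theorem NonDeg.isolated [FiniteDimensional ℝ E] {f : E → ℝ} {v : E} {B : E →L[ℝ] E →L[ℝ] ℝ}
    (h : NonDeg f v B 0) : ∃ N, IsOpen N ∧ v ∈ N ∧ {y | 0 ≤ f y} ∩ N ⊆ {v} := by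
  obtain ⟨r₀, hr₀, h1, h2, h3⟩ := h.signs
  refine ⟨Metric.ball v r₀, Metric.isOpen_ball, Metric.mem_ball_self hr₀, ?_⟩
  rintro y ⟨hy1, hy2⟩
  by_contra hne
  have hy : y = v + (y - v) := by abel
  have hneg := h2 (y - v) (by simp) (sub_ne_zero.mpr hne) (by rwa [Metric.mem_ball, dist_eq_norm] at hy2)
  rw [← hy] at hneg
  exact absurd hy1 (not_le.mpr hneg)

/-- Index one: two pieces, on the two sides of the kernel of `φ`. -/
theorem NonDeg.two_pieces [FiniteDimensional ℝ E] {f : E → ℝ} {v : E} {B : E →L[ℝ] E →L[ℝ] ℝ}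
    {P : E →L[ℝ] E} (h : NonDeg f v B P) {φ : E →L[ℝ] ℝ} {e : E} (hφ : φ e = 1)
    (hPφ : ∀ x, P x = φ x • e) {U : Set E} (hU : U ∈ 𝓝 v) :
    ∃ N N₁ N₂ : Set E, IsOpen N ∧ v ∈ N ∧ N ⊆ U ∧ {y | 0 < f y} ∩ N = N₁ ∪ N₂ ∧
      N₁ = {y | 0 < f y} ∩ N ∩ {y | 0 < φ (y - v)} ∧ N₂ = {y | 0 < f y} ∩ N ∩ {y | φ (y - v) < 0} ∧
      IsPreconnected N₁ ∧ IsPreconnected N₂ ∧ v ∈ closure N₁ ∧ v ∈ closure N₂ ∧
      (∀ y ∈ {y | 0 ≤ f y} ∩ N, φ (y - v) = 0 → y = v) := by
  obtain ⟨r₀, hr₀, H⟩ := h.isPreconnected_over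
  obtain ⟨r₁, hr₁, H1⟩ := tendsto_prodNhd P v hU
  set r := min r₀ r₁ with hr
  have hrpos : 0 < r := lt_min hr₀ hr₁
  have he0 : e ≠ 0 := by
    rintro rfl
    simp at hφ
  have hne : 0 < ‖e‖ := norm_pos_iff.mpr he0
  have hPe : P e = e := by rw [hPφ, hφ, one_smul]
  set δ := r / ‖e‖ with hδ
  have hδpos : 0 < δ := by positivity
  have hδe : δ * ‖e‖ = r := by rw [hδ]; field_simp
  -- the two half lines
  have hQ : ∀ I : Set ℝ, (∀ t ∈ I, t ≠ 0 ∧ |t| < δ) → ∀ p ∈ (fun t : ℝ => t • e) '' I,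
      P p = p ∧ p ≠ 0 ∧ ‖p‖ < r := by
    rintro I hI _ ⟨t, ht, rfl⟩
    obtain ⟨ht0, htδ⟩ := hI t ht
    refine ⟨by simp [hPe], smul_ne_zero ht0 he0, ?_⟩
    simp only [norm_smul, Real.norm_eq_abs]
    calc |t| * ‖e‖ < δ * ‖e‖ := mul_lt_mul_of_pos_right htδ hne
      _ = r := hδe
  have hpos : ∀ t ∈ Ioo (0 : ℝ) δ, t ≠ 0 ∧ |t| < δ := fun t ht =>
    ⟨ht.1.ne', by rw [abs_of_pos ht.1]; exact ht.2⟩
  have hneg : ∀ t ∈ Ioo (-δ) (0 : ℝ), t ≠ 0 ∧ |t| < δ := fun t ht =>
    ⟨ht.2.ne, by rw [abs_of_neg ht.2]; linarith [ht.1]⟩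
  have hrI : r ∈ Ioc 0 r₀ := ⟨hrpos, min_le_left _ _⟩
  obtain ⟨hp1, hp2, hp3, hp4⟩ := H r hrI ((fun t : ℝ => t • e) '' Ioo 0 δ)
    (isPreconnected_Ioo.image _ (by fun_prop)) ((nonempty_Ioo.mpr hδpos).image _) (hQ _ hpos)
  obtain ⟨hn1, hn2, -, -⟩ := H r hrI ((fun t : ℝ => t • e) '' Ioo (-δ) 0)
    (isPreconnected_Ioo.image _ (by fun_prop))
    ((nonempty_Ioo.mpr (neg_lt_zero.mpr hδpos)).image _) (hQ _ hneg)
  -- membership in terms of `φ`
  have hφb : ∀ y ∈ prodNhd P v r, |φ (y - v)| < δ := by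
    intro y hy
    have h1 := hy.1
    rw [hPφ, norm_smul, Real.norm_eq_abs] at h1
    rw [hδ, lt_div_iff₀ hne]
    exact h1
  have hinj : ∀ s t : ℝ, s • e = t • e → s = t := by
    intro s t hst
    have := congrArg φ hst
    simpa [hφ] using this
  have e1 : {y | 0 < f y} ∩ prodNhd P v r ∩ {y | P (y - v) ∈ (fun t : ℝ => t • e) '' Ioo 0 δ} =
      {y | 0 < f y} ∩ prodNhd P v r ∩ {y | 0 < φ (y - v)} := by
    ext y
    constructor
    · rintro ⟨hy, t, ht, hty⟩
      refine ⟨hy, ?_⟩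
      have : t = φ (y - v) := hinj _ _ (by rw [← hPφ]; exact hty)
      simp only [mem_ofPred_eq, ← this]
      exact ht.1
    · rintro ⟨hy, hyφ⟩
      refine ⟨hy, φ (y - v), ⟨hyφ, (abs_lt.mp (hφb y hy.2)).2⟩, (hPφ _).symm⟩
  have e2 : {y | 0 < f y} ∩ prodNhd P v r ∩ {y | P (y - v) ∈ (fun t : ℝ => t • e) '' Ioo (-δ) 0} =
      {y | 0 < f y} ∩ prodNhd P v r ∩ {y | φ (y - v) < 0} := by
    ext y
    constructor
    · rintro ⟨hy, t, ht, hty⟩
      refine ⟨hy, ?_⟩
      have : t = φ (y - v) := hinj _ _ (by rw [← hPφ]; exact hty)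
      simp only [mem_ofPred_eq, ← this]
      exact ht.2
    · rintro ⟨hy, hyφ⟩
      refine ⟨hy, φ (y - v), ⟨(abs_lt.mp (hφb y hy.2)).1, hyφ⟩, (hPφ _).symm⟩
  have htend : ∀ I : Set ℝ, (0 : ℝ) ∈ closure I → v ∈ closure ((fun t : ℝ => v + t • e) '' I) := by
    intro I hI
    have hc : Continuous fun t : ℝ => v + t • e := by fun_prop
    have := image_closure_subset_closure_image hc (mem_image_of_mem _ hI)
    simpa using this
  refine ⟨prodNhd P v r, _, _, isOpen_prodNhd _ _ _, mem_prodNhd_self _ _ hrpos,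
    H1 r hrpos (min_le_right _ _), ?_, rfl, rfl, ?_, ?_, ?_, ?_, ?_⟩
  · ext y
    constructor
    · intro hy
      have hy0 : φ (y - v) ≠ 0 := by
        intro hcon
        apply hp3 y hy
        rw [hPφ, hcon, zero_smul]
      rcases lt_or_gt_of_ne hy0 with hlt | hgt
      · exact Or.inr ⟨hy, hlt⟩
      · exact Or.inl ⟨hy, hgt⟩
    · rintro (hy | hy)
      · exact hy.1
      · exact hy.1
  · rw [← e1]; exact hp1
  · rw [← e2]; exact hn1
  · refine closure_mono ?_ (htend (Ioo 0 δ) (by rw [closure_Ioo hδpos.ne]; exact ⟨le_rfl, hδpos.le⟩))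
    rintro _ ⟨t, ht, rfl⟩
    rw [← e1]
    exact hp2 _ ⟨t, ht, rfl⟩
  · refine closure_mono ?_ (htend (Ioo (-δ) 0) (by
      rw [closure_Ioo (neg_lt_zero.mpr hδpos).ne]; exact ⟨(neg_lt_zero.mpr hδpos).le, le_rfl⟩))
    rintro _ ⟨t, ht, rfl⟩
    rw [← e2]
    exact hn2 _ ⟨t, ht, rfl⟩
  · intro y hy hy0
    exact hp4 y hy (by rw [hPφ, hy0, zero_smul])

end Pool.Agent.QC.S4
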