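import Mathlib
import Pool.Agent.QC.S4.Fam

/-!
# MP_7c50a9_lc, section 4.1: the components before and after an event

`comps W` is the set of connected components of `W` (as subsets of `E`).  The theorems compare
`comps (W s₀)` and `comps (W s₁)` for a monotone family which is regular at all times of
`[s₀, s₁)` except possibly at one time `σ ∈ [s₀, s₁)`, where one point `v` is exceptional.
-/

namespace Pool.Agent.QC.S4

open Set Topology Filter

variable {E : Type*} [TopologicalSpace E]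

/-- The set of connected components of `W`. -/
def comps (W : Set E) : Set (Set E) := (fun x => connectedComponentIn W x) '' W

theorem mem_comps {W : Set E} {x : E} (hx : x ∈ W) : connectedComponentIn W x ∈ comps W :=
  ⟨x, hx, rfl⟩

theorem comps_eq {W : Set E} {U : Set E} (hU : U ∈ comps W) {x : E} (hx : x ∈ U) :
    U = connectedComponentIn W x := by
  obtain ⟨y, -, rfl⟩ := hU
  exact connectedComponentIn_eq hx

theorem comps_subset {W : Set E} {U : Set E} (hU : U ∈ comps W) : U ⊆ W := by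
  obtain ⟨y, -, rfl⟩ := hU
  exact connectedComponentIn_subset _ _

theorem comps_nonempty {W : Set E} {U : Set E} (hU : U ∈ comps W) : U.Nonempty := by
  obtain ⟨y, hy, rfl⟩ := hU
  exact ⟨y, mem_connectedComponentIn hy⟩

theorem comps_isPreconnected {W : Set E} {U : Set E} (hU : U ∈ comps W) : IsPreconnected U := by
  obtain ⟨y, -, rfl⟩ := hU
  exact isPreconnected_connectedComponentIn

theorem comps_isOpen [LocallyConnectedSpace E] {W : Set E} (hW : IsOpen W) {U : Set E}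
    (hU : U ∈ comps W) : IsOpen U := by
  obtain ⟨y, -, rfl⟩ := hU
  exact hW.connectedComponentIn

theorem comps_eq_of_mem {W : Set E} {U V : Set E} (hU : U ∈ comps W) (hV : V ∈ comps W) {x : E}
    (hxU : x ∈ U) (hxV : x ∈ V) : U = V := by
  rw [comps_eq hU hxU, comps_eq hV hxV]

theorem sUnion_comps (W : Set E) : ⋃₀ comps W = W := by
  ext x
  constructor
  · rintro ⟨U, hU, hx⟩
    exact comps_subset hU hx
  · intro hx
    exact ⟨_, mem_comps hx, mem_connectedComponentIn hx⟩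

/-- The component of a larger set containing a given component. -/
theorem exists_unique_up {W W' : Set E} (h : W ⊆ W') {U : Set E} (hU : U ∈ comps W) :
    ∃! O, O ∈ comps W' ∧ U ⊆ O := by
  obtain ⟨x, hx⟩ := comps_nonempty hU
  have hxW' : x ∈ W' := h (comps_subset hU hx)
  refine ⟨connectedComponentIn W' x, ⟨mem_comps hxW', ?_⟩, ?_⟩
  · exact (comps_isPreconnected hU).subset_connectedComponentIn hx ((comps_subset hU).trans h)
  · rintro O ⟨hO, hUO⟩
    exact comps_eq hO (hUO hx)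

theorem subset_of_mem {W W' : Set E} (h : W ⊆ W') {U O : Set E} (hU : U ∈ comps W)
    (hO : O ∈ comps W') {x : E} (hxU : x ∈ U) (hxO : x ∈ O) : U ⊆ O := by
  rw [comps_eq hO hxO]
  exact (comps_isPreconnected hU).subset_connectedComponentIn hxU ((comps_subset hU).trans h)

/-- Composition of a regular family with an event: the components `U` before. -/
theorem comps_comp {W₀ W₁ W₂ : Set E} (h01 : W₀ ⊆ W₁) (h12 : W₁ ⊆ W₂)
    (h : ∀ U₁ ∈ comps W₁, ∃! U, U ∈ comps W₀ ∧ U ⊆ U₁) {O : Set E} (hO : O ∈ comps W₂)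
    (hO' : ∃! U, U ∈ comps W₁ ∧ U ⊆ O) : ∃! U, U ∈ comps W₀ ∧ U ⊆ O := by
  obtain ⟨U₁, ⟨hU₁, hU₁O⟩, huniq⟩ := hO'
  obtain ⟨U, ⟨hU, hUU₁⟩, huniq'⟩ := h U₁ hU₁
  refine ⟨U, ⟨hU, hUU₁.trans hU₁O⟩, ?_⟩
  rintro V ⟨hV, hVO⟩
  obtain ⟨V₁, ⟨hV₁, hVV₁⟩, -⟩ := exists_unique_up h01 hV
  obtain ⟨x, hx⟩ := comps_nonempty hV
  have hV₁O : V₁ ⊆ O := subset_of_mem h12 hV₁ hO (hVV₁ hx) (hVO hx)
  have hVU : V₁ = U₁ := huniq V₁ ⟨hV₁, hV₁O⟩
  exact huniq' V ⟨hV, hVU ▸ hVV₁⟩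

section Fam

variable [T2Space E] [LocallyPathConnectedSpace E] {s₀ s₁ : ℝ} {W K : ℝ → Set E}

/-- No event: every component after contains exactly one component before. -/
theorem MonoFam.comps_regular (h : MonoFam s₀ s₁ W K) (hreg : RegularOn s₀ s₁ W K)
    {O : Set E} (hO : O ∈ comps (W s₁)) : ∃! U, U ∈ comps (W s₀) ∧ U ⊆ O := by
  have hsub : W s₀ ⊆ W s₁ := h.mono ⟨le_rfl, h.le⟩ ⟨h.le, le_rfl⟩ h.le
  obtain ⟨x, hx⟩ := comps_nonempty hO
  obtain ⟨y, hy, hyx⟩ := h.regular_exists hreg (comps_subset hO hx)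
  have hyO : y ∈ O := by rw [comps_eq hO hx]; exact hyx
  refine ⟨connectedComponentIn (W s₀) y, ⟨mem_comps hy,
    subset_of_mem hsub (mem_comps hy) hO (mem_connectedComponentIn hy) hyO⟩, ?_⟩
  rintro U ⟨hU, hUO⟩
  obtain ⟨z, hz⟩ := comps_nonempty hU
  have hzW : z ∈ W s₀ := comps_subset hU hz
  have h1 : z ∈ connectedComponentIn (W s₁) y := by
    rw [← comps_eq hO hyO]
    exact hUO hz
  have h2 := h.regular_unique hreg hy hzW h1
  exact comps_eq_of_mem hU (mem_comps hy) hz h2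

/-- The components before and after are in bijection if there is no event. -/
theorem MonoFam.ncard_comps_regular (h : MonoFam s₀ s₁ W K) (hreg : RegularOn s₀ s₁ W K) :
    ∃ e : comps (W s₀) ≃ comps (W s₁), ∀ U : comps (W s₀), (U : Set E) ⊆ (e U : Set E) := by
  classical
  have hsub : W s₀ ⊆ W s₁ := h.mono ⟨le_rfl, h.le⟩ ⟨h.le, le_rfl⟩ h.le
  choose up hup hup' using fun U : comps (W s₀) => exists_unique_up hsub U.2
  choose dn hdn hdn' using fun O : comps (W s₁) => h.comps_regular hreg O.2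
  refine ⟨⟨fun U => ⟨up U, (hup U).1⟩, fun O => ⟨dn O, (hdn O).1⟩, fun U => ?_, fun O => ?_⟩,
    fun U => (hup U).2⟩
  · apply Subtype.ext
    exact (hdn' ⟨up U, (hup U).1⟩ U ⟨U.2, (hup U).2⟩).symm
  · apply Subtype.ext
    exact (hup' ⟨dn O, (hdn O).1⟩ O ⟨O.2, (hdn O).2⟩).symm

/-- Event of index `0` at the bottom. -/
theorem MonoFam.comps_index_zero (h : MonoFam s₀ s₁ W K) (hlt : s₀ < s₁)
    (hreg : ∀ s ∈ Ioo s₀ s₁, ∀ x ∈ K s \ W s, LocConn (W s) x) {v : E} (hv : v ∈ K s₀ \ W s₀)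
    (hloc : ∀ x ∈ K s₀ \ W s₀, x ≠ v → LocConn (W s₀) x)
    (hiso : ∃ N, IsOpen N ∧ v ∈ N ∧ K s₀ ∩ N ⊆ {v}) :
    ∃ C ∈ comps (W s₁), v ∈ C ∧ Disjoint C (W s₀) ∧
      ∀ O ∈ comps (W s₁), O ≠ C → ∃! U, U ∈ comps (W s₀) ∧ U ⊆ O := by
  have hs₀ : s₀ ∈ Icc s₀ s₁ := ⟨le_rfl, hlt.le⟩
  have hs₁ : s₁ ∈ Icc s₀ s₁ := ⟨hlt.le, le_rfl⟩
  have hsub : W s₀ ⊆ W s₁ := h.mono hs₀ hs₁ hlt.le
  have hvW : v ∈ W s₁ := h.strict s₀ hs₀ s₁ hs₁ hlt hv.1
  refine ⟨connectedComponentIn (W s₁) v, mem_comps hvW, mem_connectedComponentIn hvW, ?_, ?_⟩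
  · rw [disjoint_left]
    intro x hx hxW
    exact h.index_zero_new hlt hreg hv hiso hxW hx
  · intro O hO hne
    obtain ⟨x, hx⟩ := comps_nonempty hO
    have hxW : x ∈ W s₁ := comps_subset hO hx
    have hvx : v ∉ connectedComponentIn (W s₁) x := by
      intro hv'
      apply hne
      rw [comps_eq hO hx]
      exact connectedComponentIn_eq hv'
    obtain ⟨y, hy, hyx⟩ := h.index_zero_exists hreg hloc hxW hvx
    have hyO : y ∈ O := by rw [comps_eq hO hx]; exact hyx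
    refine ⟨connectedComponentIn (W s₀) y, ⟨mem_comps hy,
      subset_of_mem hsub (mem_comps hy) hO (mem_connectedComponentIn hy) hyO⟩, ?_⟩
    rintro U ⟨hU, hUO⟩
    obtain ⟨z, hz⟩ := comps_nonempty hU
    have h1 : z ∈ connectedComponentIn (W s₁) y := by
      rw [← comps_eq hO hyO]
      exact hUO hz
    have h2 := h.index_zero_unique hlt hreg hloc hiso hv.2 hy (comps_subset hU hz) h1
    exact comps_eq_of_mem hU (mem_comps hy) hz h2

/-- Event of index `1` at the bottom: `N₁`, `N₂` are the two local pieces at `v`. -/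
theorem MonoFam.comps_index_one (h : MonoFam s₀ s₁ W K) (hlt : s₀ < s₁)
    (hreg : ∀ s ∈ Ioo s₀ s₁, ∀ x ∈ K s \ W s, LocConn (W s) x) {v : E} (hv : v ∈ K s₀ \ W s₀)
    (hloc : ∀ x ∈ K s₀ \ W s₀, x ≠ v → LocConn (W s₀) x)
    {N N₁ N₂ : Set E} (hN : IsOpen N) (hvN : v ∈ N) (hWN : W s₀ ∩ N = N₁ ∪ N₂)
    (hN₁ : IsPreconnected N₁) (hN₂ : IsPreconnected N₂) (hv₁ : v ∈ closure N₁)
    (hv₂ : v ∈ closure N₂) :
    ∃ C ∈ comps (W s₁), v ∈ C ∧ ∃ U₁ ∈ comps (W s₀), ∃ U₂ ∈ comps (W s₀),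
      N₁ ⊆ U₁ ∧ N₂ ⊆ U₂ ∧ U₁ ⊆ C ∧ U₂ ⊆ C ∧
      (∀ U ∈ comps (W s₀), U ⊆ C → U = U₁ ∨ U = U₂) ∧
      ∀ O ∈ comps (W s₁), O ≠ C → ∃! U, U ∈ comps (W s₀) ∧ U ⊆ O := by
  have hs₀ : s₀ ∈ Icc s₀ s₁ := ⟨le_rfl, hlt.le⟩
  have hs₁ : s₁ ∈ Icc s₀ s₁ := ⟨hlt.le, le_rfl⟩
  have hsub : W s₀ ⊆ W s₁ := h.mono hs₀ hs₁ hlt.le
  have hvW : v ∈ W s₁ := h.strict s₀ hs₀ s₁ hs₁ hlt hv.1
  obtain ⟨p₁, -, hp₁⟩ := mem_closure_iff.mp hv₁ univ isOpen_univ (mem_univ _)
  obtain ⟨p₂, -, hp₂⟩ := mem_closure_iff.mp hv₂ univ isOpen_univ (mem_univ _)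
  have hN₁W : N₁ ⊆ W s₀ := fun x hx => (hWN.symm ▸ Or.inl hx : x ∈ W s₀ ∩ N).1
  have hN₂W : N₂ ⊆ W s₀ := fun x hx => (hWN.symm ▸ Or.inr hx : x ∈ W s₀ ∩ N).1
  have hj₁ : p₁ ∈ connectedComponentIn (W s₁) v := h.index_one_joined hlt hv.1 hN₁ hN₁W hp₁ hv₁
  have hj₂ : p₂ ∈ connectedComponentIn (W s₁) v := h.index_one_joined hlt hv.1 hN₂ hN₂W hp₂ hv₂
  have hC := mem_comps hvW
  have huniq : ∀ {a b : E}, a ∈ W s₀ → b ∈ W s₀ → b ∈ connectedComponentIn (W s₁) a →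
      b ∈ connectedComponentIn (W s₀) a ∨
      ((connectedComponentIn (W s₀) a = connectedComponentIn (W s₀) p₁ ∧
        connectedComponentIn (W s₀) b = connectedComponentIn (W s₀) p₂) ∨
       (connectedComponentIn (W s₀) a = connectedComponentIn (W s₀) p₂ ∧
        connectedComponentIn (W s₀) b = connectedComponentIn (W s₀) p₁)) := fun ha hb hab =>
    h.index_one_unique hlt hreg hloc hN hvN hWN hN₁ hN₂ hp₁ hp₂ ha hb hab
  refine ⟨connectedComponentIn (W s₁) v, hC, mem_connectedComponentIn hvW,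
    connectedComponentIn (W s₀) p₁, mem_comps (hN₁W hp₁), connectedComponentIn (W s₀) p₂,
    mem_comps (hN₂W hp₂), hN₁.subset_connectedComponentIn hp₁ hN₁W,
    hN₂.subset_connectedComponentIn hp₂ hN₂W,
    subset_of_mem hsub (mem_comps (hN₁W hp₁)) hC (mem_connectedComponentIn (hN₁W hp₁)) hj₁,
    subset_of_mem hsub (mem_comps (hN₂W hp₂)) hC (mem_connectedComponentIn (hN₂W hp₂)) hj₂, ?_, ?_⟩
  · intro U hU hUC
    obtain ⟨z, hz⟩ := comps_nonempty hU
    have hzW : z ∈ W s₀ := comps_subset hU hz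
    have h1 : z ∈ connectedComponentIn (W s₁) p₁ := by
      rw [← comps_eq hC hj₁]
      exact hUC hz
    rw [comps_eq hU hz]
    rcases huniq (hN₁W hp₁) hzW h1 with h2 | ⟨-, h2⟩ | ⟨-, h2⟩
    · exact Or.inl (connectedComponentIn_eq h2).symm
    · exact Or.inr h2
    · exact Or.inl h2
  · intro O hO hne
    obtain ⟨x, hx⟩ := comps_nonempty hO
    have hxW : x ∈ W s₁ := comps_subset hO hx
    obtain ⟨y, hy, hyx⟩ := h.index_one_exists hreg hloc (closure_mono hN₁W hv₁) hxW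
    have hyO : y ∈ O := by rw [comps_eq hO hx]; exact hyx
    refine ⟨connectedComponentIn (W s₀) y, ⟨mem_comps hy,
      subset_of_mem hsub (mem_comps hy) hO (mem_connectedComponentIn hy) hyO⟩, ?_⟩
    rintro U ⟨hU, hUO⟩
    obtain ⟨z, hz⟩ := comps_nonempty hU
    have hzW : z ∈ W s₀ := comps_subset hU hz
    have h1 : z ∈ connectedComponentIn (W s₁) y := by
      rw [← comps_eq hO hyO]
      exact hUO hz
    -- otherwise `O` would be the component of `v`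
    have hnot : ∀ p, p ∈ W s₀ → p ∈ connectedComponentIn (W s₁) v →
        connectedComponentIn (W s₀) y ≠ connectedComponentIn (W s₀) p := by
      intro p hp hpv heq
      apply hne
      have h3 : p ∈ connectedComponentIn (W s₁) y :=
        connectedComponentIn_mono y hsub (heq ▸ mem_connectedComponentIn hp)
      rw [comps_eq hO hyO]
      exact (connectedComponentIn_eq h3).trans (connectedComponentIn_eq hpv).symm
    rcases huniq hy hzW h1 with h2 | ⟨h2, -⟩ | ⟨h2, -⟩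
    · exact comps_eq_of_mem hU (mem_comps hy) hz h2
    · exact absurd h2 (hnot p₁ (hN₁W hp₁) hj₁)
    · exact absurd h2 (hnot p₂ (hN₂W hp₂) hj₂)

end Fam

end Pool.Agent.QC.S4
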