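import Mathlib
import Pool.Agent.QC.S4.Comps
import Pool.Agent.QC.S4.Local

/-!
# MP_7c50a9_lc, section 4.1: families `{f_s > 0}`

`O ⊆ ℝ × E` open, `f : ℝ × E → ℝ` continuous on `O`, strictly increasing in `s` where it is
nonnegative, `{p ∈ O : s₀ ≤ s ≤ s₁, f ≥ 0}` compact.
-/

namespace Pool.Agent.QC.S4

open Set Topology Filter

set_option linter.unusedSectionVars false

/-- Hypotheses of section 4.1 on `f` over the open set `O`. -/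
structure FunFam {E : Type*} [TopologicalSpace E] (s₀ s₁ : ℝ) (O : Set (ℝ × E)) (f : ℝ × E → ℝ) :
    Prop where
  le : s₀ ≤ s₁
  isOpen : IsOpen O
  cont : ContinuousOn f O
  strict : ∀ s ∈ Icc s₀ s₁, ∀ t ∈ Icc s₀ s₁, s < t → ∀ x, (s, x) ∈ O → 0 ≤ f (s, x) →
    (t, x) ∈ O ∧ 0 < f (t, x)
  compact : IsCompact {p : ℝ × E | p ∈ O ∧ p.1 ∈ Icc s₀ s₁ ∧ 0 ≤ f p}

/-- The open sets `{f_s > 0}`. -/
def WW {E : Type*} (O : Set (ℝ × E)) (f : ℝ × E → ℝ) (s : ℝ) : Set E :=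
  {x | (s, x) ∈ O ∧ 0 < f (s, x)}

/-- The closed sets `{f_s ≥ 0}`. -/
def KK {E : Type*} (O : Set (ℝ × E)) (f : ℝ × E → ℝ) (s : ℝ) : Set E :=
  {x | (s, x) ∈ O ∧ 0 ≤ f (s, x)}

section Top

variable {E : Type*} [TopologicalSpace E] [T2Space E] {s₀ s₁ : ℝ} {O : Set (ℝ × E)}
  {f : ℝ × E → ℝ}

theorem isOpen_WW (hO : IsOpen O) (hf : ContinuousOn f O) (s : ℝ) : IsOpen (WW O f s) := by
  have h1 : IsOpen (O ∩ f ⁻¹' Ioi 0) := hf.isOpen_inter_preimage hO isOpen_Ioi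
  have hc : Continuous fun x : E => (s, x) := by fun_prop
  exact h1.preimage hc

theorem FunFam.monoFam (h : FunFam s₀ s₁ O f) : MonoFam s₀ s₁ (WW O f) (KK O f) where
  le := h.le
  isOpen s _ := isOpen_WW h.isOpen h.cont s
  isCompact s hs := by
    have h1 : IsCompact ({p : ℝ × E | p ∈ O ∧ p.1 ∈ Icc s₀ s₁ ∧ 0 ≤ f p} ∩ {p | p.1 = s}) :=
      h.compact.inter_right (isClosed_eq continuous_fst continuous_const)
    have h2 := h1.image continuous_snd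
    convert h2 using 1
    ext x
    constructor
    · rintro ⟨hx, hfx⟩
      exact ⟨(s, x), ⟨⟨hx, hs, hfx⟩, rfl⟩, rfl⟩
    · rintro ⟨⟨t, y⟩, ⟨⟨hp, -, hfp⟩, ht⟩, rfl⟩
      have ht' : t = s := ht
      subst ht'
      exact ⟨hp, hfp⟩
  sub s _ x hx := ⟨hx.1, hx.2.le⟩
  strict s hs t ht hst x hx := h.strict s hs t ht hst x hx.1 hx.2
  left s hs x hx := by
    have h1 : IsOpen (O ∩ f ⁻¹' Ioi 0) := h.cont.isOpen_inter_preimage h.isOpen isOpen_Ioi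
    have hc : Continuous fun r : ℝ => (r, x) := by fun_prop
    have h2 : {r : ℝ | (r, x) ∈ O ∩ f ⁻¹' Ioi 0} ∈ 𝓝 s := (h1.preimage hc).mem_nhds hx
    obtain ⟨δ, hδ, hδs⟩ := Metric.mem_nhds_iff.mp h2
    set r := max s₀ (s - δ / 2) with hr
    have hrs : r < s := max_lt hs.1 (by linarith)
    refine ⟨r, ⟨le_max_left _ _, hrs⟩, ?_⟩
    have hrb : r ∈ Metric.ball s δ := by
      rw [Metric.mem_ball, Real.dist_eq, abs_sub_comm, abs_of_pos (by linarith)]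
      have : s - δ / 2 ≤ r := le_max_right _ _
      linarith
    have h3 := hδs hrb
    exact ⟨h3.1, (mem_Ioi.mp h3.2).le⟩
  right s hs x hx := by
    have hcl : IsClosed {p : ℝ × E | p ∈ O ∧ p.1 ∈ Icc s₀ s₁ ∧ 0 ≤ f p} := h.compact.isClosed
    have hc : Continuous fun r : ℝ => (r, x) := by fun_prop
    have h1 : (s, x) ∈ {p : ℝ × E | p ∈ O ∧ p.1 ∈ Icc s₀ s₁ ∧ 0 ≤ f p} := by
      have h2 : IsClosed {r : ℝ | (r, x) ∈ {p : ℝ × E | p ∈ O ∧ p.1 ∈ Icc s₀ s₁ ∧ 0 ≤ f p}} :=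
        hcl.preimage hc
      have h3 : s ∈ closure (Ioc s s₁) := by
        rw [closure_Ioc hs.2.ne]
        exact ⟨le_rfl, hs.2.le⟩
      refine (closure_minimal ?_ h2) h3
      intro r hr
      have := hx r hr
      exact ⟨this.1, ⟨hs.1.trans hr.1.le, hr.2⟩, this.2⟩
    exact ⟨h1.1, h1.2.2⟩

/-- Local connectedness only depends on the germ. -/
theorem LocConn.congr {W W' : Set E} {x : E} (h : LocConn W x)
    (heq : ∀ᶠ y in 𝓝 x, y ∈ W ↔ y ∈ W') : LocConn W' x := by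
  intro U hU
  obtain ⟨N, hN, hxN, hNU, hNc⟩ := h (U ∩ {y | y ∈ W ↔ y ∈ W'}) (inter_mem hU heq)
  refine ⟨N, hN, hxN, fun y hy => (hNU hy).1, ?_⟩
  have : W' ∩ N = W ∩ N := by
    ext y
    constructor
    · rintro ⟨hy1, hy2⟩
      exact ⟨(hNU hy2).2.mpr hy1, hy2⟩
    · rintro ⟨hy1, hy2⟩
      exact ⟨(hNU hy2).2.mp hy1, hy2⟩
  rw [this]
  exact hNc

theorem eventually_WW_iff (hO : IsOpen O) {s : ℝ} {x : E} (hx : (s, x) ∈ O) :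
    ∀ᶠ y in 𝓝 x, y ∈ {y | 0 < f (s, y)} ↔ y ∈ WW O f s := by
  have hc : Continuous fun x : E => (s, x) := by fun_prop
  filter_upwards [(hO.preimage hc).mem_nhds hx] with y hy
  constructor
  · exact fun h => ⟨hy, h⟩
  · exact fun h => h.2

end Top

section Smooth

variable {E : Type*} [NormedAddCommGroup E] [NormedSpace ℝ E] [FiniteDimensional ℝ E]
  {s₀ s₁ : ℝ} {O : Set (ℝ × E)} {f : ℝ × E → ℝ}

/-- The time `s` is regular: no singular zero of `f_s`. -/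
def RegTime (O : Set (ℝ × E)) (f : ℝ × E → ℝ) (s : ℝ) : Prop :=
  ∀ x, (s, x) ∈ O → f (s, x) = 0 → ∃ f' : E →L[ℝ] ℝ,
    HasStrictFDerivAt (fun y => f (s, y)) f' x ∧ f' ≠ 0

theorem locConn_WW_of_deriv (hO : IsOpen O) {s : ℝ} {x : E} (hx : (s, x) ∈ O)
    (h0 : f (s, x) = 0) {f' : E →L[ℝ] ℝ} (hf : HasStrictFDerivAt (fun y => f (s, y)) f' x)
    (hf' : f' ≠ 0) : LocConn (WW O f s) x :=
  (locConn_of_regular hf hf' h0).congr (eventually_WW_iff hO hx)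

theorem RegTime.locConn (hO : IsOpen O) {s : ℝ} (h : RegTime O f s) {x : E}
    (hx : x ∈ KK O f s \ WW O f s) : LocConn (WW O f s) x := by
  have h0 : f (s, x) = 0 := le_antisymm (not_lt.mp fun hlt => hx.2 ⟨hx.1.1, hlt⟩) hx.1.2
  obtain ⟨f', hf', hne⟩ := h x hx.1.1 h0
  exact locConn_WW_of_deriv hO hx.1.1 h0 hf' hne

/-- **No event**: bijection between the components. -/
theorem FunFam.regular (h : FunFam s₀ s₁ O f) (hreg : ∀ s ∈ Ico s₀ s₁, RegTime O f s) :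
    ∀ C ∈ comps (WW O f s₁), ∃! U, U ∈ comps (WW O f s₀) ∧ U ⊆ C :=
  fun _ hC => h.monoFam.comps_regular (fun s hs _ hx => (hreg s hs).locConn h.isOpen hx) hC

/-- **Event of index at least two**: bijection between the components. -/
theorem FunFam.index_ge_two (h : FunFam s₀ s₁ O f) {σ : ℝ} (hσ : σ ∈ Ico s₀ s₁)
    (hreg : ∀ s ∈ Ico s₀ s₁, s ≠ σ → RegTime O f s) {v : E} (hv : (σ, v) ∈ O)
    (hregv : ∀ x, x ≠ v → (σ, x) ∈ O → f (σ, x) = 0 → ∃ f' : E →L[ℝ] ℝ,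
      HasStrictFDerivAt (fun y => f (σ, y)) f' x ∧ f' ≠ 0)
    {B : E →L[ℝ] E →L[ℝ] ℝ} {P : E →L[ℝ] E} (hnd : NonDeg (fun y => f (σ, y)) v B P)
    (hP : 1 < Module.rank ℝ (LinearMap.range (P : E →ₗ[ℝ] E))) :
    ∀ C ∈ comps (WW O f s₁), ∃! U, U ∈ comps (WW O f s₀) ∧ U ⊆ C := by
  intro C hC
  refine h.monoFam.comps_regular (fun s hs x hx => ?_) hC
  by_cases hsσ : s = σ
  · subst hsσ
    by_cases hxv : x = v
    · subst hxv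
      exact (hnd.locConn hP).congr (eventually_WW_iff h.isOpen hv)
    · have h0 : f (s, x) = 0 := le_antisymm (not_lt.mp fun hlt => hx.2 ⟨hx.1.1, hlt⟩) hx.1.2
      obtain ⟨f', hf', hne⟩ := hregv x hxv hx.1.1 h0
      exact locConn_WW_of_deriv h.isOpen hx.1.1 h0 hf' hne
  · exact (hreg s hs hsσ).locConn h.isOpen hx

/-- **Event of index zero.** -/
theorem FunFam.index_zero (h : FunFam s₀ s₁ O f) {σ : ℝ} (hσ : σ ∈ Ico s₀ s₁)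
    (hreg : ∀ s ∈ Ico s₀ s₁, s ≠ σ → RegTime O f s) {v : E} (hv : (σ, v) ∈ O)
    (hregv : ∀ x, x ≠ v → (σ, x) ∈ O → f (σ, x) = 0 → ∃ f' : E →L[ℝ] ℝ,
      HasStrictFDerivAt (fun y => f (σ, y)) f' x ∧ f' ≠ 0)
    {B : E →L[ℝ] E →L[ℝ] ℝ} (hnd : NonDeg (fun y => f (σ, y)) v B 0) :
    ∃ C ∈ comps (WW O f s₁), v ∈ C ∧ Disjoint C (WW O f s₀) ∧
      ∀ C' ∈ comps (WW O f s₁), C' ≠ C → ∃! U, U ∈ comps (WW O f s₀) ∧ U ⊆ C' := by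
  have hm := h.monoFam
  have hσI : σ ∈ Icc s₀ s₁ := ⟨hσ.1, hσ.2.le⟩
  have hm1 : MonoFam σ s₁ (WW O f) (KK O f) := hm.restrict hσ.1 hσ.2.le le_rfl
  have hm0 : MonoFam s₀ σ (WW O f) (KK O f) := hm.restrict le_rfl hσ.1 hσ.2.le
  have h0v : f (σ, v) = 0 := hnd.zero
  have hvK : v ∈ KK O f σ \ WW O f σ := ⟨⟨hv, h0v.ge⟩, fun hw => hw.2.ne' h0v⟩
  have hlocv : ∀ x ∈ KK O f σ \ WW O f σ, x ≠ v → LocConn (WW O f σ) x := by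
    intro x hx hxv
    have h0 : f (σ, x) = 0 := le_antisymm (not_lt.mp fun hlt => hx.2 ⟨hx.1.1, hlt⟩) hx.1.2
    obtain ⟨f', hf', hne⟩ := hregv x hxv hx.1.1 h0
    exact locConn_WW_of_deriv h.isOpen hx.1.1 h0 hf' hne
  obtain ⟨N, hN, hvN, hNv⟩ := hnd.isolated
  obtain ⟨C, hC, hvC, hdis, hrest⟩ := hm1.comps_index_zero hσ.2
    (fun s hs x hx => (hreg s ⟨hσ.1.trans hs.1.le, hs.2⟩ hs.1.ne').locConn h.isOpen hx) hvK hlocv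
    ⟨N, hN, hvN, fun x hx => hNv ⟨hx.1.2, hx.2⟩⟩
  have hreg0 : RegularOn s₀ σ (WW O f) (KK O f) := fun s hs x hx =>
    (hreg s ⟨hs.1, hs.2.trans hσ.2⟩ hs.2.ne).locConn h.isOpen hx
  have hsub0 : WW O f s₀ ⊆ WW O f σ := hm.mono ⟨le_rfl, h.le⟩ hσI hσ.1
  have hsub1 : WW O f σ ⊆ WW O f s₁ := hm.mono hσI ⟨h.le, le_rfl⟩ hσ.2.le
  refine ⟨C, hC, hvC, hdis.mono_right hsub0, fun C' hC' hne => ?_⟩
  exact comps_comp hsub0 hsub1 (fun U₁ hU₁ => hm0.comps_regular hreg0 hU₁) hC' (hrest C' hC' hne)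

/-- **Event of index one.**  `U₁` contains the points before the event near `v` with
`φ (x - v) > 0`, `U₂` those with `φ (x - v) < 0`. -/
theorem FunFam.index_one (h : FunFam s₀ s₁ O f) {σ : ℝ} (hσ : σ ∈ Ico s₀ s₁)
    (hreg : ∀ s ∈ Ico s₀ s₁, s ≠ σ → RegTime O f s) {v : E} (hv : (σ, v) ∈ O)
    (hregv : ∀ x, x ≠ v → (σ, x) ∈ O → f (σ, x) = 0 → ∃ f' : E →L[ℝ] ℝ,
      HasStrictFDerivAt (fun y => f (σ, y)) f' x ∧ f' ≠ 0)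
    {B : E →L[ℝ] E →L[ℝ] ℝ} {P : E →L[ℝ] E} (hnd : NonDeg (fun y => f (σ, y)) v B P)
    {φ : E →L[ℝ] ℝ} {e : E} (hφ : φ e = 1) (hPφ : ∀ x, P x = φ x • e) {U : Set E}
    (hU : U ∈ 𝓝 v) :
    ∃ N, IsOpen N ∧ v ∈ N ∧ N ⊆ U ∧ (∀ y ∈ KK O f σ ∩ N, φ (y - v) = 0 → y = v) ∧
    ∃ C ∈ comps (WW O f s₁), v ∈ C ∧ ∃ U₁ ∈ comps (WW O f s₀), ∃ U₂ ∈ comps (WW O f s₀),
      (∀ x ∈ WW O f s₀ ∩ N, 0 < φ (x - v) → x ∈ U₁) ∧
      (∀ x ∈ WW O f s₀ ∩ N, φ (x - v) < 0 → x ∈ U₂) ∧ U₁ ⊆ C ∧ U₂ ⊆ C ∧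
      (∀ V ∈ comps (WW O f s₀), V ⊆ C → V = U₁ ∨ V = U₂) ∧
      ∀ C' ∈ comps (WW O f s₁), C' ≠ C → ∃! V, V ∈ comps (WW O f s₀) ∧ V ⊆ C' := by
  have hm := h.monoFam
  have hσI : σ ∈ Icc s₀ s₁ := ⟨hσ.1, hσ.2.le⟩
  have hm1 : MonoFam σ s₁ (WW O f) (KK O f) := hm.restrict hσ.1 hσ.2.le le_rfl
  have hm0 : MonoFam s₀ σ (WW O f) (KK O f) := hm.restrict le_rfl hσ.1 hσ.2.le
  have h0v : f (σ, v) = 0 := hnd.zero
  have hvK : v ∈ KK O f σ \ WW O f σ := ⟨⟨hv, h0v.ge⟩, fun hw => hw.2.ne' h0v⟩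
  have hlocv : ∀ x ∈ KK O f σ \ WW O f σ, x ≠ v → LocConn (WW O f σ) x := by
    intro x hx hxv
    have h0 : f (σ, x) = 0 := le_antisymm (not_lt.mp fun hlt => hx.2 ⟨hx.1.1, hlt⟩) hx.1.2
    obtain ⟨f', hf', hne⟩ := hregv x hxv hx.1.1 h0
    exact locConn_WW_of_deriv h.isOpen hx.1.1 h0 hf' hne
  have hc : Continuous fun x : E => (σ, x) := by fun_prop
  have hU' : U ∩ (fun x : E => (σ, x)) ⁻¹' O ∈ 𝓝 v :=
    inter_mem hU ((h.isOpen.preimage hc).mem_nhds hv)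
  obtain ⟨N, N₁, N₂, hN, hvN, hNU, hWN, hN₁, hN₂, hc₁, hc₂, hcl₁, hcl₂, hker⟩ :=
    hnd.two_pieces hφ hPφ hU'
  have hWN' : WW O f σ ∩ N = N₁ ∪ N₂ := by
    rw [← hWN]
    ext y
    constructor
    · exact fun hy => ⟨hy.1.2, hy.2⟩
    · exact fun hy => ⟨⟨(hNU hy.2).2, hy.1⟩, hy.2⟩
  obtain ⟨C, hC, hvC, V₁, hV₁, V₂, hV₂, hNV₁, hNV₂, hV₁C, hV₂C, honly, hrest⟩ :=
    hm1.comps_index_one hσ.2
    (fun s hs x hx => (hreg s ⟨hσ.1.trans hs.1.le, hs.2⟩ hs.1.ne').locConn h.isOpen hx) hvK hlocv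
    hN hvN hWN' hc₁ hc₂ hcl₁ hcl₂
  have hreg0 : RegularOn s₀ σ (WW O f) (KK O f) := fun s hs x hx =>
    (hreg s ⟨hs.1, hs.2.trans hσ.2⟩ hs.2.ne).locConn h.isOpen hx
  have hsub0 : WW O f s₀ ⊆ WW O f σ := hm.mono ⟨le_rfl, h.le⟩ hσI hσ.1
  have hsub1 : WW O f σ ⊆ WW O f s₁ := hm.mono hσI ⟨h.le, le_rfl⟩ hσ.2.le
  obtain ⟨U₁, ⟨hU₁, hU₁V⟩, hu₁⟩ := hm0.comps_regular hreg0 hV₁
  obtain ⟨U₂, ⟨hU₂, hU₂V⟩, hu₂⟩ := hm0.comps_regular hreg0 hV₂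
  refine ⟨N, hN, hvN, fun y hy => (hNU hy).1, fun y hy => hker y ⟨hy.1.2, hy.2⟩, C, hC, hvC, U₁,
    hU₁, U₂, hU₂, ?_, ?_, hU₁V.trans hV₁C, hU₂V.trans hV₂C, ?_, fun C' hC' hne =>
      comps_comp hsub0 hsub1 (fun U₁ hU₁ => hm0.comps_regular hreg0 hU₁) hC' (hrest C' hC' hne)⟩
  · rintro x ⟨hx, hxN⟩ hxφ
    have hxN₁ : x ∈ N₁ := by
      rw [hN₁]
      exact ⟨⟨(hsub0 hx).2, hxN⟩, hxφ⟩
    have hsub := subset_of_mem hsub0 (mem_comps hx) hV₁ (mem_connectedComponentIn hx) (hNV₁ hxN₁)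
    rw [← hu₁ _ ⟨mem_comps hx, hsub⟩]
    exact mem_connectedComponentIn hx
  · rintro x ⟨hx, hxN⟩ hxφ
    have hxN₂ : x ∈ N₂ := by
      rw [hN₂]
      exact ⟨⟨(hsub0 hx).2, hxN⟩, hxφ⟩
    have hsub := subset_of_mem hsub0 (mem_comps hx) hV₂ (mem_connectedComponentIn hx) (hNV₂ hxN₂)
    rw [← hu₂ _ ⟨mem_comps hx, hsub⟩]
    exact mem_connectedComponentIn hx
  · intro V hV hVC
    obtain ⟨V', ⟨hV', hVV'⟩, -⟩ := exists_unique_up hsub0 hV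
    obtain ⟨x, hx⟩ := comps_nonempty hV
    have hV'C : V' ⊆ C := subset_of_mem hsub1 hV' hC (hVV' hx) (hVC hx)
    rcases honly V' hV' hV'C with rfl | rfl
    · exact Or.inl (hu₁ V ⟨hV, hVV'⟩)
    · exact Or.inr (hu₂ V ⟨hV, hVV'⟩)

end Smooth

end Pool.Agent.QC.S4
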