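import Pool.Agent.QC.Inst
import Pool.Agent.QC.FMu

/-!
# MP_7c50a9_lc: solutions along real maps

`FamLS.par_of_hasLineDeriv`: a function `u` on an open set `B` of a real normed space with values
in the fibres over `h : B → E` which satisfies the ODE of the connection in all (real) directions
is parallel.
-/

namespace Pool.Agent.QC.S4

open MvPolynomial Filter Topology Set

set_option linter.unusedSectionVars false

theorem irrC_of_irrational {a : ℝ} (ha : Irrational a) : IrrC (a : ℂ) := by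
  intro p q hq h
  have h1 : (q : ℝ) * a = p := by
    have h2 : (((q : ℝ) * a : ℝ) : ℂ) = ((p : ℝ) : ℂ) := by
      push_cast
      exact h
    exact Complex.ofReal_injective h2
  have hq' : (q : ℝ) ≠ 0 := by exact_mod_cast hq
  have h2 : a = ((p / q : ℚ) : ℝ) := by
    push_cast
    field_simp
    linarith
  exact ha ⟨_, h2.symm⟩

/-- `C¹` criterion with line derivatives. -/
theorem hasFDerivAt_of_line {E W : Type*} [NormedAddCommGroup E]
    [NormedSpace ℂ E] [NormedAddCommGroup W] [NormedSpace ℂ W] {N : Set E} (hN : IsOpen N)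
    {y : E → W} {L : E → E →L[ℂ] W} (hL : ∀ p ∈ N, ∀ v, HasLineDerivAt ℂ y (L p v) p v)
    {p : E} (hp : p ∈ N) (hc : ContinuousAt L p) : HasFDerivAt y (L p) p := by
  rw [hasFDerivAt_iff_isLittleO_nhds_zero, Asymptotics.isLittleO_iff]
  intro ε hε
  have h1 : ∀ᶠ q in 𝓝 p, q ∈ N ∧ ‖L q - L p‖ ≤ ε := by
    have h0 : ∀ᶠ q in 𝓝 p, q ∈ N := hN.mem_nhds hp
    refine h0.and ?_
    have : Tendsto (fun q => ‖L q - L p‖) (𝓝 p) (𝓝 ‖L p - L p‖) :=
      (hc.sub (continuousAt_const (y := L p))).norm.tendsto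
    rw [sub_self, norm_zero] at this
    exact (this.eventually (gt_mem_nhds hε)).mono fun q hq => hq.le
  obtain ⟨δ, hδ, hδp⟩ := Metric.eventually_nhds_iff_ball.mp h1
  filter_upwards [Metric.ball_mem_nhds (0 : E) hδ] with w hw
  have hwn : ‖w‖ < δ := by simpa using hw
  have hseg : ∀ t ∈ Icc (0 : ℝ) 1, p + (t : ℂ) • w ∈ Metric.ball p δ := by
    intro t ht
    rw [Metric.mem_ball, dist_eq_norm, add_sub_cancel_left, norm_smul, Complex.norm_real,
      Real.norm_eq_abs, abs_of_nonneg ht.1]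
    calc t * ‖w‖ ≤ 1 * ‖w‖ := by
          exact mul_le_mul_of_nonneg_right ht.2 (norm_nonneg _)
      _ = ‖w‖ := one_mul _
      _ < δ := hwn
  have hd : ∀ t ∈ Icc (0 : ℝ) 1, HasDerivWithinAt (fun t : ℝ => y (p + (t : ℂ) • w) - (t : ℂ) • L p w)
      (L (p + (t : ℂ) • w) w - L p w) (Icc (0 : ℝ) 1) t := by
    intro t ht
    have h2 := hL _ (hδp _ (hseg t ht)).1 w
    have h3 : HasDerivAt (fun s : ℂ => y (p + s • w)) (L (p + (t : ℂ) • w) w) (t : ℂ) := by
      have h4 : HasDerivAt (fun s : ℂ => y (p + (t : ℂ) • w + s • w)) (L (p + (t : ℂ) • w) w)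
          (-(t : ℂ) + (t : ℂ)) := by
        rw [neg_add_cancel]
        exact h2
      have h5 := h4.comp_const_add (-(t : ℂ)) (t : ℂ)
      refine h5.congr_of_eventuallyEq (Eventually.of_forall fun s => ?_)
      simp only
      rw [add_assoc, ← add_smul]
      congr 3
      ring
    have h6 : HasDerivAt (fun t : ℝ => (t : ℂ)) 1 t := Complex.ofRealCLM.hasDerivAt
    have h7 : HasDerivAt (fun t : ℝ => y (p + (t : ℂ) • w)) (L (p + (t : ℂ) • w) w) t := by
      have := h3.scomp t h6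
      rw [one_smul] at this
      exact this
    have h8 : HasDerivAt (fun t : ℝ => (t : ℂ) • L p w) (L p w) t := by
      simpa using h6.smul_const (L p w)
    exact (h7.sub h8).hasDerivWithinAt
  have hb : ∀ t ∈ Ico (0 : ℝ) 1, ‖L (p + (t : ℂ) • w) w - L p w‖ ≤ ε * ‖w‖ := by
    intro t ht
    have h2 := (hδp _ (hseg t ⟨ht.1, ht.2.le⟩)).2
    calc ‖L (p + (t : ℂ) • w) w - L p w‖ = ‖(L (p + (t : ℂ) • w) - L p) w‖ := rfl
      _ ≤ ‖L (p + (t : ℂ) • w) - L p‖ * ‖w‖ := ContinuousLinearMap.le_opNorm _ _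
      _ ≤ ε * ‖w‖ := mul_le_mul_of_nonneg_right h2 (norm_nonneg _)
  have := norm_image_sub_le_of_norm_deriv_le_segment_01' hd hb
  simpa [sub_right_comm] using this

section Fam

variable {E : Type*} [NormedAddCommGroup E] [NormedSpace ℂ E] [FiniteDimensional ℂ E] {m D : ℕ}
  {e : Fin m → ℕ} {a : ℝ} {F : E → Cf m D}

/-- The box vector of a functional. -/
noncomputable def bv {m : ℕ} (D : ℕ) (e : Fin m → ℕ) (y : Fnl m) : BoxT D e → ℂ :=
  fun b => y (mon b)

theorem connMat_add_left {c : Fin m → ℂ} {b : ℂ} (h k G : Cf m D) :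
    connMat e b c (h + k) G = connMat e b c h G + connMat e b c k G := by
  unfold connMat
  rw [mulMat_add, add_mul, smul_add]

theorem connMat_smul_left {c : Fin m → ℂ} {b : ℂ} (r : ℂ) (h G : Cf m D) :
    connMat e b c (r • h) G = r • connMat e b c h G := by
  unfold connMat
  rw [mulMat_smul, smul_mul_assoc, smul_comm]

/-- The right hand side of the ODE as a linear map in the direction. -/
noncomputable def rhs (e : Fin m → ℕ) (a : ℝ) (c : Fin m → ℂ) (F : E → Cf m D) (p : E)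
    (Y : BoxT D e → ℂ) : E →L[ℂ] (BoxT D e → ℂ) :=
  LinearMap.toContinuousLinearMap
    { toFun := fun v => (connMat e (a : ℂ) c (fderiv ℂ F p v) (F p)).mulVec Y
      map_add' := fun v w => by
        rw [map_add, connMat_add_left, Matrix.add_mulVec]
      map_smul' := fun r v => by
        rw [map_smul, connMat_smul_left, Matrix.smul_mulVec, RingHom.id_apply] }

theorem rhs_apply (c : Fin m → ℂ) (p : E) (Y : BoxT D e → ℂ) (v : E) :
    rhs e a c F p Y v = (connMat e (a : ℂ) c (fderiv ℂ F p v) (F p)).mulVec Y := rfl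

theorem continuousAt_connMat (he : ∀ i, e i ≤ 1) (hD : 2 ≤ D) {c : Fin m → ℂ}
    (hF : ∀ p, TopF D c (pol (F p))) (hs : ContDiff ℂ ⊤ F) (ha : Irrational a)
    {X : Type*} [TopologicalSpace X] {G : X → E} {x : X} (hG : ContinuousAt G x)
    (hp : Reg e (pol (F (G x)))) {h : X → Cf m D} (hh : ContinuousAt h x) :
    ContinuousAt (fun q => connMat e (a : ℂ) c (h q) (F (G q))) x := by
  have hFc : ContinuousAt (fun q => F (G q)) x := hs.continuous.continuousAt.comp hG
  have h1 : ∀ {g : X → Cf m D}, ContinuousAt g x →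
      ContinuousAt (fun q => mulMat e ((a : ℂ) - 1) c (g q) (F (G q))) x := by
    intro g hg
    refine continuousAt_pi.mpr fun b => continuousAt_pi.mpr fun b' => ?_
    have h2 := (contDiff_mulMat (n := 1) e ((a : ℂ) - 1) c ℂ b b').continuous
    exact h2.continuousAt.comp (f := fun q => (g q, F (G q))) (hg.prodMk hFc)
  have h3 := isUnit_mu he hD (irrC_of_irrational ha) (hF (G x)) hp
  have hdet : (mulMat e ((a : ℂ) - 1) c (F (G x)) (F (G x))).det ≠ 0 :=
    ((Matrix.isUnit_iff_isUnit_det _).mp h3).ne_zero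
  have h4 : ContinuousAt (fun q => (mulMat e ((a : ℂ) - 1) c (F (G q)) (F (G q)))⁻¹) x := by
    have h5 : (fun q => (mulMat e ((a : ℂ) - 1) c (F (G q)) (F (G q)))⁻¹) = fun q =>
        (mulMat e ((a : ℂ) - 1) c (F (G q)) (F (G q))).det⁻¹ •
          (mulMat e ((a : ℂ) - 1) c (F (G q)) (F (G q))).adjugate := by
      funext q
      rw [Matrix.inv_def, Ring.inverse_eq_inv']
    rw [h5]
    have h6 : ContinuousAt (fun q => (mulMat e ((a : ℂ) - 1) c (F (G q)) (F (G q))).det) x :=
      (Continuous.matrix_det continuous_id).continuousAt.comp (h1 hFc)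
    have h7 : ContinuousAt
        (fun q => (mulMat e ((a : ℂ) - 1) c (F (G q)) (F (G q))).adjugate) x :=
      (Continuous.matrix_adjugate continuous_id).continuousAt.comp (h1 hFc)
    exact (h6.inv₀ hdet).smul h7
  unfold connMat
  have h8 := (h1 hh)
  have h9 : Continuous (fun X : Matrix (BoxT D e) (BoxT D e) ℂ × Matrix (BoxT D e) (BoxT D e) ℂ =>
      (a : ℂ) • (X.1 * X.2)) := by
    exact (continuous_fst.matrix_mul continuous_snd).const_smul (a : ℂ)
  exact h9.continuousAt.comp (f := fun q => (mulMat e ((a : ℂ) - 1) c (h q) (F (G q)),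
    (mulMat e ((a : ℂ) - 1) c (F (G q)) (F (G q)))⁻¹)) (h8.prodMk h4)

theorem continuousAt_rhs (he : ∀ i, e i ≤ 1) (hD : 2 ≤ D) {c : Fin m → ℂ}
    (hF : ∀ p, TopF D c (pol (F p))) (hs : ContDiff ℂ ⊤ F) (ha : Irrational a) {p : E}
    (hp : Reg e (pol (F p))) {Y : E → BoxT D e → ℂ} (hY : ContinuousAt Y p) :
    ContinuousAt (fun q => rhs e a c F q (Y q)) p := by
  rw [continuousAt_clm_apply]
  intro v
  simp only [rhs_apply]
  have h1 : ContinuousAt (fun q => fderiv ℂ F q v) p :=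
    ((hs.continuous_fderiv (by simp)).clm_apply continuous_const).continuousAt
  have h2 := continuousAt_connMat he hD hF hs ha (G := fun q => q) continuousAt_id hp h1
  have h3 : Continuous (fun X : Matrix (BoxT D e) (BoxT D e) ℂ × (BoxT D e → ℂ) =>
      X.1.mulVec X.2) := continuous_fst.matrix_mulVec continuous_snd
  exact h3.continuousAt.comp (f := fun q => (connMat e (a : ℂ) c (fderiv ℂ F q v) (F q), Y q))
    (h2.prodMk hY)

/-- Solutions are differentiable, in box coordinates. -/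
theorem sol_hasFDerivAt (he : ∀ i, e i ≤ 1) (hD : 2 ≤ D) {c : Fin m → ℂ}
    (hF : ∀ p, TopF D c (pol (F p))) (hs : ContDiff ℂ ⊤ F) (ha : Irrational a) {N : Set E}
    (hN : IsOpen N) (hX : N ⊆ {p | Reg e (pol (F p))}) {y : E → Fnl m}
    (hy : Sol e a F N y) {p : E} (hp : p ∈ N) :
    HasFDerivAt (fun q => bv D e (y q)) (rhs e a c F p (bv D e (y p))) p := by
  have hYc : ∀ p ∈ N, ContinuousAt (fun q => bv D e (y q)) p := fun p hp =>
    continuousAt_pi.mpr fun b => (hy.1 (mon b)).continuousAt (hN.mem_nhds hp)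
  refine hasFDerivAt_of_line hN (L := fun q => rhs e a c F q (bv D e (y q))) (fun q hq v => ?_) hp
    (continuousAt_rhs he hD hF hs ha (hX hp) (hYc p hp))
  obtain ⟨-, y', hy', hd⟩ := hy.2 q hq
  rw [rhs_apply]
  have h1 := connMat_spec he hD (irrC_of_irrational ha) (fderiv ℂ F q v) (hF q) (hX hq) hy'
  have h2 : (connMat e (a : ℂ) c (fderiv ℂ F q v) (F q)).mulVec (bv D e (y q)) =
      fun b => (a : ℂ) * y' (pol (fderiv ℂ F q v) * mon b) := h1
  rw [h2]
  exact hasDerivAt_pi.mpr fun b => hd (mon b) v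

/-- Two functionals of the fibre with the same box vector are equal. -/
theorem bv_inj (he : ∀ i, e i ≤ 1) (hD : 2 ≤ D) {c : Fin m → ℂ} {f : Pol m} (hF : TopF D c f)
    (ha : Irrational a) {y y' : Fnl m} (hy : y ∈ Zs e (a : ℂ) f) (hy' : y' ∈ Zs e (a : ℂ) f)
    (h : bv D e y = bv D e y') : y = y' := by
  have h1 := box_inj he hD hF (irrC_of_irrational ha) ((Zs e (a : ℂ) f).sub_mem hy hy')
    (fun b => by rw [LinearMap.sub_apply, sub_eq_zero]; exact congrFun h b)
  exact sub_eq_zero.mp h1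

/-- **Real ODE implies parallel.** -/
theorem par_of_hasLineDeriv (H : FamOK e F) (ha : Irrational a) {Λ : Type*}
    [NormedAddCommGroup Λ] [NormedSpace ℝ Λ] {B : Set Λ} (hB : IsOpen B) {h : Λ → E}
    {h' : Λ → Λ →L[ℝ] E} (hh : ∀ p ∈ B, HasFDerivAt h (h' p) p)
    (hh' : ∀ p ∈ B, ContinuousAt h' p) (hX : MapsTo h B {p | Reg e (pol (F p))})
    {u u' : Λ → Fnl m} (hlow : ∀ p ∈ B, u p ∈ Zs e (a : ℂ) (pol (F (h p))) ∧
      Low e (a : ℂ) (pol (F (h p))) (u p) (u' p))
    (hd : ∀ p ∈ B, ∀ b : BoxT D e, ∀ v, HasLineDerivAt ℝ (fun p => u p (mon b))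
      (a * u' p (pol (fderiv ℂ F (h p) (h' p v)) * mon b)) p v) :
    (famLS e a F H ha).Par h B u := by
  obtain ⟨c, hF⟩ := H.top
  have he := H.e_le
  have hD := H.D_ge
  have hs := H.smooth
  intro p₀ hp₀
  obtain ⟨N, hN, hpN, -, hNX, -, hNs⟩ := fam_nice H ha (hX hp₀) (univ_mem)
  obtain ⟨y, hy, hy0⟩ := hNs (h p₀) hpN (u p₀) (hlow p₀ hp₀).1
  refine ⟨N, y, hpN, ⟨hN, hy⟩, ?_⟩
  rw [hB.nhdsWithin_eq hp₀]
  have hhc : ContinuousAt h p₀ := (hh p₀ hp₀).continuousAt
  have hmem : B ∩ h ⁻¹' N ∈ 𝓝 p₀ := inter_mem (hB.mem_nhds hp₀) (hhc (hN.mem_nhds hpN))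
  obtain ⟨δ, hδ, hδs⟩ := Metric.mem_nhds_iff.mp hmem
  filter_upwards [Metric.ball_mem_nhds p₀ hδ] with p hp
  set v := p - p₀ with hv
  have hseg : ∀ t ∈ Icc (0 : ℝ) 1, p₀ + t • v ∈ Metric.ball p₀ δ := by
    intro t ht
    rw [Metric.mem_ball, dist_eq_norm, add_sub_cancel_left, norm_smul, Real.norm_eq_abs,
      abs_of_nonneg ht.1]
    rw [Metric.mem_ball, dist_eq_norm] at hp
    calc t * ‖v‖ ≤ 1 * ‖v‖ := mul_le_mul_of_nonneg_right ht.2 (norm_nonneg _)
      _ = ‖v‖ := one_mul _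
      _ < δ := hp
  -- the connection along the segment
  set A : ℝ → Matrix (BoxT D e) (BoxT D e) ℂ := fun t =>
    connMat e (a : ℂ) c (fderiv ℂ F (h (p₀ + t • v)) (h' (p₀ + t • v) v)) (F (h (p₀ + t • v)))
    with hA
  set g : ℝ → BoxT D e → ℂ := fun t => bv D e (u (p₀ + t • v)) - bv D e (y (h (p₀ + t • v)))
    with hg
  have hgd : ∀ t ∈ Icc (0 : ℝ) 1, HasDerivAt g ((A t).mulVec (g t)) t := by
    intro t ht
    have hq := hδs (hseg t ht)
    set q := p₀ + t • v with hqd
    have h1 : HasDerivAt (fun s : ℝ => bv D e (u (p₀ + s • v)))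
        ((A t).mulVec (bv D e (u q))) t := by
      have h2 := connMat_spec he hD (irrC_of_irrational ha) (fderiv ℂ F (h q) (h' q v))
        (hF (h q)) (hX hq.1) (hlow q hq.1).2
      have h3 : (A t).mulVec (bv D e (u q)) =
          fun b => (a : ℂ) * u' q (pol (fderiv ℂ F (h q) (h' q v)) * mon b) := h2
      rw [h3]
      refine hasDerivAt_pi.mpr fun b => ?_
      have h4 := hd q hq.1 b v
      have h5 : HasDerivAt (fun s : ℝ => u (q + s • v) (mon b))
          ((a : ℂ) * u' q (pol (fderiv ℂ F (h q) (h' q v)) * mon b)) (-t + t) := by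
        rw [neg_add_cancel]
        exact h4
      have h6 := h5.comp_const_add (-t) t
      refine h6.congr_of_eventuallyEq (Eventually.of_forall fun s => ?_)
      simp only [bv]
      rw [hqd, add_assoc, ← add_smul]
      congr 4
      ring
    have h2 : HasDerivAt (fun s : ℝ => bv D e (y (h (p₀ + s • v))))
        ((A t).mulVec (bv D e (y (h q)))) t := by
      have h3 : HasFDerivAt (fun z => bv D e (y z))
          ((rhs e a c F (h q) (bv D e (y (h q)))).restrictScalars ℝ) (h q) :=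
        (sol_hasFDerivAt he hD hF hs ha hN hNX hy hq.2).restrictScalars ℝ
      have h4 : HasDerivAt (fun s : ℝ => p₀ + s • v) v t := by
        simpa using ((hasDerivAt_id t).smul_const v).const_add p₀
      have h5 : HasDerivAt (fun s : ℝ => h (p₀ + s • v)) (h' q v) t :=
        (hh q hq.1).comp_hasDerivAt t h4
      have h6 := h3.comp_hasDerivAt t h5
      exact h6
    have h3 := h1.sub h2
    rw [← Matrix.mulVec_sub] at h3
    exact h3
  have hgc : ContinuousOn g (Icc 0 1) := fun t ht => (hgd t ht).continuousAt.continuousWithinAt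
  -- the matrices are bounded
  have hline : Continuous fun t : ℝ => p₀ + t • v := by fun_prop
  have hAc : ContinuousOn A (Icc 0 1) := by
    intro t ht
    refine ContinuousAt.continuousWithinAt ?_
    have hq := hδs (hseg t ht)
    set q := p₀ + t • v with hqd
    have hFc : ContinuousAt F (h q) := hs.continuous.continuousAt
    have hFs : ContinuousAt (fun s : ℝ => h (p₀ + s • v)) t :=
      ((hh q hq.1).continuousAt).comp (f := fun s : ℝ => p₀ + s • v) hline.continuousAt
    have h2 : ContinuousAt (fun s : ℝ => fderiv ℂ F (h (p₀ + s • v)) (h' (p₀ + s • v) v)) t := by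
      have h3 : ContinuousAt (fun s : ℝ => fderiv ℂ F (h (p₀ + s • v))) t :=
        ((hs.continuous_fderiv (by simp)).continuousAt).comp hFs
      have h4 : ContinuousAt (fun s : ℝ => h' (p₀ + s • v) v) t :=
        ((hh' q hq.1).clm_apply continuousAt_const).comp (f := fun s : ℝ => p₀ + s • v)
          hline.continuousAt
      exact h3.clm_apply h4
    exact continuousAt_connMat he hD hF hs ha (G := fun s : ℝ => h (p₀ + s • v)) hFs (hX hq.1) h2
  obtain ⟨K, hK⟩ : ∃ K : ℝ, ∀ t ∈ Icc (0 : ℝ) 1, ∀ w : BoxT D e → ℂ, ‖(A t).mulVec w‖ ≤ K * ‖w‖ := by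
    have h1 : ∀ b b', ∃ K : ℝ, ∀ t ∈ Icc (0 : ℝ) 1, ‖A t b b'‖ ≤ K := by
      intro b b'
      have h2 : ContinuousOn (fun t => A t b b') (Icc 0 1) := fun t ht => by
        have h3 := hAc t ht
        exact (continuousWithinAt_pi.mp ((continuousWithinAt_pi.mp h3) b)) b'
      exact isCompact_Icc.exists_bound_of_continuousOn h2
    choose K hK using h1
    refine ⟨∑ b, ∑ b', K b b', fun t ht w => ?_⟩
    have hK0 : ∀ b b', 0 ≤ K b b' := fun b b' => (norm_nonneg _).trans (hK b b' t ht)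
    rw [pi_norm_le_iff_of_nonneg (mul_nonneg (Finset.sum_nonneg fun b _ =>
      Finset.sum_nonneg fun b' _ => hK0 b b') (norm_nonneg _))]
    intro b
    calc ‖(A t).mulVec w b‖ = ‖∑ b', A t b b' * w b'‖ := rfl
      _ ≤ ∑ b', ‖A t b b' * w b'‖ := norm_sum_le _ _
      _ ≤ ∑ b', K b b' * ‖w‖ := by
        refine Finset.sum_le_sum fun b' _ => ?_
        rw [norm_mul]
        exact mul_le_mul (hK b b' t ht) (norm_le_pi_norm w b') (norm_nonneg _) (hK0 b b')
      _ = (∑ b', K b b') * ‖w‖ := by rw [Finset.sum_mul]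
      _ ≤ (∑ b, ∑ b', K b b') * ‖w‖ := by
        refine mul_le_mul_of_nonneg_right ?_ (norm_nonneg _)
        exact Finset.single_le_sum (f := fun b => ∑ b', K b b')
          (fun b _ => Finset.sum_nonneg fun b' _ => hK0 b b') (Finset.mem_univ b)
  have hg0 : g 0 = 0 := by
    simp only [hg, zero_smul, add_zero, hy0, sub_self]
  have h1 := eq_zero_of_abs_deriv_le_mul_abs_self_of_eq_zero_right (K := K) hgc
    (fun t ht => (hgd t ⟨ht.1, ht.2.le⟩).hasDerivWithinAt) hg0
    (fun t ht => hK t ⟨ht.1, ht.2.le⟩ (g t)) 1 ⟨zero_le_one, le_rfl⟩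
  have h2 : bv D e (u p) = bv D e (y (h p)) := by
    have h3 : bv D e (u (p₀ + (1 : ℝ) • v)) - bv D e (y (h (p₀ + (1 : ℝ) • v))) = 0 := h1
    rw [one_smul, hv, add_sub_cancel] at h3
    exact sub_eq_zero.mp h3
  have hpB := hδs hp
  exact bv_inj he hD (hF (h p)) ha (hlow p hpB.1).1 (hy.2 (h p) hpB.2).1 h2

end Fam

end Pool.Agent.QC.S4
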