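import Mathlib

/-!
# MP_7c50a9_lc, section 4: pieces of `{f > 0}` and the functions `1_T f^a`

`T` is a piece of `{f > 0}` over the open set `D`: `T` is open, `f > 0` on `T` and `f = 0` at the
points of `D` in the closure of `T` but not in `T`.  For `a > 1` the function `1_T f^a` is `C^1`
on `D`.
-/

namespace Pool.Agent.QC.S4

open Set Topology Filter MeasureTheory

section General

set_option linter.unusedSectionVars false

variable {X : Type*} [NormedAddCommGroup X] [NormedSpace ℝ X]

/-- `T` is a piece of `{f > 0}` over `D`. -/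
structure Piece (f : X → ℝ) (T D : Set X) : Prop where
  isOpenD : IsOpen D
  isOpen : IsOpen T
  sub : T ⊆ D
  pos : ∀ x ∈ T, 0 < f x
  zero : ∀ x ∈ D, x ∈ closure T → x ∉ T → f x = 0

/-- The function `1_T f^a`. -/
noncomputable def pw (f : X → ℝ) (T : Set X) (a : ℝ) : X → ℝ :=
  T.indicator fun x => f x ^ a

theorem pw_of_mem {f : X → ℝ} {T : Set X} {a : ℝ} {x : X} (hx : x ∈ T) :
    pw f T a x = f x ^ a := indicator_of_mem hx _

theorem pw_of_notMem {f : X → ℝ} {T : Set X} {a : ℝ} {x : X} (hx : x ∉ T) :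
    pw f T a x = 0 := indicator_of_notMem hx _

theorem Piece.pw_nonneg {f : X → ℝ} {T D : Set X} (h : Piece f T D) (a : ℝ) (x : X) :
    0 ≤ pw f T a x :=
  indicator_nonneg (fun x hx => Real.rpow_nonneg (h.pos x hx).le _) x

theorem Piece.pw_pos {f : X → ℝ} {T D : Set X} (h : Piece f T D) (a : ℝ) {x : X} (hx : x ∈ T) :
    0 < pw f T a x := by
  rw [pw_of_mem hx]
  exact Real.rpow_pos_of_pos (h.pos x hx) _

/-- `f * 1_T f^(a) = 1_T f^(a+1)`. -/
theorem Piece.mul_pw {f : X → ℝ} {T D : Set X} (h : Piece f T D) (a : ℝ) (x : X) :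
    f x * pw f T a x = pw f T (a + 1) x := by
  by_cases hx : x ∈ T
  · rw [pw_of_mem hx, pw_of_mem hx, Real.rpow_add (h.pos x hx), Real.rpow_one, mul_comm]
  · rw [pw_of_notMem hx, pw_of_notMem hx, mul_zero]

theorem Piece.pw_le {f : X → ℝ} {T D : Set X} (h : Piece f T D) (a : ℝ) (x : X) :
    |pw f T a x| ≤ |f x| ^ a := by
  by_cases hx : x ∈ T
  · rw [pw_of_mem hx, abs_of_nonneg (Real.rpow_nonneg (h.pos x hx).le _),
      abs_of_pos (h.pos x hx)]
  · rw [pw_of_notMem hx, abs_zero]
    exact Real.rpow_nonneg (abs_nonneg _) _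

theorem eventually_pw_eq_zero {f : X → ℝ} {T : Set X} {a : ℝ} {x : X} (hx : x ∉ closure T) :
    ∀ᶠ y in 𝓝 x, pw f T a y = 0 := by
  have : (closure T)ᶜ ∈ 𝓝 x := isClosed_closure.isOpen_compl.mem_nhds hx
  filter_upwards [this] with y hy
  exact pw_of_notMem fun h => hy (subset_closure h)

/-- Continuity of `1_T f^a`, `a > 0`. -/
theorem Piece.continuousAt_pw {f : X → ℝ} {T D : Set X} (h : Piece f T D) {a : ℝ} (ha : 0 < a)
    {x : X} (hx : x ∈ D) (hf : ContinuousAt f x) : ContinuousAt (pw f T a) x := by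
  by_cases hxT : x ∈ T
  · have h1 : (fun y => f y ^ a) =ᶠ[𝓝 x] pw f T a := by
      filter_upwards [h.isOpen.mem_nhds hxT] with y hy
      exact (pw_of_mem hy).symm
    exact (hf.rpow_const (Or.inr ha.le)).congr h1
  · by_cases hxc : x ∈ closure T
    · have hf0 : f x = 0 := h.zero x hx hxc hxT
      have h0 : pw f T a x = 0 := pw_of_notMem hxT
      have h1 : Tendsto (fun y => |f y| ^ a) (𝓝 x) (𝓝 0) := by
        have h2 : ContinuousAt (fun y => |f y| ^ a) x := hf.abs.rpow_const (Or.inr ha.le)
        have h3 := h2.tendsto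
        simpa [hf0, Real.zero_rpow ha.ne'] using h3
      rw [ContinuousAt, h0]
      exact squeeze_zero_norm (fun y => by rw [Real.norm_eq_abs]; exact h.pw_le a y) h1
    · have h0 := eventually_pw_eq_zero (f := f) (a := a) hxc
      exact continuousAt_const.congr (h0.mono fun y hy => hy.symm)

/-- Differentiability of `1_T f^a`, `a > 1`. -/
theorem Piece.hasFDerivAt_pw {f : X → ℝ} {T D : Set X} (h : Piece f T D) {a : ℝ} (ha : 1 < a)
    {x : X} (hx : x ∈ D) {f' : X →L[ℝ] ℝ} (hf : HasFDerivAt f f' x) :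
    HasFDerivAt (pw f T a) ((a * pw f T (a - 1) x) • f') x := by
  by_cases hxT : x ∈ T
  · have h1 : (fun y => f y ^ a) =ᶠ[𝓝 x] pw f T a := by
      filter_upwards [h.isOpen.mem_nhds hxT] with y hy
      exact (pw_of_mem hy).symm
    have h2 := (hf.rpow_const (p := a) (Or.inl (h.pos x hxT).ne'))
    rw [pw_of_mem hxT]
    exact h2.congr_of_eventuallyEq h1.symm
  · rw [pw_of_notMem hxT, mul_zero, zero_smul]
    by_cases hxc : x ∈ closure T
    · have hf0 : f x = 0 := h.zero x hx hxc hxT
      have h0 : pw f T a x = 0 := pw_of_notMem hxT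
      rw [hasFDerivAt_iff_isLittleO_nhds_zero]
      simp only [h0, sub_zero, zero_apply]
      have hO : (fun v => f (x + v)) =O[𝓝 0] fun v => v := by
        have := hf.isBigO_sub
        have h3 : Tendsto (fun v : X => x + v) (𝓝 0) (𝓝 x) := by
          have : Continuous fun v : X => x + v := by fun_prop
          simpa using this.tendsto 0
        have h4 := this.comp_tendsto h3
        simpa [Function.comp_def, hf0] using h4
      obtain ⟨C, hC, hCb⟩ := hO.exists_pos
      rw [Asymptotics.isLittleO_iff]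
      intro ε hε
      have hb := hCb.bound
      -- ‖v‖^(a-1) small
      have hsm : ∀ᶠ v : X in 𝓝 0, C ^ a * ‖v‖ ^ (a - 1) ≤ ε := by
        have h5 : Tendsto (fun v : X => C ^ a * ‖v‖ ^ (a - 1)) (𝓝 0) (𝓝 0) := by
          have h6 : ContinuousAt (fun v : X => C ^ a * ‖v‖ ^ (a - 1)) 0 := by
            refine continuousAt_const.mul ?_
            exact (continuous_norm.continuousAt).rpow_const (Or.inr (by linarith))
          have h7 := h6.tendsto
          simpa [Real.zero_rpow (by linarith : a - 1 ≠ 0)] using h7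
        exact (h5.eventually (gt_mem_nhds hε)).mono fun v hv => hv.le
      filter_upwards [hb, hsm] with v hv1 hv2
      rw [Real.norm_eq_abs]
      calc |pw f T a (x + v)| ≤ |f (x + v)| ^ a := h.pw_le a _
        _ ≤ (C * ‖v‖) ^ a := Real.rpow_le_rpow (abs_nonneg _) (by simpa using hv1) (by linarith)
        _ = C ^ a * ‖v‖ ^ a := Real.mul_rpow hC.le (norm_nonneg _)
        _ = (C ^ a * ‖v‖ ^ (a - 1)) * ‖v‖ := by
          rcases eq_or_ne v 0 with rfl | hv0
          · simp [Real.zero_rpow (by linarith : a ≠ 0)]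
          · have hn : 0 < ‖v‖ := norm_pos_iff.mpr hv0
            rw [mul_assoc, ← Real.rpow_add_one hn.ne']
            congr 2
            ring
        _ ≤ ε * ‖v‖ := mul_le_mul_of_nonneg_right hv2 (norm_nonneg _)
    · have h0 := eventually_pw_eq_zero (f := f) (a := a) hxc
      exact (hasFDerivAt_const (0 : ℝ) x).congr_of_eventuallyEq h0

variable {F : Type*} [NormedAddCommGroup F] [NormedSpace ℝ F]

/-- Continuity of `1_T f^a ψ`; `ψ` only matters near the closure of `T`. -/
theorem Piece.continuousAt_pw_smul {f : X → ℝ} {T D : Set X} (h : Piece f T D) {a : ℝ}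
    (ha : 0 < a) {x : X} (hx : x ∈ D) (hf : ContinuousAt f x) {ψ : X → F}
    (hψ : x ∈ closure T → ContinuousAt ψ x) : ContinuousAt (fun y => pw f T a y • ψ y) x := by
  by_cases hxc : x ∈ closure T
  · exact (h.continuousAt_pw ha hx hf).smul (hψ hxc)
  · have h0 := eventually_pw_eq_zero (f := f) (a := a) hxc
    have h1 : (fun _ : X => (0 : F)) =ᶠ[𝓝 x] fun y => pw f T a y • ψ y := by
      filter_upwards [h0] with y hy
      simp [hy]
    exact continuousAt_const.congr h1

/-- Differentiability of `1_T f^a ψ`, `a > 1`; `ψ` only matters near the closure of `T`. -/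
theorem Piece.hasFDerivAt_pw_smul {f : X → ℝ} {T D : Set X} (h : Piece f T D) {a : ℝ}
    (ha : 1 < a) {x : X} (hx : x ∈ D) {f' : X →L[ℝ] ℝ} (hf : HasFDerivAt f f' x) {ψ : X → F}
    {ψ' : X →L[ℝ] F} (hψ : x ∈ closure T → HasFDerivAt ψ ψ' x) :
    HasFDerivAt (fun y => pw f T a y • ψ y)
      (pw f T a x • ψ' + ((a * pw f T (a - 1) x) • f').smulRight (ψ x)) x := by
  by_cases hxc : x ∈ closure T
  · exact (h.hasFDerivAt_pw ha hx hf).smul (hψ hxc)
  · have h0 := eventually_pw_eq_zero (f := f) (a := a) hxc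
    have hxT : x ∉ T := fun hxT => hxc (subset_closure hxT)
    rw [pw_of_notMem hxT, pw_of_notMem hxT, zero_smul, mul_zero, zero_smul]
    have h1 : (fun y => pw f T a y • ψ y) =ᶠ[𝓝 x] fun _ => 0 := by
      filter_upwards [h0] with y hy
      simp [hy]
    have h2 : (0 : X →L[ℝ] F) + (0 : X →L[ℝ] ℝ).smulRight (ψ x) = 0 := by
      ext v
      simp
    rw [h2]
    exact (hasFDerivAt_const (0 : F) x).congr_of_eventuallyEq h1

end General


section Integrals

set_option linter.unusedSectionVars false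

variable {E : Type*} [NormedAddCommGroup E] [NormedSpace ℝ E] [FiniteDimensional ℝ E]
  [MeasurableSpace E] [BorelSpace E] (μ : Measure E) [μ.IsAddHaarMeasure]

/-- The integral of a derivative of an integrable function is zero. -/
theorem integral_lineDeriv_eq_zero {G G' : E → ℂ} {v : E} (hG : Integrable G μ)
    (hG' : Integrable G' μ) (hd : ∀ x, HasLineDerivAt ℝ G (G' x) x v) : ∫ x, G' x ∂μ = 0 := by
  have h := integral_bilinear_hasLineDerivAt_right_eq_neg_left_of_integrable (μ := μ)
    (f := fun _ : E => (1 : ℝ)) (f' := fun _ => 0) (g := G) (g' := G') (v := v)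
    (B := ContinuousLinearMap.lsmul ℝ ℝ) (by simp) (by simpa using hG') (by simpa using hG)
    (fun x _ => by
      simpa using (hasFDerivAt_const (𝕜 := ℝ) (1 : ℝ) x).hasLineDerivAt v) (fun x _ => hd x)
  simpa using h

/-- Integrability of `1_T f^a ψ` for a relatively compact piece over the whole space. -/
theorem Piece.integrable {f : E → ℝ} {T : Set E} (h : Piece f T univ)
    (hc : IsCompact (closure T)) {a : ℝ} (ha : 0 < a) (hf : Continuous f) {ψ : E → ℂ}
    (hψ : ∀ x ∈ closure T, ContinuousAt ψ x) : Integrable (fun x => pw f T a x • ψ x) μ := by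
  have hcont : Continuous fun x => pw f T a x • ψ x :=
    continuous_iff_continuousAt.mpr fun x =>
      h.continuousAt_pw_smul ha (mem_univ x) hf.continuousAt fun hx => hψ x hx
  refine hcont.integrable_of_hasCompactSupport (HasCompactSupport.intro hc fun x hx => ?_)
  rw [pw_of_notMem fun hxT => hx (subset_closure hxT), zero_smul]

/-- Integration by parts for `1_T f^a ψ`, `a > 1`. -/
theorem Piece.integral_deriv_eq_zero {f : E → ℝ} {T : Set E} (h : Piece f T univ)
    (hc : IsCompact (closure T)) {a : ℝ} (ha : 1 < a) {f' : E → E →L[ℝ] ℝ}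
    (hf : ∀ x, HasFDerivAt f (f' x) x) (hf' : Continuous f') {ψ : E → ℂ} {ψ' : E → E →L[ℝ] ℂ}
    (hψ : ∀ x ∈ closure T, HasFDerivAt ψ (ψ' x) x) (hψ' : ∀ x ∈ closure T, ContinuousAt ψ' x)
    (v : E) :
    ∫ x, pw f T a x • ψ' x v ∂μ + ∫ x, pw f T (a - 1) x • ((a * f' x v : ℝ) • ψ x) ∂μ = 0 := by
  have hfc : Continuous f := continuous_iff_continuousAt.mpr fun x => (hf x).continuousAt
  have i1 : Integrable (fun x => pw f T a x • ψ x) μ :=
    h.integrable μ hc (by linarith) hfc fun x hx => (hψ x hx).continuousAt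
  have i2 : Integrable (fun x => pw f T a x • ψ' x v) μ :=
    h.integrable μ hc (by linarith) hfc fun x hx => (hψ' x hx).clm_apply continuousAt_const
  have i3 : Integrable (fun x => pw f T (a - 1) x • ((a * f' x v : ℝ) • ψ x)) μ :=
    h.integrable μ hc (by linarith) hfc fun x hx => by
      have h1 : ContinuousAt (fun x => (a * f' x v : ℝ)) x := by fun_prop
      exact h1.smul (hψ x hx).continuousAt
  rw [← integral_add i2 i3]
  refine integral_lineDeriv_eq_zero (v := v) μ i1 (i2.add i3) fun x => ?_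
  have hd := h.hasFDerivAt_pw_smul ha (mem_univ x) (hf x) (ψ := ψ) (ψ' := ψ' x)
    (fun hx => hψ x hx)
  have hl := hd.hasLineDerivAt v
  convert hl using 1
  simp only [add_apply, smul_apply, ContinuousLinearMap.smulRight_apply, smul_smul]
  congr 2
  simp only [smul_eq_mul]
  ring

end Integrals

end Pool.Agent.QC.S4
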