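import Mathlib
import Pool.Agent.QC.S4.Piece

/-!
# MP_7c50a9_lc, section 4: integrals over pieces depending on a real parameter

`T ⊆ ℝ × E` is a piece of `{f > 0}` over `(s₀, s₁) × E`, bounded in the `E` direction.
* `Piece.hasDerivAt_integral`: `d/ds ∫_{T_s} f^a ψ = ∫_{T_s} (a f^{a-1} f_s ψ + f^a ψ_s)`, `a > 1`.
* `Piece.contDiffOn_integral` (4.4): if there is no singular zero of `f_s` on the closure of `T`
  and on the support of `ψ`, the integral is `C^∞` in `s`.
-/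

namespace Pool.Agent.QC.S4

open Set Topology Filter MeasureTheory

set_option linter.unusedSectionVars false

section Param

variable {E : Type*} [NormedAddCommGroup E] [NormedSpace ℝ E] [FiniteDimensional ℝ E]
  [MeasurableSpace E] [BorelSpace E] (μ : Measure E) [μ.IsAddHaarMeasure]

/-- The domain `(s₀, s₁) × E`. -/
abbrev Dom (E : Type*) (s₀ s₁ : ℝ) : Set (ℝ × E) := Ioo s₀ s₁ ×ˢ univ

/-- Slices of pieces are pieces. -/
theorem Piece.slice {f : ℝ × E → ℝ} {T : Set (ℝ × E)} {s₀ s₁ : ℝ} (h : Piece f T (Dom E s₀ s₁))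
    {s : ℝ} (hs : s ∈ Ioo s₀ s₁) :
    Piece (fun x => f (s, x)) {x | (s, x) ∈ T} univ where
  isOpenD := isOpen_univ
  isOpen := h.isOpen.preimage (by fun_prop)
  sub := subset_univ _
  pos x hx := h.pos _ hx
  zero x _ hxc hxT := by
    refine h.zero (s, x) ⟨hs, mem_univ _⟩ ?_ hxT
    have hc : Continuous fun x : E => (s, x) := by fun_prop
    exact map_mem_closure (f := fun x : E => (s, x)) hc hxc fun y hy => hy

theorem slice_closure_subset {T : Set (ℝ × E)} {s : ℝ} {x : E}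
    (hx : x ∈ closure {x | (s, x) ∈ T}) : (s, x) ∈ closure T := by
  have hc : Continuous fun x : E => (s, x) := by fun_prop
  exact map_mem_closure (f := fun x : E => (s, x)) hc hx fun y hy => hy

theorem pw_slice (f : ℝ × E → ℝ) (T : Set (ℝ × E)) (a s : ℝ) (x : E) :
    pw f T a (s, x) = pw (fun x => f (s, x)) {x | (s, x) ∈ T} a x := by
  by_cases hx : (s, x) ∈ T
  · rw [pw_of_mem hx, pw_of_mem (T := {x | (s, x) ∈ T}) hx]
  · rw [pw_of_notMem hx, pw_of_notMem (T := {x | (s, x) ∈ T}) hx]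

/-- Differentiation under the integral sign. -/
theorem Piece.hasDerivAt_integral {f : ℝ × E → ℝ} {T : Set (ℝ × E)} {s₀ s₁ : ℝ}
    (h : Piece f T (Dom E s₀ s₁)) {C : Set E} (hC : IsCompact C) (hTC : ∀ p ∈ T, p.2 ∈ C)
    {a : ℝ} (ha : 1 < a) {f' : ℝ × E → (ℝ × E) →L[ℝ] ℝ}
    (hf : ∀ p ∈ Dom E s₀ s₁, HasFDerivAt f (f' p) p)
    (hf' : ∀ p ∈ Dom E s₀ s₁, ContinuousAt f' p)
    {ψ : ℝ × E → ℂ} {ψ' : ℝ × E → (ℝ × E) →L[ℝ] ℂ}
    (hψ : ∀ p ∈ Dom E s₀ s₁, p ∈ closure T → HasFDerivAt ψ (ψ' p) p)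
    (hψ' : ∀ p ∈ Dom E s₀ s₁, p ∈ closure T → ContinuousAt ψ' p)
    {s : ℝ} (hs : s ∈ Ioo s₀ s₁) :
    HasDerivAt (fun s => ∫ x, pw f T a (s, x) • ψ (s, x) ∂μ)
      (∫ x, (pw f T a (s, x) • ψ' (s, x) (1, 0) +
        pw f T (a - 1) (s, x) • ((a * f' (s, x) (1, 0) : ℝ) • ψ (s, x))) ∂μ) s := by
  -- a compact interval around `s`
  obtain ⟨δ, hδ, hδs⟩ : ∃ δ > 0, Metric.closedBall s δ ⊆ Ioo s₀ s₁ :=
    Metric.nhds_basis_closedBall.mem_iff.mp (isOpen_Ioo.mem_nhds hs)
  have hcontF : ∀ p ∈ Dom E s₀ s₁, ContinuousAt (fun p => pw f T a p • ψ p) p := fun p hp =>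
    h.continuousAt_pw_smul (by linarith) hp (hf p hp).continuousAt
      fun hpc => (hψ p hp hpc).continuousAt
  have hcontF' : ∀ p ∈ Dom E s₀ s₁, ContinuousAt (fun p => pw f T a p • ψ' p (1, 0) +
      pw f T (a - 1) p • ((a * f' p (1, 0) : ℝ) • ψ p)) p := by
    intro p hp
    refine (h.continuousAt_pw_smul (by linarith) hp (hf p hp).continuousAt
      fun hpc => (hψ' p hp hpc).clm_apply continuousAt_const).add
      (h.continuousAt_pw_smul (by linarith) hp (hf p hp).continuousAt fun hpc => ?_)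
    have h1 : ContinuousAt (fun p => (a * f' p (1, 0) : ℝ)) p :=
      continuousAt_const.mul ((hf' p hp).clm_apply continuousAt_const)
    exact h1.smul (hψ p hp hpc).continuousAt
  have hKD : Metric.closedBall s δ ×ˢ C ⊆ Dom E s₀ s₁ := prod_mono hδs (subset_univ _)
  have hKc : IsCompact (Metric.closedBall s δ ×ˢ C) := (isCompact_closedBall s δ).prod hC
  obtain ⟨M, hM⟩ := hKc.exists_bound_of_continuousOn
    (f := fun p => pw f T a p • ψ' p (1, 0) + pw f T (a - 1) p • ((a * f' p (1, 0) : ℝ) • ψ p))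
    fun p hp => (hcontF' p (hKD hp)).continuousWithinAt
  have hzero : ∀ t x, x ∉ C → pw f T a (t, x) = 0 ∧ pw f T (a - 1) (t, x) = 0 := fun t x hx =>
    ⟨pw_of_notMem fun hT => hx (hTC _ hT), pw_of_notMem fun hT => hx (hTC _ hT)⟩
  have hslice : ∀ t ∈ Ioo s₀ s₁, Continuous fun x => pw f T a (t, x) • ψ (t, x) := fun t ht =>
    continuous_iff_continuousAt.mpr fun x =>
      (hcontF (t, x) ⟨ht, mem_univ _⟩).comp (f := fun x : E => (t, x)) (by fun_prop)
  have hslice' : Continuous fun x => (pw f T a (s, x) • ψ' (s, x) (1, 0) +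
      pw f T (a - 1) (s, x) • ((a * f' (s, x) (1, 0) : ℝ) • ψ (s, x))) :=
    continuous_iff_continuousAt.mpr fun x =>
      (hcontF' (s, x) ⟨hs, mem_univ _⟩).comp (f := fun x : E => (s, x)) (by fun_prop)
  refine (hasDerivAt_integral_of_dominated_loc_of_deriv_le (μ := μ)
    (F := fun s x => pw f T a (s, x) • ψ (s, x))
    (F' := fun s x => pw f T a (s, x) • ψ' (s, x) (1, 0) +
        pw f T (a - 1) (s, x) • ((a * f' (s, x) (1, 0) : ℝ) • ψ (s, x)))
    (bound := C.indicator fun _ => M) (Metric.closedBall_mem_nhds s hδ) ?_ ?_ ?_ ?_ ?_ ?_).2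
  · filter_upwards [Metric.closedBall_mem_nhds s hδ] with t ht
    exact (hslice t (hδs ht)).aestronglyMeasurable
  · refine (hslice s hs).integrable_of_hasCompactSupport (HasCompactSupport.intro hC fun x hx => ?_)
    rw [(hzero s x hx).1, zero_smul]
  · exact hslice'.aestronglyMeasurable
  · refine Eventually.of_forall fun x t ht => ?_
    by_cases hx : x ∈ C
    · rw [indicator_of_mem hx]
      exact hM (t, x) ⟨ht, hx⟩
    · rw [indicator_of_notMem hx]
      simp [(hzero t x hx).1, (hzero t x hx).2]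
  · exact (integrable_indicator_iff hC.measurableSet).mpr
      (integrableOn_const hC.measure_lt_top.ne)
  · refine Eventually.of_forall fun x t ht => ?_
    have hp : (t, x) ∈ Dom E s₀ s₁ := ⟨hδs ht, mem_univ _⟩
    have hd := h.hasFDerivAt_pw_smul ha hp (hf _ hp) (ψ := ψ) (ψ' := ψ' (t, x))
      (fun hpc => hψ _ hp hpc)
    have hl : HasDerivAt (fun t : ℝ => (t, x)) ((1, 0) : ℝ × E) t :=
      (hasDerivAt_id t).prodMk (hasDerivAt_const t x)
    have := hd.comp_hasDerivAt t hl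
    refine this.congr_deriv ?_
    simp only [add_apply, smul_apply, ContinuousLinearMap.smulRight_apply, smul_smul]
    congr 2
    simp only [smul_eq_mul]
    ring

end Param


section Smooth

open scoped ContDiff

variable {E : Type*} [NormedAddCommGroup E] [NormedSpace ℝ E] [FiniteDimensional ℝ E]
  [MeasurableSpace E] [BorelSpace E] (μ : Measure E) [μ.IsAddHaarMeasure]
  {ι : Type*} [Fintype ι]

/-- `q = f^2 + sum (d_{v i} f)^2`. -/
noncomputable def qf (f : ℝ × E → ℝ) (v : ι → E) (p : ℝ × E) : ℝ :=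
  f p ^ 2 + ∑ i, (fderiv ℝ f p (0, v i)) ^ 2

/-- The field `r f_s (d_{v i} f) ψ`, `r = 1/q`. -/
noncomputable def fld (f : ℝ × E → ℝ) (v : ι → E) (ψ : ℝ × E → ℂ) (i : ι) (p : ℝ × E) : ℂ :=
  (fderiv ℝ f p (1, 0) * fderiv ℝ f p (0, v i) / qf f v p : ℝ) • ψ p

/-- The new weight: `d/ds ∫ f^a ψ = ∫ f^a (opw ψ)`. -/
noncomputable def opw (f : ℝ × E → ℝ) (v : ι → E) (a : ℝ) (ψ : ℝ × E → ℂ) (p : ℝ × E) : ℂ :=
  fderiv ℝ ψ p (1, 0) + (a * f p * fderiv ℝ f p (1, 0) / qf f v p : ℝ) • ψ p -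
    ∑ i, fderiv ℝ (fld f v ψ i) p (0, v i)

/-- The class of weights: smooth where `q ≠ 0`, zero outside the closed set `S`. -/
structure Wt (f : ℝ × E → ℝ) (v : ι → E) (S : Set (ℝ × E)) (ψ : ℝ × E → ℂ) : Prop where
  smooth : ∀ p, qf f v p ≠ 0 → ContDiffAt ℝ ∞ ψ p
  zero : ∀ p ∉ S, ψ p = 0

theorem contDiff_fderiv_apply {f : ℝ × E → ℝ} (hf : ContDiff ℝ ∞ f) (w : ℝ × E) :
    ContDiff ℝ ∞ fun p => fderiv ℝ f p w :=
  (hf.fderiv_right (m := ∞) (by simp)).clm_apply contDiff_const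

theorem contDiff_qf {f : ℝ × E → ℝ} (hf : ContDiff ℝ ∞ f) (v : ι → E) :
    ContDiff ℝ ∞ (qf f v) :=
  (hf.pow 2).add (ContDiff.sum fun i _ => (contDiff_fderiv_apply hf (0, v i)).pow 2)

theorem Wt.eventually_zero {f : ℝ × E → ℝ} {v : ι → E} {S : Set (ℝ × E)} (hS : IsClosed S)
    {ψ : ℝ × E → ℂ} (h : Wt f v S ψ) {p : ℝ × E} (hp : p ∉ S) : ψ =ᶠ[𝓝 p] fun _ => 0 := by
  filter_upwards [hS.isOpen_compl.mem_nhds hp] with y hy
  exact h.zero y hy

theorem Wt.contDiffAt {f : ℝ × E → ℝ} {v : ι → E} {S : Set (ℝ × E)} (hS : IsClosed S)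
    {ψ : ℝ × E → ℂ} (h : Wt f v S ψ) {p : ℝ × E} (hp : p ∈ S → qf f v p ≠ 0) :
    ContDiffAt ℝ ∞ ψ p := by
  by_cases hpS : p ∈ S
  · exact h.smooth p (hp hpS)
  · exact contDiffAt_const.congr_of_eventuallyEq (h.eventually_zero hS hpS)

theorem Wt.fld {f : ℝ × E → ℝ} (hf : ContDiff ℝ ∞ f) {v : ι → E} {S : Set (ℝ × E)}
    {ψ : ℝ × E → ℂ} (h : Wt f v S ψ) (i : ι) : Wt f v S (fld f v ψ i) where
  smooth p hp := by
    have h1 : ContDiffAt ℝ ∞ (fun p => fderiv ℝ f p (1, 0) * fderiv ℝ f p (0, v i) / qf f v p) p :=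
      ((contDiff_fderiv_apply hf _).contDiffAt.mul (contDiff_fderiv_apply hf _).contDiffAt).div
        (contDiff_qf hf v).contDiffAt hp
    exact h1.smul (h.smooth p hp)
  zero p hp := by
    rw [S4.fld, h.zero p hp, smul_zero]

theorem Wt.opw {f : ℝ × E → ℝ} (hf : ContDiff ℝ ∞ f) {v : ι → E} {S : Set (ℝ × E)}
    (hS : IsClosed S) {ψ : ℝ × E → ℂ} (h : Wt f v S ψ) (a : ℝ) : Wt f v S (opw f v a ψ) where
  smooth p hp := by
    have h0 : ContDiffAt ℝ ∞ (fun p => a * f p * fderiv ℝ f p (1, 0) / qf f v p) p :=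
      ((contDiffAt_const.mul hf.contDiffAt).mul (contDiff_fderiv_apply hf _).contDiffAt).div
        (contDiff_qf hf v).contDiffAt hp
    have h1 : ContDiffAt ℝ ∞ (fun p => fderiv ℝ ψ p (1, 0)) p :=
      ((h.smooth p hp).fderiv_right (m := ∞) (by simp)).clm_apply contDiffAt_const
    refine (h1.add (h0.smul (h.smooth p hp))).sub (ContDiffAt.sum fun i _ => ?_)
    exact (((h.fld hf i).smooth p hp).fderiv_right (m := ∞) (by simp)).clm_apply contDiffAt_const
  zero p hp := by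
    have h1 : fderiv ℝ ψ p = 0 := by
      rw [(h.eventually_zero hS hp).fderiv_eq]
      simp
    have h2 : ∀ i, fderiv ℝ (S4.fld f v ψ i) p = 0 := by
      intro i
      rw [((h.fld hf i).eventually_zero hS hp).fderiv_eq]
      simp
    rw [S4.opw, h1, h.zero p hp]
    simp [h2]

/-- The derivative of `∫ f^a ψ` is again of the same form. -/
theorem Piece.hasDerivAt_integral_opw {f : ℝ × E → ℝ} (hf : ContDiff ℝ ∞ f) {T : Set (ℝ × E)}
    {s₀ s₁ : ℝ} (h : Piece f T (Dom E s₀ s₁)) {C : Set E} (hC : IsCompact C)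
    (hTC : ∀ p ∈ T, p.2 ∈ C) {a : ℝ} (ha : 1 < a) {v : ι → E} {S : Set (ℝ × E)}
    (hS : IsClosed S) (hq : ∀ p ∈ Dom E s₀ s₁, p ∈ closure T → p ∈ S → qf f v p ≠ 0)
    {ψ : ℝ × E → ℂ} (hψ : Wt f v S ψ) {s : ℝ} (hs : s ∈ Ioo s₀ s₁) :
    HasDerivAt (fun s => ∫ x, pw f T a (s, x) • ψ (s, x) ∂μ)
      (∫ x, pw f T a (s, x) • opw f v a ψ (s, x) ∂μ) s := by
  have hfd : ∀ p, HasFDerivAt f (fderiv ℝ f p) p := fun p =>
    (hf.differentiable (by simp)).differentiableAt.hasFDerivAt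
  have hfc : Continuous (fderiv ℝ f) := (hf.fderiv_right (m := ∞) (by simp)).continuous
  have hreg : ∀ {χ : ℝ × E → ℂ}, Wt f v S χ → ∀ p ∈ Dom E s₀ s₁, p ∈ closure T →
      ContDiffAt ℝ ∞ χ p := fun hχ p hp hpc => hχ.contDiffAt hS fun hpS => hq p hp hpc hpS
  have hregd : ∀ {χ : ℝ × E → ℂ}, Wt f v S χ → ∀ p ∈ Dom E s₀ s₁, p ∈ closure T →
      HasFDerivAt χ (fderiv ℝ χ p) p := fun hχ p hp hpc =>
    ((hreg hχ p hp hpc).differentiableAt (by simp)).hasFDerivAt
  have hregc : ∀ {χ : ℝ × E → ℂ}, Wt f v S χ → ∀ p ∈ Dom E s₀ s₁, p ∈ closure T →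
      ContinuousAt (fderiv ℝ χ) p := fun hχ p hp hpc =>
    ((hreg hχ p hp hpc).fderiv_right (m := ∞) (by simp)).continuousAt
  have hd := h.hasDerivAt_integral μ hC hTC ha (f' := fderiv ℝ f) (fun p _ => hfd p)
    (fun p _ => hfc.continuousAt) (hregd hψ) (hregc hψ) hs
  refine hd.congr_deriv ?_
  -- the slice at time `s`
  have hsl := h.slice hs
  have hslc : IsCompact (closure {x | (s, x) ∈ T}) :=
    hC.of_isClosed_subset isClosed_closure (closure_minimal (fun x hx => hTC _ hx) hC.isClosed)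
  have hι : ∀ x : E, HasFDerivAt (fun x : E => (s, x)) (ContinuousLinearMap.inr ℝ ℝ E) x :=
    fun x => by
      have := (hasFDerivAt_const (𝕜 := ℝ) s x).prodMk (hasFDerivAt_id (𝕜 := ℝ) x)
      exact this
  have hfsl : ∀ x, HasFDerivAt (fun x => f (s, x))
      ((fderiv ℝ f (s, x)).comp (ContinuousLinearMap.inr ℝ ℝ E)) x := fun x =>
    (hfd (s, x)).comp x (hι x)
  have hfslc : Continuous fun x : E => (fderiv ℝ f (s, x)).comp (ContinuousLinearMap.inr ℝ ℝ E) :=
    (hfc.comp (by fun_prop)).clm_comp continuous_const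
  have hcont : Continuous fun x => f (s, x) := hf.continuous.comp (by fun_prop)
  have hcl : ∀ x ∈ closure {x | (s, x) ∈ T}, (s, x) ∈ Dom E s₀ s₁ ∧ (s, x) ∈ closure T :=
    fun x hx => ⟨⟨hs, mem_univ _⟩, slice_closure_subset hx⟩
  -- integrability helper
  have hint : ∀ {b : ℝ}, 0 < b → ∀ {g : ℝ × E → ℂ},
      (∀ p ∈ Dom E s₀ s₁, p ∈ closure T → ContinuousAt g p) →
      Integrable (fun x => pw f T b (s, x) • g (s, x)) μ := by
    intro b hb g hg
    have := hsl.integrable μ hslc hb hcont (ψ := fun x => g (s, x)) fun x hx =>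
      (hg _ (hcl x hx).1 (hcl x hx).2).comp (f := fun x : E => (s, x)) (by fun_prop)
    refine this.congr (Eventually.of_forall fun x => ?_)
    simp only
    rw [pw_slice]
  -- integration by parts for the fields
  have hparts : ∀ i, ∫ x, pw f T (a - 1) (s, x) •
      ((a * fderiv ℝ f (s, x) (0, v i) : ℝ) • fld f v ψ i (s, x)) ∂μ =
      - ∫ x, pw f T a (s, x) • fderiv ℝ (fld f v ψ i) (s, x) (0, v i) ∂μ := by
    intro i
    have hW := hψ.fld hf i
    have := hsl.integral_deriv_eq_zero μ hslc ha hfsl hfslc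
      (ψ := fun x => fld f v ψ i (s, x))
      (ψ' := fun x => (fderiv ℝ (fld f v ψ i) (s, x)).comp (ContinuousLinearMap.inr ℝ ℝ E))
      (fun x hx => (hregd hW _ (hcl x hx).1 (hcl x hx).2).comp x (hι x))
      (fun x hx => by
        have h1 : ContinuousAt (fun x : E => fderiv ℝ (fld f v ψ i) (s, x)) x :=
          (hregc hW _ (hcl x hx).1 (hcl x hx).2).comp (f := fun x : E => (s, x)) (by fun_prop)
        exact h1.clm_comp continuousAt_const) (v i)
    simp only [ContinuousLinearMap.comp_apply, ContinuousLinearMap.inr_apply, ← pw_slice] at this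
    rw [← add_eq_zero_iff_eq_neg, add_comm]
    exact this
  -- pointwise identity for the second term
  have hpt : ∀ x, pw f T (a - 1) (s, x) • ((a * fderiv ℝ f (s, x) (1, 0) : ℝ) • ψ (s, x)) =
      pw f T a (s, x) • ((a * f (s, x) * fderiv ℝ f (s, x) (1, 0) / qf f v (s, x) : ℝ) • ψ (s, x))
      + ∑ i, pw f T (a - 1) (s, x) •
        ((a * fderiv ℝ f (s, x) (0, v i) : ℝ) • fld f v ψ i (s, x)) := by
    intro x
    by_cases hxT : (s, x) ∈ T
    · have hpa : pw f T a (s, x) = f (s, x) * pw f T (a - 1) (s, x) := by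
        rw [h.mul_pw]
        congr 1
        ring
      by_cases hxS : (s, x) ∈ S
      · have hq0 : qf f v (s, x) ≠ 0 := hq _ (h.sub hxT) (subset_closure hxT) hxS
        simp only [fld, hpa, smul_smul]
        rw [← Finset.sum_smul, ← add_smul]
        congr 1
        have hsum : ∑ i, pw f T (a - 1) (s, x) * (a * fderiv ℝ f (s, x) (0, v i) *
            (fderiv ℝ f (s, x) (1, 0) * fderiv ℝ f (s, x) (0, v i) / qf f v (s, x))) =
            pw f T (a - 1) (s, x) * a * fderiv ℝ f (s, x) (1, 0) / qf f v (s, x) *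
              ∑ i, (fderiv ℝ f (s, x) (0, v i)) ^ 2 := by
          rw [Finset.mul_sum]
          refine Finset.sum_congr rfl fun i _ => ?_
          field_simp
        have hqe : ∑ i, (fderiv ℝ f (s, x) (0, v i)) ^ 2 = qf f v (s, x) - f (s, x) ^ 2 := by
          simp [qf]
        have hsum' : ∑ i, pw f T (a - 1) (s, x) * (a * fderiv ℝ f (s, x) (0, v i) *
            (fderiv ℝ f (s, x) (1, 0) * fderiv ℝ f (s, x) (0, v i) / qf f v (s, x))) =
            pw f T (a - 1) (s, x) * a * fderiv ℝ f (s, x) (1, 0) / qf f v (s, x) *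
              (qf f v (s, x) - f (s, x) ^ 2) := by
          rw [hsum, hqe]
        rw [hsum']
        field_simp
        ring
      · simp [fld, hψ.zero _ hxS]
    · simp [pw_of_notMem hxT]
  have hc1 : ∀ p ∈ Dom E s₀ s₁, p ∈ closure T → ContinuousAt (fun p => fderiv ℝ ψ p (1, 0)) p :=
    fun p hp hpc => (hregc hψ p hp hpc).clm_apply continuousAt_const
  have i1 := hint (b := a) (by linarith) hc1
  -- the second weight is continuous near the closure of `T`
  have hc2 : ∀ p ∈ Dom E s₀ s₁, p ∈ closure T → ContinuousAt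
      (fun p => (a * f p * fderiv ℝ f p (1, 0) / qf f v p : ℝ) • ψ p) p := by
    intro p hp hpc
    by_cases hpS : p ∈ S
    · have h0 : ContDiffAt ℝ ∞ (fun p => a * f p * fderiv ℝ f p (1, 0) / qf f v p) p :=
        ((contDiffAt_const.mul hf.contDiffAt).mul (contDiff_fderiv_apply hf _).contDiffAt).div
          (contDiff_qf hf v).contDiffAt (hq p hp hpc hpS)
      exact h0.continuousAt.smul (hregd hψ p hp hpc).continuousAt
    · have h1 : (fun _ => (0 : ℂ)) =ᶠ[𝓝 p]
          fun p => (a * f p * fderiv ℝ f p (1, 0) / qf f v p : ℝ) • ψ p := by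
        filter_upwards [hψ.eventually_zero hS hpS] with y hy
        rw [hy, smul_zero]
      exact continuousAt_const.congr h1
  have i2 := hint (b := a) (by linarith) hc2
  have hc3 : ∀ i, ∀ p ∈ Dom E s₀ s₁, p ∈ closure T → ContinuousAt
      (fun p => (a * fderiv ℝ f p (0, v i) : ℝ) • fld f v ψ i p) p := by
    intro i p hp hpc
    have h1 : ContinuousAt (fun p => (a * fderiv ℝ f p (0, v i) : ℝ)) p :=
      continuousAt_const.mul (hfc.continuousAt.clm_apply continuousAt_const)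
    exact h1.smul (hregd (hψ.fld hf i) p hp hpc).continuousAt
  have i3 := fun i => hint (b := a - 1) (by linarith) (hc3 i)
  have hc4 : ∀ i, ∀ p ∈ Dom E s₀ s₁, p ∈ closure T → ContinuousAt
      (fun p => fderiv ℝ (fld f v ψ i) p (0, v i)) p := fun i p hp hpc =>
    (hregc (hψ.fld hf i) p hp hpc).clm_apply continuousAt_const
  have i4 := fun i => hint (b := a) (by linarith) (hc4 i)
  have hL : (∫ x, (pw f T a (s, x) • fderiv ℝ ψ (s, x) (1, 0) +
      pw f T (a - 1) (s, x) • ((a * fderiv ℝ f (s, x) (1, 0) : ℝ) • ψ (s, x))) ∂μ) =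
      (∫ x, pw f T a (s, x) • fderiv ℝ ψ (s, x) (1, 0) ∂μ) +
      ((∫ x, pw f T a (s, x) •
        ((a * f (s, x) * fderiv ℝ f (s, x) (1, 0) / qf f v (s, x) : ℝ) • ψ (s, x)) ∂μ) +
      ∑ i, ∫ x, pw f T (a - 1) (s, x) •
        ((a * fderiv ℝ f (s, x) (0, v i) : ℝ) • fld f v ψ i (s, x)) ∂μ) := by
    have i5 : Integrable (fun x => pw f T (a - 1) (s, x) •
        ((a * fderiv ℝ f (s, x) (1, 0) : ℝ) • ψ (s, x))) μ :=
      hint (b := a - 1) (by linarith) (g := fun p => (a * fderiv ℝ f p (1, 0) : ℝ) • ψ p)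
        fun p hp hpc => (continuousAt_const.mul
          (hfc.continuousAt.clm_apply continuousAt_const)).smul (hregd hψ p hp hpc).continuousAt
    have e1 := integral_add i1 i5
    have e2 := integral_add i2 (integrable_finsetSum Finset.univ fun i _ => i3 i)
    have e3 := integral_finsetSum Finset.univ fun i _ => i3 i
    rw [e1]
    congr 1
    rw [← e3, ← e2]
    exact integral_congr_ae (Eventually.of_forall fun x => hpt x)
  have hR : (∫ x, pw f T a (s, x) • opw f v a ψ (s, x) ∂μ) =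
      (∫ x, pw f T a (s, x) • fderiv ℝ ψ (s, x) (1, 0) ∂μ) +
      (∫ x, pw f T a (s, x) •
        ((a * f (s, x) * fderiv ℝ f (s, x) (1, 0) / qf f v (s, x) : ℝ) • ψ (s, x)) ∂μ) -
      ∑ i, ∫ x, pw f T a (s, x) • fderiv ℝ (fld f v ψ i) (s, x) (0, v i) ∂μ := by
    have e1 := integral_add i1 i2
    have e3 := integral_finsetSum Finset.univ fun i _ => i4 i
    have e2 := integral_sub (i1.add i2) (integrable_finsetSum Finset.univ fun i _ => i4 i)
    rw [← e3, ← e1]
    refine Eq.trans ?_ e2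
    refine integral_congr_ae (Eventually.of_forall fun x => ?_)
    simp only [opw, smul_sub, smul_add, Finset.smul_sum, Pi.add_apply]
  rw [hL, hR, Finset.sum_congr rfl fun i _ => hparts i, Finset.sum_neg_distrib]
  ring

/-- **4.4 (smoothness).** -/
theorem Piece.contDiffOn_integral {f : ℝ × E → ℝ} (hf : ContDiff ℝ ∞ f) {T : Set (ℝ × E)}
    {s₀ s₁ : ℝ} (h : Piece f T (Dom E s₀ s₁)) {C : Set E} (hC : IsCompact C)
    (hTC : ∀ p ∈ T, p.2 ∈ C) {a : ℝ} (ha : 1 < a) {v : ι → E} {S : Set (ℝ × E)}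
    (hS : IsClosed S) (hq : ∀ p ∈ Dom E s₀ s₁, p ∈ closure T → p ∈ S → qf f v p ≠ 0)
    {ψ : ℝ × E → ℂ} (hψ : Wt f v S ψ) :
    ContDiffOn ℝ ∞ (fun s => ∫ x, pw f T a (s, x) • ψ (s, x) ∂μ) (Ioo s₀ s₁) := by
  rw [contDiffOn_infty]
  intro n
  induction n generalizing ψ with
  | zero =>
    rw [Nat.cast_zero, contDiffOn_zero]
    exact fun s hs => (h.hasDerivAt_integral_opw μ hf hC hTC ha hS hq hψ
      hs).continuousAt.continuousWithinAt
  | succ n ih =>
    rw [Nat.cast_add, Nat.cast_one, contDiffOn_succ_iff_deriv_of_isOpen isOpen_Ioo]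
    refine ⟨fun s hs => (h.hasDerivAt_integral_opw μ hf hC hTC ha hS hq hψ
      hs).differentiableAt.differentiableWithinAt, fun hn => absurd hn (by simp), ?_⟩
    refine (ih (hψ.opw hf hS a)).congr fun s hs => ?_
    exact (h.hasDerivAt_integral_opw μ hf hC hTC ha hS hq hψ hs).deriv

end Smooth

end Pool.Agent.QC.S4
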