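import Mathlib
import Pool.Agent.QC.S4.Param

/-!
# MP_7c50a9_lc, section 4.2: real cycles

General real analysis of the functionals `ψ ↦ ∫_T f^a ψ`:
* `Piece.relation`: `∫_T f^a ((a+1) (d_v f) φ + f d_v φ) = 0`, `a > 0`;
* `Piece.hasFDerivAt_integral`: derivative in a parameter space `Λ`, `a > 1` (CONN);
* `Piece.continuousOn_integral`: continuity in the parameter, `a > 0`;
* `Piece.hasDerivAt_cauchy`: `d/dz ∫_T f^a φ/(L x - z) = ∫_T f^a φ/(L x - z)^2`
  `= ∫_T (f^a d_e φ + a f^(a-1) (d_e f) φ)/(L x - z)` if `L e = 1`.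
-/

namespace Pool.Agent.QC.S4

open Set Topology Filter MeasureTheory

set_option linter.unusedSectionVars false

section Relation

variable {E : Type*} [NormedAddCommGroup E] [NormedSpace ℝ E] [FiniteDimensional ℝ E]
  [MeasurableSpace E] [BorelSpace E] (μ : Measure E) [μ.IsAddHaarMeasure]

/-- The relations of `Z_f`. -/
theorem Piece.relation {f : E → ℝ} {T : Set E} (h : Piece f T univ)
    (hc : IsCompact (closure T)) {a : ℝ} (ha : 0 < a) {f' : E → E →L[ℝ] ℝ}
    (hf : ∀ x, HasFDerivAt f (f' x) x) (hf' : Continuous f') {φ : E → ℂ} {φ' : E → E →L[ℝ] ℂ}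
    (hφ : ∀ x ∈ closure T, HasFDerivAt φ (φ' x) x) (hφ' : ∀ x ∈ closure T, ContinuousAt φ' x)
    (v : E) :
    ∫ x, pw f T a x • (((a + 1) * f' x v : ℝ) • φ x + (f x : ℝ) • φ' x v) ∂μ = 0 := by
  have hfc : Continuous f := continuous_iff_continuousAt.mpr fun x => (hf x).continuousAt
  have h1 := h.integral_deriv_eq_zero μ hc (a := a + 1) (by linarith) hf hf' hφ hφ' v
  rw [add_sub_cancel_right] at h1
  have i2 : Integrable (fun x => pw f T (a + 1) x • φ' x v) μ :=
    h.integrable μ hc (by linarith) hfc fun x hx => (hφ' x hx).clm_apply continuousAt_const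
  have i3 : Integrable (fun x => pw f T a x • (((a + 1) * f' x v : ℝ) • φ x)) μ :=
    h.integrable μ hc (by linarith) hfc fun x hx => by
      have h1 : ContinuousAt (fun x => ((a + 1) * f' x v : ℝ)) x := by fun_prop
      exact h1.smul (hφ x hx).continuousAt
  rw [← integral_add i2 i3] at h1
  rw [← h1]
  refine integral_congr_ae (Eventually.of_forall fun x => ?_)
  simp only [smul_add]
  rw [add_comm]
  congr 1
  rw [smul_smul, mul_comm, h.mul_pw]

end Relation

section Family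

variable {Λ : Type*} [NormedAddCommGroup Λ] [NormedSpace ℝ Λ] [FiniteDimensional ℝ Λ]
  {E : Type*} [NormedAddCommGroup E] [NormedSpace ℝ E] [FiniteDimensional ℝ E]
  [MeasurableSpace E] [BorelSpace E] (μ : Measure E) [μ.IsAddHaarMeasure]

/-- Slices of pieces over a parameter space. -/
theorem Piece.sliceΛ {f : Λ × E → ℝ} {T : Set (Λ × E)} {B : Set Λ}
    (h : Piece f T (B ×ˢ univ)) {p : Λ} (hp : p ∈ B) :
    Piece (fun x => f (p, x)) {x | (p, x) ∈ T} univ where
  isOpenD := isOpen_univ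
  isOpen := h.isOpen.preimage (by fun_prop)
  sub := subset_univ _
  pos x hx := h.pos _ hx
  zero x _ hxc hxT := by
    refine h.zero (p, x) ⟨hp, mem_univ _⟩ ?_ hxT
    have hc : Continuous fun x : E => (p, x) := by fun_prop
    exact map_mem_closure (f := fun x : E => (p, x)) hc hxc fun y hy => hy

theorem sliceΛ_closure_subset {T : Set (Λ × E)} {p : Λ} {x : E}
    (hx : x ∈ closure {x | (p, x) ∈ T}) : (p, x) ∈ closure T := by
  have hc : Continuous fun x : E => (p, x) := by fun_prop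
  exact map_mem_closure (f := fun x : E => (p, x)) hc hx fun y hy => hy

theorem pw_sliceΛ (f : Λ × E → ℝ) (T : Set (Λ × E)) (a : ℝ) (p : Λ) (x : E) :
    pw f T a (p, x) = pw (fun x => f (p, x)) {x | (p, x) ∈ T} a x := by
  by_cases hx : (p, x) ∈ T
  · rw [pw_of_mem hx, pw_of_mem (T := {x | (p, x) ∈ T}) hx]
  · rw [pw_of_notMem hx, pw_of_notMem (T := {x | (p, x) ∈ T}) hx]

variable {B : Set Λ} {f : Λ × E → ℝ} {T : Set (Λ × E)}

/-- Continuity in the parameter. -/
theorem Piece.continuousOn_integral (h : Piece f T (B ×ˢ univ)) (hB : IsOpen B) {C : Set E}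
    (hC : IsCompact C) (hTC : ∀ p ∈ T, p.2 ∈ C) {a : ℝ} (ha : 0 < a)
    (hf : ∀ p ∈ B ×ˢ (univ : Set E), ContinuousAt f p) {F : Type*} [NormedAddCommGroup F]
    [NormedSpace ℝ F] {ψ : Λ × E → F}
    (hψ : ∀ p ∈ B ×ˢ (univ : Set E), p ∈ closure T → ContinuousAt ψ p) :
    ContinuousOn (fun p => ∫ x, pw f T a (p, x) • ψ (p, x) ∂μ) B := by
  intro p hp
  obtain ⟨δ, hδ, hδp⟩ : ∃ δ > 0, Metric.closedBall p δ ⊆ B :=
    Metric.nhds_basis_closedBall.mem_iff.mp (hB.mem_nhds hp)
  have hcontF : ∀ p ∈ B ×ˢ (univ : Set E), ContinuousAt (fun p => pw f T a p • ψ p) p :=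
    fun p hp => h.continuousAt_pw_smul ha hp (hf p hp) fun hpc => hψ p hp hpc
  have hKc : IsCompact (Metric.closedBall p δ ×ˢ C) := (isCompact_closedBall p δ).prod hC
  obtain ⟨M, hM⟩ := hKc.exists_bound_of_continuousOn (f := fun p => pw f T a p • ψ p)
    fun q hq => (hcontF q ⟨hδp hq.1, mem_univ _⟩).continuousWithinAt
  have hzero : ∀ t x, x ∉ C → pw f T a (t, x) = 0 := fun t x hx =>
    pw_of_notMem fun hT => hx (hTC _ hT)
  refine ContinuousAt.continuousWithinAt ?_
  refine continuousAt_of_dominated (bound := C.indicator fun _ => M) ?_ ?_ ?_ ?_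
  · filter_upwards [Metric.closedBall_mem_nhds p hδ] with t ht
    refine Continuous.aestronglyMeasurable ?_
    exact continuous_iff_continuousAt.mpr fun x =>
      (hcontF (t, x) ⟨hδp ht, mem_univ _⟩).comp (f := fun x : E => (t, x)) (by fun_prop)
  · filter_upwards [Metric.closedBall_mem_nhds p hδ] with t ht
    refine Eventually.of_forall fun x => ?_
    by_cases hx : x ∈ C
    · rw [indicator_of_mem hx]
      exact hM (t, x) ⟨ht, hx⟩
    · rw [indicator_of_notMem hx, hzero t x hx]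
      simp
  · exact (integrable_indicator_iff hC.measurableSet).mpr
      (integrableOn_const hC.measure_lt_top.ne)
  · exact Eventually.of_forall fun x => (hcontF (p, x) ⟨hp, mem_univ _⟩).comp
      (f := fun p : Λ => (p, x)) (by fun_prop)

/-- Differentiation in the parameter (CONN). -/
theorem Piece.hasFDerivAt_integral (h : Piece f T (B ×ˢ univ)) (hB : IsOpen B) {C : Set E}
    (hC : IsCompact C) (hTC : ∀ p ∈ T, p.2 ∈ C) {a : ℝ} (ha : 1 < a)
    {f' : Λ × E → (Λ × E) →L[ℝ] ℝ}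
    (hf : ∀ p ∈ B ×ˢ (univ : Set E), HasFDerivAt f (f' p) p)
    (hf' : ∀ p ∈ B ×ˢ (univ : Set E), ContinuousAt f' p)
    {ψ : Λ × E → ℂ} {ψ' : Λ × E → (Λ × E) →L[ℝ] ℂ}
    (hψ : ∀ p ∈ B ×ˢ (univ : Set E), p ∈ closure T → HasFDerivAt ψ (ψ' p) p)
    (hψ' : ∀ p ∈ B ×ˢ (univ : Set E), p ∈ closure T → ContinuousAt ψ' p)
    {p : Λ} (hp : p ∈ B) :
    HasFDerivAt (fun p => ∫ x, pw f T a (p, x) • ψ (p, x) ∂μ)
      (∫ x, (pw f T a (p, x) • (ψ' (p, x)).comp (ContinuousLinearMap.inl ℝ Λ E) +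
        pw f T (a - 1) (p, x) •
          (a • (f' (p, x)).comp (ContinuousLinearMap.inl ℝ Λ E)).smulRight (ψ (p, x))) ∂μ) p := by
  obtain ⟨δ, hδ, hδp⟩ : ∃ δ > 0, Metric.closedBall p δ ⊆ B :=
    Metric.nhds_basis_closedBall.mem_iff.mp (hB.mem_nhds hp)
  have hcontF : ∀ p ∈ B ×ˢ (univ : Set E), ContinuousAt (fun p => pw f T a p • ψ p) p :=
    fun p hp => h.continuousAt_pw_smul (by linarith) hp (hf p hp).continuousAt
      fun hpc => (hψ p hp hpc).continuousAt
  have hcontF' : ∀ p ∈ B ×ˢ (univ : Set E), ContinuousAt (fun p => pw f T a p •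
      (ψ' p).comp (ContinuousLinearMap.inl ℝ Λ E) + pw f T (a - 1) p •
        (a • (f' p).comp (ContinuousLinearMap.inl ℝ Λ E)).smulRight (ψ p)) p := by
    intro p hp
    have hA1 : p ∈ closure T →
        ContinuousAt (fun p => (ψ' p).comp (ContinuousLinearMap.inl ℝ Λ E)) p := fun hpc =>
      (hψ' p hp hpc).clm_comp continuousAt_const
    have hA2 := h.continuousAt_pw_smul (a := a) (by linarith) hp (hf p hp).continuousAt hA1
    have h1 : ContinuousAt (fun p => a • (f' p).comp (ContinuousLinearMap.inl ℝ Λ E)) p :=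
      ((hf' p hp).clm_comp continuousAt_const).const_smul a
    have hB1 : p ∈ closure T → ContinuousAt
        (fun p => (a • (f' p).comp (ContinuousLinearMap.inl ℝ Λ E)).smulRight (ψ p)) p := by
      intro hpc
      have h2 : ContinuousAt (fun p => ContinuousLinearMap.smulRightL ℝ Λ ℂ
          (a • (f' p).comp (ContinuousLinearMap.inl ℝ Λ E))) p :=
        (ContinuousLinearMap.smulRightL ℝ Λ ℂ).continuous.continuousAt.comp h1
      exact h2.clm_apply (hψ p hp hpc).continuousAt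
    have hB2 := h.continuousAt_pw_smul (a := a - 1) (by linarith) hp (hf p hp).continuousAt hB1
    exact hA2.add hB2
  have hKc : IsCompact (Metric.closedBall p δ ×ˢ C) := (isCompact_closedBall p δ).prod hC
  obtain ⟨M, hM⟩ := hKc.exists_bound_of_continuousOn
    (f := fun p => pw f T a p • (ψ' p).comp (ContinuousLinearMap.inl ℝ Λ E) +
      pw f T (a - 1) p • (a • (f' p).comp (ContinuousLinearMap.inl ℝ Λ E)).smulRight (ψ p))
    fun q hq => (hcontF' q ⟨hδp hq.1, mem_univ _⟩).continuousWithinAt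
  have hzero : ∀ t x, x ∉ C → pw f T a (t, x) = 0 ∧ pw f T (a - 1) (t, x) = 0 := fun t x hx =>
    ⟨pw_of_notMem fun hT => hx (hTC _ hT), pw_of_notMem fun hT => hx (hTC _ hT)⟩
  have hslice : ∀ t ∈ B, Continuous fun x => pw f T a (t, x) • ψ (t, x) := fun t ht =>
    continuous_iff_continuousAt.mpr fun x =>
      (hcontF (t, x) ⟨ht, mem_univ _⟩).comp (f := fun x : E => (t, x)) (by fun_prop)
  have hslice' : Continuous fun x => pw f T a (p, x) •
      (ψ' (p, x)).comp (ContinuousLinearMap.inl ℝ Λ E) + pw f T (a - 1) (p, x) •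
        (a • (f' (p, x)).comp (ContinuousLinearMap.inl ℝ Λ E)).smulRight (ψ (p, x)) :=
    continuous_iff_continuousAt.mpr fun x =>
      (hcontF' (p, x) ⟨hp, mem_univ _⟩).comp (f := fun x : E => (p, x)) (by fun_prop)
  refine hasFDerivAt_integral_of_dominated_of_fderiv_le (μ := μ)
    (F := fun p x => pw f T a (p, x) • ψ (p, x))
    (F' := fun p x => pw f T a (p, x) • (ψ' (p, x)).comp (ContinuousLinearMap.inl ℝ Λ E) +
      pw f T (a - 1) (p, x) •
        (a • (f' (p, x)).comp (ContinuousLinearMap.inl ℝ Λ E)).smulRight (ψ (p, x)))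
    (bound := C.indicator fun _ => M) (Metric.closedBall_mem_nhds p hδ) ?_ ?_ ?_ ?_ ?_ ?_
  · filter_upwards [Metric.closedBall_mem_nhds p hδ] with t ht
    exact (hslice t (hδp ht)).aestronglyMeasurable
  · refine (hslice p hp).integrable_of_hasCompactSupport (HasCompactSupport.intro hC fun x hx => ?_)
    rw [(hzero p x hx).1, zero_smul]
  · exact hslice'.aestronglyMeasurable
  · refine Eventually.of_forall fun x t ht => ?_
    by_cases hx : x ∈ C
    · rw [indicator_of_mem hx]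
      exact hM (t, x) ⟨ht, hx⟩
    · rw [indicator_of_notMem hx]
      have e0 : pw f T a (t, x) • (ψ' (t, x)).comp (ContinuousLinearMap.inl ℝ Λ E) +
          pw f T (a - 1) (t, x) •
            (a • (f' (t, x)).comp (ContinuousLinearMap.inl ℝ Λ E)).smulRight (ψ (t, x)) = 0 := by
        ext w
        simp [(hzero t x hx).1, (hzero t x hx).2]
      rw [e0, norm_zero]
  · exact (integrable_indicator_iff hC.measurableSet).mpr
      (integrableOn_const hC.measure_lt_top.ne)
  · refine Eventually.of_forall fun x t ht => ?_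
    have hq : (t, x) ∈ B ×ˢ (univ : Set E) := ⟨hδp ht, mem_univ _⟩
    have hd := h.hasFDerivAt_pw_smul ha hq (hf _ hq) (ψ := ψ) (ψ' := ψ' (t, x))
      (fun hpc => hψ _ hq hpc)
    have hl : HasFDerivAt (fun t : Λ => (t, x)) (ContinuousLinearMap.inl ℝ Λ E) t := by
      have := (hasFDerivAt_id (𝕜 := ℝ) t).prodMk (hasFDerivAt_const (𝕜 := ℝ) x t)
      exact this
    have := hd.comp t hl
    refine this.congr_fderiv ?_
    ext w
    simp only [ContinuousLinearMap.comp_apply, add_apply, smul_apply,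
      ContinuousLinearMap.smulRight_apply, smul_smul]
    congr 2
    simp only [smul_eq_mul]
    ring

end Family

section Cauchy

variable {E : Type*} [NormedAddCommGroup E] [NormedSpace ℝ E] [FiniteDimensional ℝ E]
  [MeasurableSpace E] [BorelSpace E] (μ : Measure E) [μ.IsAddHaarMeasure]

/-- Distance from `z` to the values of `L` on the closure of `T`. -/
theorem exists_dist_pos {T : Set E} (hc : IsCompact (closure T)) (L : E →L[ℝ] ℝ) {z : ℂ}
    (hz : ∀ x ∈ closure T, (L x : ℂ) ≠ z) :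
    ∃ δ > 0, ∀ z' ∈ Metric.ball z δ, ∀ x ∈ closure T, δ ≤ ‖(L x : ℂ) - z'‖ := by
  have hcomp : IsCompact ((fun x => (L x : ℂ)) '' closure T) :=
    hc.image (Complex.continuous_ofReal.comp L.continuous)
  have hop : ((fun x => (L x : ℂ)) '' closure T)ᶜ ∈ 𝓝 z := by
    refine hcomp.isClosed.isOpen_compl.mem_nhds ?_
    rintro ⟨x, hx, hxz⟩
    exact hz x hx hxz
  obtain ⟨ρ, hρ, hρs⟩ := Metric.mem_nhds_iff.mp hop
  refine ⟨ρ / 2, by positivity, fun z' hz' x hx => ?_⟩
  by_contra hcon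
  push Not at hcon
  have : (L x : ℂ) ∈ Metric.ball z ρ := by
    rw [Metric.mem_ball, dist_eq_norm]
    calc ‖(L x : ℂ) - z‖ = ‖((L x : ℂ) - z') + (z' - z)‖ := by congr 1; ring
      _ ≤ ‖(L x : ℂ) - z'‖ + ‖z' - z‖ := norm_add_le _ _
      _ < ρ / 2 + ρ / 2 := by
        have := Metric.mem_ball.mp hz'
        rw [dist_eq_norm] at this
        linarith
      _ = ρ := by ring
  exact hρs this ⟨x, hx, rfl⟩

/-- The Cauchy transform is complex differentiable in `z`. -/
theorem Piece.hasDerivAt_cauchy {f : E → ℝ} {T : Set E} (h : Piece f T univ)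
    (hc : IsCompact (closure T)) {a : ℝ} (ha : 0 < a) (hf : Continuous f) {φ : E → ℂ}
    (hφ : ∀ x ∈ closure T, ContinuousAt φ x) (L : E →L[ℝ] ℝ) {z : ℂ}
    (hz : ∀ x ∈ closure T, (L x : ℂ) ≠ z) :
    HasDerivAt (fun z => ∫ x, pw f T a x • (φ x / ((L x : ℂ) - z)) ∂μ)
      (∫ x, pw f T a x • (φ x / ((L x : ℂ) - z) ^ 2) ∂μ) z := by
  obtain ⟨δ, hδ, hδz⟩ := exists_dist_pos hc L hz
  have hne : ∀ z' ∈ Metric.ball z δ, ∀ x ∈ closure T, (L x : ℂ) - z' ≠ 0 := fun z' hz' x hx => by
    have := hδz z' hz' x hx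
    intro h0
    rw [h0, norm_zero] at this
    linarith
  have hLc : ∀ z' : ℂ, Continuous fun x => (L x : ℂ) - z' := fun z' =>
    (Complex.continuous_ofReal.comp L.continuous).sub continuous_const
  have hI : ∀ z' ∈ Metric.ball z δ, Integrable (fun x => pw f T a x • (φ x / ((L x : ℂ) - z'))) μ :=
    fun z' hz' => h.integrable μ hc ha hf fun x hx =>
      (hφ x hx).div (hLc z').continuousAt (hne z' hz' x hx)
  have hI' : ∀ z' ∈ Metric.ball z δ,
      Integrable (fun x => pw f T a x • (φ x / ((L x : ℂ) - z') ^ 2)) μ :=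
    fun z' hz' => h.integrable μ hc ha hf fun x hx =>
      (hφ x hx).div ((hLc z').continuousAt.pow 2) (pow_ne_zero 2 (hne z' hz' x hx))
  have hIφ : Integrable (fun x => pw f T a x • φ x) μ := h.integrable μ hc ha hf hφ
  have hzb : z ∈ Metric.ball z δ := Metric.mem_ball_self hδ
  refine (hasDerivAt_integral_of_dominated_loc_of_deriv_le (μ := μ) (𝕜 := ℂ)
    (F := fun z x => pw f T a x • (φ x / ((L x : ℂ) - z)))
    (F' := fun z x => pw f T a x • (φ x / ((L x : ℂ) - z) ^ 2))
    (bound := fun x => ‖pw f T a x • φ x‖ * (1 / δ ^ 2)) (Metric.ball_mem_nhds z hδ)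
    ?_ (hI z hzb) (hI' z hzb).aestronglyMeasurable ?_ (hIφ.norm.mul_const _) ?_).2
  · filter_upwards [Metric.ball_mem_nhds z hδ] with z' hz'
    exact (hI z' hz').aestronglyMeasurable
  · refine Eventually.of_forall fun x z' hz' => ?_
    by_cases hx : x ∈ closure T
    · have h1 := hδz z' hz' x hx
      have h2 : 0 < ‖(L x : ℂ) - z'‖ := hδ.trans_le h1
      rw [norm_smul, norm_div, norm_pow, norm_smul]
      calc ‖pw f T a x‖ * (‖φ x‖ / ‖(L x : ℂ) - z'‖ ^ 2)
          ≤ ‖pw f T a x‖ * (‖φ x‖ / δ ^ 2) := by gcongr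
        _ = ‖pw f T a x‖ * ‖φ x‖ * (1 / δ ^ 2) := by ring
    · have : pw f T a x = 0 := pw_of_notMem fun hT => hx (subset_closure hT)
      simp [this]
  · refine Eventually.of_forall fun x z' hz' => ?_
    by_cases hx : x ∈ closure T
    · have h1 : HasDerivAt (fun z : ℂ => (L x : ℂ) - z) (-1) z' := by
        simpa using (hasDerivAt_id z').const_sub (L x : ℂ)
      have h2 := (hasDerivAt_const z' (φ x)).div h1 (hne z' hz' x hx)
      have h3 := h2.const_smul (pw f T a x)
      refine h3.congr_deriv ?_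
      congr 1
      ring
    · have : pw f T a x = 0 := pw_of_notMem fun hT => hx (subset_closure hT)
      simp only [this, zero_smul]
      exact hasDerivAt_const z' (0 : ℂ)

/-- Integration by parts in the direction `e`, `L e = 1`. -/
theorem Piece.cauchy_parts {f : E → ℝ} {T : Set E} (h : Piece f T univ)
    (hc : IsCompact (closure T)) {a : ℝ} (ha : 1 < a) {f' : E → E →L[ℝ] ℝ}
    (hf : ∀ x, HasFDerivAt f (f' x) x) (hf' : Continuous f') {φ : E → ℂ} {φ' : E → E →L[ℝ] ℂ}
    (hφ : ∀ x ∈ closure T, HasFDerivAt φ (φ' x) x) (hφ' : ∀ x ∈ closure T, ContinuousAt φ' x)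
    (L : E →L[ℝ] ℝ) {e : E} (he : L e = 1) {z : ℂ} (hz : ∀ x ∈ closure T, (L x : ℂ) ≠ z) :
    ∫ x, pw f T a x • (φ x / ((L x : ℂ) - z) ^ 2) ∂μ =
      ∫ x, (pw f T a x • (φ' x e / ((L x : ℂ) - z)) +
        pw f T (a - 1) x • ((a * f' x e : ℝ) • (φ x / ((L x : ℂ) - z)))) ∂μ := by
  have hfc : Continuous f := continuous_iff_continuousAt.mpr fun x => (hf x).continuousAt
  have hLc : Continuous fun x => (L x : ℂ) - z :=
    (Complex.continuous_ofReal.comp L.continuous).sub continuous_const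
  have hne : ∀ x ∈ closure T, (L x : ℂ) - z ≠ 0 := fun x hx => sub_ne_zero.mpr (hz x hx)
  -- derivative of `1/(L - z)`
  have hinv : ∀ x ∈ closure T, HasFDerivAt (fun x => ((L x : ℂ) - z)⁻¹)
      ((-(((L x : ℂ) - z) ^ 2)⁻¹) • (Complex.ofRealCLM.comp L)) x := by
    intro x hx
    have h1 : HasFDerivAt (fun x => (L x : ℂ) - z) (Complex.ofRealCLM.comp L) x :=
      ((Complex.ofRealCLM.comp L).hasFDerivAt).sub_const z
    have h2 := (hasDerivAt_inv (𝕜 := ℂ) (hne x hx)).comp_hasFDerivAt_of_eq x h1 rfl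
    exact h2
  have hψ : ∀ x ∈ closure T, HasFDerivAt (fun x => φ x * ((L x : ℂ) - z)⁻¹)
      (φ x • ((-(((L x : ℂ) - z) ^ 2)⁻¹) • (Complex.ofRealCLM.comp L)) +
        (((L x : ℂ) - z)⁻¹) • φ' x) x := fun x hx => (hφ x hx).mul (hinv x hx)
  have hψ' : ∀ x ∈ closure T, ContinuousAt (fun x =>
      (φ x • ((-(((L x : ℂ) - z) ^ 2)⁻¹) • (Complex.ofRealCLM.comp L)) +
        (((L x : ℂ) - z)⁻¹) • φ' x)) x := by
    intro x hx
    have c1 : ContinuousAt (fun x => ((L x : ℂ) - z)⁻¹) x := hLc.continuousAt.inv₀ (hne x hx)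
    have c2 : ContinuousAt (fun x => (-(((L x : ℂ) - z) ^ 2)⁻¹)) x :=
      ((hLc.continuousAt.pow 2).inv₀ (pow_ne_zero 2 (hne x hx))).neg
    exact ((hφ x hx).continuousAt.smul (c2.smul continuousAt_const)).add (c1.smul (hφ' x hx))
  have h1 := h.integral_deriv_eq_zero μ hc ha hf hf' hψ hψ' e
  have i1 : Integrable (fun x => pw f T a x • (φ' x e / ((L x : ℂ) - z))) μ :=
    h.integrable μ hc (by linarith) hfc fun x hx =>
      ((hφ' x hx).clm_apply continuousAt_const).div hLc.continuousAt (hne x hx)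
  have i2 : Integrable (fun x => pw f T (a - 1) x • ((a * f' x e : ℝ) •
      (φ x / ((L x : ℂ) - z)))) μ :=
    h.integrable μ hc (by linarith) hfc fun x hx => by
      have h1 : ContinuousAt (fun x => (a * f' x e : ℝ)) x := by fun_prop
      exact h1.smul ((hφ x hx).continuousAt.div hLc.continuousAt (hne x hx))
  have i3 : Integrable (fun x => pw f T a x • (φ x / ((L x : ℂ) - z) ^ 2)) μ :=
    h.integrable μ hc (by linarith) hfc fun x hx =>
      (hφ x hx).continuousAt.div (hLc.continuousAt.pow 2) (pow_ne_zero 2 (hne x hx))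
  rw [integral_add i1 i2]
  have e1 : ∫ x, pw f T a x • (φ x • ((-(((L x : ℂ) - z) ^ 2)⁻¹) • (Complex.ofRealCLM.comp L)) +
        (((L x : ℂ) - z)⁻¹) • φ' x) e ∂μ =
      (∫ x, pw f T a x • (φ' x e / ((L x : ℂ) - z)) ∂μ) -
        ∫ x, pw f T a x • (φ x / ((L x : ℂ) - z) ^ 2) ∂μ := by
    rw [← integral_sub i1 i3]
    refine integral_congr_ae (Eventually.of_forall fun x => ?_)
    simp only [← smul_sub]
    congr 1
    simp only [add_apply, smul_apply, ContinuousLinearMap.comp_apply, he,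
      Complex.ofRealCLM_apply, Complex.ofReal_one, smul_eq_mul, div_eq_mul_inv]
    ring
  have e2 : ∫ x, pw f T (a - 1) x • ((a * f' x e : ℝ) • (φ x * ((L x : ℂ) - z)⁻¹)) ∂μ =
      ∫ x, pw f T (a - 1) x • ((a * f' x e : ℝ) • (φ x / ((L x : ℂ) - z))) ∂μ := by
    simp only [div_eq_mul_inv]
  rw [e1, e2] at h1
  linear_combination -h1

end Cauchy

end Pool.Agent.QC.S4
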