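import Pool.Agent.QC.Cyc.Defs
import Pool.Agent.QC.S4.Curve
import Pool.Agent.QC.S4.Cycle

/-!
# MP_7c50a9_lc: functionals given by integrals, pattern zero

* `hasStrictFDerivAt_evalC`: derivative of the evaluation of a polynomial;
* `fnlOf_integral`: functionals given by integrals;
* `yU_apply'`, `yU_mem`, `yU_low`, `yU_par`: real cycles of a real family over a `C¹` map into the
  parameter space of a family with pattern `e0` are parallel.
-/

namespace Pool.Agent.QC.S4

open MvPolynomial Filter Topology Set MeasureTheory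

set_option linter.unusedSectionVars false

/-! ## Derivatives of evaluations -/

/-- The derivative of `ξ ↦ eval ξ Q`. -/
noncomputable def evD {m : ℕ} (Q : Pol m) (ξ : Fin m → ℂ) : (Fin m → ℂ) →L[ℂ] ℂ :=
  ∑ i, (eval ξ (pderiv i Q)) • (ContinuousLinearMap.proj i : (Fin m → ℂ) →L[ℂ] ℂ)

theorem evD_apply {m : ℕ} (Q : Pol m) (ξ v : Fin m → ℂ) :
    evD Q ξ v = ∑ i, eval ξ (pderiv i Q) * v i := by
  simp [evD]

theorem evD_single {m : ℕ} (Q : Pol m) (ξ : Fin m → ℂ) (i : Fin m) (c : ℂ) :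
    evD Q ξ (Pi.single i c) = eval ξ (pderiv i Q) * c := by
  rw [evD_apply, Finset.sum_eq_single i]
  · simp
  · intro j _ hj
    simp [Pi.single_eq_of_ne hj]
  · simp

theorem hasStrictFDerivAt_evalC {m : ℕ} (Q : Pol m) (ξ : Fin m → ℂ) :
    HasStrictFDerivAt (fun ξ : Fin m → ℂ => eval ξ Q) (evD Q ξ) ξ := by
  induction Q using MvPolynomial.induction_on with
  | C a =>
    have h : evD (C a : Pol m) ξ = 0 := by
      ext v
      simp [evD_apply]
    rw [h]
    simp only [eval_C]
    exact hasStrictFDerivAt_const a ξ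
  | add P Q hP hQ =>
    have h : evD (P + Q) ξ = evD P ξ + evD Q ξ := by
      ext v
      simp [evD_apply, add_mul, Finset.sum_add_distrib]
    rw [h]
    simp only [map_add]
    exact hP.add hQ
  | mul_X P j hP =>
    have hX : HasStrictFDerivAt (fun x : Fin m → ℂ => x j)
        (ContinuousLinearMap.proj j : (Fin m → ℂ) →L[ℂ] ℂ) ξ :=
      (ContinuousLinearMap.proj (R := ℂ) (φ := fun _ : Fin m => ℂ) j).hasStrictFDerivAt
    have h := hP.mul hX
    have h2 : evD (P * X j) ξ =
        eval ξ P • (ContinuousLinearMap.proj j : (Fin m → ℂ) →L[ℂ] ℂ) + ξ j • evD P ξ := by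
      ext v
      simp only [evD_apply, add_apply, smul_apply, ContinuousLinearMap.proj_apply, smul_eq_mul]
      have h3 : ∀ i, eval ξ (pderiv i (P * X j)) =
          (if i = j then eval ξ P else 0) + ξ j * eval ξ (pderiv i P) := by
        intro i
        rw [Derivation.leibniz, pderiv_X]
        by_cases hij : i = j
        · subst hij
          simp
        · simp [hij]
      simp only [h3, add_mul, Finset.sum_add_distrib, ite_mul, zero_mul, Finset.sum_ite_eq',
        Finset.mem_univ, if_true, Finset.mul_sum]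
      congr 1
      refine Finset.sum_congr rfl fun i _ => ?_
      ring
    have h1 : (fun x : Fin m → ℂ => eval x (P * X j)) = fun x => eval x P * x j := by
      funext y
      simp
    rw [h1, h2]
    exact h

theorem continuous_evalC {m : ℕ} (Q : Pol m) : Continuous fun ξ : Fin m → ℂ => eval ξ Q :=
  continuous_iff_continuousAt.mpr fun ξ =>
    (hasStrictFDerivAt_evalC Q ξ).hasFDerivAt.continuousAt

theorem continuous_evD {m : ℕ} (Q : Pol m) : Continuous (evD Q) := by
  unfold evD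
  refine continuous_finsetSum _ fun i _ => ?_
  exact (continuous_evalC _).smul continuous_const

/-- Real points as a real linear map. -/
noncomputable def xCL (m : ℕ) : (Fin m → ℝ) →L[ℝ] (Fin m → ℂ) :=
  ContinuousLinearMap.pi fun i => Complex.ofRealCLM.comp (ContinuousLinearMap.proj i)

theorem xCL_apply {m : ℕ} (x : Fin m → ℝ) : xCL m x = xC x := rfl

theorem xC_single {m : ℕ} (i : Fin m) : xC (Pi.single i (1 : ℝ)) = Pi.single i (1 : ℂ) := by
  funext j
  by_cases h : j = i
  · subst h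
    simp [xC]
  · simp [xC, Pi.single_eq_of_ne h]

theorem continuous_xC {m : ℕ} : Continuous (xC : (Fin m → ℝ) → (Fin m → ℂ)) :=
  (xCL m).continuous

/-- The derivative at real points. -/
theorem hasFDerivAt_evalR {m : ℕ} (Q : Pol m) (x : Fin m → ℝ) :
    HasFDerivAt (fun x : Fin m → ℝ => eval (xC x) Q)
      (((evD Q (xC x)).restrictScalars ℝ).comp (xCL m)) x := by
  have h1 : HasFDerivAt (fun ξ : Fin m → ℂ => eval ξ Q) ((evD Q (xC x)).restrictScalars ℝ)
      (xCL m x) := (hasStrictFDerivAt_evalC Q (xC x)).hasFDerivAt.restrictScalars ℝ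
  exact h1.comp x (xCL m).hasFDerivAt

theorem evalR_single {m : ℕ} (Q : Pol m) (x : Fin m → ℝ) (i : Fin m) :
    (((evD Q (xC x)).restrictScalars ℝ).comp (xCL m)) (Pi.single i (1 : ℝ)) =
      eval (xC x) (pderiv i Q) := by
  have : (((evD Q (xC x)).restrictScalars ℝ).comp (xCL m)) (Pi.single i (1 : ℝ)) =
    evD Q (xC x) (xC (Pi.single i (1 : ℝ))) := rfl
  rw [this, xC_single, evD_single, mul_one]

theorem continuous_evalR' {m : ℕ} (Q : Pol m) :
    Continuous fun x : Fin m → ℝ => ((evD Q (xC x)).restrictScalars ℝ).comp (xCL m) := by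
  have h1 : Continuous fun x : Fin m → ℝ => (evD Q (xC x)).restrictScalars ℝ :=
    (ContinuousLinearMap.continuous_restrictScalars ..).comp
      ((continuous_evD Q).comp continuous_xC)
  exact h1.clm_comp continuous_const

/-! ## Functionals given by integrals -/

theorem fnlOf_integral {m : ℕ} {X : Type*} [MeasurableSpace X] {μ : Measure X} (ℓ : X → Fnl m)
    (hint : ∀ Q, Integrable (fun x => ℓ x Q) μ) (Q : Pol m) :
    fnlOf (fun s => ∫ x, ℓ x (monomial s 1) ∂μ) Q = ∫ x, ℓ x Q ∂μ := by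
  let G : Fnl m :=
    { toFun := fun Q => ∫ x, ℓ x Q ∂μ
      map_add' := fun Q R => by
        simp only [map_add]
        exact integral_add (hint Q) (hint R)
      map_smul' := fun c Q => by
        simp only [map_smul, smul_eq_mul, RingHom.id_apply]
        exact integral_const_mul c _ }
  have h : fnlOf (fun s => ∫ x, ℓ x (monomial s 1) ∂μ) = G := by
    refine (basisMonomials (Fin m) ℂ).ext fun s => ?_
    rw [fnlOf, Module.Basis.constr_basis]
    simp [G, coe_basisMonomials]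
  rw [h]
  rfl

/-- `Q ↦ w * eval ρ Q`. -/
noncomputable def evF {m : ℕ} (w : ℂ) (ρ : Fin m → ℂ) : Fnl m where
  toFun Q := w * eval ρ Q
  map_add' Q R := by rw [map_add, mul_add]
  map_smul' c Q := by
    rw [smul_eval, RingHom.id_apply, smul_eq_mul]
    ring

theorem evF_apply {m : ℕ} (w : ℂ) (ρ : Fin m → ℂ) (Q : Pol m) : evF w ρ Q = w * eval ρ Q := rfl

section Single

variable {m : ℕ} {f : (Fin m → ℝ) → ℝ} {T : Set (Fin m → ℝ)} {a : ℝ}

theorem integrable_yU (hT : Piece f T univ) (hc : IsCompact (closure T)) (ha : 0 < a)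
    (hf : Continuous f) (Q : Pol m) :
    Integrable (fun x => ((pw f T a x : ℝ) : ℂ) * eval (xC x) Q) := by
  have := hT.integrable volume hc ha hf (ψ := fun x => eval (xC x) Q) fun x _ =>
    ((continuous_evalC Q).comp continuous_xC).continuousAt
  simpa only [Complex.real_smul] using this

theorem yU_apply' (hT : Piece f T univ) (hc : IsCompact (closure T)) (ha : 0 < a)
    (hf : Continuous f) (Q : Pol m) :
    yU a f T Q = ∫ x, ((pw f T a x : ℝ) : ℂ) * eval (xC x) Q :=
  fnlOf_integral (fun x => evF ((pw f T a x : ℝ) : ℂ) (xC x))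
    (fun Q => integrable_yU hT hc ha hf Q) Q

variable {F : Pol m}

/-- The cycle is in the fibre. -/
theorem yU_mem (hT : Piece f T univ) (hc : IsCompact (closure T)) (ha : 0 < a)
    {f' : (Fin m → ℝ) → (Fin m → ℝ) →L[ℝ] ℝ} (hf : ∀ x, HasFDerivAt f (f' x) x)
    (hf' : Continuous f') (hF : ∀ x, eval (xC x) F = (f x : ℂ)) :
    yU a f T ∈ Zs (e0 m) (a : ℂ) F := by
  have hfc : Continuous f := continuous_iff_continuousAt.mpr fun x => (hf x).continuousAt
  -- derivatives of `F` at real points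
  have hd : ∀ x i, eval (xC x) (pderiv i F) = ((f' x (Pi.single i 1) : ℝ) : ℂ) := by
    intro x i
    have h1 := hasFDerivAt_evalR F x
    have h2 : HasFDerivAt (fun x : Fin m → ℝ => eval (xC x) F) (Complex.ofRealCLM.comp (f' x)) x := by
      have : (fun x : Fin m → ℝ => eval (xC x) F) = fun x => ((f x : ℝ) : ℂ) := funext hF
      rw [this]
      exact Complex.ofRealCLM.hasFDerivAt.comp x (hf x)
    have h3 := h1.unique h2
    have h4 := congrArg (fun L => L (Pi.single i (1 : ℝ))) h3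
    rw [evalR_single] at h4
    rw [h4]
    rfl
  intro i Q
  rw [yU_apply' hT hc ha hfc]
  have h1 := hT.relation volume hc ha hf hf' (φ := fun x => eval (xC x) Q)
    (φ' := fun x => ((evD Q (xC x)).restrictScalars ℝ).comp (xCL m))
    (fun x _ => hasFDerivAt_evalR Q x) (fun x _ => (continuous_evalR' Q).continuousAt)
    (Pi.single i 1)
  rw [← h1]
  refine integral_congr_ae (Eventually.of_forall fun x => ?_)
  simp only [Dop, th, e0, pow_zero, one_mul, map_add, map_mul, eval_C, evalR_single, hd, hF,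
    Complex.real_smul, Complex.ofReal_mul, Complex.ofReal_add, Complex.ofReal_one]

/-- The cycle of exponent `a - 1` is below the cycle of exponent `a`. -/
theorem yU_low (hT : Piece f T univ) (hc : IsCompact (closure T)) (ha : 1 < a)
    {f' : (Fin m → ℝ) → (Fin m → ℝ) →L[ℝ] ℝ} (hf : ∀ x, HasFDerivAt f (f' x) x)
    (hf' : Continuous f') (hF : ∀ x, eval (xC x) F = (f x : ℂ)) :
    Low (e0 m) (a : ℂ) F (yU a f T) (yU (a - 1) f T) := by
  have hfc : Continuous f := continuous_iff_continuousAt.mpr fun x => (hf x).continuousAt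
  refine ⟨?_, fun Q => ?_⟩
  · have := yU_mem hT hc (a := a - 1) (by linarith) hf hf' hF
    simpa using this
  · rw [yU_apply' hT hc (by linarith) hfc, yU_apply' hT hc (by linarith) hfc]
    refine integral_congr_ae (Eventually.of_forall fun x => ?_)
    simp only
    rw [map_mul, hF, ← mul_assoc, ← Complex.ofReal_mul, mul_comm (pw f T (a - 1) x),
      hT.mul_pw (a - 1) x, sub_add_cancel]

end Single

/-! ## Restriction of pieces -/

theorem Piece.restrict {X : Type*} [NormedAddCommGroup X] [NormedSpace ℝ X] {f : X → ℝ}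
    {T D D' : Set X} (h : Piece f T D) (hD' : IsOpen D') (hs : D' ⊆ D) : Piece f (T ∩ D') D' where
  isOpenD := hD'
  isOpen := h.isOpen.inter hD'
  sub := inter_subset_right
  pos x hx := h.pos x hx.1
  zero x hx hxc hxT := h.zero x (hs hx) (closure_mono inter_subset_left hxc)
    fun hT => hxT ⟨hT, hx⟩

/-- Integrability, vector valued. -/
theorem Piece.integrableF {X : Type*} [NormedAddCommGroup X] [NormedSpace ℝ X]
    [FiniteDimensional ℝ X] [MeasurableSpace X] [BorelSpace X] (μ : Measure X)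
    [μ.IsAddHaarMeasure] {V : Type*} [NormedAddCommGroup V] [NormedSpace ℝ V]
    {f : X → ℝ} {T : Set X} (h : Piece f T univ)
    (hc : IsCompact (closure T)) {a : ℝ} (ha : 0 < a) (hf : Continuous f) {ψ : X → V}
    (hψ : ∀ x ∈ closure T, ContinuousAt ψ x) : Integrable (fun x => pw f T a x • ψ x) μ := by
  have hcont : Continuous fun x => pw f T a x • ψ x :=
    continuous_iff_continuousAt.mpr fun x =>
      h.continuousAt_pw_smul ha (mem_univ x) hf.continuousAt fun hx => hψ x hx
  refine hcont.integrable_of_hasCompactSupport (HasCompactSupport.intro hc fun x hx => ?_)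
  rw [pw_of_notMem fun hxT => hx (subset_closure hxT), zero_smul]

section Family

variable {E : Type*} [NormedAddCommGroup E] [NormedSpace ℂ E] [FiniteDimensional ℂ E] {m D : ℕ}
  {a : ℝ} {F : E → Cf m D}

/-- The coefficients enter linearly. -/
theorem hasFDerivAt_eval_pol (ρ : Fin m → ℂ) {F : E → Cf m D} (hF : Differentiable ℂ F) (p : E) :
    HasFDerivAt (fun q => eval ρ (pol (F q)))
      ((LinearMap.toContinuousLinearMap
        ((aeval ρ : Pol m →ₐ[ℂ] ℂ).toLinearMap ∘ₗ polL m D)).comp (fderiv ℂ F p)) p := by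
  have h1 := (LinearMap.toContinuousLinearMap
    ((aeval ρ : Pol m →ₐ[ℂ] ℂ).toLinearMap ∘ₗ polL m D)).hasFDerivAt (x := F p)
  have h2 := h1.comp p (hF p).hasFDerivAt
  refine h2.congr_of_eventuallyEq (Eventually.of_forall fun q => ?_)
  simp only [Function.comp_apply, LinearMap.coe_toContinuousLinearMap', LinearMap.comp_apply,
    AlgHom.toLinearMap_apply]
  rfl

theorem eval_pol_clm (ρ : Fin m → ℂ) (c : Cf m D) :
    (LinearMap.toContinuousLinearMap
        ((aeval ρ : Pol m →ₐ[ℂ] ℂ).toLinearMap ∘ₗ polL m D)) c = eval ρ (pol c) := rfl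

/-- **Real cycles are parallel**, pattern zero. -/
theorem yU_par (H : FamOK (e0 m) F) (ha : Irrational a) (ha2 : 2 < a) {Λ : Type*}
    [NormedAddCommGroup Λ] [NormedSpace ℝ Λ] [FiniteDimensional ℝ Λ] {B : Set Λ} (hB : IsOpen B)
    {h : Λ → E} {h' : Λ → Λ →L[ℝ] E} (hh : ∀ p ∈ B, HasFDerivAt h (h' p) p)
    (hh' : ∀ p ∈ B, ContinuousAt h' p) (hX : MapsTo h B {p | Reg (e0 m) (pol (F p))})
    {g : Λ × (Fin m → ℝ) → ℝ} {g' : Λ × (Fin m → ℝ) → (Λ × (Fin m → ℝ)) →L[ℝ] ℝ}
    (hg : ∀ p ∈ B ×ˢ (univ : Set (Fin m → ℝ)), HasFDerivAt g (g' p) p)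
    (hg' : ∀ p ∈ B ×ˢ (univ : Set (Fin m → ℝ)), ContinuousAt g' p)
    (hF : ∀ p ∈ B, ∀ x, eval (xC x) (pol (F (h p))) = (g (p, x) : ℂ))
    {T : Set (Λ × (Fin m → ℝ))} (hT : Piece g T (B ×ˢ univ))
    (hbd : ∀ p ∈ B, ∃ N ∈ 𝓝 p, ∃ C, IsCompact C ∧ ∀ q ∈ T, q.1 ∈ N → q.2 ∈ C) :
    (famLS (e0 m) a F H ha).Par h B
      (fun p => yU a (fun x => g (p, x)) {x | (p, x) ∈ T}) := by
  have hslice : ∀ p ∈ B, Piece (fun x => g (p, x)) {x | (p, x) ∈ T} univ := fun p hp =>
    hT.sliceΛ hp
  have hcomp : ∀ p ∈ B, IsCompact (closure {x | (p, x) ∈ T}) := by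
    intro p hp
    obtain ⟨N, hN, C, hC, hTC⟩ := hbd p hp
    exact hC.of_isClosed_subset isClosed_closure
      (closure_minimal (fun x hx => hTC (p, x) hx (mem_of_mem_nhds hN)) hC.isClosed)
  have hder : ∀ p ∈ B, ∀ x, HasFDerivAt (fun x => g (p, x))
      ((g' (p, x)).comp (ContinuousLinearMap.inr ℝ Λ (Fin m → ℝ))) x := by
    intro p hp x
    have h1 : HasFDerivAt (fun x : Fin m → ℝ => (p, x)) (ContinuousLinearMap.inr ℝ Λ _) x := by
      have := (hasFDerivAt_const (𝕜 := ℝ) p x).prodMk (hasFDerivAt_id (𝕜 := ℝ) x)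
      exact this
    exact (hg (p, x) ⟨hp, mem_univ _⟩).comp x h1
  have hderc : ∀ p ∈ B, Continuous fun x =>
      (g' (p, x)).comp (ContinuousLinearMap.inr ℝ Λ (Fin m → ℝ)) := by
    intro p hp
    refine continuous_iff_continuousAt.mpr fun x => ?_
    have h1 : ContinuousAt (fun x : Fin m → ℝ => g' (p, x)) x :=
      (hg' (p, x) ⟨hp, mem_univ _⟩).comp (f := fun x : Fin m → ℝ => (p, x)) (by fun_prop)
    exact h1.clm_comp continuousAt_const
  have hcont : ∀ p ∈ B, Continuous fun x => g (p, x) := fun p hp =>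
    continuous_iff_continuousAt.mpr fun x => (hder p hp x).continuousAt
  have hlow : ∀ p ∈ B, Low (e0 m) (a : ℂ) (pol (F (h p)))
      (yU a (fun x => g (p, x)) {x | (p, x) ∈ T})
      (yU (a - 1) (fun x => g (p, x)) {x | (p, x) ∈ T}) := fun p hp =>
    yU_low (hslice p hp) (hcomp p hp) (by linarith) (hder p hp) (hderc p hp) (hF p hp)
  refine par_of_hasLineDeriv H ha hB hh hh' hX
    (u' := fun p => yU (a - 1) (fun x => g (p, x)) {x | (p, x) ∈ T})
    (fun p hp => ⟨yU_mem (hslice p hp) (hcomp p hp) (by linarith) (hder p hp) (hderc p hp)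
      (hF p hp), hlow p hp⟩) ?_
  intro p₀ hp₀ b v
  obtain ⟨N, hN, C, hC, hTC⟩ := hbd p₀ hp₀
  set B₀ := interior N ∩ B with hB₀
  have hB₀o : IsOpen B₀ := isOpen_interior.inter hB
  have hp₀' : p₀ ∈ B₀ := ⟨mem_interior_iff_mem_nhds.mpr hN, hp₀⟩
  have hBB : B₀ ⊆ B := inter_subset_right
  have hT₀ : Piece g (T ∩ (B₀ ×ˢ univ)) (B₀ ×ˢ univ) :=
    hT.restrict (hB₀o.prod isOpen_univ) (prod_mono hBB subset_rfl)
  have hψd : ∀ q : Λ × (Fin m → ℝ), HasFDerivAt (fun q : Λ × (Fin m → ℝ) => eval (xC q.2) (mon b : Pol m))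
      ((((evD (mon b : Pol m) (xC q.2)).restrictScalars ℝ).comp (xCL m)).comp
        (ContinuousLinearMap.snd ℝ Λ (Fin m → ℝ))) q := fun q =>
    (hasFDerivAt_evalR (mon b : Pol m) q.2).comp q hasFDerivAt_snd
  have hψc : Continuous fun q : Λ × (Fin m → ℝ) =>
      ((((evD (mon b : Pol m) (xC q.2)).restrictScalars ℝ).comp (xCL m)).comp
        (ContinuousLinearMap.snd ℝ Λ (Fin m → ℝ))) :=
    ((continuous_evalR' (mon b : Pol m)).comp continuous_snd).clm_comp continuous_const
  have hd := hT₀.hasFDerivAt_integral volume hB₀o hC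
    (fun q hq => hTC q hq.1 (interior_subset hq.2.1.1)) (a := a) (by linarith)
    (f' := g') (fun q hq => hg q ⟨hBB hq.1, hq.2⟩) (fun q hq => hg' q ⟨hBB hq.1, hq.2⟩)
    (ψ := fun q => eval (xC q.2) (mon b : Pol m)) (fun q _ _ => hψd q)
    (fun q _ _ => hψc.continuousAt) hp₀'
  have hl := hd.hasLineDerivAt v
  have heq : (fun p => ∫ x, pw g (T ∩ (B₀ ×ˢ univ)) a (p, x) • eval (xC x) (mon b : Pol m)) =ᶠ[𝓝 p₀]
      fun p => yU a (fun x => g (p, x)) {x | (p, x) ∈ T} (mon b) := by
    filter_upwards [hB₀o.mem_nhds hp₀'] with p hp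
    rw [yU_apply' (hslice p (hBB hp)) (hcomp p (hBB hp)) (by linarith) (hcont p (hBB hp))]
    refine integral_congr_ae (Eventually.of_forall fun x => ?_)
    simp only [Complex.real_smul]
    congr 2
    have : pw g (T ∩ (B₀ ×ˢ univ)) a (p, x) = pw g T a (p, x) := by
      by_cases hx : (p, x) ∈ T
      · rw [pw_of_mem hx, pw_of_mem (T := T ∩ (B₀ ×ˢ univ)) ⟨hx, hp, mem_univ _⟩]
      · rw [pw_of_notMem hx, pw_of_notMem (T := T ∩ (B₀ ×ˢ univ)) fun h => hx h.1]
    rw [this, pw_sliceΛ]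
  have hcont0 : Tendsto (fun t : ℝ => p₀ + t • v) (𝓝 0) (𝓝 p₀) := by
    have : Continuous fun t : ℝ => p₀ + t • v := by fun_prop
    simpa using this.tendsto 0
  have hl2 : HasLineDerivAt ℝ (fun p => yU a (fun x => g (p, x)) {x | (p, x) ∈ T} (mon b)) _ p₀ v :=
    HasDerivAt.congr_of_eventuallyEq hl ((hcont0.eventually heq).mono fun t ht => ht.symm)
  have hsl := hslice p₀ hp₀
  have hcl := hcomp p₀ hp₀
  have hpw : ∀ c x, pw g (T ∩ (B₀ ×ˢ univ)) c (p₀, x) =
      pw (fun x => g (p₀, x)) {x | (p₀, x) ∈ T} c x := by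
    intro c x
    rw [← pw_sliceΛ]
    by_cases hx : (p₀, x) ∈ T
    · rw [pw_of_mem hx, pw_of_mem (T := T ∩ (B₀ ×ˢ univ)) ⟨hx, hp₀', mem_univ _⟩]
    · rw [pw_of_notMem hx, pw_of_notMem (T := T ∩ (B₀ ×ˢ univ)) fun h => hx h.1]
  convert hl2 using 1
  -- the integrand as a continuous linear map
  have hzero : ∀ x : Fin m → ℝ, ((((evD (mon b : Pol m) (xC x)).restrictScalars ℝ).comp
      (xCL m)).comp (ContinuousLinearMap.snd ℝ Λ (Fin m → ℝ))).comp
        (ContinuousLinearMap.inl ℝ Λ (Fin m → ℝ)) = 0 := by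
    intro x
    ext w
    simp
  have hg1 : Continuous fun x => (g' (p₀, x)).comp (ContinuousLinearMap.inl ℝ Λ (Fin m → ℝ)) := by
    refine continuous_iff_continuousAt.mpr fun x => ?_
    have h1 : ContinuousAt (fun x : Fin m → ℝ => g' (p₀, x)) x :=
      (hg' (p₀, x) ⟨hp₀, mem_univ _⟩).comp (f := fun x : Fin m → ℝ => (p₀, x)) (by fun_prop)
    exact h1.clm_comp continuousAt_const
  have hev : Continuous fun x : Fin m → ℝ => eval (xC x) (mon b : Pol m) :=
    (continuous_evalC _).comp continuous_xC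
  have hint : Integrable (fun x => pw (fun x => g (p₀, x)) {x | (p₀, x) ∈ T} (a - 1) x •
      (a • (g' (p₀, x)).comp (ContinuousLinearMap.inl ℝ Λ (Fin m → ℝ))).smulRight
        (eval (xC x) (mon b : Pol m))) := by
    refine hsl.integrableF volume hcl (by linarith) (hcont p₀ hp₀) fun x _ => ?_
    have h2 : Continuous fun x => ContinuousLinearMap.smulRightL ℝ Λ ℂ
        (a • (g' (p₀, x)).comp (ContinuousLinearMap.inl ℝ Λ (Fin m → ℝ))) :=
      (ContinuousLinearMap.smulRightL ℝ Λ ℂ).continuous.comp (hg1.const_smul a)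
    exact (h2.clm_apply hev).continuousAt
  have e1 : (∫ x, (pw g (T ∩ (B₀ ×ˢ univ)) a (p₀, x) •
      ((((evD (mon b : Pol m) (xC (p₀, x).2)).restrictScalars ℝ).comp (xCL m)).comp
        (ContinuousLinearMap.snd ℝ Λ (Fin m → ℝ))).comp (ContinuousLinearMap.inl ℝ Λ _) +
      pw g (T ∩ (B₀ ×ˢ univ)) (a - 1) (p₀, x) •
        (a • (g' (p₀, x)).comp (ContinuousLinearMap.inl ℝ Λ (Fin m → ℝ))).smulRight
          (eval (xC (p₀, x).2) (mon b : Pol m)))) =
      ∫ x, pw (fun x => g (p₀, x)) {x | (p₀, x) ∈ T} (a - 1) x •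
      (a • (g' (p₀, x)).comp (ContinuousLinearMap.inl ℝ Λ (Fin m → ℝ))).smulRight
        (eval (xC x) (mon b : Pol m)) := by
    refine integral_congr_ae (Eventually.of_forall fun x => ?_)
    simp only [hpw, hzero]
    ext w
    simp
  rw [e1, ContinuousLinearMap.integral_apply hint, yU_apply' hsl hcl (by linarith)
    (hcont p₀ hp₀), ← integral_const_mul]
  refine integral_congr_ae (Eventually.of_forall fun x => ?_)
  -- the coefficient polynomial of the derivative
  have h1 : HasFDerivAt (fun q => eval (xC x) (pol (F q)))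
      (((LinearMap.toContinuousLinearMap
        ((aeval (xC x) : Pol m →ₐ[ℂ] ℂ).toLinearMap ∘ₗ polL m D)).comp
          (fderiv ℂ F (h p₀))).restrictScalars ℝ) (h p₀) :=
    (hasFDerivAt_eval_pol (xC x) (H.smooth.differentiable (by simp)) (h p₀)).restrictScalars ℝ
  have h2 := h1.comp p₀ (hh p₀ hp₀)
  have h3 : HasFDerivAt (fun p => ((g (p, x) : ℝ) : ℂ)) (Complex.ofRealCLM.comp
      ((g' (p₀, x)).comp (ContinuousLinearMap.inl ℝ Λ (Fin m → ℝ)))) p₀ := by
    have h4 : HasFDerivAt (fun p : Λ => (p, x)) (ContinuousLinearMap.inl ℝ Λ _) p₀ := by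
      have := (hasFDerivAt_id (𝕜 := ℝ) p₀).prodMk (hasFDerivAt_const (𝕜 := ℝ) x p₀)
      exact this
    exact Complex.ofRealCLM.hasFDerivAt.comp p₀ ((hg (p₀, x) ⟨hp₀, mem_univ _⟩).comp p₀ h4)
  have hE : (fun p => ((g (p, x) : ℝ) : ℂ)) =ᶠ[𝓝 p₀] (fun q => eval (xC x) (pol (F q))) ∘ h := by
    filter_upwards [hB.mem_nhds hp₀] with p hp
    exact (hF p hp x).symm
  have h4 := h2.congr_of_eventuallyEq hE
  have h5 := congrArg (fun L => L v) (h4.unique h3)
  have h6 : eval (xC x) (pol (fderiv ℂ F (h p₀) (h' p₀ v))) = ((g' (p₀, x) (v, 0) : ℝ) : ℂ) := h5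
  simp only [smul_apply, ContinuousLinearMap.smulRight_apply, ContinuousLinearMap.comp_apply,
    ContinuousLinearMap.inl_apply, map_mul, h6, Complex.real_smul, smul_eq_mul,
    Complex.ofReal_mul]
  ring

end Family

end Pool.Agent.QC.S4
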