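import Mathlib
import Pool.Agent.QC.S4.Cycle

/-!
# MP_7c50a9_lc, section 4.3: the jump

* `tendsto_jump`: the jump of the Cauchy transform of an integrable function at a point of
  continuity.
* `sn`: the coordinates `(τ, x') ↦ (x', τ)`; `slI f T a φ τ` is the integral of `1_T f^a φ` over the
  slice `x_n = τ`; `cauchy f T a φ z = ∫ 1_T f^a φ / (x_n - z)`.
* `Piece.cauchy_eq`: `cauchy = ∫ slI τ / (τ - z) dτ`; `Piece.tendsto_cauchy_jump`,
  `Piece.jump_eq`, `Piece.slI_eventuallyEq`.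
-/

namespace Pool.Agent.QC.S4

open Set Topology Filter MeasureTheory

set_option linter.unusedSectionVars false

section Line

/-- Integrability of the Cauchy kernel. -/
theorem integrable_cauchy {φ : ℝ → ℂ} (hφ : Integrable φ) {z : ℂ} (hz : z.im ≠ 0) :
    Integrable fun t : ℝ => φ t / ((t : ℂ) - z) := by
  have hne : ∀ t : ℝ, (t : ℂ) - z ≠ 0 := fun t h => hz (by
    have := congrArg Complex.im h
    simpa using this)
  have hb : ∀ t : ℝ, ‖((t : ℂ) - z)⁻¹‖ ≤ |z.im|⁻¹ := by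
    intro t
    rw [norm_inv]
    refine inv_anti₀ (abs_pos.mpr hz) ?_
    have := Complex.abs_im_le_norm ((t : ℂ) - z)
    simpa using this
  have hc : Continuous fun t : ℝ => ((t : ℂ) - z)⁻¹ :=
    (Complex.continuous_ofReal.sub continuous_const).inv₀ hne
  simp only [div_eq_mul_inv]
  exact hφ.mul_bdd hc.aestronglyMeasurable (Eventually.of_forall hb)

private theorem poisson_kernel {τ t y : ℝ} (hy : 0 < y) :
    (1 / ((t : ℂ) - (τ + y * Complex.I)) - 1 / ((t : ℂ) - (τ - y * Complex.I)) : ℂ) =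
      2 * Real.pi * Complex.I *
        ((y⁻¹ * (Real.pi⁻¹ * (1 + (y⁻¹ * (τ - t)) ^ 2)⁻¹) : ℝ) : ℂ) := by
  have h1 : (t : ℂ) - (τ + y * Complex.I) ≠ 0 := fun h => hy.ne' (by
    have := congrArg Complex.im h
    simpa using this)
  have h2 : (t : ℂ) - (τ - y * Complex.I) ≠ 0 := fun h => hy.ne' (by
    have := congrArg Complex.im h
    simpa using this)
  have h3 : ((t : ℂ) - (τ + y * Complex.I)) * ((t : ℂ) - (τ - y * Complex.I)) =
      (((τ - t) ^ 2 + y ^ 2 : ℝ) : ℂ) := by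
    push_cast
    ring_nf
    rw [Complex.I_sq]
    ring
  have h4 : ((τ - t) ^ 2 + y ^ 2 : ℝ) ≠ 0 := by positivity
  have h5 : y⁻¹ * (Real.pi⁻¹ * (1 + (y⁻¹ * (τ - t)) ^ 2)⁻¹) =
      y / (Real.pi * ((τ - t) ^ 2 + y ^ 2)) := by
    have h6 : 1 + (y⁻¹ * (τ - t)) ^ 2 = ((τ - t) ^ 2 + y ^ 2) / y ^ 2 := by
      field_simp
      ring
    rw [h6]
    field_simp
  rw [h5, div_sub_div _ _ h1 h2, h3]
  have h7 : (Real.pi : ℂ) ≠ 0 := by exact_mod_cast Real.pi_ne_zero
  have h8 : (((τ - t) ^ 2 + y ^ 2 : ℝ) : ℂ) ≠ 0 := by exact_mod_cast h4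
  push_cast at h8 ⊢
  field_simp
  ring

/-- **The jump of a Cauchy transform.** -/
theorem tendsto_jump {φ : ℝ → ℂ} (hφ : Integrable φ) {τ : ℝ} (hc : ContinuousAt φ τ) :
    Tendsto (fun y : ℝ => (∫ t : ℝ, φ t / ((t : ℂ) - (τ + y * Complex.I))) -
      ∫ t : ℝ, φ t / ((t : ℂ) - (τ - y * Complex.I))) (𝓝[>] 0)
      (𝓝 (2 * Real.pi * Complex.I * φ τ)) := by
  have h1 : ∀ x : ℝ, 0 ≤ Real.pi⁻¹ * (1 + x ^ 2)⁻¹ := fun x => by positivity
  have h2 : ∫ x : ℝ, Real.pi⁻¹ * (1 + x ^ 2)⁻¹ = 1 := by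
    rw [integral_const_mul, integral_univ_inv_one_add_sq, inv_mul_cancel₀ Real.pi_ne_zero]
  have h3 : Tendsto (fun x : ℝ => ‖x‖ ^ Module.finrank ℝ ℝ * (Real.pi⁻¹ * (1 + x ^ 2)⁻¹))
      (Bornology.cobounded ℝ) (𝓝 0) := by
    rw [Module.finrank_self]
    have h4 : Tendsto (fun x : ℝ => ‖x‖⁻¹) (Bornology.cobounded ℝ) (𝓝 0) :=
      tendsto_inv_atTop_zero.comp tendsto_norm_cobounded_atTop
    refine squeeze_zero (fun x => by positivity) (fun x => ?_) h4
    have hpi : Real.pi⁻¹ ≤ 1 := inv_le_one_of_one_le₀ (by linarith [Real.pi_gt_three])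
    rcases eq_or_ne x 0 with rfl | hx
    · simp
    · have hx' : 0 < ‖x‖ := norm_pos_iff.mpr hx
      have h5 : (1 + x ^ 2)⁻¹ ≤ (‖x‖ ^ 2)⁻¹ := by
        refine inv_anti₀ (by positivity) ?_
        rw [Real.norm_eq_abs, sq_abs]
        linarith
      calc ‖x‖ ^ 1 * (Real.pi⁻¹ * (1 + x ^ 2)⁻¹) ≤ ‖x‖ ^ 1 * (1 * (‖x‖ ^ 2)⁻¹) := by
            gcongr
        _ = ‖x‖⁻¹ := by
            field_simp
  have h4 := (tendsto_integral_comp_smul_smul_of_integrable' (μ := (volume : Measure ℝ)) h1 h2 h3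
    hφ hc).comp tendsto_inv_nhdsGT_zero
  have h5 := h4.const_mul (2 * Real.pi * Complex.I)
  refine h5.congr' ?_
  filter_upwards [self_mem_nhdsWithin] with y hy
  have hy' : 0 < y := hy
  have i1 : Integrable fun t : ℝ => φ t / ((t : ℂ) - (τ + y * Complex.I)) :=
    integrable_cauchy hφ (by simpa using hy'.ne')
  have i2 : Integrable fun t : ℝ => φ t / ((t : ℂ) - (τ - y * Complex.I)) :=
    integrable_cauchy hφ (by simpa using hy'.ne')
  rw [← integral_sub i1 i2, Function.comp_apply, ← integral_const_mul]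
  refine integral_congr_ae (Eventually.of_forall fun t => ?_)
  simp only [Module.finrank_self, pow_one, smul_eq_mul, Complex.real_smul]
  have h6 := poisson_kernel (τ := τ) (t := t) hy'
  rw [← mul_assoc, ← h6]
  ring

end Line

section Coordinates

variable {n : ℕ}

/-- The coordinates `(τ, x') ↦ (x', τ)`. -/
noncomputable def sn (n : ℕ) : (ℝ × (Fin n → ℝ)) ≃L[ℝ] (Fin (n + 1) → ℝ) :=
  LinearEquiv.toContinuousLinearEquiv
    { toFun := fun p => (Fin.snoc p.2 p.1 : Fin (n + 1) → ℝ)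
      invFun := fun x => (x (Fin.last n), fun i => x i.castSucc)
      left_inv := by
        rintro ⟨t, x⟩
        simp
      right_inv := by
        intro x
        exact Fin.snoc_init_self x
      map_add' := by
        rintro ⟨t, x⟩ ⟨s, y⟩
        ext i
        refine Fin.lastCases ?_ (fun j => ?_) i
        · simp
        · simp
      map_smul' := by
        rintro c ⟨t, x⟩
        ext i
        refine Fin.lastCases ?_ (fun j => ?_) i
        · simp
        · simp }

theorem sn_apply (p : ℝ × (Fin n → ℝ)) : sn n p = (Fin.snoc p.2 p.1 : Fin (n + 1) → ℝ) := rfl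

@[simp] theorem sn_last (p : ℝ × (Fin n → ℝ)) : sn n p (Fin.last n) = p.1 := by
  rw [sn_apply, Fin.snoc_last]

@[simp] theorem sn_castSucc (p : ℝ × (Fin n → ℝ)) (i : Fin n) : sn n p i.castSucc = p.2 i := by
  rw [sn_apply, Fin.snoc_castSucc]

theorem sn_symm_apply (x : Fin (n + 1) → ℝ) :
    (sn n).symm x = (x (Fin.last n), fun i => x i.castSucc) := rfl

theorem measurePreserving_sn : MeasurePreserving (sn n) := by
  have h := (volume_preserving_piFinSuccAbove (fun _ : Fin (n + 1) => ℝ) (Fin.last n)).symm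
  have e : (⇑(MeasurableEquiv.piFinSuccAbove (fun _ : Fin (n + 1) => ℝ) (Fin.last n)).symm :
      ℝ × (Fin n → ℝ) → Fin (n + 1) → ℝ) = sn n := by
    funext p
    rw [sn_apply, ← Fin.insertNth_last']
    rfl
  rw [e] at h
  exact h

/-- Fubini in the last coordinate. -/
theorem integral_sn {F : Type*} [NormedAddCommGroup F] [NormedSpace ℝ F]
    {G : (Fin (n + 1) → ℝ) → F} (hG : Integrable G) :
    ∫ x, G x = ∫ τ : ℝ, ∫ x : Fin n → ℝ, G (sn n (τ, x)) := by
  have hemb : MeasurableEmbedding (sn n) := (sn n).toHomeomorph.measurableEmbedding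
  have h1 := measurePreserving_sn.integral_comp hemb (g := G)
  have h2 : Integrable (fun p => G (sn n p)) :=
    (measurePreserving_sn.integrable_comp_emb hemb).mpr hG
  rw [← h1]
  exact integral_prod _ h2

end Coordinates

section Pieces

variable {X Y : Type*} [NormedAddCommGroup X] [NormedSpace ℝ X] [NormedAddCommGroup Y]
  [NormedSpace ℝ Y]

/-- Pieces in other coordinates. -/
theorem Piece.comp_equiv {f : Y → ℝ} {T D : Set Y} (h : Piece f T D) (e : X ≃L[ℝ] Y) :
    Piece (fun x => f (e x)) (e ⁻¹' T) (e ⁻¹' D) where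
  isOpenD := h.isOpenD.preimage e.continuous
  isOpen := h.isOpen.preimage e.continuous
  sub := preimage_mono h.sub
  pos x hx := h.pos _ hx
  zero x hxD hxc hxT := by
    refine h.zero (e x) hxD ?_ hxT
    exact map_mem_closure e.continuous hxc fun y hy => hy

/-- Pieces over smaller open sets. -/
theorem Piece.restrictD {f : X → ℝ} {T D D' : Set X} (h : Piece f T D) (hD' : IsOpen D')
    (hsub : D' ⊆ D) : Piece f (T ∩ D') D' where
  isOpenD := hD'
  isOpen := h.isOpen.inter hD'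
  sub := inter_subset_right
  pos x hx := h.pos x hx.1
  zero x hxD hxc hxT :=
    h.zero x (hsub hxD) (closure_mono inter_subset_left hxc) fun hx => hxT ⟨hx, hxD⟩

theorem pw_comp (f : Y → ℝ) (T : Set Y) (a : ℝ) (e : X → Y) (x : X) :
    pw f T a (e x) = pw (fun x => f (e x)) (e ⁻¹' T) a x := by
  by_cases hx : e x ∈ T
  · rw [pw_of_mem hx, pw_of_mem (T := e ⁻¹' T) hx]
  · rw [pw_of_notMem hx, pw_of_notMem (T := e ⁻¹' T) hx]

end Pieces

section Slices

variable {n : ℕ}

/-- The integral of `1_T f^a φ` over the slice `x_n = τ`. -/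
noncomputable def slI (f : (Fin (n + 1) → ℝ) → ℝ) (T : Set (Fin (n + 1) → ℝ)) (a : ℝ)
    (φ : (Fin (n + 1) → ℝ) → ℂ) (τ : ℝ) : ℂ :=
  ∫ x : Fin n → ℝ, pw f T a (sn n (τ, x)) • φ (sn n (τ, x))

/-- The Cauchy transform `∫ 1_T f^a φ / (x_n - z)`. -/
noncomputable def cauchy (f : (Fin (n + 1) → ℝ) → ℝ) (T : Set (Fin (n + 1) → ℝ)) (a : ℝ)
    (φ : (Fin (n + 1) → ℝ) → ℂ) (z : ℂ) : ℂ :=
  ∫ x, pw f T a x • (φ x / ((x (Fin.last n) : ℂ) - z))

variable {f : (Fin (n + 1) → ℝ) → ℝ} {T : Set (Fin (n + 1) → ℝ)} {a : ℝ}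
  {φ : (Fin (n + 1) → ℝ) → ℂ}

/-- A compact set containing all `x'` with `(x', τ) ∈ T`. -/
theorem exists_compact_slice (hc : IsCompact (closure T)) :
    ∃ C : Set (Fin n → ℝ), IsCompact C ∧ ∀ p ∈ (sn n) ⁻¹' T, p.2 ∈ C := by
  have h1 : IsCompact ((fun x : Fin (n + 1) → ℝ => fun i : Fin n => x i.castSucc) '' closure T) :=
    hc.image (by fun_prop)
  refine ⟨_, h1, fun p hp => ⟨sn n p, subset_closure hp, ?_⟩⟩
  funext i
  simp

/-- The slice integral is continuous. -/
theorem Piece.continuous_slI (h : Piece f T univ) (hc : IsCompact (closure T)) (ha : 0 < a)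
    (hf : Continuous f) (hφ : Continuous φ) : Continuous (slI f T a φ) := by
  obtain ⟨C, hC, hTC⟩ := exists_compact_slice hc
  have h1 : Piece (fun p => f (sn n p)) ((sn n) ⁻¹' T) (univ ×ˢ univ) := by
    have := h.comp_equiv (sn n)
    rwa [preimage_univ, ← univ_prod_univ] at this
  have h2 := h1.continuousOn_integral (volume : Measure (Fin n → ℝ)) isOpen_univ hC hTC ha
    (ψ := fun p => φ (sn n p)) (fun p _ => (hf.comp (sn n).continuous).continuousAt)
    (fun p _ _ => (hφ.comp (sn n).continuous).continuousAt)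
  rw [continuousOn_univ] at h2
  refine h2.congr fun τ => ?_
  simp only [slI]
  refine integral_congr_ae (Eventually.of_forall fun x => ?_)
  simp only
  rw [pw_comp f T a (sn n)]

/-- The slice integral vanishes far away. -/
theorem slI_eq_zero_of_forall {τ : ℝ} (h : ∀ x ∈ T, x (Fin.last n) ≠ τ) : slI f T a φ τ = 0 := by
  rw [slI]
  have : ∀ x : Fin n → ℝ, pw f T a (sn n (τ, x)) • φ (sn n (τ, x)) = 0 := by
    intro x
    rw [pw_of_notMem fun hx => h _ hx (by simp), zero_smul]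
  simp [this]

theorem Piece.integrable_slI (h : Piece f T univ) (hc : IsCompact (closure T)) (ha : 0 < a)
    (hf : Continuous f) (hφ : Continuous φ) : Integrable (slI f T a φ) := by
  have h1 : IsCompact ((fun x : Fin (n + 1) → ℝ => x (Fin.last n)) '' closure T) :=
    hc.image (by fun_prop)
  refine (h.continuous_slI hc ha hf hφ).integrable_of_hasCompactSupport
    (HasCompactSupport.intro h1 fun τ hτ => ?_)
  exact slI_eq_zero_of_forall fun x hx he => hτ ⟨x, subset_closure hx, he⟩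

/-- **Fubini.** -/
theorem Piece.cauchy_eq (h : Piece f T univ) (hc : IsCompact (closure T)) (ha : 0 < a)
    (hf : Continuous f) (hφ : Continuous φ) {z : ℂ} (hz : z.im ≠ 0) :
    cauchy f T a φ z = ∫ τ : ℝ, slI f T a φ τ / ((τ : ℂ) - z) := by
  have hne : ∀ x : Fin (n + 1) → ℝ, (x (Fin.last n) : ℂ) - z ≠ 0 := fun t h => hz (by
    have := congrArg Complex.im h
    simpa using this)
  have hI : Integrable fun x : Fin (n + 1) → ℝ =>
      pw f T a x • (φ x / ((x (Fin.last n) : ℂ) - z)) :=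
    h.integrable _ hc ha hf fun x _ => hφ.continuousAt.div
      ((Complex.continuous_ofReal.comp (continuous_apply _)).sub continuous_const).continuousAt
      (hne x)
  rw [cauchy, integral_sn hI]
  refine integral_congr_ae (Eventually.of_forall fun τ => ?_)
  simp only [sn_last, slI]
  rw [← integral_div]
  refine integral_congr_ae (Eventually.of_forall fun x => ?_)
  simp only [Complex.real_smul, mul_div_assoc]

/-- **4.3 (jump).** -/
theorem Piece.tendsto_cauchy_jump (h : Piece f T univ) (hc : IsCompact (closure T)) (ha : 0 < a)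
    (hf : Continuous f) (hφ : Continuous φ) (τ : ℝ) :
    Tendsto (fun y : ℝ => cauchy f T a φ (τ + y * Complex.I) -
      cauchy f T a φ (τ - y * Complex.I)) (𝓝[>] 0)
      (𝓝 (2 * Real.pi * Complex.I * slI f T a φ τ)) := by
  have h1 := tendsto_jump (h.integrable_slI hc ha hf hφ)
    (h.continuous_slI hc ha hf hφ).continuousAt (τ := τ)
  refine h1.congr' ?_
  filter_upwards [self_mem_nhdsWithin] with y hy
  have hy' : 0 < y := hy
  rw [h.cauchy_eq hc ha hf hφ (by simpa using hy'.ne'),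
    h.cauchy_eq hc ha hf hφ (by simpa using hy'.ne')]

theorem tendsto_up (τ : ℝ) :
    Tendsto (fun y : ℝ => (τ + y * Complex.I : ℂ)) (𝓝[>] 0) (𝓝[{z | 0 < z.im}] (τ : ℂ)) := by
  refine tendsto_nhdsWithin_iff.mpr ⟨?_, ?_⟩
  · have hcont : Continuous fun y : ℝ => (τ + y * Complex.I : ℂ) := by fun_prop
    have := hcont.tendsto 0
    simp only [Complex.ofReal_zero, zero_mul, add_zero] at this
    exact this.mono_left nhdsWithin_le_nhds
  · filter_upwards [self_mem_nhdsWithin] with y hy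
    simpa using hy

theorem tendsto_dn (τ : ℝ) :
    Tendsto (fun y : ℝ => (τ - y * Complex.I : ℂ)) (𝓝[>] 0) (𝓝[{z | z.im < 0}] (τ : ℂ)) := by
  refine tendsto_nhdsWithin_iff.mpr ⟨?_, ?_⟩
  · have hcont : Continuous fun y : ℝ => (τ - y * Complex.I : ℂ) := by fun_prop
    have := hcont.tendsto 0
    simp only [Complex.ofReal_zero, zero_mul, sub_zero] at this
    exact this.mono_left nhdsWithin_le_nhds
  · filter_upwards [self_mem_nhdsWithin] with y hy
    simpa using hy

/-- The jump between boundary values. -/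
theorem Piece.jump_eq (h : Piece f T univ) (hc : IsCompact (closure T)) (ha : 0 < a)
    (hf : Continuous f) (hφ : Continuous φ) {τ : ℝ} {A B : ℂ}
    (hA : Tendsto (cauchy f T a φ) (𝓝[{z | 0 < z.im}] (τ : ℂ)) (𝓝 A))
    (hB : Tendsto (cauchy f T a φ) (𝓝[{z | z.im < 0}] (τ : ℂ)) (𝓝 B)) :
    A - B = 2 * Real.pi * Complex.I * slI f T a φ τ := by
  have h1 := h.tendsto_cauchy_jump hc ha hf hφ τ
  have h2 := (hA.comp (tendsto_up τ)).sub (hB.comp (tendsto_dn τ))
  exact tendsto_nhds_unique h2 h1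

/-- If the transform has continuous extensions from above and from below on a neighbourhood of
`τ₀`, their difference is the slice integral. -/
theorem Piece.slI_eventuallyEq (h : Piece f T univ) (hc : IsCompact (closure T)) (ha : 0 < a)
    (hf : Continuous f) (hφ : Continuous φ) {τ₀ : ℝ} {gp gm : ℂ → ℂ} {N : Set ℂ} (hN : IsOpen N)
    (hτ₀ : (τ₀ : ℂ) ∈ N) (hgp : ContinuousOn gp N) (hgm : ContinuousOn gm N)
    (hp : ∀ z ∈ N, 0 < z.im → cauchy f T a φ z = gp z)
    (hm : ∀ z ∈ N, z.im < 0 → cauchy f T a φ z = gm z) :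
    ∀ᶠ τ : ℝ in 𝓝 τ₀, 2 * Real.pi * Complex.I * slI f T a φ τ = gp τ - gm τ := by
  have h1 : ∀ᶠ τ : ℝ in 𝓝 τ₀, (τ : ℂ) ∈ N :=
    Complex.continuous_ofReal.continuousAt.eventually (hN.mem_nhds hτ₀)
  filter_upwards [h1] with τ hτ
  refine (h.jump_eq hc ha hf hφ ?_ ?_).symm
  · have h2 : Tendsto gp (𝓝[{z | 0 < z.im}] (τ : ℂ)) (𝓝 (gp τ)) :=
      (hgp.continuousAt (hN.mem_nhds hτ)).tendsto.mono_left nhdsWithin_le_nhds
    refine h2.congr' ?_
    filter_upwards [self_mem_nhdsWithin, mem_nhdsWithin_of_mem_nhds (hN.mem_nhds hτ)] with z hz hzN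
    exact (hp z hzN hz).symm
  · have h2 : Tendsto gm (𝓝[{z | z.im < 0}] (τ : ℂ)) (𝓝 (gm τ)) :=
      (hgm.continuousAt (hN.mem_nhds hτ)).tendsto.mono_left nhdsWithin_le_nhds
    refine h2.congr' ?_
    filter_upwards [self_mem_nhdsWithin, mem_nhdsWithin_of_mem_nhds (hN.mem_nhds hτ)] with z hz hzN
    exact (hm z hzN hz).symm

end Slices

end Pool.Agent.QC.S4
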