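import Mathlib

/-!
# MP_7c50a9_lc, section 4.5: functions of one variable

* `eq_zero_of_smooth_rpow`: if `t^s v(t)` (`t > 0`) is smooth at `0`, `v` analytic, `s` not an
  integer, then `v = 0`.
* `isBigO_of_flat`: a smooth function vanishing for `t < 0` is `O(t^N)` for `t > 0`.
* `loc_zero`: `J = hol + (z - τ₀)^s hol` from above and from below, with a smooth jump: then both
  singular parts vanish.
-/

namespace Pool.Agent.QC.S4

open Set Topology Filter
open scoped ContDiff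

/-- The derivative of a smooth function is smooth. -/
theorem contDiffAt_deriv {ψ : ℝ → ℂ} {x : ℝ} (hψ : ContDiffAt ℝ ∞ ψ x) :
    ContDiffAt ℝ ∞ (deriv ψ) x :=
  (hψ.fderiv_right (m := ∞) (by simp)).clm_apply contDiffAt_const

private theorem value_zero (j : ℕ) : ∀ {s : ℝ}, (∀ k : ℤ, (k : ℝ) ≠ s) → s < j →
    ∀ {ψ : ℝ → ℂ}, ContDiffAt ℝ ∞ ψ 0 → ∀ {v : ℝ → ℂ}, AnalyticAt ℝ v 0 →
    (∀ᶠ t in 𝓝[>] (0 : ℝ), ψ t = ((t ^ s : ℝ) : ℂ) * v t) → v 0 = 0 := by
  induction j with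
  | zero =>
    intro s hs hs0 ψ hψ v hv h
    have hs0' : s < 0 := by simpa using hs0
    have h1 : Tendsto v (𝓝[>] (0 : ℝ)) (𝓝 (v 0)) :=
      hv.continuousAt.tendsto.mono_left nhdsWithin_le_nhds
    have h2 : Tendsto (fun t : ℝ => ((t ^ (-s) : ℝ) : ℂ) * ψ t) (𝓝[>] (0 : ℝ)) (𝓝 0) := by
      have h3 : ContinuousAt (fun t : ℝ => ((t ^ (-s) : ℝ) : ℂ) * ψ t) 0 := by
        refine ContinuousAt.mul ?_ hψ.continuousAt
        exact Complex.continuous_ofReal.continuousAt.comp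
          (Real.continuousAt_rpow_const 0 (-s) (Or.inr (by linarith)))
      have h4 := h3.tendsto
      rw [Real.zero_rpow (by linarith), Complex.ofReal_zero, zero_mul] at h4
      exact h4.mono_left nhdsWithin_le_nhds
    refine tendsto_nhds_unique h1 (h2.congr' ?_)
    filter_upwards [h, self_mem_nhdsWithin] with t ht htp
    have htp' : (0 : ℝ) < t := htp
    rw [ht, ← mul_assoc, ← Complex.ofReal_mul, ← Real.rpow_add htp', neg_add_cancel,
      Real.rpow_zero, Complex.ofReal_one, one_mul]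
  | succ j ih =>
    intro s hs hsj ψ hψ v hv h
    have hs0 : (s : ℂ) ≠ 0 := by
      have := hs 0
      exact_mod_cast fun h0 : s = 0 => this (by simp [h0])
    have hs1 : ∀ k : ℤ, (k : ℝ) ≠ s - 1 := by
      intro k hk
      refine hs (k + 1) ?_
      push_cast
      linarith
    have hw : AnalyticAt ℝ (fun t : ℝ => (s : ℂ) * v t + (t : ℂ) * deriv v t) 0 := by
      refine (analyticAt_const.mul hv).add (AnalyticAt.mul ?_ hv.deriv)
      exact Complex.ofRealCLM.analyticAt 0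
    have key := ih hs1 (by push_cast at hsj; linarith) (contDiffAt_deriv hψ) hw ?_
    · simpa [hs0] using key
    · have hva : ∀ᶠ t in 𝓝 (0 : ℝ), AnalyticAt ℝ v t := hv.eventually_analyticAt
      obtain ⟨ε, hε, hε'⟩ := Metric.mem_nhds_iff.mp ((eventually_nhdsWithin_iff.mp h).and hva)
      filter_upwards [self_mem_nhdsWithin, mem_nhdsWithin_of_mem_nhds
        (Metric.ball_mem_nhds (0 : ℝ) hε)] with t ht0 htb
      have ht0' : (0 : ℝ) < t := ht0
      have hev : ψ =ᶠ[𝓝 t] fun t => ((t ^ s : ℝ) : ℂ) * v t := by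
        filter_upwards [Metric.isOpen_ball.mem_nhds htb, lt_mem_nhds ht0'] with u hu1 hu2
        exact (hε' hu1).1 hu2
      have hd1 : HasDerivAt (fun t : ℝ => ((t ^ s : ℝ) : ℂ)) ((s * t ^ (s - 1) : ℝ) : ℂ) t :=
        (Real.hasDerivAt_rpow_const (Or.inl ht0'.ne')).ofReal_comp
      have hd2 : HasDerivAt v (deriv v t) t := (hε' htb).2.differentiableAt.hasDerivAt
      have hd := (hd1.mul hd2).congr_of_eventuallyEq hev
      rw [hd.deriv]
      have e1 : t ^ s = t ^ (s - 1) * t := by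
        rw [← Real.rpow_add_one ht0'.ne']
        congr 1
        ring
      rw [e1]
      push_cast
      ring

/-- **A non-integral power is not smooth.** -/
theorem eq_zero_of_smooth_rpow {s : ℝ} (hs : ∀ k : ℤ, (k : ℝ) ≠ s) {ψ : ℝ → ℂ}
    (hψ : ContDiffAt ℝ ∞ ψ 0) {v : ℝ → ℂ} (hv : AnalyticAt ℝ v 0)
    (h : ∀ᶠ t in 𝓝[>] (0 : ℝ), ψ t = ((t ^ s : ℝ) : ℂ) * v t) : ∀ᶠ t in 𝓝 (0 : ℝ), v t = 0 := by
  by_contra hcon
  obtain ⟨n, g, hg, hg0, hgv⟩ := hv.exists_eventuallyEq_pow_smul_nonzero_iff.mpr hcon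
  refine hg0 ?_
  obtain ⟨j, hj⟩ := exists_nat_gt (s + n)
  refine value_zero j (s := s + n) ?_ hj hψ hg ?_
  · intro k hk
    refine hs (k - n) ?_
    push_cast
    linarith
  · filter_upwards [h, self_mem_nhdsWithin, hgv.filter_mono nhdsWithin_le_nhds] with t h1 h2 h3
    have h2' : (0 : ℝ) < t := h2
    rw [h1, h3, sub_zero, Real.rpow_add h2', Real.rpow_natCast]
    rw [Complex.real_smul]
    push_cast
    ring

/-- A smooth function which vanishes for `t < 0` is flat. -/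
theorem isBigO_of_flat (N : ℕ) : ∀ {ψ : ℝ → ℂ}, ContDiffAt ℝ ∞ ψ 0 →
    (∀ᶠ t in 𝓝[<] (0 : ℝ), ψ t = 0) → ψ =O[𝓝[>] (0 : ℝ)] fun t => t ^ N := by
  induction N with
  | zero =>
    intro ψ hψ _
    simp only [pow_zero]
    have h1 : Tendsto ψ (𝓝[>] (0 : ℝ)) (𝓝 (ψ 0)) :=
      hψ.continuousAt.tendsto.mono_left nhdsWithin_le_nhds
    exact h1.isBigO_one ℝ
  | succ N ih =>
    intro ψ hψ h
    -- `ψ 0 = 0`
    have h0 : ψ 0 = 0 := by
      have h1 : Tendsto ψ (𝓝[<] (0 : ℝ)) (𝓝 (ψ 0)) :=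
        hψ.continuousAt.tendsto.mono_left nhdsWithin_le_nhds
      refine tendsto_nhds_unique h1 (tendsto_const_nhds.congr' ?_)
      filter_upwards [h] with t ht
      exact ht.symm
    have hd : ∀ᶠ t in 𝓝[<] (0 : ℝ), deriv ψ t = 0 := by
      rw [eventually_nhdsWithin_iff] at h
      filter_upwards [(eventually_eventually_nhds.mpr h).filter_mono nhdsWithin_le_nhds,
        self_mem_nhdsWithin] with t ht ht0
      have ht0' : t < 0 := ht0
      have : ψ =ᶠ[𝓝 t] fun _ => 0 := by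
        filter_upwards [ht, gt_mem_nhds ht0'] with u hu1 hu2
        exact hu1 hu2
      rw [this.deriv_eq]
      simp
    obtain ⟨C, hC⟩ := (ih (contDiffAt_deriv hψ) hd).bound
    have hdiff : ∀ᶠ t in 𝓝 (0 : ℝ), DifferentiableAt ℝ ψ t := by
      have h2 : ∀ᶠ y in 𝓝 (0 : ℝ), ContDiffAt ℝ 1 ψ y := (hψ.of_le (by simp)).eventually (by simp)
      filter_upwards [h2] with y hy
      exact hy.differentiableAt (by simp)
    obtain ⟨ε, hε, hb⟩ := Metric.mem_nhds_iff.mp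
      ((eventually_nhdsWithin_iff.mp hC).and hdiff)
    refine Asymptotics.IsBigO.of_bound (max C 0) ?_
    filter_upwards [self_mem_nhdsWithin, mem_nhdsWithin_of_mem_nhds
      (Metric.ball_mem_nhds (0 : ℝ) hε)] with t ht0 htb
    have ht0' : (0 : ℝ) < t := ht0
    have hin : ∀ u ∈ Icc (0 : ℝ) t, u ∈ Metric.ball (0 : ℝ) ε := by
      intro u hu
      rw [Metric.mem_ball, Real.dist_eq, sub_zero] at htb ⊢
      rw [abs_of_nonneg hu.1]
      rw [abs_of_pos ht0'] at htb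
      exact hu.2.trans_lt htb
    have hcont : ContinuousOn ψ (Icc 0 t) := fun u hu =>
      (hb (hin u hu)).2.continuousAt.continuousWithinAt
    have hbd := norm_image_sub_le_of_norm_deriv_right_le_segment (f := ψ) (f' := deriv ψ)
      (C := max C 0 * t ^ N) hcont
      (fun u hu => ((hb (hin u ⟨hu.1, hu.2.le⟩)).2.hasDerivAt).hasDerivWithinAt)
      (fun u hu => ?_) t (right_mem_Icc.mpr ht0'.le)
    · rw [h0, sub_zero, sub_zero] at hbd
      rw [norm_pow, Real.norm_eq_abs, abs_of_pos ht0', pow_succ, ← mul_assoc]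
      exact hbd
    · rcases eq_or_lt_of_le hu.1 with hu0 | hu0
      · -- at `u = 0`
        have hd0 : deriv ψ 0 = 0 := by
          have h1 : Tendsto (deriv ψ) (𝓝[<] (0 : ℝ)) (𝓝 (deriv ψ 0)) :=
            (contDiffAt_deriv hψ).continuousAt.tendsto.mono_left nhdsWithin_le_nhds
          refine tendsto_nhds_unique h1 (tendsto_const_nhds.congr' ?_)
          filter_upwards [hd] with t ht
          exact ht.symm
        rw [← hu0, hd0, norm_zero]
        positivity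
      · have h5 := (hb (hin u ⟨hu.1, hu.2.le⟩)).1 hu0
        rw [norm_pow, Real.norm_eq_abs, abs_of_pos hu0] at h5
        calc ‖deriv ψ u‖ ≤ C * u ^ N := h5
          _ ≤ max C 0 * t ^ N := by
            have h6 : u ^ N ≤ t ^ N := pow_le_pow_left₀ hu0.le hu.2.le N
            have h7 : (0 : ℝ) ≤ u ^ N := by positivity
            exact mul_le_mul (le_max_left _ _) h6 h7 (le_max_right _ _)

/-- A smooth function which vanishes on the left is not bounded below by a power on the right. -/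
theorem not_lower_bound {ψ : ℝ → ℂ} (hψ : ContDiffAt ℝ ∞ ψ 0)
    (h : ∀ᶠ t in 𝓝[<] (0 : ℝ), ψ t = 0) {c : ℝ} (hc : 0 < c) {N : ℕ} :
    ¬ ∀ᶠ t in 𝓝[>] (0 : ℝ), c * t ^ N ≤ ‖ψ t‖ := by
  intro hlow
  obtain ⟨C, hC⟩ := (isBigO_of_flat (N + 1) hψ h).bound
  have h1 : ∀ᶠ t in 𝓝[>] (0 : ℝ), c ≤ max C 0 * t := by
    filter_upwards [hlow, hC, self_mem_nhdsWithin] with t h1 h2 h3
    have h3' : (0 : ℝ) < t := h3
    rw [norm_pow, Real.norm_eq_abs, abs_of_pos h3'] at h2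
    have h4 : c * t ^ N ≤ (max C 0 * t) * t ^ N := by
      calc c * t ^ N ≤ ‖ψ t‖ := h1
        _ ≤ C * t ^ (N + 1) := h2
        _ ≤ max C 0 * t ^ (N + 1) := by
          gcongr
          exact le_max_left _ _
        _ = (max C 0 * t) * t ^ N := by ring
    exact le_of_mul_le_mul_right h4 (by positivity)
  have h2 : Tendsto (fun t : ℝ => max C 0 * t) (𝓝[>] (0 : ℝ)) (𝓝 0) := by
    have h3 : Continuous fun t : ℝ => max C 0 * t := by fun_prop
    have h4 := h3.tendsto 0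
    rw [mul_zero] at h4
    exact h4.mono_left nhdsWithin_le_nhds
  exact absurd (ge_of_tendsto h2 h1) (not_le.mpr hc)

section Plane

/-- The boundary values of `(z - τ₀)^s` on the right. -/
private theorem tendsto_cpow_right {τ₀ s t : ℝ} (ht : 0 < t) :
    Tendsto (fun z : ℂ => (z - τ₀) ^ (s : ℂ)) (𝓝 ((τ₀ + t : ℝ) : ℂ)) (𝓝 ((t ^ s : ℝ) : ℂ)) := by
  have h1 : ContinuousAt (fun z : ℂ => (z - τ₀) ^ (s : ℂ)) ((τ₀ + t : ℝ) : ℂ) := by
    refine ContinuousAt.cpow (by fun_prop) continuousAt_const ?_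
    left
    simpa using ht
  have h2 := h1.tendsto
  have h3 : (((τ₀ + t : ℝ) : ℂ) - τ₀) ^ (s : ℂ) = ((t ^ s : ℝ) : ℂ) := by
    rw [Complex.ofReal_cpow ht.le]
    congr 1
    push_cast
    ring
  rwa [h3] at h2

private theorem tendsto_sub (τ₀ t : ℝ) (S : Set ℂ) (hS : ∀ z : ℂ, z - τ₀ ∈ S ↔ z ∈ S) :
    Tendsto (fun z : ℂ => z - τ₀) (𝓝[S] ((τ₀ - t : ℝ) : ℂ)) (𝓝[S] ((-t : ℝ) : ℂ)) := by
  refine tendsto_nhdsWithin_iff.mpr ⟨?_, ?_⟩
  · have h1 : Continuous fun z : ℂ => z - τ₀ := by fun_prop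
    have h2 := h1.tendsto ((τ₀ - t : ℝ) : ℂ)
    have h3 : ((τ₀ - t : ℝ) : ℂ) - τ₀ = ((-t : ℝ) : ℂ) := by
      push_cast
      ring
    rw [h3] at h2
    exact h2.mono_left nhdsWithin_le_nhds
  · filter_upwards [self_mem_nhdsWithin] with z hz
    exact (hS z).mpr hz

private theorem cpow_limit {s t : ℝ} (ht : 0 < t) {σ : ℂ} {l : Filter ℂ}
    (hl : Tendsto Complex.log l (𝓝 (Real.log ‖((-t : ℝ) : ℂ)‖ + σ)))
    (hne : ∀ᶠ z in l, z ≠ 0) :
    Tendsto (fun z : ℂ => z ^ (s : ℂ)) l (𝓝 (((t ^ s : ℝ) : ℂ) * Complex.exp (s * σ))) := by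
  have h1 : Tendsto (fun z : ℂ => Complex.exp (Complex.log z * s)) l
      (𝓝 (Complex.exp ((Real.log ‖((-t : ℝ) : ℂ)‖ + σ) * s))) :=
    (Complex.continuous_exp.tendsto _).comp (hl.mul_const (s : ℂ))
  have h2 : Complex.exp ((Real.log ‖((-t : ℝ) : ℂ)‖ + σ) * s) =
      ((t ^ s : ℝ) : ℂ) * Complex.exp (s * σ) := by
    rw [Complex.norm_real, Real.norm_eq_abs, abs_neg, abs_of_pos ht, add_mul, Complex.exp_add,
      Real.rpow_def_of_pos ht]
    push_cast
    rw [mul_comm σ]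
  rw [h2] at h1
  refine h1.congr' ?_
  filter_upwards [hne] with z hz
  rw [Complex.cpow_def_of_ne_zero hz]

private theorem tendsto_cpow_up {τ₀ s t : ℝ} (ht : 0 < t) :
    Tendsto (fun z : ℂ => (z - τ₀) ^ (s : ℂ)) (𝓝[{z | 0 < z.im}] ((τ₀ - t : ℝ) : ℂ))
      (𝓝 (((t ^ s : ℝ) : ℂ) * Complex.exp (s * (Real.pi * Complex.I)))) := by
  have h1 := Complex.tendsto_log_nhdsWithin_im_nonneg_of_re_neg_of_im_zero
    (z := ((-t : ℝ) : ℂ)) (by simpa using ht) (Complex.ofReal_im _)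
  have h2 : Tendsto Complex.log (𝓝[{z : ℂ | 0 < z.im}] ((-t : ℝ) : ℂ))
      (𝓝 (Real.log ‖((-t : ℝ) : ℂ)‖ + Real.pi * Complex.I)) :=
    h1.mono_left (nhdsWithin_mono _ fun z (hz : 0 < z.im) => (show 0 ≤ z.im from hz.le))
  have h3 := (cpow_limit (s := s) ht h2 (by
    filter_upwards [self_mem_nhdsWithin] with z hz h0
    rw [h0] at hz
    exact lt_irrefl _ hz)).comp (tendsto_sub τ₀ t {z | 0 < z.im} (fun z => by simp))
  exact h3

private theorem tendsto_cpow_dn {τ₀ s t : ℝ} (ht : 0 < t) :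
    Tendsto (fun z : ℂ => (z - τ₀) ^ (s : ℂ)) (𝓝[{z | z.im < 0}] ((τ₀ - t : ℝ) : ℂ))
      (𝓝 (((t ^ s : ℝ) : ℂ) * Complex.exp (s * (-(Real.pi * Complex.I))))) := by
  have h1 := Complex.tendsto_log_nhdsWithin_im_neg_of_re_neg_of_im_zero
    (z := ((-t : ℝ) : ℂ)) (by simpa using ht) (Complex.ofReal_im _)
  rw [sub_eq_add_neg] at h1
  have h3 := (cpow_limit (s := s) ht h1 (by
    filter_upwards [self_mem_nhdsWithin] with z hz h0
    rw [h0] at hz
    exact lt_irrefl _ hz)).comp (tendsto_sub τ₀ t {z | z.im < 0} (fun z => by simp))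
  exact h3

private theorem tendsto_ofReal_nhdsNE {τ₀ σ : ℝ} (hσ : σ ≠ 0) :
    Tendsto (fun t : ℝ => ((τ₀ + σ * t : ℝ) : ℂ)) (𝓝[>] 0) (𝓝[≠] (τ₀ : ℂ)) := by
  refine tendsto_nhdsWithin_iff.mpr ⟨?_, ?_⟩
  · have h1 : Continuous fun t : ℝ => ((τ₀ + σ * t : ℝ) : ℂ) := by fun_prop
    have h2 := h1.tendsto 0
    rw [mul_zero, add_zero] at h2
    exact h2.mono_left nhdsWithin_le_nhds
  · filter_upwards [self_mem_nhdsWithin] with t ht h0
    have h1 : τ₀ + σ * t = τ₀ := by exact_mod_cast Set.mem_singleton_iff.mp h0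
    have h2 : σ * t = 0 := by linarith
    rcases mul_eq_zero.mp h2 with h3 | h3
    · exact hσ h3
    · have ht' : (0 : ℝ) < t := ht
      linarith

/-- Complex analytic functions which vanish on a real half line vanish. -/
private theorem eventually_zero_of_real {g : ℂ → ℂ} {τ₀ σ : ℝ} (hσ : σ ≠ 0)
    (hg : AnalyticAt ℂ g τ₀) (h : ∀ᶠ t in 𝓝[>] (0 : ℝ), g ((τ₀ + σ * t : ℝ) : ℂ) = 0) :
    ∀ᶠ z in 𝓝 (τ₀ : ℂ), g z = 0 := by
  rw [← hg.frequently_zero_iff_eventually_zero]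
  exact (tendsto_ofReal_nhdsNE hσ).frequently h.frequently

private theorem analyticAt_real {g : ℂ → ℂ} {τ₀ σ : ℝ} (hg : AnalyticAt ℂ g τ₀) :
    AnalyticAt ℝ (fun t : ℝ => g ((τ₀ + σ * t : ℝ) : ℂ)) 0 := by
  have h1 : AnalyticAt ℝ g ((τ₀ + σ * (0 : ℝ) : ℝ) : ℂ) := by
    rw [mul_zero, add_zero]
    exact hg.restrictScalars
  have h2 : AnalyticAt ℝ (fun t : ℝ => ((τ₀ + σ * t : ℝ) : ℂ)) 0 := by
    have h3 : AnalyticAt ℝ (fun t : ℝ => τ₀ + σ * t) 0 := by fun_prop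
    exact (Complex.ofRealCLM.analyticAt _).comp h3
  exact h1.comp_of_eq h2 rfl

/-- **4.5, first half.** `J = hol + (z - τ₀)^s hol` on both sides with a smooth jump: the singular
parts vanish. -/
theorem loc_zero {J : ℂ → ℂ} {A : ℝ → ℂ} {τ₀ s : ℝ} (hs : ∀ k : ℤ, (k : ℝ) ≠ s)
    (hA : ContDiffAt ℝ ∞ A τ₀)
    (hjump : ∀ᶠ τ : ℝ in 𝓝 τ₀, ∀ P Q : ℂ, Tendsto J (𝓝[{z | 0 < z.im}] (τ : ℂ)) (𝓝 P) →
      Tendsto J (𝓝[{z | z.im < 0}] (τ : ℂ)) (𝓝 Q) → P - Q = A τ)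
    {hp up hm um : ℂ → ℂ} (ahp : AnalyticAt ℂ hp τ₀) (aup : AnalyticAt ℂ up τ₀)
    (ahm : AnalyticAt ℂ hm τ₀) (aum : AnalyticAt ℂ um τ₀)
    (hup : ∀ᶠ z in 𝓝 (τ₀ : ℂ), 0 < z.im → J z = hp z + (z - τ₀) ^ (s : ℂ) * up z)
    (hdn : ∀ᶠ z in 𝓝 (τ₀ : ℂ), z.im < 0 → J z = hm z + (z - τ₀) ^ (s : ℂ) * um z) :
    (∀ᶠ z in 𝓝 (τ₀ : ℂ), up z = 0) ∧ ∀ᶠ z in 𝓝 (τ₀ : ℂ), um z = 0 := by
  -- everything holds at all points near `τ₀`
  have hall := (((ahp.eventually_analyticAt.and aup.eventually_analyticAt).and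
    (ahm.eventually_analyticAt.and aum.eventually_analyticAt)).and
    ((eventually_eventually_nhds.mpr hup).and (eventually_eventually_nhds.mpr hdn)))
  have hreal : ∀ σ : ℝ, Tendsto (fun t : ℝ => τ₀ + σ * t) (𝓝[>] 0) (𝓝 τ₀) := by
    intro σ
    have h1 : Continuous fun t : ℝ => τ₀ + σ * t := by fun_prop
    have h2 := h1.tendsto 0
    rw [mul_zero, add_zero] at h2
    exact h2.mono_left nhdsWithin_le_nhds
  have hcplx : ∀ σ : ℝ, Tendsto (fun t : ℝ => ((τ₀ + σ * t : ℝ) : ℂ)) (𝓝[>] 0) (𝓝 (τ₀ : ℂ)) :=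
    fun σ => (Complex.continuous_ofReal.tendsto τ₀).comp (hreal σ)
  have hAσ : ∀ σ : ℝ, ContDiffAt ℝ ∞ (fun t : ℝ => A (τ₀ + σ * t)) 0 := by
    intro σ
    have h1 : ContDiffAt ℝ ∞ A (τ₀ + σ * 0) := by rwa [mul_zero, add_zero]
    have h2 : ContDiffAt ℝ ∞ (fun t : ℝ => τ₀ + σ * t) 0 := by fun_prop
    exact h1.comp 0 h2
  -- the right side
  have hR : ∀ᶠ z in 𝓝 (τ₀ : ℂ), up z - um z = 0 := by
    refine eventually_zero_of_real one_ne_zero (aup.sub aum) ?_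
    have h1 := eq_zero_of_smooth_rpow hs (ψ := fun t : ℝ => A (τ₀ + 1 * t) -
      (hp ((τ₀ + 1 * t : ℝ) : ℂ) - hm ((τ₀ + 1 * t : ℝ) : ℂ)))
      (v := fun t : ℝ => up ((τ₀ + 1 * t : ℝ) : ℂ) - um ((τ₀ + 1 * t : ℝ) : ℂ))
      ((hAσ 1).sub ((analyticAt_real ahp).contDiffAt.sub (analyticAt_real ahm).contDiffAt))
      ((analyticAt_real aup).sub (analyticAt_real aum)) ?_
    · exact h1.filter_mono nhdsWithin_le_nhds
    · filter_upwards [(hreal 1).eventually hjump, (hcplx 1).eventually hall,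
        self_mem_nhdsWithin] with t h2 h3 ht
      have ht' : (0 : ℝ) < t := ht
      obtain ⟨⟨⟨b1, b2⟩, b3, b4⟩, b5, b6⟩ := h3
      rw [one_mul] at *
      have hcp := tendsto_cpow_right (τ₀ := τ₀) (s := s) ht'
      have hP : Tendsto J (𝓝[{z | 0 < z.im}] ((τ₀ + t : ℝ) : ℂ))
          (𝓝 (hp ((τ₀ + t : ℝ) : ℂ) + ((t ^ s : ℝ) : ℂ) * up ((τ₀ + t : ℝ) : ℂ))) := by
        have h4 := (b1.continuousAt.tendsto.add (hcp.mul b2.continuousAt.tendsto)).mono_left
          (nhdsWithin_le_nhds (s := {z : ℂ | 0 < z.im}))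
        refine h4.congr' ?_
        filter_upwards [self_mem_nhdsWithin, b5.filter_mono nhdsWithin_le_nhds] with z hz hz2
        exact (hz2 hz).symm
      have hQ : Tendsto J (𝓝[{z | z.im < 0}] ((τ₀ + t : ℝ) : ℂ))
          (𝓝 (hm ((τ₀ + t : ℝ) : ℂ) + ((t ^ s : ℝ) : ℂ) * um ((τ₀ + t : ℝ) : ℂ))) := by
        have h4 := (b3.continuousAt.tendsto.add (hcp.mul b4.continuousAt.tendsto)).mono_left
          (nhdsWithin_le_nhds (s := {z : ℂ | z.im < 0}))
        refine h4.congr' ?_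
        filter_upwards [self_mem_nhdsWithin, b6.filter_mono nhdsWithin_le_nhds] with z hz hz2
        exact (hz2 hz).symm
      have h5 := h2 _ _ hP hQ
      rw [← h5]
      ring
  -- the left side
  have hL : ∀ᶠ z in 𝓝 (τ₀ : ℂ), Complex.exp (s * (Real.pi * Complex.I)) * up z -
      Complex.exp (s * (-(Real.pi * Complex.I))) * um z = 0 := by
    refine eventually_zero_of_real (neg_ne_zero.mpr one_ne_zero)
      ((analyticAt_const.mul aup).sub (analyticAt_const.mul aum)) ?_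
    have h1 := eq_zero_of_smooth_rpow hs (ψ := fun t : ℝ => A (τ₀ + (-1) * t) -
      (hp ((τ₀ + (-1) * t : ℝ) : ℂ) - hm ((τ₀ + (-1) * t : ℝ) : ℂ)))
      (v := fun t : ℝ => Complex.exp (s * (Real.pi * Complex.I)) * up ((τ₀ + (-1) * t : ℝ) : ℂ) -
        Complex.exp (s * (-(Real.pi * Complex.I))) * um ((τ₀ + (-1) * t : ℝ) : ℂ))
      ((hAσ (-1)).sub ((analyticAt_real ahp).contDiffAt.sub (analyticAt_real ahm).contDiffAt))
      ((analyticAt_const.mul (analyticAt_real aup)).sub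
        (analyticAt_const.mul (analyticAt_real aum))) ?_
    · exact h1.filter_mono nhdsWithin_le_nhds
    · filter_upwards [(hreal (-1)).eventually hjump, (hcplx (-1)).eventually hall,
        self_mem_nhdsWithin] with t h2 h3 ht
      have ht' : (0 : ℝ) < t := ht
      obtain ⟨⟨⟨b1, b2⟩, b3, b4⟩, b5, b6⟩ := h3
      have e0 : τ₀ + (-1) * t = τ₀ - t := by ring
      rw [e0] at b1 b2 b3 b4 b5 b6 h2
      have hP : Tendsto J (𝓝[{z | 0 < z.im}] ((τ₀ - t : ℝ) : ℂ))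
          (𝓝 (hp ((τ₀ - t : ℝ) : ℂ) + (((t ^ s : ℝ) : ℂ) *
            Complex.exp (s * (Real.pi * Complex.I))) * up ((τ₀ - t : ℝ) : ℂ))) := by
        have h4 := (b1.continuousAt.tendsto.mono_left nhdsWithin_le_nhds).add
          ((tendsto_cpow_up (τ₀ := τ₀) (s := s) ht').mul
            (b2.continuousAt.tendsto.mono_left nhdsWithin_le_nhds))
        refine h4.congr' ?_
        filter_upwards [self_mem_nhdsWithin, b5.filter_mono nhdsWithin_le_nhds] with z hz hz2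
        exact (hz2 hz).symm
      have hQ : Tendsto J (𝓝[{z | z.im < 0}] ((τ₀ - t : ℝ) : ℂ))
          (𝓝 (hm ((τ₀ - t : ℝ) : ℂ) + (((t ^ s : ℝ) : ℂ) *
            Complex.exp (s * (-(Real.pi * Complex.I)))) * um ((τ₀ - t : ℝ) : ℂ))) := by
        have h4 := (b3.continuousAt.tendsto.mono_left nhdsWithin_le_nhds).add
          ((tendsto_cpow_dn (τ₀ := τ₀) (s := s) ht').mul
            (b4.continuousAt.tendsto.mono_left nhdsWithin_le_nhds))
        refine h4.congr' ?_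
        filter_upwards [self_mem_nhdsWithin, b6.filter_mono nhdsWithin_le_nhds] with z hz hz2
        exact (hz2 hz).symm
      have h5 := h2 _ _ hP hQ
      simp only [e0]
      rw [← h5]
      ring
  -- `sin (π s) ≠ 0`
  have hne : Complex.exp (s * (Real.pi * Complex.I)) -
      Complex.exp (s * (-(Real.pi * Complex.I))) ≠ 0 := by
    intro h0
    have h1 : Complex.exp (s * (Real.pi * Complex.I)) =
        Complex.exp (s * (-(Real.pi * Complex.I))) := sub_eq_zero.mp h0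
    rw [Complex.exp_eq_exp_iff_exists_int] at h1
    obtain ⟨k, hk⟩ := h1
    have h2 : (2 * Real.pi * Complex.I : ℂ) ≠ 0 := Complex.two_pi_I_ne_zero
    have h3 : (s : ℂ) * (2 * Real.pi * Complex.I) = (k : ℂ) * (2 * Real.pi * Complex.I) := by
      linear_combination hk
    have h4 := mul_right_cancel₀ h2 h3
    exact hs k (by exact_mod_cast h4.symm)
  have hup0 : ∀ᶠ z in 𝓝 (τ₀ : ℂ), up z = 0 := by
    filter_upwards [hR, hL] with z h1 h2
    have h3 : um z = up z := by linear_combination -h1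
    rw [h3, ← sub_mul] at h2
    exact (mul_eq_zero.mp h2).resolve_left hne
  refine ⟨hup0, ?_⟩
  filter_upwards [hR, hup0] with z h1 h2
  rw [h2] at h1
  linear_combination -h1

end Plane

end Pool.Agent.QC.S4
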