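import Mathlib
import Pool.Agent.QC.S4.Jump
import Pool.Agent.QC.S4.Label1
import Pool.Agent.QC.S4.Local

/-!
# MP_7c50a9_lc, section 4.5: labels

`T` is a piece of `{f > 0}` (relatively compact), `w` a real critical point of `x_n` on `f = 0`
which is a local maximum of `f` in its slice.
* `Piece.contDiffAt_slI`: the slice integrals are smooth at `τ₀` if there is no critical point on
  the closure of `T` in the slice `x_n = τ₀`.
* `Piece.not_contDiffAt_slI`: if `w` is in the closure of `T`, they are not.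
* `Piece.label_reg`: no critical point on the closure of `T`: the singular part of the Cauchy
  transform vanishes.
* `Piece.label_sing`: `w` in the closure of `T`: no analytic continuation to `w_n` from above or
  from below.
-/

namespace Pool.Agent.QC.S4

open Set Topology Filter MeasureTheory
open scoped ContDiff

variable {n : ℕ} {f : (Fin (n + 1) → ℝ) → ℝ} {T : Set (Fin (n + 1) → ℝ)} {a : ℝ}

/-- Real critical points of `x_n` on `f = 0`. -/
def CritR (f : (Fin (n + 1) → ℝ) → ℝ) (x : Fin (n + 1) → ℝ) : Prop :=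
  f x = 0 ∧ ∀ i : Fin n, fderiv ℝ f x (Pi.single i.castSucc 1) = 0

theorem sn_single (i : Fin n) : sn n (0, Pi.single i 1) = Pi.single i.castSucc 1 := by
  ext j
  refine Fin.lastCases ?_ (fun k => ?_) j
  · rw [sn_last, Pi.single_eq_of_ne]
    exact (Fin.castSucc_lt_last i).ne'
  · rw [sn_castSucc]
    by_cases hk : k = i
    · subst hk
      simp
    · show (Pi.single i 1 : Fin n → ℝ) k = _
      rw [Pi.single_eq_of_ne hk, Pi.single_eq_of_ne]
      exact fun h => hk (Fin.castSucc_injective n h)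

theorem fderiv_sn (hf : ContDiff ℝ ∞ f) (p : ℝ × (Fin n → ℝ)) (i : Fin n) :
    fderiv ℝ (fun p => f (sn n p)) p (0, Pi.single i 1) =
      fderiv ℝ f (sn n p) (Pi.single i.castSucc 1) := by
  have h1 : HasFDerivAt f (fderiv ℝ f (sn n p)) (sn n p) :=
    (hf.differentiable (by simp)).differentiableAt.hasFDerivAt
  have h2 := h1.comp p (sn n).hasFDerivAt
  have h3 : fderiv ℝ (fun p => f (sn n p)) p = (fderiv ℝ f (sn n p)).comp
      ((sn n : (ℝ × (Fin n → ℝ)) →L[ℝ] (Fin (n + 1) → ℝ))) := h2.fderiv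
  rw [h3, ContinuousLinearMap.comp_apply]
  congr 1
  exact sn_single i

/-- **Smoothness of the slice integrals.** -/
theorem Piece.contDiffAt_slI (h : Piece f T univ) (hc : IsCompact (closure T)) (ha : 1 < a)
    (hf : ContDiff ℝ ∞ f) {φ : (Fin (n + 1) → ℝ) → ℂ} (hφ : ContDiff ℝ ∞ φ)
    {S : Set (Fin (n + 1) → ℝ)} (hS : IsClosed S) (hφS : ∀ x ∉ S, φ x = 0) {τ₀ : ℝ}
    (hcrit : ∀ x ∈ closure T, x ∈ S → x (Fin.last n) = τ₀ → ¬ CritR f x) :
    ContDiffAt ℝ ∞ (slI f T a φ) τ₀ := by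
  set f₂ : ℝ × (Fin n → ℝ) → ℝ := fun p => f (sn n p) with hf₂
  have hf₂s : ContDiff ℝ ∞ f₂ := hf.comp (sn n).contDiff
  set v : Fin n → (Fin n → ℝ) := fun i => Pi.single i 1 with hv
  have hqcrit : ∀ p, qf f₂ v p = 0 → CritR f (sn n p) := by
    intro p hp
    have h1 : f₂ p ^ 2 = 0 ∧ ∑ i, (fderiv ℝ f₂ p (0, v i)) ^ 2 = 0 := by
      have h2 : 0 ≤ f₂ p ^ 2 := sq_nonneg _
      have h3 : 0 ≤ ∑ i, (fderiv ℝ f₂ p (0, v i)) ^ 2 := Finset.sum_nonneg fun i _ => sq_nonneg _
      have h4 : f₂ p ^ 2 + ∑ i, (fderiv ℝ f₂ p (0, v i)) ^ 2 = 0 := hp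
      constructor <;> linarith
    refine ⟨by simpa using h1.1, fun i => ?_⟩
    have h5 := (Finset.sum_eq_zero_iff_of_nonneg fun i _ => sq_nonneg _).mp h1.2 i
      (Finset.mem_univ i)
    rw [← fderiv_sn hf]
    simpa using h5
  -- the projection of the critical set
  set K : Set (Fin (n + 1) → ℝ) := (closure T ∩ S) ∩ {x | qf f₂ v ((sn n).symm x) = 0} with hK
  have hKc : IsCompact K := by
    refine (hc.inter_right hS).inter_right ?_
    exact isClosed_eq ((contDiff_qf hf₂s v).continuous.comp (sn n).symm.continuous)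
      continuous_const
  have hKp : IsCompact ((fun x : Fin (n + 1) → ℝ => x (Fin.last n)) '' K) :=
    hKc.image (by fun_prop)
  have hτ : τ₀ ∈ ((fun x : Fin (n + 1) → ℝ => x (Fin.last n)) '' K)ᶜ := by
    rintro ⟨x, ⟨⟨hx1, hx2⟩, hx3⟩, hx4⟩
    refine hcrit x hx1 hx2 hx4 ?_
    have := hqcrit _ hx3
    rwa [ContinuousLinearEquiv.apply_symm_apply] at this
  obtain ⟨δ, hδ, hδs⟩ := Metric.isOpen_iff.mp hKp.isClosed.isOpen_compl τ₀ hτ
  rw [Real.ball_eq_Ioo] at hδs
  set D : Set (ℝ × (Fin n → ℝ)) := Dom (Fin n → ℝ) (τ₀ - δ) (τ₀ + δ) with hD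
  have hDo : IsOpen D := isOpen_Ioo.prod isOpen_univ
  have hP : Piece f₂ ((sn n) ⁻¹' T ∩ D) D := by
    have := h.comp_equiv (sn n)
    rw [preimage_univ] at this
    exact this.restrictD hDo (subset_univ _)
  obtain ⟨C, hC, hTC⟩ := exists_compact_slice hc
  have hcl : ∀ p ∈ closure ((sn n) ⁻¹' T ∩ D), sn n p ∈ closure T := fun p hp =>
    map_mem_closure (sn n).continuous hp fun q hq => hq.1
  have key := hP.contDiffOn_integral (volume : Measure (Fin n → ℝ)) hf₂s hC
    (fun p hp => hTC p hp.1) ha (v := v) (S := (sn n) ⁻¹' S) (hS.preimage (sn n).continuous)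
    (fun p hpD hpc hpS h0 => by
      refine hδs hpD.1 ⟨sn n p, ⟨⟨hcl p hpc, hpS⟩, ?_⟩, sn_last p⟩
      rw [mem_ofPred_eq, ContinuousLinearEquiv.symm_apply_apply]
      exact h0)
    (ψ := fun p => φ (sn n p))
    ⟨fun p _ => (hφ.comp (sn n).contDiff).contDiffAt, fun p hp => hφS _ hp⟩
  have hτI : Ioo (τ₀ - δ) (τ₀ + δ) ∈ 𝓝 τ₀ := Ioo_mem_nhds (by linarith) (by linarith)
  refine (key.contDiffAt hτI).congr_of_eventuallyEq ?_
  filter_upwards [hτI] with τ hτ'
  rw [slI]
  refine integral_congr_ae (Eventually.of_forall fun x => ?_)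
  simp only
  congr 1
  by_cases hx : sn n (τ, x) ∈ T
  · rw [pw_of_mem hx, pw_of_mem (show (τ, x) ∈ (sn n) ⁻¹' T ∩ D from ⟨hx, hτ', mem_univ _⟩)]
  · rw [pw_of_notMem hx, pw_of_notMem fun hx' => hx hx'.1]

/-- Local estimates near `w`. -/
private theorem exists_local (hf : ContDiff ℝ ∞ f) {w : Fin (n + 1) → ℝ} (hcr : CritR f w) {σ : ℝ}
    (hσ : σ * σ = 1) (hd : 0 < σ * fderiv ℝ f w (Pi.single (Fin.last n) 1))
    (hmax : ∀ᶠ x in 𝓝 w, x (Fin.last n) = w (Fin.last n) → f x ≤ 0) :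
    ∃ ρ > 0, ∃ α > 0,
      (∀ x ∈ Metric.ball w ρ, σ * (x (Fin.last n) - w (Fin.last n)) < 0 → f x ≤ 0) ∧
      ∀ x ∈ Metric.ball w ρ, 0 < σ * (x (Fin.last n) - w (Fin.last n)) →
        (∀ i : Fin n, |x i.castSucc - w i.castSucc| ≤ σ * (x (Fin.last n) - w (Fin.last n))) →
        α * (σ * (x (Fin.last n) - w (Fin.last n))) ≤ f x := by
  have hfd : ∀ x, HasFDerivAt f (fderiv ℝ f x) x := fun x =>
    (hf.differentiable (by simp)).differentiableAt.hasFDerivAt
  have hfc : Continuous (fderiv ℝ f) := (hf.fderiv_right (m := ∞) (by simp)).continuous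
  have hev1 : ∀ᶠ x in 𝓝 w, 0 < σ * fderiv ℝ f x (Pi.single (Fin.last n) 1) := by
    have hcont : Continuous fun x => σ * fderiv ℝ f x (Pi.single (Fin.last n) 1) :=
      continuous_const.mul (hfc.clm_apply continuous_const)
    exact hcont.continuousAt.eventually (lt_mem_nhds hd)
  set α₀ := σ * fderiv ℝ f w (Pi.single (Fin.last n) 1) with hα₀
  have hev2 : ∀ᶠ x in 𝓝 w, ‖f x - f w - fderiv ℝ f w (x - w)‖ ≤ α₀ / 2 * ‖x - w‖ :=
    (hfd w).isLittleO.def (by positivity)
  obtain ⟨ρ, hρ, hb⟩ := Metric.mem_nhds_iff.mp (hev1.and (hev2.and hmax))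
  refine ⟨ρ, hρ, α₀ / 2, by positivity, ?_, ?_⟩
  · intro x hx hneg
    set x0 : Fin (n + 1) → ℝ := Function.update x (Fin.last n) (w (Fin.last n)) with hx0
    have hx0b : x0 ∈ Metric.ball w ρ := by
      rw [Metric.mem_ball, dist_pi_lt_iff hρ] at hx ⊢
      intro i
      by_cases hi : i = Fin.last n
      · subst hi
        simpa [hx0] using hρ
      · rw [hx0, Function.update_of_ne hi]
        exact hx i
    have hx0n : x0 (Fin.last n) = w (Fin.last n) := by simp [hx0]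
    have hdiff : x - x0 = (x (Fin.last n) - w (Fin.last n)) • (Pi.single (Fin.last n) 1 :
        Fin (n + 1) → ℝ) := by
      ext i
      by_cases hi : i = Fin.last n
      · subst hi
        simp [hx0]
      · simp [hx0, Function.update_of_ne hi, Pi.single_eq_of_ne hi]
    have hgd : ∀ s : ℝ, HasDerivAt (fun s : ℝ => f (x0 + s • (x - x0)))
        (fderiv ℝ f (x0 + s • (x - x0)) (x - x0)) s := fun s => hasDerivAt_line (hfd _)
    obtain ⟨c, hc, hce⟩ := exists_hasDerivAt_eq_slope (fun s : ℝ => f (x0 + s • (x - x0)))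
      (fun s => fderiv ℝ f (x0 + s • (x - x0)) (x - x0)) zero_lt_one
      (fun s _ => (hgd s).continuousAt.continuousWithinAt) (fun s _ => hgd s)
    have hcb : x0 + c • (x - x0) ∈ Metric.ball w ρ := by
      have := (convex_ball w ρ) hx0b hx (a := 1 - c) (b := c) (by linarith [hc.2]) hc.1.le
        (by ring)
      have e : x0 + c • (x - x0) = (1 - c) • x0 + c • x := by
        rw [smul_sub, sub_smul, one_smul]
        abel
      rwa [e]
    have h1 := (hb hcb).1
    have h2 := (hb hx0b).2.2 hx0n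
    simp only [one_smul, zero_smul, add_zero, sub_zero, div_one, add_sub_cancel] at hce
    rw [hdiff, map_smul, smul_eq_mul] at hce
    rw [← hdiff] at hce
    have h3 : (x (Fin.last n) - w (Fin.last n)) *
        fderiv ℝ f (x0 + c • (x - x0)) (Pi.single (Fin.last n) 1) < 0 := by
      have h4 : (σ * (x (Fin.last n) - w (Fin.last n))) *
          (σ * fderiv ℝ f (x0 + c • (x - x0)) (Pi.single (Fin.last n) 1)) < 0 :=
        mul_neg_of_neg_of_pos hneg h1
      have h5 : (σ * (x (Fin.last n) - w (Fin.last n))) *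
          (σ * fderiv ℝ f (x0 + c • (x - x0)) (Pi.single (Fin.last n) 1)) =
          (σ * σ) * ((x (Fin.last n) - w (Fin.last n)) *
          fderiv ℝ f (x0 + c • (x - x0)) (Pi.single (Fin.last n) 1)) := by ring
      rw [h5, hσ, one_mul] at h4
      exact h4
    linarith
  · intro x hx hpos hi
    have h1 := (hb hx).2.1
    have hnorm : ‖x - w‖ ≤ σ * (x (Fin.last n) - w (Fin.last n)) := by
      rw [pi_norm_le_iff_of_nonneg hpos.le]
      intro i
      refine Fin.lastCases ?_ (fun j => ?_) i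
      · rw [Pi.sub_apply, Real.norm_eq_abs]
        have h2 : |σ| = 1 := by
          have h3 : |σ| * |σ| = 1 := by rw [← abs_mul, hσ, abs_one]
          nlinarith [abs_nonneg σ]
        have h4 : |σ * (x (Fin.last n) - w (Fin.last n))| = |x (Fin.last n) - w (Fin.last n)| := by
          rw [abs_mul, h2, one_mul]
        rw [← h4, abs_of_pos hpos]
      · exact hi j
    have hlin : fderiv ℝ f w (x - w) =
        (x (Fin.last n) - w (Fin.last n)) * fderiv ℝ f w (Pi.single (Fin.last n) 1) := by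
      have e : x - w = ∑ i, (x i - w i) • (Pi.single i 1 : Fin (n + 1) → ℝ) := by
        ext k
        simp [Finset.sum_apply, Pi.single_apply]
      conv_lhs => rw [e]
      rw [map_sum, Fin.sum_univ_castSucc]
      simp only [map_smul, smul_eq_mul, hcr.2, mul_zero, Finset.sum_const_zero, zero_add]
    have hlin2 : fderiv ℝ f w (x - w) = α₀ * (σ * (x (Fin.last n) - w (Fin.last n))) := by
      rw [hlin, hα₀]
      linear_combination (-(fderiv ℝ f w (Pi.single (Fin.last n) 1)) *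
        (x (Fin.last n) - w (Fin.last n))) * hσ
    rw [hcr.1, sub_zero, hlin2, Real.norm_eq_abs] at h1
    have h2 := (abs_le.mp h1).1
    have h3 : α₀ / 2 * ‖x - w‖ ≤ α₀ / 2 * (σ * (x (Fin.last n) - w (Fin.last n))) :=
      mul_le_mul_of_nonneg_left hnorm (by positivity)
    linarith

/-- Near `w` in the closure of `T` the piece is all of `{f > 0}`. -/
theorem Piece.near_all (h : Piece f T univ) (hf : ContDiff ℝ ∞ f) {w : Fin (n + 1) → ℝ}
    (hfw : f w = 0) (hdn : fderiv ℝ f w ≠ 0) (hwT : w ∈ closure T)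
    {U : Set (Fin (n + 1) → ℝ)} (hU : U ∈ 𝓝 w) :
    ∃ N, IsOpen N ∧ w ∈ N ∧ N ⊆ U ∧ ∀ x ∈ N, 0 < f x → x ∈ T := by
  have hst : HasStrictFDerivAt f (fderiv ℝ f w) w := hf.contDiffAt.hasStrictFDerivAt (by simp)
  obtain ⟨N, hN, hwN, hNU, hconn⟩ := locConn_of_regular hst hdn hfw U hU
  refine ⟨N, hN, hwN, hNU, ?_⟩
  have hne : (({y | 0 < f y} ∩ N) ∩ T).Nonempty := by
    obtain ⟨y, hyN, hyT⟩ := mem_closure_iff.mp hwT N hN hwN
    exact ⟨y, ⟨h.pos y hyT, hyN⟩, hyT⟩
  have hsub : {y | 0 < f y} ∩ N ⊆ T := by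
    refine hconn.isPreconnected.subset_of_closure_inter_subset h.isOpen hne ?_
    rintro y ⟨hyc, hyf, -⟩
    by_contra hyT
    have := h.zero y (mem_univ y) hyc hyT
    have hyf' : 0 < f y := hyf
    linarith
  exact fun x hxN hx => hsub ⟨hx, hxN⟩

/-- The slice integrals with a real weight. -/
theorem slI_ofReal (g : (Fin (n + 1) → ℝ) → ℝ) (τ : ℝ) :
    slI f T a (fun x => (g x : ℂ)) τ =
      ((∫ x : Fin n → ℝ, pw f T a (sn n (τ, x)) * g (sn n (τ, x)) : ℝ) : ℂ) := by
  rw [slI, ← integral_complex_ofReal]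
  refine integral_congr_ae (Eventually.of_forall fun x => ?_)
  simp only [Complex.real_smul]
  push_cast
  ring

theorem dist_sn_le {τ : ℝ} {x : Fin n → ℝ} {w : Fin (n + 1) → ℝ} {r : ℝ} (hr : 0 ≤ r)
    (h1 : |τ - w (Fin.last n)| ≤ r) (h2 : ∀ i : Fin n, |x i - w i.castSucc| ≤ r) :
    dist (sn n (τ, x)) w ≤ r := by
  rw [dist_pi_le_iff hr]
  intro i
  refine Fin.lastCases ?_ (fun j => ?_) i
  · rw [sn_last, Real.dist_eq]
    exact h1
  · rw [sn_castSucc, Real.dist_eq]
    exact h2 j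

/-- **4.5**: if `w` is in the closure of `T`, the slice integral is not smooth at `w_n`. -/
theorem Piece.not_contDiffAt_slI (h : Piece f T univ) (hc : IsCompact (closure T)) (ha : 1 < a)
    (hf : ContDiff ℝ ∞ f) {w : Fin (n + 1) → ℝ} (hcr : CritR f w)
    (hdn : fderiv ℝ f w (Pi.single (Fin.last n) 1) ≠ 0)
    (hmax : ∀ᶠ x in 𝓝 w, x (Fin.last n) = w (Fin.last n) → f x ≤ 0)
    (huniq : ∀ x ∈ closure T, x (Fin.last n) = w (Fin.last n) → CritR f x → x = w)
    (hwT : w ∈ closure T) :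
    ¬ ContDiffAt ℝ ∞ (slI f T a fun _ => 1) (w (Fin.last n)) := by
  intro hsm
  have ha0 : 0 < a := by linarith
  obtain ⟨σ, hσ, hd⟩ : ∃ σ : ℝ, σ * σ = 1 ∧
      0 < σ * fderiv ℝ f w (Pi.single (Fin.last n) 1) := by
    rcases lt_or_gt_of_ne hdn with h1 | h1
    · exact ⟨-1, by norm_num, by linarith⟩
    · exact ⟨1, by norm_num, by linarith⟩
  obtain ⟨ρ, hρ, α, hα, hneg, hlow⟩ := exists_local hf hcr hσ hd hmax
  -- the cut off function
  let χ : ContDiffBump w := ⟨ρ / 4, ρ / 2, by positivity, by linarith⟩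
  have hχs : ContDiff ℝ ∞ (fun x => χ x) := χ.contDiff
  have hχc : ContDiff ℝ ∞ (fun x => ((χ x : ℝ) : ℂ)) := Complex.ofRealCLM.contDiff.comp hχs
  have hfc : Continuous f := hf.continuous
  have hdn' : fderiv ℝ f w ≠ 0 := fun h0 => hdn (by rw [h0]; simp)
  obtain ⟨N, hN, hwN, hNU, hNT⟩ := h.near_all hf hcr.1 hdn' hwT
    (Metric.ball_mem_nhds w (show 0 < ρ / 4 by positivity))
  -- the smooth part
  have hsm2 : ContDiffAt ℝ ∞ (slI f T a fun x => 1 - ((χ x : ℝ) : ℂ)) (w (Fin.last n)) := by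
    refine h.contDiffAt_slI hc ha hf (contDiff_const.sub hχc) (S := (Metric.ball w (ρ / 4))ᶜ)
      Metric.isOpen_ball.isClosed_compl ?_ ?_
    · intro x hx
      rw [notMem_compl_iff] at hx
      rw [χ.one_of_mem_closedBall (Metric.ball_subset_closedBall hx)]
      simp
    · intro x hx hxS hxn hcx
      refine hxS ?_
      rw [huniq x hx hxn hcx]
      exact Metric.mem_ball_self (by positivity)
  -- the local part
  have hI : ∀ {g : (Fin (n + 1) → ℝ) → ℂ}, Continuous g → ∀ τ : ℝ,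
      Integrable fun x : Fin n → ℝ => pw f T a (sn n (τ, x)) • g (sn n (τ, x)) := by
    intro g hg τ
    have h1 : Piece (fun x : Fin n → ℝ => f (sn n (τ, x))) {x | sn n (τ, x) ∈ T} univ := by
      refine ⟨isOpen_univ, h.isOpen.preimage ((sn n).continuous.comp (by fun_prop)),
        subset_univ _, fun x hx => h.pos _ hx, fun x _ hxc hxT => h.zero _ (mem_univ _) ?_ hxT⟩
      exact map_mem_closure (f := fun x : Fin n → ℝ => sn n (τ, x))
        ((sn n).continuous.comp (by fun_prop)) hxc fun y hy => hy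
    obtain ⟨C, hC, hTC⟩ := exists_compact_slice hc
    have h2 : IsCompact (closure {x : Fin n → ℝ | sn n (τ, x) ∈ T}) :=
      hC.of_isClosed_subset isClosed_closure
        (closure_minimal (fun x hx => hTC (τ, x) hx) hC.isClosed)
    have h3 := h1.integrable (volume : Measure (Fin n → ℝ)) h2 ha0
      (hfc.comp ((sn n).continuous.comp (by fun_prop)))
      (ψ := fun x => g (sn n (τ, x)))
      (fun x _ => (hg.comp ((sn n).continuous.comp (by fun_prop))).continuousAt)
    refine h3.congr (Eventually.of_forall fun x => ?_)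
    have e1 := pw_comp f T a (fun x : Fin n → ℝ => sn n (τ, x)) x
    show _ = pw f T a (sn n (τ, x)) • g (sn n (τ, x))
    rw [e1]
    rfl
  have hsplit : ∀ τ, slI f T a (fun x => ((χ x : ℝ) : ℂ)) τ =
      slI f T a (fun _ => 1) τ - slI f T a (fun x => 1 - ((χ x : ℝ) : ℂ)) τ := by
    intro τ
    have i1 := hI (g := fun _ => (1 : ℂ)) continuous_const τ
    have i2 := hI (g := fun x => 1 - ((χ x : ℝ) : ℂ)) (continuous_const.sub hχc.continuous) τ
    rw [slI, slI, slI, ← integral_sub i1 i2]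
    refine integral_congr_ae (Eventually.of_forall fun x => ?_)
    simp only [Complex.real_smul]
    ring
  have hsm3 : ContDiffAt ℝ ∞ (slI f T a fun x => ((χ x : ℝ) : ℂ)) (w (Fin.last n)) :=
    (hsm.sub hsm2).congr_of_eventuallyEq (Eventually.of_forall hsplit)
  set τ₀ := w (Fin.last n) with hτ₀
  have hψ : ContDiffAt ℝ ∞ (fun t : ℝ => slI f T a (fun x => ((χ x : ℝ) : ℂ)) (τ₀ + σ * t)) 0 := by
    have h1 : ContDiffAt ℝ ∞ (slI f T a fun x => ((χ x : ℝ) : ℂ)) (τ₀ + σ * 0) := by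
      rwa [mul_zero, add_zero]
    have h2 : ContDiffAt ℝ ∞ (fun t : ℝ => τ₀ + σ * t) 0 := by fun_prop
    exact ContDiffAt.comp (g := slI f T a fun x => ((χ x : ℝ) : ℂ))
      (f := fun t : ℝ => τ₀ + σ * t) 0 h1 h2
  have hσt : ∀ t : ℝ, σ * (τ₀ + σ * t - τ₀) = t := by
    intro t
    linear_combination t * hσ
  have hσ1 : |σ| = 1 := by
    have h3 : |σ| * |σ| = 1 := by rw [← abs_mul, hσ, abs_one]
    nlinarith [abs_nonneg σ]
  -- it vanishes on one side
  have hzero : ∀ᶠ t in 𝓝[<] (0 : ℝ), slI f T a (fun x => ((χ x : ℝ) : ℂ)) (τ₀ + σ * t) = 0 := by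
    filter_upwards [self_mem_nhdsWithin] with t ht
    have ht' : t < 0 := ht
    rw [slI]
    have : ∀ x : Fin n → ℝ, pw f T a (sn n (τ₀ + σ * t, x)) •
        ((χ (sn n (τ₀ + σ * t, x)) : ℝ) : ℂ) = 0 := by
      intro x
      by_cases hx : sn n (τ₀ + σ * t, x) ∈ Metric.ball w (ρ / 2)
      · have h1 := hneg _ (Metric.ball_subset_ball (by linarith) hx)
          (by rw [sn_last, hσt]; exact ht')
        rw [pw_of_notMem fun hxT => absurd (h.pos _ hxT) (not_lt.mpr h1), zero_smul]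
      · have h1 : χ (sn n (τ₀ + σ * t, x)) = 0 := by
          refine χ.zero_of_le_dist ?_
          rw [Metric.mem_ball, not_lt] at hx
          exact hx
        rw [h1, Complex.ofReal_zero, smul_zero]
    simp [this]
  -- the lower bound on the other side
  set m := ⌈a⌉₊ with hm
  refine not_lower_bound hψ hzero (c := α ^ m * 2 ^ n) (by positivity) (N := m + n) ?_
  obtain ⟨ρ₁, hρ₁, hρN⟩ := Metric.isOpen_iff.mp hN w hwN
  have hsmall : ∀ᶠ t in 𝓝[>] (0 : ℝ), t < ρ₁ ∧ t < ρ ∧ α * t ≤ 1 := by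
    have h1 : ∀ᶠ t in 𝓝 (0 : ℝ), t < ρ₁ ∧ t < ρ ∧ α * t ≤ 1 := by
      refine (gt_mem_nhds hρ₁).and ((gt_mem_nhds hρ).and ?_)
      have h2 : Continuous fun t : ℝ => α * t := by fun_prop
      have h3 : ∀ᶠ t in 𝓝 (0 : ℝ), α * t < 1 :=
        (h2.tendsto 0).eventually (gt_mem_nhds (by norm_num))
      exact h3.mono fun t ht => ht.le
    exact h1.filter_mono nhdsWithin_le_nhds
  filter_upwards [self_mem_nhdsWithin, hsmall] with t ht ht2
  have ht' : 0 < t := ht
  obtain ⟨ht3, ht4, ht5⟩ := ht2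
  rw [slI_ofReal, Complex.norm_real, Real.norm_eq_abs]
  refine le_trans ?_ (le_abs_self _)
  -- the integrand
  set g : (Fin n → ℝ) → ℝ := fun x => pw f T a (sn n (τ₀ + σ * t, x)) *
    χ (sn n (τ₀ + σ * t, x)) with hg
  have hgI : Integrable g := by
    have h1 := (hI hχc.continuous (τ₀ + σ * t)).re
    refine h1.congr (Eventually.of_forall fun x => ?_)
    simp [hg, Complex.real_smul]
  have hg0 : ∀ x, 0 ≤ g x := fun x => mul_nonneg (h.pw_nonneg a _) χ.nonneg
  set B : Set (Fin n → ℝ) := Metric.ball (fun i => w i.castSucc) t with hB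
  have hgB : ∀ x ∈ B, (α * t) ^ m ≤ g x := by
    intro x hx
    have hxi : ∀ i : Fin n, |x i - w i.castSucc| ≤ t := by
      intro i
      rw [hB, Metric.mem_ball, dist_pi_lt_iff ht'] at hx
      have := hx i
      rw [Real.dist_eq] at this
      exact this.le
    have hdist : dist (sn n (τ₀ + σ * t, x)) w ≤ t := by
      refine dist_sn_le ht'.le ?_ hxi
      rw [← hτ₀, add_sub_cancel_left, abs_mul, hσ1, one_mul, abs_of_pos ht']
    have hxN : sn n (τ₀ + σ * t, x) ∈ N := hρN (lt_of_le_of_lt hdist ht3)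
    have hfx : α * t ≤ f (sn n (τ₀ + σ * t, x)) := by
      have h1 := hlow (sn n (τ₀ + σ * t, x)) (lt_of_le_of_lt hdist ht4)
        (by rw [sn_last, hσt]; exact ht')
        (fun i => by rw [sn_castSucc, sn_last, hσt]; exact hxi i)
      rwa [sn_last, hσt] at h1
    have hxT : sn n (τ₀ + σ * t, x) ∈ T := hNT _ hxN (lt_of_lt_of_le (by positivity) hfx)
    have hχ1 : χ (sn n (τ₀ + σ * t, x)) = 1 :=
      χ.one_of_mem_closedBall (Metric.ball_subset_closedBall (hNU hxN))
    simp only [hg]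
    rw [hχ1, mul_one, pw_of_mem hxT]
    calc (α * t) ^ m = (α * t) ^ (m : ℝ) := (Real.rpow_natCast _ _).symm
      _ ≤ (α * t) ^ a := Real.rpow_le_rpow_of_exponent_ge (by positivity) ht5 (Nat.le_ceil a)
      _ ≤ f (sn n (τ₀ + σ * t, x)) ^ a := Real.rpow_le_rpow (by positivity) hfx ha0.le
  have hvol : (volume B).toReal = (2 * t) ^ n := by
    rw [hB, Real.volume_pi_ball _ ht', Fintype.card_fin, ENNReal.toReal_ofReal (by positivity)]
  have hBm : MeasurableSet B := Metric.isOpen_ball.measurableSet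
  have hBf : volume B ≠ ⊤ := by
    rw [hB, Real.volume_pi_ball _ ht']
    exact ENNReal.ofReal_ne_top
  calc α ^ m * 2 ^ n * t ^ (m + n) = (α * t) ^ m * (2 * t) ^ n := by
        rw [mul_pow, mul_pow, pow_add]
        ring
    _ = ∫ x, B.indicator (fun _ => (α * t) ^ m) x := by
        rw [integral_indicator hBm, setIntegral_const, smul_eq_mul, Measure.real, hvol, mul_comm]
    _ ≤ ∫ x, g x := by
        refine integral_mono ((integrable_indicator_iff hBm).mpr (integrableOn_const hBf)) hgI ?_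
        intro x
        by_cases hx : x ∈ B
        · rw [indicator_of_mem hx]
          exact hgB x hx
        · rw [indicator_of_notMem hx]
          exact hg0 x

/-- **4.5, regular case**: no critical point on the closure of `T` in the slice `x_n = τ₀`. Then the
singular parts of the Cauchy transform vanish. -/
theorem Piece.label_reg (h : Piece f T univ) (hc : IsCompact (closure T)) (ha : 1 < a)
    (hf : ContDiff ℝ ∞ f) {φ : (Fin (n + 1) → ℝ) → ℂ} (hφ : ContDiff ℝ ∞ φ) {τ₀ s : ℝ}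
    (hcrit : ∀ x ∈ closure T, x (Fin.last n) = τ₀ → ¬ CritR f x)
    (hs : ∀ k : ℤ, (k : ℝ) ≠ s) {J hp up hm um : ℂ → ℂ}
    (hJ : ∀ᶠ z in 𝓝 (τ₀ : ℂ), z.im ≠ 0 → J z = cauchy f T a φ z)
    (ahp : AnalyticAt ℂ hp τ₀) (aup : AnalyticAt ℂ up τ₀)
    (ahm : AnalyticAt ℂ hm τ₀) (aum : AnalyticAt ℂ um τ₀)
    (hup : ∀ᶠ z in 𝓝 (τ₀ : ℂ), 0 < z.im → J z = hp z + (z - τ₀) ^ (s : ℂ) * up z)
    (hdn : ∀ᶠ z in 𝓝 (τ₀ : ℂ), z.im < 0 → J z = hm z + (z - τ₀) ^ (s : ℂ) * um z) :
    (∀ᶠ z in 𝓝 (τ₀ : ℂ), up z = 0) ∧ ∀ᶠ z in 𝓝 (τ₀ : ℂ), um z = 0 := by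
  have hA := h.contDiffAt_slI hc ha hf hφ isClosed_univ (fun x hx => absurd (mem_univ x) hx)
    (fun x hx _ hxn => hcrit x hx hxn)
  refine loc_zero (J := cauchy f T a φ) hs
    (A := fun τ => 2 * Real.pi * Complex.I * slI f T a φ τ) (contDiffAt_const.mul hA) ?_
    ahp aup ahm aum ?_ ?_
  · exact Eventually.of_forall fun τ P Q hP hQ =>
      h.jump_eq hc (by linarith) hf.continuous hφ.continuous hP hQ
  · filter_upwards [hup, hJ] with z h1 h2 hz
    rw [← h2 hz.ne', h1 hz]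
  · filter_upwards [hdn, hJ] with z h1 h2 hz
    rw [← h2 hz.ne, h1 hz]

theorem cauchy_conj (z : ℂ) :
    cauchy f T a (fun _ => 1) ((starRingEnd ℂ) z) =
      (starRingEnd ℂ) (cauchy f T a (fun _ => 1) z) := by
  rw [cauchy, cauchy, ← integral_conj]
  refine integral_congr_ae (Eventually.of_forall fun x => ?_)
  simp

/-- **4.5, singular case**: `w` in the closure of `T`. There is no analytic continuation to `w_n`,
neither from above nor from below. -/
theorem Piece.label_sing (h : Piece f T univ) (hc : IsCompact (closure T)) (ha : 1 < a)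
    (hf : ContDiff ℝ ∞ f) {w : Fin (n + 1) → ℝ} (hcr : CritR f w)
    (hdn : fderiv ℝ f w (Pi.single (Fin.last n) 1) ≠ 0)
    (hmax : ∀ᶠ x in 𝓝 w, x (Fin.last n) = w (Fin.last n) → f x ≤ 0)
    (huniq : ∀ x ∈ closure T, x (Fin.last n) = w (Fin.last n) → CritR f x → x = w)
    (hwT : w ∈ closure T) :
    (¬ ∃ g : ℂ → ℂ, AnalyticAt ℂ g (w (Fin.last n)) ∧
      ∀ᶠ z in 𝓝 ((w (Fin.last n) : ℝ) : ℂ), 0 < z.im → cauchy f T a (fun _ => 1) z = g z) ∧
    ¬ ∃ g : ℂ → ℂ, AnalyticAt ℂ g (w (Fin.last n)) ∧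
      ∀ᶠ z in 𝓝 ((w (Fin.last n) : ℝ) : ℂ), z.im < 0 → cauchy f T a (fun _ => 1) z = g z := by
  set τ₀ := w (Fin.last n) with hτ₀
  have hcj : Tendsto (starRingEnd ℂ) (𝓝 (τ₀ : ℂ)) (𝓝 (τ₀ : ℂ)) := by
    have h1 := Complex.continuous_conj.tendsto (τ₀ : ℂ)
    rwa [Complex.conj_ofReal] at h1
  -- both extensions exist as soon as one of them exists
  have key : ∀ gp gm : ℂ → ℂ, AnalyticAt ℂ gp τ₀ → AnalyticAt ℂ gm τ₀ →
      (∀ᶠ z in 𝓝 (τ₀ : ℂ), 0 < z.im → cauchy f T a (fun _ => 1) z = gp z) →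
      (∀ᶠ z in 𝓝 (τ₀ : ℂ), z.im < 0 → cauchy f T a (fun _ => 1) z = gm z) → False := by
    intro gp gm hgp hgm h1 h2
    obtain ⟨N, hN, hNo, hτN⟩ := eventually_nhds_iff.mp
      ((hgp.eventually_analyticAt.and hgm.eventually_analyticAt).and (h1.and h2))
    have h3 := h.slI_eventuallyEq hc (by linarith) hf.continuous continuous_const hNo hτN
      (fun z hz => (hN z hz).1.1.continuousAt.continuousWithinAt)
      (fun z hz => (hN z hz).1.2.continuousAt.continuousWithinAt)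
      (fun z hz hz' => (hN z hz).2.1 hz') (fun z hz hz' => (hN z hz).2.2 hz')
      (φ := fun _ => 1)
    refine h.not_contDiffAt_slI hc ha hf hcr hdn hmax huniq hwT ?_
    have hsm : ContDiffAt ℝ ∞ (fun τ : ℝ => (2 * Real.pi * Complex.I)⁻¹ *
        (gp (τ : ℂ) - gm (τ : ℂ))) τ₀ := by
      have hre : ∀ {g : ℂ → ℂ}, AnalyticAt ℂ g (τ₀ : ℂ) →
          ContDiffAt ℝ ∞ (fun τ : ℝ => g (τ : ℂ)) τ₀ := by
        intro g hg
        have h4 : ContDiffAt ℝ ∞ g (τ₀ : ℂ) := (hg.restrictScalars (𝕜 := ℝ)).contDiffAt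
        exact h4.comp τ₀ Complex.ofRealCLM.contDiff.contDiffAt
      exact contDiffAt_const.mul ((hre hgp).sub (hre hgm))
    refine hsm.congr_of_eventuallyEq ?_
    filter_upwards [h3] with τ hτ
    rw [← hτ, ← mul_assoc, inv_mul_cancel₀ Complex.two_pi_I_ne_zero, one_mul]
  have hconj : ∀ g : ℂ → ℂ, AnalyticAt ℂ g τ₀ →
      AnalyticAt ℂ (fun z => (starRingEnd ℂ) (g ((starRingEnd ℂ) z))) τ₀ := by
    intro g hg
    rw [Complex.analyticAt_iff_eventually_differentiableAt]
    have h1 := hcj.eventually hg.eventually_analyticAt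
    filter_upwards [h1] with z hz
    have h2 := hz.differentiableAt.conj_conj
    rwa [Complex.conj_conj] at h2
  constructor
  · rintro ⟨g, hg, hgJ⟩
    refine key g _ hg (hconj g hg) hgJ ?_
    filter_upwards [hcj.eventually hgJ] with z hz hzi
    have h1 := hz (by rw [Complex.conj_im]; linarith)
    rw [cauchy_conj] at h1
    rw [← h1, Complex.conj_conj]
  · rintro ⟨g, hg, hgJ⟩
    refine key _ g (hconj g hg) hg ?_ hgJ
    filter_upwards [hcj.eventually hgJ] with z hz hzi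
    have h1 := hz (by rw [Complex.conj_im]; linarith)
    rw [cauchy_conj] at h1
    rw [← h1, Complex.conj_conj]

end Pool.Agent.QC.S4
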