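import Pool.Agent.QC.S4.CycZS

/-!
# MP_7c50a9_lc: Cauchy transforms of cycles in families: `cyc_V`
-/

namespace Pool.Agent.QC.S4

open MvPolynomial Filter Topology Set MeasureTheory

set_option linter.unusedSectionVars false

variable {n l : ℕ}

attribute [local irreducible] fR

/-! ## The weight `Q(ξ) / ξ_n` -/

/-- `Q(ξ) / ξ_n` -/
noncomputable def Th (Q : Pol (n + 1)) (ξ : Fin (n + 1) → ℂ) : ℂ :=
  eval ξ Q * (ξ (Fin.last n))⁻¹

/-- Its derivative. -/
noncomputable def ThD (Q : Pol (n + 1)) (ξ : Fin (n + 1) → ℂ) : (Fin (n + 1) → ℂ) →L[ℂ] ℂ :=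
  eval ξ Q • ((-((ξ (Fin.last n)) ^ 2)⁻¹) •
    (ContinuousLinearMap.proj (Fin.last n) : (Fin (n + 1) → ℂ) →L[ℂ] ℂ)) +
  (ξ (Fin.last n))⁻¹ • evD Q ξ

theorem ThD_apply (Q : Pol (n + 1)) (ξ v : Fin (n + 1) → ℂ) : ThD Q ξ v =
    eval ξ Q * ((-((ξ (Fin.last n)) ^ 2)⁻¹) * v (Fin.last n)) + (ξ (Fin.last n))⁻¹ * evD Q ξ v :=
  rfl

theorem hasFDerivAt_Th (Q : Pol (n + 1)) {ξ : Fin (n + 1) → ℂ} (hξ : ξ (Fin.last n) ≠ 0) :
    HasFDerivAt (Th Q) (ThD Q ξ) ξ := by
  have h1 : HasFDerivAt (fun ξ : Fin (n + 1) → ℂ => ξ (Fin.last n))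
      (ContinuousLinearMap.proj (Fin.last n) : (Fin (n + 1) → ℂ) →L[ℂ] ℂ) ξ :=
    (ContinuousLinearMap.proj (R := ℂ) (φ := fun _ : Fin (n + 1) => ℂ) (Fin.last n)).hasFDerivAt
  have h2 : HasFDerivAt (fun ξ : Fin (n + 1) → ℂ => (ξ (Fin.last n))⁻¹)
      ((-((ξ (Fin.last n)) ^ 2)⁻¹) •
        (ContinuousLinearMap.proj (Fin.last n) : (Fin (n + 1) → ℂ) →L[ℂ] ℂ)) ξ :=
    (hasDerivAt_inv hξ).comp_hasFDerivAt ξ h1
  exact (hasStrictFDerivAt_evalC Q ξ).hasFDerivAt.mul h2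

theorem continuousAt_ThD (Q : Pol (n + 1)) {ξ : Fin (n + 1) → ℂ} (hξ : ξ (Fin.last n) ≠ 0) :
    ContinuousAt (ThD Q) ξ := by
  have h1 : ContinuousAt (fun ξ : Fin (n + 1) → ℂ => ξ (Fin.last n)) ξ :=
    (continuous_apply _).continuousAt
  have h2 : ContinuousAt (fun ξ : Fin (n + 1) → ℂ => eval ξ Q) ξ :=
    (continuous_evalC Q).continuousAt
  have h3 : ContinuousAt (fun ξ : Fin (n + 1) → ℂ => (-((ξ (Fin.last n)) ^ 2)⁻¹)) ξ :=
    ((h1.pow 2).inv₀ (pow_ne_zero 2 hξ)).neg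
  exact (h2.smul (h3.smul continuousAt_const)).add
    ((h1.inv₀ hξ).smul (continuous_evD Q).continuousAt)

/-- The evaluation point `(x', x_n - z)`. -/
def rho (z : ℂ) (x : Fin (n + 1) → ℝ) : Fin (n + 1) → ℂ :=
  fun i => (x i : ℂ) - if i = Fin.last n then z else 0

theorem rho_last (z : ℂ) (x : Fin (n + 1) → ℝ) :
    rho z x (Fin.last n) = (x (Fin.last n) : ℂ) - z := by
  simp [rho]

theorem eval_rho (z : ℂ) (x : Fin (n + 1) → ℝ) (Q : Pol (n + 1)) :
    eval (xC x) (shift (-z) Q) = eval (rho z x) Q := by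
  rw [eval_shift]
  congr 2
  funext i
  refine Fin.lastCases ?_ (fun j => ?_) i
  · rw [Fin.snoc_last, rho_last]
    simp [xC, sub_eq_add_neg]
  · rw [Fin.snoc_castSucc]
    simp [rho, xC, (Fin.castSucc_lt_last j).ne]

/-- The evaluation point as a linear map. -/
noncomputable def rhoL {Λ : Type*} [NormedAddCommGroup Λ] [NormedSpace ℝ Λ] (ζ : Λ →L[ℝ] ℂ) :
    (Λ × (Fin (n + 1) → ℝ)) →L[ℝ] (Fin (n + 1) → ℂ) :=
  ContinuousLinearMap.pi fun i =>
    (Complex.ofRealCLM.comp (ContinuousLinearMap.proj i)).comp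
      (ContinuousLinearMap.snd ℝ Λ (Fin (n + 1) → ℝ)) -
    if i = Fin.last n then ζ.comp (ContinuousLinearMap.fst ℝ Λ (Fin (n + 1) → ℝ)) else 0

theorem rhoL_apply {Λ : Type*} [NormedAddCommGroup Λ] [NormedSpace ℝ Λ] (ζ : Λ →L[ℝ] ℂ)
    (p : Λ × (Fin (n + 1) → ℝ)) : rhoL ζ p = rho (ζ p.1) p.2 := by
  funext i
  simp only [rhoL, rho, ContinuousLinearMap.coe_pi', sub_apply]
  split_ifs <;> rfl

theorem rho_single (i : Fin (n + 1)) :
    rho 0 (Pi.single i (1 : ℝ)) = Pi.single i (1 : ℂ) := by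
  funext j
  by_cases h : j = i
  · subst h
    simp [rho]
  · simp [rho, Pi.single_eq_of_ne h]

theorem rho_neg (z : ℂ) : rho z (0 : Fin (n + 1) → ℝ) = Pi.single (Fin.last n) (-z) := by
  funext j
  by_cases h : j = Fin.last n
  · subst h
    simp [rho]
  · simp [rho, h]

/-! ## Values of the Cauchy transform -/

section Single

variable {f : (Fin (n + 1) → ℝ) → ℝ} {T : Set (Fin (n + 1) → ℝ)} {a : ℝ} {z : ℂ}

theorem continuous_rho (z : ℂ) : Continuous (rho z : (Fin (n + 1) → ℝ) → _) := by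
  refine continuous_pi fun i => ?_
  exact (Complex.continuous_ofReal.comp (continuous_apply i)).sub continuous_const

theorem continuousAt_Th (Q : Pol (n + 1)) {ξ : Fin (n + 1) → ℂ} (hξ : ξ (Fin.last n) ≠ 0) :
    ContinuousAt (Th Q) ξ := (hasFDerivAt_Th Q hξ).continuousAt

theorem integrable_JU (hT : Piece f T univ) (hc : IsCompact (closure T)) (ha : 0 < a)
    (hf : Continuous f) (hz : ∀ x ∈ closure T, (x (Fin.last n) : ℂ) ≠ z) (Q : Pol (n + 1)) :
    Integrable (fun x => pw f T a x • Th Q (rho z x)) :=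
  hT.integrable volume hc ha hf fun x hx =>
    (continuousAt_Th Q (by rw [rho_last]; exact sub_ne_zero.mpr (hz x hx))).comp
      (continuous_rho z).continuousAt

theorem JU_apply' (hT : Piece f T univ) (hc : IsCompact (closure T)) (ha : 0 < a)
    (hf : Continuous f) (hz : ∀ x ∈ closure T, (x (Fin.last n) : ℂ) ≠ z) (Q : Pol (n + 1)) :
    JU a f T z Q = ∫ x, pw f T a x • Th Q (rho z x) := by
  have he : ∀ x (Q : Pol (n + 1)), evF (((pw f T a x : ℝ) : ℂ) * ((rho z x) (Fin.last n))⁻¹)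
      (rho z x) Q = pw f T a x • Th Q (rho z x) := by
    intro x Q
    rw [evF_apply, Complex.real_smul, Th]
    ring
  have h := fnlOf_integral (μ := volume)
    (fun x => evF (((pw f T a x : ℝ) : ℂ) * ((rho z x) (Fin.last n))⁻¹) (rho z x))
    (fun Q => by
      simp only [he]
      exact integrable_JU hT hc ha hf hz Q) Q
  simp only [he] at h
  rw [← h, JU]
  congr 2
  funext s
  refine integral_congr_ae (Eventually.of_forall fun x => ?_)
  simp only
  rw [eval_rho, Complex.real_smul, Th, rho_last]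
  ring

variable {G : Pol (n + 1)}

theorem hasFDerivAt_Th_rho (Q : Pol (n + 1)) (z : ℂ) {x : Fin (n + 1) → ℝ}
    (hx : (x (Fin.last n) : ℂ) ≠ z) :
    HasFDerivAt (fun x => Th Q (rho z x))
      (((ThD Q (rho z x)).restrictScalars ℝ).comp (xCL (n + 1))) x := by
  have hρ : HasFDerivAt (rho z : (Fin (n + 1) → ℝ) → _) (xCL (n + 1)) x := by
    have h1 : (rho z : (Fin (n + 1) → ℝ) → _) = fun x => xCL (n + 1) x -
        (fun i => if i = Fin.last n then z else 0) := rfl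
    rw [h1]
    exact (xCL (n + 1)).hasFDerivAt.sub_const _
  have h1 : HasFDerivAt (Th Q) ((ThD Q (rho z x)).restrictScalars ℝ) (rho z x) :=
    (hasFDerivAt_Th Q (by rw [rho_last]; exact sub_ne_zero.mpr hx)).restrictScalars ℝ
  exact h1.comp x hρ

theorem continuousAt_Th_rho' (Q : Pol (n + 1)) (z : ℂ) {x : Fin (n + 1) → ℝ}
    (hx : (x (Fin.last n) : ℂ) ≠ z) :
    ContinuousAt (fun x => ((ThD Q (rho z x)).restrictScalars ℝ).comp (xCL (n + 1))) x := by
  have h1 : ContinuousAt (fun x => ThD Q (rho z x)) x :=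
    (continuousAt_ThD Q (by rw [rho_last]; exact sub_ne_zero.mpr hx)).comp
      (continuous_rho z).continuousAt
  have h2 : ContinuousAt (fun x => (ThD Q (rho z x)).restrictScalars ℝ) x :=
    (ContinuousLinearMap.continuous_restrictScalars ..).continuousAt.comp h1
  exact h2.clm_comp continuousAt_const

theorem ThD_single (Q : Pol (n + 1)) (ξ : Fin (n + 1) → ℂ) {i : Fin (n + 1)}
    (hi : i ≠ Fin.last n) (c : ℂ) :
    ThD Q ξ (Pi.single i c) = (ξ (Fin.last n))⁻¹ * (eval ξ (pderiv i Q) * c) := by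
  rw [ThD_apply, evD_single, Pi.single_eq_of_ne hi.symm]
  ring

theorem deriv_G {f' : (Fin (n + 1) → ℝ) → (Fin (n + 1) → ℝ) →L[ℝ] ℝ}
    (hf : ∀ x, HasFDerivAt f (f' x) x) (hG : ∀ x, eval (rho z x) G = (f x : ℂ))
    (x : Fin (n + 1) → ℝ) (i : Fin (n + 1)) :
    eval (rho z x) (pderiv i G) = ((f' x (Pi.single i 1) : ℝ) : ℂ) := by
  have hρ : HasFDerivAt (rho z : (Fin (n + 1) → ℝ) → _) (xCL (n + 1)) x := by
    have h1 : (rho z : (Fin (n + 1) → ℝ) → _) = fun x => xCL (n + 1) x -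
        (fun i => if i = Fin.last n then z else 0) := rfl
    rw [h1]
    exact (xCL (n + 1)).hasFDerivAt.sub_const _
  have h1 : HasFDerivAt (fun x => eval (rho z x) G)
      (((evD G (rho z x)).restrictScalars ℝ).comp (xCL (n + 1))) x :=
    ((hasStrictFDerivAt_evalC G (rho z x)).hasFDerivAt.restrictScalars ℝ).comp x hρ
  have h2 : HasFDerivAt (fun x : Fin (n + 1) → ℝ => eval (rho z x) G)
      (Complex.ofRealCLM.comp (f' x)) x := by
    have : (fun x : Fin (n + 1) → ℝ => eval (rho z x) G) = fun x => ((f x : ℝ) : ℂ) := funext hG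
    rw [this]
    exact Complex.ofRealCLM.hasFDerivAt.comp x (hf x)
  have h4 := congrArg (fun L => L (Pi.single i (1 : ℝ))) (h1.unique h2)
  have h5 : (((evD G (rho z x)).restrictScalars ℝ).comp (xCL (n + 1))) (Pi.single i (1 : ℝ)) =
      evD G (rho z x) (xC (Pi.single i (1 : ℝ))) := rfl
  rw [h5, xC_single, evD_single, mul_one] at h4
  exact h4

/-- The Cauchy transform is in the fibre. -/
theorem JU_mem (hT : Piece f T univ) (hc : IsCompact (closure T)) (ha : 0 < a)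
    {f' : (Fin (n + 1) → ℝ) → (Fin (n + 1) → ℝ) →L[ℝ] ℝ} (hf : ∀ x, HasFDerivAt f (f' x) x)
    (hf' : Continuous f') (hz : ∀ x ∈ closure T, (x (Fin.last n) : ℂ) ≠ z)
    (hG : ∀ x, eval (rho z x) G = (f x : ℂ)) : JU a f T z ∈ Zs (eV n) (a : ℂ) G := by
  have hfc : Continuous f := continuous_iff_continuousAt.mpr fun x => (hf x).continuousAt
  have hd := deriv_G hf hG
  intro i Q
  rw [JU_apply' hT hc ha hfc hz]
  by_cases hi : i = Fin.last n
  · subst hi
    have h1 := hT.relation volume hc ha hf hf' (φ := fun x => eval (rho z x) Q)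
      (φ' := fun x => ((evD Q (rho z x)).restrictScalars ℝ).comp (xCL (n + 1)))
      (fun x _ => by
        have hρ : HasFDerivAt (rho z : (Fin (n + 1) → ℝ) → _) (xCL (n + 1)) x := by
          have h1 : (rho z : (Fin (n + 1) → ℝ) → _) = fun x => xCL (n + 1) x -
              (fun i => if i = Fin.last n then z else 0) := rfl
          rw [h1]
          exact (xCL (n + 1)).hasFDerivAt.sub_const _
        exact ((hasStrictFDerivAt_evalC Q (rho z x)).hasFDerivAt.restrictScalars ℝ).comp x hρ)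
      (fun x _ => by
        have h2 : ContinuousAt (fun x => (evD Q (rho z x)).restrictScalars ℝ) x :=
          (ContinuousLinearMap.continuous_restrictScalars ..).continuousAt.comp
            ((continuous_evD Q).continuousAt.comp (continuous_rho z).continuousAt)
        exact h2.clm_comp continuousAt_const)
      (Pi.single (Fin.last n) 1)
    rw [← h1]
    refine integral_congr_ae (Eventually.of_forall fun x => ?_)
    have h5 : (((evD Q (rho z x)).restrictScalars ℝ).comp (xCL (n + 1)))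
        (Pi.single (Fin.last n) (1 : ℝ)) = eval (rho z x) (pderiv (Fin.last n) Q) := by
      have : (((evD Q (rho z x)).restrictScalars ℝ).comp (xCL (n + 1)))
        (Pi.single (Fin.last n) (1 : ℝ)) = evD Q (rho z x) (xC (Pi.single (Fin.last n) (1 : ℝ))) :=
          rfl
      rw [this, xC_single, evD_single, mul_one]
    by_cases hx : x ∈ T
    · have hne : (rho z x) (Fin.last n) ≠ 0 := by
        rw [rho_last]
        exact sub_ne_zero.mpr (hz x (subset_closure hx))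
      simp only [h5, Th, Dop, th, eV, if_true, pow_one, map_add, map_mul, eval_C, eval_X, hd, hG,
        Complex.real_smul, Complex.ofReal_mul, Complex.ofReal_add, Complex.ofReal_one]
      field_simp
    · simp only [pw_of_notMem hx, zero_smul]
  · have h1 := hT.relation volume hc ha hf hf' (φ := fun x => Th Q (rho z x))
      (φ' := fun x => ((ThD Q (rho z x)).restrictScalars ℝ).comp (xCL (n + 1)))
      (fun x hx => hasFDerivAt_Th_rho Q z (hz x hx))
      (fun x hx => continuousAt_Th_rho' Q z (hz x hx)) (Pi.single i 1)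
    rw [← h1]
    refine integral_congr_ae (Eventually.of_forall fun x => ?_)
    have h5 : (((ThD Q (rho z x)).restrictScalars ℝ).comp (xCL (n + 1)))
        (Pi.single i (1 : ℝ)) =
          (rho z x (Fin.last n))⁻¹ * eval (rho z x) (pderiv i Q) := by
      have : (((ThD Q (rho z x)).restrictScalars ℝ).comp (xCL (n + 1)))
        (Pi.single i (1 : ℝ)) = ThD Q (rho z x) (xC (Pi.single i (1 : ℝ))) := rfl
      rw [this, xC_single, ThD_single Q _ hi, mul_one]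
    simp only [h5, Th, Dop, th, eV, if_neg hi, pow_zero, one_mul, map_add, map_mul, eval_C, hd, hG,
      Complex.real_smul, Complex.ofReal_mul, Complex.ofReal_add, Complex.ofReal_one]
    ring

/-- The Cauchy transform of exponent `a - 1` is below the one of exponent `a`. -/
theorem JU_low (hT : Piece f T univ) (hc : IsCompact (closure T)) (ha : 1 < a)
    {f' : (Fin (n + 1) → ℝ) → (Fin (n + 1) → ℝ) →L[ℝ] ℝ} (hf : ∀ x, HasFDerivAt f (f' x) x)
    (hf' : Continuous f') (hz : ∀ x ∈ closure T, (x (Fin.last n) : ℂ) ≠ z)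
    (hG : ∀ x, eval (rho z x) G = (f x : ℂ)) :
    Low (eV n) (a : ℂ) G (JU a f T z) (JU (a - 1) f T z) := by
  have hfc : Continuous f := continuous_iff_continuousAt.mpr fun x => (hf x).continuousAt
  refine ⟨?_, fun Q => ?_⟩
  · have := JU_mem hT hc (a := a - 1) (by linarith) hf hf' hz hG
    simpa using this
  · rw [JU_apply' hT hc (by linarith) hfc hz, JU_apply' hT hc (by linarith) hfc hz]
    refine integral_congr_ae (Eventually.of_forall fun x => ?_)
    simp only [Th]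
    rw [map_mul, hG, Complex.real_smul, Complex.real_smul, mul_assoc, ← mul_assoc,
      ← Complex.ofReal_mul, mul_comm (pw f T (a - 1) x), hT.mul_pw (a - 1) x, sub_add_cancel]

end Single

section Family

variable {E : Type*} [NormedAddCommGroup E] [NormedSpace ℂ E] [FiniteDimensional ℂ E] {m D : ℕ}
  {a : ℝ}

theorem eval_pol_sum (c : Cf m D) (ξ : Fin m → ℂ) :
    eval ξ (pol c) = ∑ t, c t * eval ξ (monomial (ofIdx t) (1 : ℂ)) := by
  rw [pol_eq, map_sum]
  refine Finset.sum_congr rfl fun t _ => ?_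
  rw [eval_monomial, eval_monomial, one_mul]

theorem evD_pol_sum (c : Cf m D) (ξ v : Fin m → ℂ) :
    evD (pol c) ξ v = ∑ t, c t * evD (monomial (ofIdx t) (1 : ℂ) : Pol m) ξ v := by
  have h : ∀ i, eval ξ (pderiv i (pol c)) =
      ∑ t, c t * eval ξ (pderiv i (monomial (ofIdx t) (1 : ℂ))) := by
    intro i
    rw [pol_eq, map_sum, map_sum]
    refine Finset.sum_congr rfl fun t _ => ?_
    have h1 : (monomial (ofIdx t) (c t) : Pol m) = c t • monomial (ofIdx t) (1 : ℂ) := by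
      rw [smul_monomial, smul_eq_mul, mul_one]
    rw [h1, Derivation.map_smul, smul_eval]
  simp only [evD_apply, h, Finset.sum_mul, Finset.mul_sum]
  rw [Finset.sum_comm]
  refine Finset.sum_congr rfl fun t _ => Finset.sum_congr rfl fun i _ => ?_
  ring

/-- Joint derivative of `(p, ξ) ↦ f_p(ξ)`. -/
theorem hasFDerivAt_joint {F : E → Cf m D} (hF : Differentiable ℂ F) {Λ : Type*}
    [NormedAddCommGroup Λ] [NormedSpace ℝ Λ] {h : Λ → E} {h' : Λ →L[ℝ] E} {p : Λ}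
    (hh : HasFDerivAt h h' p) {r : Λ → Fin m → ℂ} {r' : Λ →L[ℝ] (Fin m → ℂ)}
    (hr : HasFDerivAt r r' p) : ∃ L : Λ →L[ℝ] ℂ,
      HasFDerivAt (fun p => eval (r p) (pol (F (h p)))) L p ∧
      ∀ v, L v = eval (r p) (pol (fderiv ℂ F (h p) (h' v))) +
        evD (pol (F (h p))) (r p) (r' v) := by
  have h1 : ∀ t, HasFDerivAt (fun p => F (h p) t)
      ((((ContinuousLinearMap.proj t : Cf m D →L[ℂ] ℂ).comp
        (fderiv ℂ F (h p))).restrictScalars ℝ).comp h') p := by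
    intro t
    have h2 : HasFDerivAt (fun q => F q t)
        ((ContinuousLinearMap.proj t : Cf m D →L[ℂ] ℂ).comp (fderiv ℂ F (h p))) (h p) :=
      (ContinuousLinearMap.proj (R := ℂ) (φ := fun _ : Fin m → Fin (D + 1) => ℂ) t).hasFDerivAt.comp
        (h p) (hF (h p)).hasFDerivAt
    exact (h2.restrictScalars ℝ).comp p hh
  have h2 : ∀ t : Fin m → Fin (D + 1), HasFDerivAt
      (fun p => eval (r p) (monomial (ofIdx t) (1 : ℂ) : Pol m))
      (((evD (monomial (ofIdx t) (1 : ℂ) : Pol m) (r p)).restrictScalars ℝ).comp r') p :=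
    fun t => ((hasStrictFDerivAt_evalC _ (r p)).hasFDerivAt.restrictScalars ℝ).comp p hr
  have e1 : (fun p => eval (r p) (pol (F (h p)))) =
      fun p => ∑ t, F (h p) t * eval (r p) (monomial (ofIdx t) (1 : ℂ) : Pol m) := by
    funext p
    exact eval_pol_sum _ _
  refine ⟨∑ t, (F (h p) t •
      (((evD (monomial (ofIdx t) (1 : ℂ) : Pol m) (r p)).restrictScalars ℝ).comp r') +
      eval (r p) (monomial (ofIdx t) (1 : ℂ) : Pol m) •
      ((((ContinuousLinearMap.proj t : Cf m D →L[ℂ] ℂ).comp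
        (fderiv ℂ F (h p))).restrictScalars ℝ).comp h')), ?_, fun v => ?_⟩
  · rw [e1]
    exact HasFDerivAt.fun_sum fun t _ => (h1 t).mul (h2 t)
  · rw [eval_pol_sum, evD_pol_sum, ← Finset.sum_add_distrib]
    simp only [sum_apply, add_apply, smul_apply, smul_eq_mul]
    refine Finset.sum_congr rfl fun t _ => ?_
    rw [add_comm, mul_comm (eval (r p) _)]
    rfl

/-- **Cauchy transforms of real cycles are parallel.** -/
theorem JU_par {F : E → Cf (n + 1) D} (H : FamOK (eV n) F) (ha : Irrational a) (ha2 : 2 < a)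
    {Λ : Type*} [NormedAddCommGroup Λ] [NormedSpace ℝ Λ] [FiniteDimensional ℝ Λ] {B : Set Λ}
    (hB : IsOpen B) {h : Λ → E} {h' : Λ → Λ →L[ℝ] E} (hh : ∀ p ∈ B, HasFDerivAt h (h' p) p)
    (hh' : ∀ p ∈ B, ContinuousAt h' p) (hX : MapsTo h B {p | Reg (eV n) (pol (F p))})
    (ζ : Λ →L[ℝ] ℂ)
    {g : Λ × (Fin (n + 1) → ℝ) → ℝ}
    {g' : Λ × (Fin (n + 1) → ℝ) → (Λ × (Fin (n + 1) → ℝ)) →L[ℝ] ℝ}
    (hg : ∀ p ∈ B ×ˢ (univ : Set (Fin (n + 1) → ℝ)), HasFDerivAt g (g' p) p)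
    (hg' : ∀ p ∈ B ×ˢ (univ : Set (Fin (n + 1) → ℝ)), ContinuousAt g' p)
    (hF : ∀ p ∈ B, ∀ x, eval (rho (ζ p) x) (pol (F (h p))) = (g (p, x) : ℂ))
    {T : Set (Λ × (Fin (n + 1) → ℝ))} (hT : Piece g T (B ×ˢ univ))
    (hbd : ∀ p ∈ B, ∃ N ∈ 𝓝 p, ∃ C, IsCompact C ∧ ∀ q ∈ T, q.1 ∈ N → q.2 ∈ C)
    (hz : ∀ q ∈ B ×ˢ (univ : Set (Fin (n + 1) → ℝ)), q ∈ closure T →
      (q.2 (Fin.last n) : ℂ) ≠ ζ q.1) :
    (famLS (eV n) a F H ha).Par h B
      (fun p => JU a (fun x => g (p, x)) {x | (p, x) ∈ T} (ζ p)) := by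
  have hslice : ∀ p ∈ B, Piece (fun x => g (p, x)) {x | (p, x) ∈ T} univ := fun p hp =>
    hT.sliceΛ hp
  have hcomp : ∀ p ∈ B, IsCompact (closure {x | (p, x) ∈ T}) := by
    intro p hp
    obtain ⟨N, hN, C, hC, hTC⟩ := hbd p hp
    exact hC.of_isClosed_subset isClosed_closure
      (closure_minimal (fun x hx => hTC (p, x) hx (mem_of_mem_nhds hN)) hC.isClosed)
  have hzs : ∀ p ∈ B, ∀ x ∈ closure {x | (p, x) ∈ T}, (x (Fin.last n) : ℂ) ≠ ζ p :=
    fun p hp x hx => hz (p, x) ⟨hp, mem_univ _⟩ (sliceΛ_closure_subset hx)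
  have hder : ∀ p ∈ B, ∀ x, HasFDerivAt (fun x => g (p, x))
      ((g' (p, x)).comp (ContinuousLinearMap.inr ℝ Λ (Fin (n + 1) → ℝ))) x := by
    intro p hp x
    have h1 : HasFDerivAt (fun x : Fin (n + 1) → ℝ => (p, x)) (ContinuousLinearMap.inr ℝ Λ _) x := by
      have := (hasFDerivAt_const (𝕜 := ℝ) p x).prodMk (hasFDerivAt_id (𝕜 := ℝ) x)
      exact this
    exact (hg (p, x) ⟨hp, mem_univ _⟩).comp x h1
  have hg0 : ∀ p ∈ B, Continuous fun x => g' (p, x) := fun p hp =>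
    continuous_iff_continuousAt.mpr fun x =>
      (hg' (p, x) ⟨hp, mem_univ _⟩).comp (f := fun x : Fin (n + 1) → ℝ => (p, x)) (by fun_prop)
  have hderc : ∀ p ∈ B, Continuous fun x =>
      (g' (p, x)).comp (ContinuousLinearMap.inr ℝ Λ (Fin (n + 1) → ℝ)) := fun p hp =>
    (hg0 p hp).clm_comp continuous_const
  have hcont : ∀ p ∈ B, Continuous fun x => g (p, x) := fun p hp =>
    continuous_iff_continuousAt.mpr fun x => (hder p hp x).continuousAt
  have hlow : ∀ p ∈ B, Low (eV n) (a : ℂ) (pol (F (h p)))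
      (JU a (fun x => g (p, x)) {x | (p, x) ∈ T} (ζ p))
      (JU (a - 1) (fun x => g (p, x)) {x | (p, x) ∈ T} (ζ p)) := fun p hp =>
    JU_low (hslice p hp) (hcomp p hp) (by linarith) (hder p hp) (hderc p hp) (hzs p hp) (hF p hp)
  refine par_of_hasLineDeriv H ha hB hh hh' hX
    (u' := fun p => JU (a - 1) (fun x => g (p, x)) {x | (p, x) ∈ T} (ζ p))
    (fun p hp => ⟨JU_mem (hslice p hp) (hcomp p hp) (by linarith) (hder p hp) (hderc p hp)
      (hzs p hp) (hF p hp), hlow p hp⟩) ?_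
  intro p₀ hp₀ b v
  obtain ⟨N, hN, C, hC, hTC⟩ := hbd p₀ hp₀
  set B₀ := interior N ∩ B with hB₀
  have hB₀o : IsOpen B₀ := isOpen_interior.inter hB
  have hp₀' : p₀ ∈ B₀ := ⟨mem_interior_iff_mem_nhds.mpr hN, hp₀⟩
  have hBB : B₀ ⊆ B := inter_subset_right
  have hT₀ : Piece g (T ∩ (B₀ ×ˢ univ)) (B₀ ×ˢ univ) :=
    hT.restrict (hB₀o.prod isOpen_univ) (prod_mono hBB subset_rfl)
  set Q : Pol (n + 1) := mon b with hQ
  have hne : ∀ q ∈ B₀ ×ˢ (univ : Set (Fin (n + 1) → ℝ)), q ∈ closure (T ∩ (B₀ ×ˢ univ)) →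
      (rhoL ζ q) (Fin.last n) ≠ 0 := by
    intro q hq hqc
    rw [rhoL_apply, rho_last]
    exact sub_ne_zero.mpr (hz q ⟨hBB hq.1, hq.2⟩ (closure_mono inter_subset_left hqc))
  have hψd : ∀ q ∈ B₀ ×ˢ (univ : Set (Fin (n + 1) → ℝ)), q ∈ closure (T ∩ (B₀ ×ˢ univ)) →
      HasFDerivAt (fun q : Λ × (Fin (n + 1) → ℝ) => Th Q (rhoL ζ q))
      (((ThD Q (rhoL ζ q)).restrictScalars ℝ).comp (rhoL ζ)) q := fun q hq hqc =>
    ((hasFDerivAt_Th Q (hne q hq hqc)).restrictScalars ℝ).comp q (rhoL ζ).hasFDerivAt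
  have hψc : ∀ q ∈ B₀ ×ˢ (univ : Set (Fin (n + 1) → ℝ)), q ∈ closure (T ∩ (B₀ ×ˢ univ)) →
      ContinuousAt (fun q => ((ThD Q (rhoL ζ q)).restrictScalars ℝ).comp (rhoL ζ)) q := by
    intro q hq hqc
    have h1 : ContinuousAt (fun q => ThD Q (rhoL ζ q)) q :=
      (continuousAt_ThD Q (hne q hq hqc)).comp (rhoL ζ).continuous.continuousAt
    have h2 : ContinuousAt (fun q => (ThD Q (rhoL ζ q)).restrictScalars ℝ) q :=
      (ContinuousLinearMap.continuous_restrictScalars ..).continuousAt.comp h1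
    exact h2.clm_comp continuousAt_const
  have hd := hT₀.hasFDerivAt_integral volume hB₀o hC
    (fun q hq => hTC q hq.1 (interior_subset hq.2.1.1)) (a := a) (by linarith)
    (f' := g') (fun q hq => hg q ⟨hBB hq.1, hq.2⟩) (fun q hq => hg' q ⟨hBB hq.1, hq.2⟩)
    (ψ := fun q => Th Q (rhoL ζ q)) hψd hψc hp₀'
  have hl := hd.hasLineDerivAt v
  have hsl := hslice p₀ hp₀
  have hcl := hcomp p₀ hp₀
  have hpw : ∀ c, ∀ p ∈ B₀, ∀ x, pw g (T ∩ (B₀ ×ˢ univ)) c (p, x) =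
      pw (fun x => g (p, x)) {x | (p, x) ∈ T} c x := by
    intro c p hp x
    rw [← pw_sliceΛ]
    by_cases hx : (p, x) ∈ T
    · rw [pw_of_mem hx, pw_of_mem (T := T ∩ (B₀ ×ˢ univ)) ⟨hx, hp, mem_univ _⟩]
    · rw [pw_of_notMem hx, pw_of_notMem (T := T ∩ (B₀ ×ˢ univ)) fun h => hx h.1]
  have heq : (fun p => ∫ x, pw g (T ∩ (B₀ ×ˢ univ)) a (p, x) • Th Q (rhoL ζ (p, x))) =ᶠ[𝓝 p₀]
      fun p => JU a (fun x => g (p, x)) {x | (p, x) ∈ T} (ζ p) Q := by
    filter_upwards [hB₀o.mem_nhds hp₀'] with p hp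
    rw [JU_apply' (hslice p (hBB hp)) (hcomp p (hBB hp)) (by linarith) (hcont p (hBB hp))
      (hzs p (hBB hp))]
    refine integral_congr_ae (Eventually.of_forall fun x => ?_)
    simp only [hpw a p hp x, rhoL_apply]
  have hcont0 : Tendsto (fun t : ℝ => p₀ + t • v) (𝓝 0) (𝓝 p₀) := by
    have : Continuous fun t : ℝ => p₀ + t • v := by fun_prop
    simpa using this.tendsto 0
  have hl2 : HasLineDerivAt ℝ
      (fun p => JU a (fun x => g (p, x)) {x | (p, x) ∈ T} (ζ p) Q) _ p₀ v :=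
    HasDerivAt.congr_of_eventuallyEq hl ((hcont0.eventually heq).mono fun t ht => ht.symm)
  convert hl2 using 1
  -- abbreviations
  set f₀ : (Fin (n + 1) → ℝ) → ℝ := fun x => g (p₀, x) with hf₀
  set T₀ : Set (Fin (n + 1) → ℝ) := {x | (p₀, x) ∈ T} with hT₀def
  set z := ζ p₀ with hzdef
  have hthc : ∀ x ∈ closure T₀, ContinuousAt (fun x => Th Q (rho z x)) x := fun x hx =>
    (hasFDerivAt_Th_rho Q z (hzs p₀ hp₀ x hx)).continuousAt
  have hDc : ∀ x ∈ closure T₀, ContinuousAt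
      (fun x => ((ThD Q (rho z x)).restrictScalars ℝ).comp
        ((rhoL ζ).comp (ContinuousLinearMap.inl ℝ Λ (Fin (n + 1) → ℝ)))) x := by
    intro x hx
    have h1 : ContinuousAt (fun x => ThD Q (rho z x)) x :=
      (continuousAt_ThD Q (by rw [rho_last]; exact sub_ne_zero.mpr (hzs p₀ hp₀ x hx))).comp
        (continuous_rho z).continuousAt
    have h2 : ContinuousAt (fun x => (ThD Q (rho z x)).restrictScalars ℝ) x :=
      (ContinuousLinearMap.continuous_restrictScalars ..).continuousAt.comp h1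
    exact h2.clm_comp continuousAt_const
  have hg1 : Continuous fun x => (g' (p₀, x)).comp (ContinuousLinearMap.inl ℝ Λ (Fin (n + 1) → ℝ)) :=
    (hg0 p₀ hp₀).clm_comp continuous_const
  have int1 : Integrable (fun x => pw f₀ T₀ a x • ((ThD Q (rho z x)).restrictScalars ℝ).comp
        ((rhoL ζ).comp (ContinuousLinearMap.inl ℝ Λ (Fin (n + 1) → ℝ)))) :=
    hsl.integrableF volume hcl (by linarith) (hcont p₀ hp₀) hDc
  have int2 : Integrable (fun x => pw f₀ T₀ (a - 1) x •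
      (a • (g' (p₀, x)).comp (ContinuousLinearMap.inl ℝ Λ (Fin (n + 1) → ℝ))).smulRight
        (Th Q (rho z x))) := by
    refine hsl.integrableF volume hcl (by linarith) (hcont p₀ hp₀) fun x hx => ?_
    have h2 : Continuous fun x => ContinuousLinearMap.smulRightL ℝ Λ ℂ
        (a • (g' (p₀, x)).comp (ContinuousLinearMap.inl ℝ Λ (Fin (n + 1) → ℝ))) :=
      (ContinuousLinearMap.smulRightL ℝ Λ ℂ).continuous.comp (hg1.const_smul a)
    exact h2.continuousAt.clm_apply (hthc x hx)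
  have e1 : (∫ x, (pw g (T ∩ (B₀ ×ˢ univ)) a (p₀, x) •
      (((ThD Q (rhoL ζ (p₀, x))).restrictScalars ℝ).comp (rhoL ζ)).comp
        (ContinuousLinearMap.inl ℝ Λ _) +
      pw g (T ∩ (B₀ ×ˢ univ)) (a - 1) (p₀, x) •
        (a • (g' (p₀, x)).comp (ContinuousLinearMap.inl ℝ Λ (Fin (n + 1) → ℝ))).smulRight
          (Th Q (rhoL ζ (p₀, x))))) =
      (∫ x, pw f₀ T₀ a x • ((ThD Q (rho z x)).restrictScalars ℝ).comp
        ((rhoL ζ).comp (ContinuousLinearMap.inl ℝ Λ (Fin (n + 1) → ℝ)))) +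
      ∫ x, pw f₀ T₀ (a - 1) x •
      (a • (g' (p₀, x)).comp (ContinuousLinearMap.inl ℝ Λ (Fin (n + 1) → ℝ))).smulRight
        (Th Q (rho z x)) := by
    rw [← integral_add int1 int2]
    refine integral_congr_ae (Eventually.of_forall fun x => ?_)
    simp only [hpw _ p₀ hp₀' x, rhoL_apply, ContinuousLinearMap.comp_assoc]
    rfl
  rw [e1, add_apply, ContinuousLinearMap.integral_apply int1,
    ContinuousLinearMap.integral_apply int2, JU_apply' hsl hcl (by linarith) (hcont p₀ hp₀)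
      (hzs p₀ hp₀)]
  -- integration by parts in the direction `e_n`
  have hparts := hsl.integral_deriv_eq_zero volume hcl (a := a) (by linarith) (hder p₀ hp₀)
    (hderc p₀ hp₀) (ψ := fun x => Th Q (rho z x))
    (ψ' := fun x => ((ThD Q (rho z x)).restrictScalars ℝ).comp (xCL (n + 1)))
    (fun x hx => hasFDerivAt_Th_rho Q z (hzs p₀ hp₀ x hx))
    (fun x hx => continuousAt_Th_rho' Q z (hzs p₀ hp₀ x hx)) (Pi.single (Fin.last n) 1)
  have e2 : (∫ x, (pw f₀ T₀ a x • ((ThD Q (rho z x)).restrictScalars ℝ).comp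
        ((rhoL ζ).comp (ContinuousLinearMap.inl ℝ Λ (Fin (n + 1) → ℝ)))) v) =
      (-ζ v) * ∫ x, pw f₀ T₀ a x • (((ThD Q (rho z x)).restrictScalars ℝ).comp (xCL (n + 1)))
        (Pi.single (Fin.last n) 1) := by
    rw [← integral_const_mul]
    refine integral_congr_ae (Eventually.of_forall fun x => ?_)
    have h1 : (rhoL ζ) (v, (0 : Fin (n + 1) → ℝ)) = Pi.single (Fin.last n) (-ζ v) := by
      rw [rhoL_apply, rho_neg]
    have h2 : (Pi.single (Fin.last n) (-ζ v) : Fin (n + 1) → ℂ) =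
        (-ζ v) • Pi.single (Fin.last n) (1 : ℂ) := by
      rw [← Pi.single_smul, smul_eq_mul, mul_one]
    have h3 : (pw f₀ T₀ a x • ((ThD Q (rho z x)).restrictScalars ℝ).comp
        ((rhoL ζ).comp (ContinuousLinearMap.inl ℝ Λ (Fin (n + 1) → ℝ)))) v =
        pw f₀ T₀ a x • ThD Q (rho z x) ((rhoL ζ) (v, (0 : Fin (n + 1) → ℝ))) := rfl
    have h4 : (((ThD Q (rho z x)).restrictScalars ℝ).comp (xCL (n + 1)))
        (Pi.single (Fin.last n) (1 : ℝ)) = ThD Q (rho z x) (Pi.single (Fin.last n) (1 : ℂ)) := by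
      have : (((ThD Q (rho z x)).restrictScalars ℝ).comp (xCL (n + 1)))
        (Pi.single (Fin.last n) (1 : ℝ)) = ThD Q (rho z x) (xC (Pi.single (Fin.last n) (1 : ℝ))) :=
          rfl
      rw [this, xC_single]
    simp only
    rw [h3, h1, h2, map_smul, h4, smul_eq_mul, Complex.real_smul, Complex.real_smul]
    ring
  rw [e2]
  have e3 : ∫ x, pw f₀ T₀ a x • (((ThD Q (rho z x)).restrictScalars ℝ).comp (xCL (n + 1)))
        (Pi.single (Fin.last n) 1) =
      -∫ x, pw f₀ T₀ (a - 1) x • ((a * ((g' (p₀, x)).comp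
        (ContinuousLinearMap.inr ℝ Λ (Fin (n + 1) → ℝ))) (Pi.single (Fin.last n) 1) : ℝ) •
          Th Q (rho z x)) := eq_neg_of_add_eq_zero_left hparts
  rw [e3, neg_mul_neg, ← integral_const_mul, ← integral_const_mul, ← integral_add]
  · refine integral_congr_ae (Eventually.of_forall fun x => ?_)
    obtain ⟨L, hL, hLv⟩ := hasFDerivAt_joint (H.smooth.differentiable (by simp)) (hh p₀ hp₀)
      (r := fun p => rho (ζ p) x) (r' := (rhoL ζ).comp (ContinuousLinearMap.inl ℝ Λ _)) (by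
        have h1 : (fun p => rho (ζ p) x) = fun p => rhoL ζ (p, x) := by
          funext p
          rw [rhoL_apply]
        rw [h1]
        have h4 : HasFDerivAt (fun p : Λ => (p, x)) (ContinuousLinearMap.inl ℝ Λ _) p₀ := by
          have := (hasFDerivAt_id (𝕜 := ℝ) p₀).prodMk (hasFDerivAt_const (𝕜 := ℝ) x p₀)
          exact this
        exact (rhoL ζ).hasFDerivAt.comp p₀ h4)
    have h3 : HasFDerivAt (fun p => ((g (p, x) : ℝ) : ℂ)) (Complex.ofRealCLM.comp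
        ((g' (p₀, x)).comp (ContinuousLinearMap.inl ℝ Λ (Fin (n + 1) → ℝ)))) p₀ := by
      have h4 : HasFDerivAt (fun p : Λ => (p, x)) (ContinuousLinearMap.inl ℝ Λ _) p₀ := by
        have := (hasFDerivAt_id (𝕜 := ℝ) p₀).prodMk (hasFDerivAt_const (𝕜 := ℝ) x p₀)
        exact this
      exact Complex.ofRealCLM.hasFDerivAt.comp p₀ ((hg (p₀, x) ⟨hp₀, mem_univ _⟩).comp p₀ h4)
    have hE : (fun p => ((g (p, x) : ℝ) : ℂ)) =ᶠ[𝓝 p₀]
        fun p => eval (rho (ζ p) x) (pol (F (h p))) := by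
      filter_upwards [hB.mem_nhds hp₀] with p hp
      exact (hF p hp x).symm
    have h5 := congrArg (fun L => L v) ((hL.congr_of_eventuallyEq hE).unique h3)
    have h6 : L v = ((g' (p₀, x) (v, 0) : ℝ) : ℂ) := h5
    rw [hLv] at h6
    have h7 : evD (pol (F (h p₀))) (rho (ζ p₀) x)
        (((rhoL ζ).comp (ContinuousLinearMap.inl ℝ Λ (Fin (n + 1) → ℝ))) v) =
        -ζ v * ((g' (p₀, x) (0, Pi.single (Fin.last n) 1) : ℝ) : ℂ) := by
      have h1 : ((rhoL ζ).comp (ContinuousLinearMap.inl ℝ Λ (Fin (n + 1) → ℝ))) v =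
          Pi.single (Fin.last n) (-ζ v) := by
        have : ((rhoL ζ).comp (ContinuousLinearMap.inl ℝ Λ (Fin (n + 1) → ℝ))) v =
          (rhoL ζ) (v, (0 : Fin (n + 1) → ℝ)) := rfl
        rw [this, rhoL_apply, rho_neg]
      rw [h1, evD_single, deriv_G (hder p₀ hp₀) (hF p₀ hp₀), mul_comm]
      rfl
    have h8 : eval (rho (ζ p₀) x) (pol (fderiv ℂ F (h p₀) (h' p₀ v))) =
        ((g' (p₀, x) (v, 0) : ℝ) : ℂ) +
          ζ v * ((g' (p₀, x) (0, Pi.single (Fin.last n) 1) : ℝ) : ℂ) := by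
      rw [h7] at h6
      linear_combination h6
    have h9 : Th (pol (fderiv ℂ F (h p₀) (h' p₀ v)) * Q) (rho z x) =
        (((g' (p₀, x) (v, 0) : ℝ) : ℂ) +
          ζ v * ((g' (p₀, x) (0, Pi.single (Fin.last n) 1) : ℝ) : ℂ)) * Th Q (rho z x) := by
      rw [Th, map_mul, h8, Th]
      ring
    have h10 : (pw f₀ T₀ (a - 1) x •
      (a • (g' (p₀, x)).comp (ContinuousLinearMap.inl ℝ Λ (Fin (n + 1) → ℝ))).smulRight
        (Th Q (rho z x))) v = pw f₀ T₀ (a - 1) x • ((a * g' (p₀, x) (v, 0) : ℝ) •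
          Th Q (rho z x)) := rfl
    have h11 : ((g' (p₀, x)).comp (ContinuousLinearMap.inr ℝ Λ (Fin (n + 1) → ℝ)))
        (Pi.single (Fin.last n) 1) = g' (p₀, x) (0, Pi.single (Fin.last n) 1) := rfl
    simp only
    rw [h9, h10, h11]
    simp only [Complex.real_smul, Complex.ofReal_mul]
    ring
  · have h1 : Integrable (fun x => pw f₀ T₀ (a - 1) x • ((a * ((g' (p₀, x)).comp
        (ContinuousLinearMap.inr ℝ Λ (Fin (n + 1) → ℝ))) (Pi.single (Fin.last n) 1) : ℝ) •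
          Th Q (rho z x))) := by
      refine hsl.integrableF volume hcl (by linarith) (hcont p₀ hp₀) fun x hx => ?_
      have h2 : Continuous fun x => (a * ((g' (p₀, x)).comp
        (ContinuousLinearMap.inr ℝ Λ (Fin (n + 1) → ℝ))) (Pi.single (Fin.last n) 1) : ℝ) :=
        continuous_const.mul ((hderc p₀ hp₀).clm_apply continuous_const)
      exact h2.continuousAt.smul (hthc x hx)
    exact h1.const_mul _
  · exact int2.apply_continuousLinearMap v

/-- The map into the parameter space factors over a real space. -/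
theorem JU_par' {F : E → Cf (n + 1) D} (H : FamOK (eV n) F) (ha : Irrational a) (ha2 : 2 < a)
    {X : Type*} [NormedAddCommGroup X] [NormedSpace ℝ X] [FiniteDimensional ℝ X] {φ : X → E}
    (h1 : ∀ x y, φ (x + y) = φ x + φ y) (h2 : ∀ (r : ℝ) x, φ (r • x) = (r : ℂ) • φ x)
    {Λ : Type*} [NormedAddCommGroup Λ] [NormedSpace ℝ Λ] [FiniteDimensional ℝ Λ] {B : Set Λ}
    (hB : IsOpen B) {h : Λ → X} {h' : Λ → Λ →L[ℝ] X} (hh : ∀ p ∈ B, HasFDerivAt h (h' p) p)
    (hh' : ∀ p ∈ B, ContinuousAt h' p) (hX : ∀ p ∈ B, Reg (eV n) (pol (F (φ (h p)))))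
    (ζ : Λ →L[ℝ] ℂ)
    {g : Λ × (Fin (n + 1) → ℝ) → ℝ}
    {g' : Λ × (Fin (n + 1) → ℝ) → (Λ × (Fin (n + 1) → ℝ)) →L[ℝ] ℝ}
    (hg : ∀ p ∈ B ×ˢ (univ : Set (Fin (n + 1) → ℝ)), HasFDerivAt g (g' p) p)
    (hg' : ∀ p ∈ B ×ˢ (univ : Set (Fin (n + 1) → ℝ)), ContinuousAt g' p)
    (hF : ∀ p ∈ B, ∀ x, eval (rho (ζ p) x) (pol (F (φ (h p)))) = (g (p, x) : ℂ))
    {T : Set (Λ × (Fin (n + 1) → ℝ))} (hT : Piece g T (B ×ˢ univ))
    (hbd : ∀ p ∈ B, ∃ N ∈ 𝓝 p, ∃ C, IsCompact C ∧ ∀ q ∈ T, q.1 ∈ N → q.2 ∈ C)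
    (hz : ∀ q ∈ B ×ˢ (univ : Set (Fin (n + 1) → ℝ)), q ∈ closure T →
      (q.2 (Fin.last n) : ℂ) ≠ ζ q.1) :
    (famLS (eV n) a F H ha).Par (fun p => φ (h p)) B
      (fun p => JU a (fun x => g (p, x)) {x | (p, x) ∈ T} (ζ p)) :=
  JU_par H ha ha2 hB (h := fun p => φ (h p)) (h' := fun p => (mkCtR φ h1 h2).comp (h' p))
    (fun p hp => (mkCtR φ h1 h2).hasFDerivAt.comp p (hh p hp))
    (fun p hp => continuousAt_const.clm_comp (hh' p hp)) hX ζ hg hg' hF hT hbd hz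

end Family

variable {P : Prm} {I : Set ℝ} {h : ℝ → RTup n l} {T : Set (ℝ × (Fin (n + 1) → ℝ))}

theorem eval_rho_shift (z : ℂ) (x : Fin (n + 1) → ℝ) (Q : Pol (n + 1)) :
    eval (rho z x) (shift z Q) = eval (xC x) Q := by
  rw [eval_shift]
  congr 2
  funext i
  refine Fin.lastCases ?_ (fun j => ?_) i
  · rw [Fin.snoc_last, rho_last]
    simp [xC]
  · rw [Fin.snoc_castSucc]
    simp [rho, xC, (Fin.castSucc_lt_last j).ne]

theorem cyc_V (H : RFam P I h T) (hs : ∀ s ∈ I, SingF (P.f (tC (h s))) = ∅) {R : ℝ}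
    (hR : ∀ p ∈ T, |p.2 (Fin.last n)| ≤ R) :
    (VLS P n l).Par (fun p : ℝ × ℂ => (tC (h p.1), p.2))
      {p | p.1 ∈ I ∧ (p.2.im ≠ 0 ∨ R < |p.2.re|) ∧ p.2 ∉ SigF (P.f (tC (h p.1)))}
      (fun p => JU P.a (fR P.en P.eta (h p.1)) (fib T p.1) p.2) := by
  set B : Set (ℝ × ℂ) := {p | p.1 ∈ I ∧ (p.2.im ≠ 0 ∨ R < |p.2.re|) ∧
    p.2 ∉ SigF (P.f (tC (h p.1)))} with hBdef
  have htc : Continuous (tC : RTup n l → Tup n l) := (mkCtR tC tC_add tC_smul).continuous
  have hcont : ∀ p : ℝ × ℂ, p.1 ∈ I → ContinuousAt (fun p : ℝ × ℂ => (tC (h p.1), p.2)) p := by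
    intro p hp
    have h1 : ContinuousAt (fun s => tC (h s)) p.1 :=
      htc.continuousAt.comp (continuousAt_h H.isOpen H.smooth hp)
    exact (h1.comp (f := fun p : ℝ × ℂ => p.1) continuousAt_fst).prodMk continuousAt_snd
  have hB : IsOpen B := by
    rw [isOpen_iff_mem_nhds]
    rintro p ⟨hp1, hp2, hp3⟩
    have h1 : (tC (h p.1), p.2) ∈ (VLS P n l).X :=
      (mem_VLS_X P (p := (tC (h p.1), p.2))).mpr ⟨hs _ hp1, hp3⟩
    have h2 : {p : ℝ × ℂ | p.2.im ≠ 0 ∨ R < |p.2.re|} ∈ 𝓝 p := by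
      refine IsOpen.mem_nhds ?_ hp2
      have e : {p : ℝ × ℂ | p.2.im ≠ 0 ∨ R < |p.2.re|} =
          {p : ℝ × ℂ | p.2.im ≠ 0} ∪ {p : ℝ × ℂ | R < |p.2.re|} := rfl
      rw [e]
      exact (isOpen_ne_fun (Complex.continuous_im.comp continuous_snd) continuous_const).union
        (isOpen_lt continuous_const (Complex.continuous_re.comp continuous_snd).abs)
    filter_upwards [(H.isOpen.preimage continuous_fst).mem_nhds hp1, h2,
      (hcont p hp1) ((VLS P n l).isOpen_X.mem_nhds h1)] with r hr1 hr2 hr3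
    have h3 : (tC (h r.1), r.2) ∈ (VLS P n l).X := hr3
    have h4 := (mem_VLS_X P).mp h3
    exact ⟨hr1, hr2, h4.2⟩
  -- the linear maps
  let X := (ℝ × ℂ) × (Fin (n + 1) → ℝ)
  let α : X →L[ℝ] ℝ := (ContinuousLinearMap.fst ℝ ℝ ℂ).comp (ContinuousLinearMap.fst ℝ (ℝ × ℂ) _)
  let β : X →L[ℝ] (Fin (n + 1) → ℝ) := ContinuousLinearMap.snd ℝ (ℝ × ℂ) (Fin (n + 1) → ℝ)
  let φ : X → ℝ × (Fin (n + 1) → ℝ) := fun p => (α p, β p)
  have hφ : Continuous φ := α.continuous.prodMk β.continuous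
  have hP : Piece (fun p : X => fR P.en P.eta (h (α p)) (β p)) (φ ⁻¹' T ∩ (B ×ˢ univ)) (B ×ˢ univ) :=
    H.piece.comap hφ (hB.prod isOpen_univ) fun p hp => ⟨hp.1.1, mem_univ _⟩
  have a1 : ∀ p ∈ B, HasFDerivAt (fun p : ℝ × ℂ => (h p.1, p.2))
      (((fderiv ℝ h p.1).comp (ContinuousLinearMap.fst ℝ ℝ ℂ)).prod
        (ContinuousLinearMap.snd ℝ ℝ ℂ)) p := fun p hp =>
    ((hasFDerivAt_h H.isOpen H.smooth hp.1).comp p hasFDerivAt_fst).prodMk hasFDerivAt_snd
  have a2 : ∀ p ∈ B, ContinuousAt (fun p : ℝ × ℂ =>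
      (((fderiv ℝ h p.1).comp (ContinuousLinearMap.fst ℝ ℝ ℂ)).prod
        (ContinuousLinearMap.snd ℝ ℝ ℂ))) p := by
    intro p hp
    have h1 : ContinuousAt (fun p : ℝ × ℂ => fderiv ℝ h p.1) p :=
      (continuousAt_h' H.isOpen H.smooth hp.1).comp (f := fun p : ℝ × ℂ => p.1) continuousAt_fst
    have h2 : ContinuousAt (fun p : ℝ × ℂ => (fderiv ℝ h p.1).comp
        (ContinuousLinearMap.fst ℝ ℝ ℂ)) p := h1.clm_comp continuousAt_const
    have h6 : Continuous (fun L : ((ℝ × ℂ) →L[ℝ] RTup n l) × ((ℝ × ℂ) →L[ℝ] ℂ) => L.1.prod L.2) :=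
      (ContinuousLinearMap.prodₗᵢ ℝ).continuous
    exact h6.continuousAt.comp (h2.prodMk continuousAt_const)
  have a6 : ∀ p ∈ B, ∀ x : Fin (n + 1) → ℝ,
      eval (rho p.2 x) (pol (FV (n := n) (l := l) P.en P.eta (tC (h p.1), p.2))) =
        ((fR P.en P.eta (h (α (p, x))) (β (p, x)) : ℝ) : ℂ) := by
    intro p hp x
    rw [pol_FV]
    exact (eval_rho_shift p.2 x _).trans (eval_fpol_real _ _ _ _)
  have a7 : ∀ p ∈ B, ∃ N ∈ 𝓝 p, ∃ C, IsCompact C ∧
      ∀ q ∈ φ ⁻¹' T ∩ (B ×ˢ univ), q.1 ∈ N → q.2 ∈ C := by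
    intro p hp
    obtain ⟨ε, hε, R, hR⟩ := H.bdd p.1 hp.1
    refine ⟨Prod.fst ⁻¹' Metric.ball p.1 ε,
      continuousAt_fst (Metric.ball_mem_nhds p.1 hε), Metric.closedBall 0 R,
      isCompact_closedBall _ _, fun q hq hqs => ?_⟩
    rw [mem_closedBall_zero_iff]
    exact hR (φ q) hq.1 (by
      have : q.1.1 ∈ Metric.ball p.1 ε := hqs
      rwa [Metric.mem_ball, Real.dist_eq] at this)
  have a8 : ∀ q ∈ B ×ˢ (univ : Set (Fin (n + 1) → ℝ)), q ∈ closure (φ ⁻¹' T ∩ (B ×ˢ univ)) →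
      (q.2 (Fin.last n) : ℂ) ≠ q.1.2 := by
    intro q hq hqc heq
    have h1 : |q.2 (Fin.last n)| ≤ R := by
      have h2 : IsClosed {q : X | |q.2 (Fin.last n)| ≤ R} :=
        isClosed_le ((continuous_apply (Fin.last n)).comp continuous_snd).abs continuous_const
      exact closure_minimal (fun q hq => hR (φ q) hq.1) h2 hqc
    rcases hq.1.2.1 with h2 | h2
    · rw [← heq] at h2
      simp at h2
    · rw [← heq, Complex.ofReal_re] at h2
      linarith
  have h0 : (VLS P n l).Par (fun p : ℝ × ℂ => (tC (h p.1), p.2)) B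
      (fun p => JU P.a (fun x : Fin (n + 1) → ℝ => fR P.en P.eta (h (α (p, x))) (β (p, x)))
        {x | (p, x) ∈ φ ⁻¹' T ∩ (B ×ˢ univ)} p.2) := JU_par' (FV_ok P) P.irr P.two_lt
    (φ := fun p : RTup n l × ℂ => (tC p.1, p.2))
    (fun x y => by simp [tC_add]) (fun r x => by simp [tC_smul]) hB a1 a2
    (fun p hp => (mem_VLS_X P (p := (tC (h p.1), p.2))).mpr ⟨hs _ hp.1, hp.2.2⟩)
    (ContinuousLinearMap.snd ℝ ℝ ℂ)
    (fun p hp => hasFDerivAt_g H.isOpen H.smooth α β hp.1.1)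
    (fun p hp => continuousAt_gD H.isOpen H.smooth α β hp.1.1) a6 hP a7 a8
  refine LS.Par.congr h0 fun p hp => ?_
  have he : {x : Fin (n + 1) → ℝ | (p, x) ∈ φ ⁻¹' T ∩ (B ×ˢ univ)} = fib T p.1 := by
    ext x
    exact ⟨fun hx => hx.1, fun hx => ⟨hx, hp, mem_univ _⟩⟩
  show JU P.a _ _ _ = JU P.a _ _ _
  rw [he]
  rfl

end Pool.Agent.QC.S4
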