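import Mathlib
import Pool.Agent.QC.S4.Local

/-!
# MP_7c50a9_lc, section 4.1: spectral projection of a nondegenerate Hessian
-/

namespace Pool.Agent.QC.S4

open Set Topology Filter Matrix
open scoped ContDiff

variable {n : ℕ}

/-- Number of positive eigenvalues of a real symmetric matrix. -/
noncomputable def posIndex {A : Matrix (Fin n) (Fin n) ℝ} (hA : A.IsHermitian) : ℕ :=
  (Finset.univ.filter fun i => 0 < hA.eigenvalues i).card

/-- The eigenvectors. -/
noncomputable def ev {A : Matrix (Fin n) (Fin n) ℝ} (hA : A.IsHermitian) (i : Fin n) : Fin n → ℝ :=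
  (hA.eigenvectorBasis i).ofLp

theorem ev_dot {A : Matrix (Fin n) (Fin n) ℝ} (hA : A.IsHermitian) (i j : Fin n) :
    ev hA i ⬝ᵥ ev hA j = if i = j then 1 else 0 := by
  have h := orthonormal_iff_ite.mp hA.eigenvectorBasis.orthonormal i j
  rw [← h]
  simp only [ev, PiLp.inner_apply, dotProduct]
  refine Finset.sum_congr rfl fun k _ => ?_
  simp [mul_comm]

theorem ev_sum {A : Matrix (Fin n) (Fin n) ℝ} (hA : A.IsHermitian) (x : Fin n → ℝ) :
    ∑ i, (ev hA i ⬝ᵥ x) • ev hA i = x := by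
  have h := hA.eigenvectorBasis.sum_repr (WithLp.toLp 2 x)
  have h2 := congrArg (fun y : EuclideanSpace ℝ (Fin n) => y.ofLp) h
  simp only [WithLp.ofLp_sum, WithLp.ofLp_smul] at h2
  conv_rhs => rw [← h2]
  refine Finset.sum_congr rfl fun i _ => ?_
  rw [OrthonormalBasis.repr_apply_apply]
  congr 1
  simp only [ev, PiLp.inner_apply, dotProduct]
  refine Finset.sum_congr rfl fun k _ => ?_
  simp [mul_comm]

theorem mulVec_ev {A : Matrix (Fin n) (Fin n) ℝ} (hA : A.IsHermitian) (i : Fin n) :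
    A *ᵥ ev hA i = hA.eigenvalues i • ev hA i := hA.mulVec_eigenvectorBasis i

theorem quad_eq {A : Matrix (Fin n) (Fin n) ℝ} (hA : A.IsHermitian) (x : Fin n → ℝ) :
    x ⬝ᵥ A *ᵥ x = ∑ i, hA.eigenvalues i * (ev hA i ⬝ᵥ x) ^ 2 := by
  have h1 : A *ᵥ x = ∑ i, (hA.eigenvalues i * (ev hA i ⬝ᵥ x)) • ev hA i := by
    conv_lhs => rw [← ev_sum hA x]
    rw [Matrix.mulVec_sum]
    refine Finset.sum_congr rfl fun i _ => ?_
    rw [Matrix.mulVec_smul, mulVec_ev, smul_smul, mul_comm]
  rw [h1, dotProduct_sum]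
  refine Finset.sum_congr rfl fun i _ => ?_
  rw [dotProduct_smul, dotProduct_comm, smul_eq_mul]
  ring

/-- The spectral projection onto the positive part. -/
noncomputable def posProj {A : Matrix (Fin n) (Fin n) ℝ} (hA : A.IsHermitian) :
    (Fin n → ℝ) →L[ℝ] (Fin n → ℝ) :=
  LinearMap.toContinuousLinearMap
    { toFun := fun x => ∑ i, if 0 < hA.eigenvalues i then (ev hA i ⬝ᵥ x) • ev hA i else 0
      map_add' := fun x y => by
        rw [← Finset.sum_add_distrib]
        refine Finset.sum_congr rfl fun i _ => ?_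
        split_ifs
        · rw [dotProduct_add, add_smul]
        · simp
      map_smul' := fun c x => by
        rw [RingHom.id_apply, Finset.smul_sum]
        refine Finset.sum_congr rfl fun i _ => ?_
        split_ifs
        · rw [dotProduct_smul, smul_smul, smul_eq_mul]
        · simp }

theorem posProj_apply {A : Matrix (Fin n) (Fin n) ℝ} (hA : A.IsHermitian) (x : Fin n → ℝ) :
    posProj hA x = ∑ i, if 0 < hA.eigenvalues i then (ev hA i ⬝ᵥ x) • ev hA i else 0 := rfl

theorem ev_dot_posProj {A : Matrix (Fin n) (Fin n) ℝ} (hA : A.IsHermitian) (x : Fin n → ℝ)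
    (j : Fin n) :
    ev hA j ⬝ᵥ posProj hA x = if 0 < hA.eigenvalues j then ev hA j ⬝ᵥ x else 0 := by
  rw [posProj_apply, dotProduct_sum]
  have : ∀ i, (ev hA j ⬝ᵥ if 0 < hA.eigenvalues i then (ev hA i ⬝ᵥ x) • ev hA i else 0) =
      if j = i then (if 0 < hA.eigenvalues j then ev hA j ⬝ᵥ x else 0) else 0 := by
    intro i
    by_cases hij : j = i
    · subst hij
      rw [if_pos (rfl : j = j)]
      by_cases hp : 0 < hA.eigenvalues j
      · rw [if_pos hp, if_pos hp, dotProduct_smul, ev_dot, if_pos rfl, smul_eq_mul, mul_one]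
      · rw [if_neg hp, if_neg hp, dotProduct_zero]
    · rw [if_neg hij]
      by_cases hp : 0 < hA.eigenvalues i
      · rw [if_pos hp, dotProduct_smul, ev_dot, if_neg hij, smul_zero]
      · rw [if_neg hp, dotProduct_zero]
  simp only [this]
  simp

theorem posProj_proj {A : Matrix (Fin n) (Fin n) ℝ} (hA : A.IsHermitian) (x : Fin n → ℝ) :
    posProj hA (posProj hA x) = posProj hA x := by
  rw [posProj_apply hA (posProj hA x)]
  conv_rhs => rw [posProj_apply]
  refine Finset.sum_congr rfl fun i _ => ?_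
  rw [ev_dot_posProj]
  split_ifs <;> rfl

theorem eq_zero_of_ev {A : Matrix (Fin n) (Fin n) ℝ} (hA : A.IsHermitian) {x : Fin n → ℝ}
    (h : ∀ i, ev hA i ⬝ᵥ x = 0) : x = 0 := by
  rw [← ev_sum hA x]
  simp [h]

theorem eigenvalues_ne_zero {A : Matrix (Fin n) (Fin n) ℝ} (hA : A.IsHermitian)
    (hdet : A.det ≠ 0) (i : Fin n) : hA.eigenvalues i ≠ 0 := by
  intro h
  apply hdet
  rw [hA.det_eq_prod_eigenvalues]
  exact Finset.prod_eq_zero (Finset.mem_univ i) (by simp [h])

theorem posProj_pos {A : Matrix (Fin n) (Fin n) ℝ} (hA : A.IsHermitian) {x : Fin n → ℝ}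
    (hx : posProj hA x ≠ 0) : 0 < posProj hA x ⬝ᵥ A *ᵥ posProj hA x := by
  rw [quad_eq hA]
  obtain ⟨i, hi⟩ : ∃ i, ev hA i ⬝ᵥ posProj hA x ≠ 0 := by
    by_contra hcon
    push Not at hcon
    exact hx (eq_zero_of_ev hA hcon)
  have hpos : 0 < hA.eigenvalues i := by
    rw [ev_dot_posProj] at hi
    by_contra hcon
    rw [if_neg hcon] at hi
    exact hi rfl
  refine Finset.sum_pos' (fun j _ => ?_) ⟨i, Finset.mem_univ i, by positivity⟩
  rw [ev_dot_posProj]
  split_ifs with hj
  · positivity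
  · simp

theorem posProj_neg {A : Matrix (Fin n) (Fin n) ℝ} (hA : A.IsHermitian) (hdet : A.det ≠ 0)
    {x : Fin n → ℝ} (hx : x - posProj hA x ≠ 0) :
    (x - posProj hA x) ⬝ᵥ A *ᵥ (x - posProj hA x) < 0 := by
  rw [quad_eq hA, ← neg_pos, ← Finset.sum_neg_distrib]
  have hdot : ∀ j, ev hA j ⬝ᵥ (x - posProj hA x) =
      if 0 < hA.eigenvalues j then 0 else ev hA j ⬝ᵥ x := by
    intro j
    rw [dotProduct_sub, ev_dot_posProj]
    split_ifs <;> simp
  obtain ⟨i, hi⟩ : ∃ i, ev hA i ⬝ᵥ (x - posProj hA x) ≠ 0 := by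
    by_contra hcon
    push Not at hcon
    exact hx (eq_zero_of_ev hA hcon)
  have hneg : hA.eigenvalues i < 0 := by
    rw [hdot] at hi
    by_contra hcon
    have : 0 < hA.eigenvalues i :=
      lt_of_le_of_ne (not_lt.mp hcon) (eigenvalues_ne_zero hA hdet i).symm
    rw [if_pos this] at hi
    exact hi rfl
  refine Finset.sum_pos' (fun j _ => ?_) ⟨i, Finset.mem_univ i, ?_⟩
  · rw [hdot]
    split_ifs with hj
    · simp
    · have := mul_nonneg (neg_nonneg.mpr (not_lt.mp hj)) (sq_nonneg (ev hA j ⬝ᵥ x))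
      linarith
  · have : 0 < (ev hA i ⬝ᵥ (x - posProj hA x)) ^ 2 := by positivity
    nlinarith

/-- Index zero. -/
theorem posProj_eq_zero {A : Matrix (Fin n) (Fin n) ℝ} (hA : A.IsHermitian)
    (h : posIndex hA = 0) : posProj hA = 0 := by
  have h' : ∀ i, ¬ 0 < hA.eigenvalues i := by
    intro i hi
    have : i ∈ Finset.univ.filter fun i => 0 < hA.eigenvalues i := by simp [hi]
    rw [posIndex, Finset.card_eq_zero] at h
    rw [h] at this
    simp at this
  ext x
  rw [posProj_apply]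
  simp [h']

/-- Index one. -/
theorem posProj_one {A : Matrix (Fin n) (Fin n) ℝ} (hA : A.IsHermitian)
    (h : posIndex hA = 1) : ∃ (φ : (Fin n → ℝ) →L[ℝ] ℝ) (e : Fin n → ℝ), φ e = 1 ∧
      ∀ x, posProj hA x = φ x • e := by
  obtain ⟨i, hi⟩ := Finset.card_eq_one.mp h
  have hpos : ∀ j, 0 < hA.eigenvalues j ↔ j = i := by
    intro j
    have : j ∈ (Finset.univ.filter fun i => 0 < hA.eigenvalues i) ↔ j ∈ ({i} : Finset (Fin n)) := by
      rw [hi]
    simpa using this
  refine ⟨LinearMap.toContinuousLinearMap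
    { toFun := fun x => ev hA i ⬝ᵥ x
      map_add' := fun x y => dotProduct_add _ _ _
      map_smul' := fun c x => by rw [dotProduct_smul]; rfl }, ev hA i, ?_, fun x => ?_⟩
  · show ev hA i ⬝ᵥ ev hA i = 1
    rw [ev_dot, if_pos rfl]
  · rw [posProj_apply]
    simp only [hpos]
    rw [Finset.sum_ite_eq' Finset.univ i]
    simp

/-- Index at least two. -/
theorem posProj_two {A : Matrix (Fin n) (Fin n) ℝ} (hA : A.IsHermitian)
    (h : 2 ≤ posIndex hA) :
    1 < Module.rank ℝ (LinearMap.range (posProj hA : (Fin n → ℝ) →ₗ[ℝ] (Fin n → ℝ))) := by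
  obtain ⟨i, hi, j, hj, hij⟩ := Finset.one_lt_card.mp (show 1 < posIndex hA from h)
  have hi' : 0 < hA.eigenvalues i := by simpa using hi
  have hj' : 0 < hA.eigenvalues j := by simpa using hj
  have hmem : ∀ k, 0 < hA.eigenvalues k →
      ev hA k ∈ LinearMap.range (posProj hA : (Fin n → ℝ) →ₗ[ℝ] (Fin n → ℝ)) := by
    intro k hk
    refine ⟨ev hA k, ?_⟩
    show posProj hA (ev hA k) = ev hA k
    rw [posProj_apply]
    have : ∀ l, (if 0 < hA.eigenvalues l then (ev hA l ⬝ᵥ ev hA k) • ev hA l else 0) =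
        if l = k then ev hA k else 0 := by
      intro l
      rw [ev_dot]
      by_cases hlk : l = k
      · subst hlk
        simp [hk]
      · simp [hlk]
    simp only [this]
    simp
  set R := LinearMap.range (posProj hA : (Fin n → ℝ) →ₗ[ℝ] (Fin n → ℝ)) with hR
  let w : Fin 2 → R := ![⟨ev hA i, hmem i hi'⟩, ⟨ev hA j, hmem j hj'⟩]
  have hli : LinearIndependent ℝ w := by
    rw [LinearIndependent.pair_iff]
    intro s t hst
    have h0 : s • ev hA i + t • ev hA j = 0 := congrArg Subtype.val hst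
    have h1 := congrArg (fun x => ev hA i ⬝ᵥ x) h0
    have h2 := congrArg (fun x => ev hA j ⬝ᵥ x) h0
    simp only [dotProduct_add, dotProduct_smul, ev_dot, dotProduct_zero] at h1 h2
    constructor
    · simpa [hij] using h1
    · simpa [Ne.symm hij] using h2
  have hcard := hli.cardinal_le_rank
  simp only [Cardinal.mk_fin] at hcard
  exact lt_of_lt_of_le (by norm_num) hcard

/-- The bilinear form of the second derivative in coordinates. -/
theorem bilin_eq {B : (Fin n → ℝ) →L[ℝ] (Fin n → ℝ) →L[ℝ] ℝ} {A : Matrix (Fin n) (Fin n) ℝ}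
    (hA : ∀ i j, A i j = B (Pi.single i 1) (Pi.single j 1)) (x y : Fin n → ℝ) :
    B x y = x ⬝ᵥ A *ᵥ y := by
  have hx : x = ∑ i, x i • (Pi.single i 1 : Fin n → ℝ) := by
    ext k
    simp [Finset.sum_apply, Pi.single_apply]
  have hy : y = ∑ i, y i • (Pi.single i 1 : Fin n → ℝ) := by
    ext k
    simp [Finset.sum_apply, Pi.single_apply]
  have h1 : B x = ∑ i, x i • B (Pi.single i 1) := by
    conv_lhs => rw [hx]
    rw [map_sum]
    exact Finset.sum_congr rfl fun i _ => map_smul _ _ _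
  have h2 : ∀ i, B (Pi.single i 1) y = ∑ j, A i j * y j := by
    intro i
    conv_lhs => rw [hy]
    rw [map_sum]
    refine Finset.sum_congr rfl fun j _ => ?_
    rw [map_smul, hA, smul_eq_mul, mul_comm]
  rw [h1, _root_.sum_apply]
  simp only [dotProduct, mulVec]
  refine Finset.sum_congr rfl fun i _ => ?_
  rw [_root_.smul_apply, h2, smul_eq_mul]

/-- A critical zero with invertible Hessian is `NonDeg` with the spectral projection. -/
theorem nonDeg_of_det {f : (Fin n → ℝ) → ℝ} {v : Fin n → ℝ} (hf : ContDiffAt ℝ ∞ f v)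
    (h0 : f v = 0) (h1 : fderiv ℝ f v = 0) {A : Matrix (Fin n) (Fin n) ℝ}
    (hA : ∀ i j, A i j = fderiv ℝ (fderiv ℝ f) v (Pi.single i 1) (Pi.single j 1))
    (hH : A.IsHermitian) (hdet : A.det ≠ 0) :
    NonDeg f v (fderiv ℝ (fderiv ℝ f) v) (posProj hH) where
  zero := h0
  deriv := by
    refine ⟨fderiv ℝ f, ?_, h1, ?_⟩
    · have h2 : ∀ᶠ y in 𝓝 v, ContDiffAt ℝ 1 f y := (hf.of_le (by simp)).eventually (by simp)
      filter_upwards [h2] with y hy
      exact (hy.differentiableAt (by simp)).hasFDerivAt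
    · exact (hf.fderiv_right (m := ∞) (by simp)).hasStrictFDerivAt (by simp)
  proj := posProj_proj hH
  pos x hx := by
    rw [bilin_eq hA]
    exact posProj_pos hH hx
  neg x hx := by
    rw [bilin_eq hA]
    exact posProj_neg hH hdet hx

/-- The Hessian matrix is symmetric. -/
theorem hess_isHermitian {f : (Fin n → ℝ) → ℝ} {v : Fin n → ℝ} (hf : ContDiffAt ℝ ∞ f v)
    {A : Matrix (Fin n) (Fin n) ℝ}
    (hA : ∀ i j, A i j = fderiv ℝ (fderiv ℝ f) v (Pi.single i 1) (Pi.single j 1)) :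
    A.IsHermitian := by
  ext i j
  simp only [conjTranspose_apply, star_trivial, hA]
  have h2 : (2 : WithTop ℕ∞) ≤ ∞ :=
    WithTop.coe_le_coe.mpr (le_top : (2 : ℕ∞) ≤ ⊤)
  exact (hf.isSymmSndFDerivAt (by simpa using h2)) _ _

end Pool.Agent.QC.S4
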