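import Pool.Agent.QC.S4.Fnl
import Pool.Agent.QC.LS.Par

/-!
# MP_7c50a9_lc: cycles in families, pattern zero: `cyc_Z`, `cyc_S`
-/

namespace Pool.Agent.QC.S4

open MvPolynomial Filter Topology Set MeasureTheory

set_option linter.unusedSectionVars false

variable {n l : ℕ}

/-! ## Evaluations -/

theorem eval_fpol_real (en eta : ℝ) (q : RTup n l) (x : Fin (n + 1) → ℝ) :
    eval (xC x) (fpol en eta (tC q)) = (fR en eta q x : ℂ) := by
  have h1 : ∀ m, eval (xC x) (qpol (tC q m)) = ((qvR (q m) x : ℝ) : ℂ) := by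
    intro m
    simp only [qpol, tC, qvR, xC, map_add, map_sum, map_mul, eval_C, eval_X]
    push_cast
    ring
  have h2 : eval (xC x) (prodT (tC q)) = ((∏ m, qvR (q m) x : ℝ) : ℂ) := by
    rw [prodT, map_prod, Complex.ofReal_prod]
    exact Finset.prod_congr rfl fun m _ => h1 m
  have h3 : eval (xC x) (Eform l en) =
      (((∑ i : Fin n, x i.castSucc ^ DD l) + en * x (Fin.last n) ^ DD l : ℝ) : ℂ) := by
    rw [Eform]
    simp [xC]
  rw [fpol, f0, map_sub, map_sub, map_one, h2, map_mul, eval_C, h3, fR, Complex.ofReal_sub,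
    Complex.ofReal_sub, Complex.ofReal_mul, Complex.ofReal_one]

theorem eval_aeval {m k : ℕ} (ξ : Fin k → ℂ) (φ : Fin m → Pol k) (g : Pol m) :
    eval ξ (aeval φ g) = eval (fun i => eval ξ (φ i)) g := by
  induction g using MvPolynomial.induction_on with
  | C a => simp
  | add p q hp hq => rw [map_add, map_add, map_add, hp, hq]
  | mul_X p i hp => rw [map_mul, map_mul, map_mul, hp, aeval_X, eval_X]

theorem eval_slice (ξ : Fin n → ℂ) (g : Pol (n + 1)) :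
    eval ξ (slice g) = eval (Fin.snoc ξ 0 : Fin (n + 1) → ℂ) g := by
  unfold slice
  rw [eval_aeval]
  congr 2
  funext i
  refine Fin.lastCases ?_ (fun j => ?_) i
  · simp
  · simp

theorem eval_shift (z : ℂ) (ξ : Fin (n + 1) → ℂ) (g : Pol (n + 1)) :
    eval ξ (shift z g) =
      eval (Fin.snoc (fun i : Fin n => ξ i.castSucc) (ξ (Fin.last n) + z) : Fin (n + 1) → ℂ) g := by
  unfold shift
  rw [eval_aeval]
  congr 2
  funext i
  refine Fin.lastCases ?_ (fun j => ?_) i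
  · simp
  · simp

theorem xC_snoc (x : Fin n → ℝ) (τ : ℝ) :
    xC (Fin.snoc x τ : Fin (n + 1) → ℝ) = Fin.snoc (xC x) (τ : ℂ) := by
  funext i
  refine Fin.lastCases ?_ (fun j => ?_) i
  · simp [xC]
  · simp [xC]

theorem eval_slice_shift (x : Fin n → ℝ) (τ : ℝ) (g : Pol (n + 1)) :
    eval (xC x) (slice (shift (τ : ℂ) g)) = eval (xC (Fin.snoc x τ : Fin (n + 1) → ℝ)) g := by
  rw [eval_slice, eval_shift, xC_snoc]
  congr 2
  funext i
  refine Fin.lastCases ?_ (fun j => ?_) i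
  · simp
  · simp

/-! ## Smoothness -/

/-- `fR` as a function of both arguments. -/
def fRp (n l : ℕ) (en eta : ℝ) (p : RTup n l × (Fin (n + 1) → ℝ)) : ℝ := fR en eta p.1 p.2

theorem contDiff_fRp (en eta : ℝ) {k : WithTop ℕ∞} : ContDiff ℝ k (fRp n l en eta) := by
  unfold fRp fR qvR
  fun_prop

/-- Real linear maps into a complex space; the real structure of `E` is the restricted one. -/
abbrev CtR (X : Type*) [NormedAddCommGroup X] [NormedSpace ℝ X] (E : Type*)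
    [NormedAddCommGroup E] [NormedSpace ℂ E] := X →L[ℝ] E

/-- A real linear map into a complex space from an additive map. -/
noncomputable def mkCtR {X : Type*} [NormedAddCommGroup X] [NormedSpace ℝ X]
    [FiniteDimensional ℝ X] {E : Type*} [NormedAddCommGroup E] [NormedSpace ℂ E] (φ : X → E)
    (h1 : ∀ x y, φ (x + y) = φ x + φ y) (h2 : ∀ (r : ℝ) x, φ (r • x) = (r : ℂ) • φ x) : CtR X E :=
  LinearMap.toContinuousLinearMap { toFun := φ, map_add' := h1, map_smul' := h2 }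

theorem mkCtR_apply {X : Type*} [NormedAddCommGroup X] [NormedSpace ℝ X]
    [FiniteDimensional ℝ X] {E : Type*} [NormedAddCommGroup E] [NormedSpace ℂ E] (φ : X → E)
    (h1 : ∀ x y, φ (x + y) = φ x + φ y) (h2 : ∀ (r : ℝ) x, φ (r • x) = (r : ℂ) • φ x) (x : X) :
    mkCtR φ h1 h2 x = φ x := rfl

theorem tC_add (q q' : RTup n l) : tC (q + q') = tC q + tC q' := by
  funext m
  simp [tC, Prod.ext_iff, funext_iff]

theorem tC_smul (r : ℝ) (q : RTup n l) : tC (r • q) = (r : ℂ) • tC q := by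
  funext m
  simp [tC, Prod.ext_iff, funext_iff]

/-- `(x', τ) ↦ (x', τ)` as a linear map. -/
noncomputable def snocL (n : ℕ) : (Fin n → ℝ) × ℝ →L[ℝ] (Fin (n + 1) → ℝ) :=
  LinearMap.toContinuousLinearMap
    { toFun := fun p => (Fin.snoc p.1 p.2 : Fin (n + 1) → ℝ)
      map_add' := fun p q => by
        funext i
        refine Fin.lastCases ?_ (fun j => ?_) i <;> simp
      map_smul' := fun r p => by
        funext i
        refine Fin.lastCases ?_ (fun j => ?_) i <;> simp }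

theorem snocL_apply (p : (Fin n → ℝ) × ℝ) : snocL n p = (Fin.snoc p.1 p.2 : Fin (n + 1) → ℝ) := rfl

/-- Pull back of pieces. -/
theorem Piece.comap {X Y : Type*} [NormedAddCommGroup X] [NormedSpace ℝ X]
    [NormedAddCommGroup Y] [NormedSpace ℝ Y] {f : X → ℝ} {T D : Set X} (h : Piece f T D)
    {φ : Y → X} (hφ : Continuous φ) {D' : Set Y} (hD' : IsOpen D') (hs : ∀ y ∈ D', φ y ∈ D) :
    Piece (fun y => f (φ y)) (φ ⁻¹' T ∩ D') D' where
  isOpenD := hD'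
  isOpen := (h.isOpen.preimage hφ).inter hD'
  sub := inter_subset_right
  pos y hy := h.pos _ hy.1
  zero y hy hyc hyT := by
    refine h.zero (φ y) (hs y hy) ?_ fun hT => hyT ⟨hT, hy⟩
    exact map_mem_closure hφ hyc fun x hx => hx.1

theorem Piece.congr_fun {X : Type*} [NormedAddCommGroup X] [NormedSpace ℝ X] {f g : X → ℝ}
    {T D : Set X} (h : Piece f T D) (he : ∀ x ∈ D, f x = g x) : Piece g T D where
  isOpenD := h.isOpenD
  isOpen := h.isOpen
  sub := h.sub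
  pos x hx := by rw [← he x (h.sub hx)]; exact h.pos x hx
  zero x hx hxc hxT := by rw [← he x hx]; exact h.zero x hx hxc hxT

attribute [local irreducible] fR

section Gen

variable {P : Prm} {I : Set ℝ} {h : ℝ → RTup n l} {X : Type*} [NormedAddCommGroup X]
  [NormedSpace ℝ X]

/-- The derivative of `p ↦ fR (h (α p)) (β p)`. -/
noncomputable def gD (P : Prm) (h : ℝ → RTup n l) (α : X →L[ℝ] ℝ) (β : X →L[ℝ] (Fin (n + 1) → ℝ))
    (p : X) : X →L[ℝ] ℝ :=
  (fderiv ℝ (fRp n l P.en P.eta) (h (α p), β p)).comp (((fderiv ℝ h (α p)).comp α).prod β)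

theorem hasFDerivAt_g (hI : IsOpen I) (hh : ContDiffOn ℝ 1 h I) (α : X →L[ℝ] ℝ)
    (β : X →L[ℝ] (Fin (n + 1) → ℝ)) {p : X} (hp : α p ∈ I) :
    HasFDerivAt (fun p => fR P.en P.eta (h (α p)) (β p)) (gD P h α β p) p := by
  have h1 : HasFDerivAt h (fderiv ℝ h (α p)) (α p) :=
    ((hh.contDiffAt (hI.mem_nhds hp)).differentiableAt (by simp)).hasFDerivAt
  have h2 : HasFDerivAt (fun p => (h (α p), β p)) (((fderiv ℝ h (α p)).comp α).prod β) p :=
    (h1.comp p α.hasFDerivAt).prodMk β.hasFDerivAt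
  have h3 : HasFDerivAt (fRp n l P.en P.eta) (fderiv ℝ (fRp n l P.en P.eta) (h (α p), β p))
      (h (α p), β p) :=
    ((contDiff_fRp (k := 1) P.en P.eta).differentiable (by simp)).differentiableAt.hasFDerivAt
  exact h3.comp p h2

theorem continuousAt_gD (hI : IsOpen I) (hh : ContDiffOn ℝ 1 h I) (α : X →L[ℝ] ℝ)
    (β : X →L[ℝ] (Fin (n + 1) → ℝ)) {p : X} (hp : α p ∈ I) : ContinuousAt (gD P h α β) p := by
  have h0 : ContDiffAt ℝ 1 h (α p) := hh.contDiffAt (hI.mem_nhds hp)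
  have h1 : ContinuousAt (fun p => fderiv ℝ h (α p)) p :=
    (h0.continuousAt_fderiv (by simp)).comp α.continuous.continuousAt
  have h2 : ContinuousAt (fun p => (h (α p), β p)) p :=
    (h0.continuousAt.comp α.continuous.continuousAt).prodMk β.continuous.continuousAt
  have h3 : ContinuousAt (fun p => fderiv ℝ (fRp n l P.en P.eta) (h (α p), β p)) p :=
    ((contDiff_fRp (k := 1) P.en P.eta).continuous_fderiv (by simp)).continuousAt.comp h2
  have h4 : ContinuousAt (fun p => ((fderiv ℝ h (α p)).comp α).prod β) p := by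
    have h5 : ContinuousAt (fun p => (fderiv ℝ h (α p)).comp α) p :=
      h1.clm_comp continuousAt_const
    have h6 : Continuous (fun L : (X →L[ℝ] RTup n l) × (X →L[ℝ] (Fin (n + 1) → ℝ)) => L.1.prod L.2) :=
      (ContinuousLinearMap.prodₗᵢ ℝ).continuous
    exact h6.continuousAt.comp (h5.prodMk continuousAt_const)
  exact h3.clm_comp h4

end Gen

/-- Real cycles are parallel, the map into the parameter space factors over a real space. -/
theorem yU_par' {E : Type*} [NormedAddCommGroup E] [NormedSpace ℂ E] [FiniteDimensional ℂ E]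
    {m D : ℕ} {a : ℝ} {F : E → Cf m D} (H : FamOK (e0 m) F) (ha : Irrational a) (ha2 : 2 < a)
    {X : Type*} [NormedAddCommGroup X] [NormedSpace ℝ X] [FiniteDimensional ℝ X] {φ : X → E}
    (h1 : ∀ x y, φ (x + y) = φ x + φ y) (h2 : ∀ (r : ℝ) x, φ (r • x) = (r : ℂ) • φ x) {Λ : Type*}
    [NormedAddCommGroup Λ] [NormedSpace ℝ Λ] [FiniteDimensional ℝ Λ] {B : Set Λ} (hB : IsOpen B)
    {h : Λ → X} {h' : Λ → Λ →L[ℝ] X} (hh : ∀ p ∈ B, HasFDerivAt h (h' p) p)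
    (hh' : ∀ p ∈ B, ContinuousAt h' p) (hX : ∀ p ∈ B, Reg (e0 m) (pol (F (φ (h p)))))
    {g : Λ × (Fin m → ℝ) → ℝ} {g' : Λ × (Fin m → ℝ) → (Λ × (Fin m → ℝ)) →L[ℝ] ℝ}
    (hg : ∀ p ∈ B ×ˢ (univ : Set (Fin m → ℝ)), HasFDerivAt g (g' p) p)
    (hg' : ∀ p ∈ B ×ˢ (univ : Set (Fin m → ℝ)), ContinuousAt g' p)
    (hF : ∀ p ∈ B, ∀ x, eval (xC x) (pol (F (φ (h p)))) = (g (p, x) : ℂ))
    {T : Set (Λ × (Fin m → ℝ))} (hT : Piece g T (B ×ˢ univ))
    (hbd : ∀ p ∈ B, ∃ N ∈ 𝓝 p, ∃ C, IsCompact C ∧ ∀ q ∈ T, q.1 ∈ N → q.2 ∈ C) :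
    (famLS (e0 m) a F H ha).Par (fun p => φ (h p)) B
      (fun p => yU a (fun x => g (p, x)) {x | (p, x) ∈ T}) :=
  yU_par H ha ha2 hB (h := fun p => φ (h p)) (h' := fun p => (mkCtR φ h1 h2).comp (h' p))
    (fun p hp => (mkCtR φ h1 h2).hasFDerivAt.comp p (hh p hp))
    (fun p hp => continuousAt_const.clm_comp (hh' p hp)) hX hg hg' hF hT hbd

variable {P : Prm} {I : Set ℝ} {h : ℝ → RTup n l} {T : Set (ℝ × (Fin (n + 1) → ℝ))}

theorem continuousAt_h (hI : IsOpen I) (hh : ContDiffOn ℝ 1 h I) {s : ℝ} (hs : s ∈ I) :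
    ContinuousAt h s := (hh.contDiffAt (hI.mem_nhds hs)).continuousAt

theorem hasFDerivAt_h (hI : IsOpen I) (hh : ContDiffOn ℝ 1 h I) {s : ℝ} (hs : s ∈ I) :
    HasFDerivAt h (fderiv ℝ h s) s :=
  ((hh.contDiffAt (hI.mem_nhds hs)).differentiableAt (by simp)).hasFDerivAt

theorem continuousAt_h' (hI : IsOpen I) (hh : ContDiffOn ℝ 1 h I) {s : ℝ} (hs : s ∈ I) :
    ContinuousAt (fderiv ℝ h) s :=
  (hh.contDiffAt (hI.mem_nhds hs)).continuousAt_fderiv (by simp)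

theorem cyc_Z (H : RFam P I h T) (hs : ∀ s ∈ I, SingF (P.f (tC (h s))) = ∅) :
    (ZLS P n l).Par (fun s : ℝ => tC (h s)) I
      (fun s => yU P.a (fR P.en P.eta (h s)) (fib T s)) := by
  have a3 : ∀ s ∈ I, Reg (e0 (n + 1)) (pol (FZ (n := n) (l := l) P.en P.eta (tC (h s)))) :=
    fun s hs' => (mem_ZLS_X P).mpr (hs s hs')
  have a4 : ∀ p ∈ I ×ˢ (univ : Set (Fin (n + 1) → ℝ)), HasFDerivAt
      (fun p : ℝ × (Fin (n + 1) → ℝ) => fR P.en P.eta (h p.1) p.2)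
      (gD P h (ContinuousLinearMap.fst ℝ ℝ _) (ContinuousLinearMap.snd ℝ ℝ _) p) p :=
    fun p hp => hasFDerivAt_g H.isOpen H.smooth (ContinuousLinearMap.fst ℝ ℝ _)
      (ContinuousLinearMap.snd ℝ ℝ _) hp.1
  have a5 : ∀ p ∈ I ×ˢ (univ : Set (Fin (n + 1) → ℝ)), ContinuousAt
      (gD P h (ContinuousLinearMap.fst ℝ ℝ _) (ContinuousLinearMap.snd ℝ ℝ _)) p :=
    fun p hp => continuousAt_gD H.isOpen H.smooth (ContinuousLinearMap.fst ℝ ℝ _)
      (ContinuousLinearMap.snd ℝ ℝ _) hp.1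
  have a6 : ∀ s ∈ I, ∀ x : Fin (n + 1) → ℝ,
      eval (xC x) (pol (FZ (n := n) (l := l) P.en P.eta (tC (h s)))) =
        ((fR P.en P.eta (h s) x : ℝ) : ℂ) := by
    intro s _ x
    rw [pol_FZ]
    exact eval_fpol_real _ _ _ _
  have a7 : ∀ s ∈ I, ∃ N ∈ 𝓝 s, ∃ C, IsCompact C ∧ ∀ q ∈ T, q.1 ∈ N → q.2 ∈ C := by
    intro s hs
    obtain ⟨ε, hε, R, hR⟩ := H.bdd s hs
    refine ⟨Metric.ball s ε, Metric.ball_mem_nhds s hε, Metric.closedBall 0 R,
      isCompact_closedBall _ _, fun q hq hqs => ?_⟩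
    rw [mem_closedBall_zero_iff]
    exact hR q hq (by rwa [Metric.mem_ball, Real.dist_eq] at hqs)
  exact yU_par' (FZ_ok P) P.irr P.two_lt tC_add tC_smul H.isOpen
    (fun s hs => hasFDerivAt_h H.isOpen H.smooth hs)
    (fun s hs => continuousAt_h' H.isOpen H.smooth hs) a3 a4 a5 a6 H.piece a7

/-- No condition on singular points. -/
theorem cyc_S (H : RFam P I h T) :
    (SLS P n l).Par (fun p : ℝ × ℝ => (tC (h p.1), (p.2 : ℂ)))
      {p | p.1 ∈ I ∧ (p.2 : ℂ) ∉ SigF (P.f (tC (h p.1)))}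
      (fun p => aU P.a (fR P.en P.eta (h p.1)) (fib T p.1) p.2) := by
  set B : Set (ℝ × ℝ) := {p | p.1 ∈ I ∧ (p.2 : ℂ) ∉ SigF (P.f (tC (h p.1)))} with hBdef
  have htc : Continuous (tC : RTup n l → Tup n l) := (mkCtR tC tC_add tC_smul).continuous
  have hcont : ∀ p : ℝ × ℝ, p.1 ∈ I → ContinuousAt (fun p : ℝ × ℝ => (tC (h p.1), (p.2 : ℂ))) p := by
    intro p hp
    have h1 : ContinuousAt (fun s => tC (h s)) p.1 :=
      htc.continuousAt.comp (continuousAt_h H.isOpen H.smooth hp)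
    exact (h1.comp (f := fun p : ℝ × ℝ => p.1) continuousAt_fst).prodMk
      (Complex.continuous_ofReal.continuousAt.comp continuousAt_snd)
  have hB : IsOpen B := by
    rw [isOpen_iff_mem_nhds]
    rintro p ⟨hp1, hp2⟩
    have h1 : (tC (h p.1), (p.2 : ℂ)) ∈ (SLS P n l).X :=
      (mem_SLS_X P (p := (tC (h p.1), (p.2 : ℂ)))).mpr hp2
    filter_upwards [(H.isOpen.preimage continuous_fst).mem_nhds hp1,
      (hcont p hp1) ((SLS P n l).isOpen_X.mem_nhds h1)] with r hr1 hr2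
    have h2 : (tC (h r.1), (r.2 : ℂ)) ∈ (SLS P n l).X := hr2
    have h3 := (mem_SLS_X P).mp h2
    exact ⟨hr1, h3⟩
  -- the linear maps
  let X := (ℝ × ℝ) × (Fin n → ℝ)
  let α : X →L[ℝ] ℝ := (ContinuousLinearMap.fst ℝ ℝ ℝ).comp (ContinuousLinearMap.fst ℝ (ℝ × ℝ) _)
  let β : X →L[ℝ] (Fin (n + 1) → ℝ) := (snocL n).comp ((ContinuousLinearMap.snd ℝ (ℝ × ℝ) _).prod
    ((ContinuousLinearMap.snd ℝ ℝ ℝ).comp (ContinuousLinearMap.fst ℝ (ℝ × ℝ) (Fin n → ℝ))))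
  let φ : X → ℝ × (Fin (n + 1) → ℝ) := fun p => (α p, β p)
  have hφ : Continuous φ := α.continuous.prodMk β.continuous
  have hP : Piece (fun p : X => fR P.en P.eta (h (α p)) (β p)) (φ ⁻¹' T ∩ (B ×ˢ univ)) (B ×ˢ univ) :=
    H.piece.comap hφ (hB.prod isOpen_univ) fun p hp => ⟨hp.1.1, mem_univ _⟩
  have a1 : ∀ p ∈ B, HasFDerivAt (fun p : ℝ × ℝ => (h p.1, p.2))
      (((fderiv ℝ h p.1).comp (ContinuousLinearMap.fst ℝ ℝ ℝ)).prod
        (ContinuousLinearMap.snd ℝ ℝ ℝ)) p := fun p hp =>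
    ((hasFDerivAt_h H.isOpen H.smooth hp.1).comp p hasFDerivAt_fst).prodMk hasFDerivAt_snd
  have a2 : ∀ p ∈ B, ContinuousAt (fun p : ℝ × ℝ =>
      (((fderiv ℝ h p.1).comp (ContinuousLinearMap.fst ℝ ℝ ℝ)).prod
        (ContinuousLinearMap.snd ℝ ℝ ℝ))) p := by
    intro p hp
    have h1 : ContinuousAt (fun p : ℝ × ℝ => fderiv ℝ h p.1) p :=
      (continuousAt_h' H.isOpen H.smooth hp.1).comp (f := fun p : ℝ × ℝ => p.1) continuousAt_fst
    have h2 : ContinuousAt (fun p : ℝ × ℝ => (fderiv ℝ h p.1).comp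
        (ContinuousLinearMap.fst ℝ ℝ ℝ)) p := h1.clm_comp continuousAt_const
    have h6 : Continuous (fun L : ((ℝ × ℝ) →L[ℝ] RTup n l) × ((ℝ × ℝ) →L[ℝ] ℝ) => L.1.prod L.2) :=
      (ContinuousLinearMap.prodₗᵢ ℝ).continuous
    exact h6.continuousAt.comp (h2.prodMk continuousAt_const)
  have a6 : ∀ p ∈ B, ∀ x : Fin n → ℝ,
      eval (xC x) (pol (FS (n := n) (l := l) P.en P.eta (tC (h p.1), (p.2 : ℂ)))) =
        ((fR P.en P.eta (h (α (p, x))) (β (p, x)) : ℝ) : ℂ) := by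
    intro p hp x
    rw [pol_FS]
    exact (eval_slice_shift x p.2 _).trans (eval_fpol_real _ _ _ _)
  have a7 : ∀ p ∈ B, ∃ N ∈ 𝓝 p, ∃ C, IsCompact C ∧
      ∀ q ∈ φ ⁻¹' T ∩ (B ×ˢ univ), q.1 ∈ N → q.2 ∈ C := by
    intro p hp
    obtain ⟨ε, hε, R, hR⟩ := H.bdd p.1 hp.1
    refine ⟨Prod.fst ⁻¹' Metric.ball p.1 ε,
      continuousAt_fst (Metric.ball_mem_nhds p.1 hε), Metric.closedBall 0 R,
      isCompact_closedBall _ _, fun q hq hqs => ?_⟩
    rw [mem_closedBall_zero_iff]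
    have h1 := hR (φ q) hq.1 (by
      have : q.1.1 ∈ Metric.ball p.1 ε := hqs
      rwa [Metric.mem_ball, Real.dist_eq] at this)
    have hR0 : 0 ≤ R := (norm_nonneg _).trans h1
    rw [pi_norm_le_iff_of_nonneg hR0]
    intro i
    have h2 := norm_le_pi_norm (β q) i.castSucc
    have h3 : β q i.castSucc = q.2 i := by
      show (Fin.snoc q.2 q.1.2 : Fin (n + 1) → ℝ) i.castSucc = q.2 i
      simp
    rw [h3] at h2
    exact h2.trans h1
  have h0 : (SLS P n l).Par (fun p : ℝ × ℝ => (tC (h p.1), (p.2 : ℂ))) B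
      (fun p => yU P.a (fun x : Fin n → ℝ => fR P.en P.eta (h (α (p, x))) (β (p, x)))
        {x | (p, x) ∈ φ ⁻¹' T ∩ (B ×ˢ univ)}) := yU_par' (FS_ok P) P.irr P.two_lt
    (φ := fun p : RTup n l × ℝ => (tC p.1, (p.2 : ℂ)))
    (fun x y => by simp [tC_add]) (fun r x => by simp [tC_smul]) hB a1 a2
    (fun p hp => (mem_SLS_X P (p := (tC (h p.1), (p.2 : ℂ)))).mpr hp.2)
    (fun p hp => hasFDerivAt_g H.isOpen H.smooth α β hp.1.1)
    (fun p hp => continuousAt_gD H.isOpen H.smooth α β hp.1.1) a6 hP a7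
  refine LS.Par.congr h0 fun p hp => ?_
  have he : {x : Fin n → ℝ | (p, x) ∈ φ ⁻¹' T ∩ (B ×ˢ univ)} =
      {x : Fin n → ℝ | (Fin.snoc x p.2 : Fin (n + 1) → ℝ) ∈ fib T p.1} := by
    ext x
    exact ⟨fun hx => hx.1, fun hx => ⟨hx, hp, mem_univ _⟩⟩
  show yU P.a _ _ = yU P.a _ _
  rw [he]
  rfl

end Pool.Agent.QC.S4
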